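import Pool.Agent.H64.RO.Col
import Pool.Agent.H43.RO.TypesK

/-!
# The graph of the random adversary is `k`-colourable
-/

set_option autoImplicit false

namespace Pool.Agent.H64.RO

open Finset Pool.Agent.H43.RO

variable {T m L h : ℕ}

theorem exists_levelK {k : ℕ} (hk : 1 ≤ k) (hfam : FamK k (L + 1) (2 * h)) (ω : Om T m L h) :
    ∀ l j : ℕ, j + l = L + 1 → ∃ τ : Fin T → X m L → TyK k j, (∀ u y, OkK k j (τ u y)) ∧
      (∀ u y y', (∀ i : Fin (L + 1), i.val < l → y i = y' i) → τ u y = τ u y') ∧
      ∀ u v x y, Edge ω u v → (∀ i : Fin (L + 1), i.val < l → y i = (qq ω u v + sh x) i) →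
        AdmK k j (τ u y) (τ v x) := by
  classical
  intro l
  induction l with
  | zero =>
    intro j hj
    obtain rfl : j = L + 1 := by omega
    obtain ⟨Y, hY1, hY2⟩ := hfam
    let code : Fin h × Bool → Fin (2 * h) := fun t =>
      ⟨2 * t.1.val + (if t.2 then 1 else 0), by have := t.1.isLt; split_ifs <;> omega⟩
    have hcode : ∀ t t' : Fin h × Bool, code t = code t' → t = t' := by
      rintro ⟨i, b⟩ ⟨i', b'⟩ h0
      have h' : 2 * i.val + (if b then 1 else 0) = 2 * i'.val + (if b' then 1 else 0) :=
        congrArg Fin.val h0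
      cases b <;> cases b' <;> simp at h' ⊢
      · exact Fin.ext h'
      · omega
      · omega
      · exact Fin.ext h'
    refine ⟨fun u _ => Y (code (ty ω u)), fun u y => hY1 _, fun _ _ _ _ => rfl, ?_⟩
    intro u v x y huv _
    refine hY2 _ _ fun hcc => ?_
    have h1 := hcode _ _ hcc
    apply huv.1.2
    rw [h1]
    rfl
  | succ l ih =>
    intro j hj
    obtain ⟨τ, hok, hdep, hadm⟩ := ih (j + 1) (by omega)
    -- the choice
    let pick : TyK k (j + 1) → TyK k (j + 1) → TyK k j := fun A B =>
      if H : ∃ a ∈ (show Set (TyK k j) from A), ∀ b ∈ (show Set (TyK k j) from B), AdmK k j a b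
      then H.choose
      else if H : ∃ a, a ∈ (show Set (TyK k j) from A) then H.choose
      else Classical.choice (by
        clear * - j hk
        induction j with
        | zero => exact ⟨(⟨0, hk⟩ : Fin k)⟩
        | succ j _ => exact ⟨(∅ : Set (TyK k j))⟩)
    have hpick1 : ∀ A B, OkK k (j + 1) A → pick A B ∈ (show Set (TyK k j) from A) := by
      intro A B hA
      show (if H : ∃ a ∈ (show Set (TyK k j) from A), ∀ b ∈ (show Set (TyK k j) from B), AdmK k j a b
        then H.choose
        else if H : ∃ a, a ∈ (show Set (TyK k j) from A) then H.choose else _) ∈ _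
      split_ifs with H1 H2
      · exact H1.choose_spec.1
      · exact H2.choose_spec
      · exact absurd hA.1 H2
    have hpick2 : ∀ A B, AdmK k (j + 1) A B →
        ∀ b ∈ (show Set (TyK k j) from B), AdmK k j (pick A B) b := by
      intro A B hA
      have H : ∃ a ∈ (show Set (TyK k j) from A), ∀ b ∈ (show Set (TyK k j) from B), AdmK k j a b := hA
      show ∀ b ∈ (show Set (TyK k j) from B), AdmK k j
        (if H : ∃ a ∈ (show Set (TyK k j) from A), ∀ b ∈ (show Set (TyK k j) from B), AdmK k j a b
        then H.choose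
        else if H : ∃ a, a ∈ (show Set (TyK k j) from A) then H.choose else _) b
      rw [dif_pos H]
      exact H.choose_spec.2
    let user : Fin T → ZMod m → Option (Fin T) := fun u z =>
      if H : ∃ v, Edge ω u v ∧ qq ω u v 0 = z then some H.choose else none
    have huser : ∀ u v, Edge ω u v → user u (qq ω u v 0) = some v := by
      intro u v huv
      have H : ∃ v', Edge ω u v' ∧ qq ω u v' 0 = qq ω u v 0 := ⟨v, huv, rfl⟩
      show (if H : ∃ v', Edge ω u v' ∧ qq ω u v' 0 = qq ω u v 0 then some H.choose else none) = _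
      rw [dif_pos H]
      congr 1
      exact edge_unique H.choose_spec.1 huv H.choose_spec.2
    let τ' : Fin T → X m L → TyK k j := fun u y =>
      match user u (y 0) with
      | some v => pick (τ u y) (τ v (back (qq ω u v) y))
      | none => pick (τ u y) (τ u y)
    have hmem : ∀ u y, τ' u y ∈ (show Set (TyK k j) from τ u y) := by
      intro u y
      show (match user u (y 0) with
      | some v => pick (τ u y) (τ v (back (qq ω u v) y))
      | none => pick (τ u y) (τ u y)) ∈ _
      cases user u (y 0) with
      | none => exact hpick1 _ _ (hok u y)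
      | some v => exact hpick1 _ _ (hok u y)
    refine ⟨τ', fun u y => (hok u y).2 _ (hmem u y), ?_, ?_⟩
    · intro u y y' hyy
      have h0 : y 0 = y' 0 := hyy 0 (Nat.succ_pos l)
      have h1 : τ u y = τ u y' := hdep u y y' fun i hi => hyy i (by omega)
      show (match user u (y 0) with
      | some v => pick (τ u y) (τ v (back (qq ω u v) y))
      | none => pick (τ u y) (τ u y)) = (match user u (y' 0) with
      | some v => pick (τ u y') (τ v (back (qq ω u v) y'))
      | none => pick (τ u y') (τ u y'))
      rw [h0, h1]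
      cases user u (y' 0) with
      | none => rfl
      | some v =>
        show pick (τ u y') (τ v (back (qq ω u v) y)) = pick (τ u y') (τ v (back (qq ω u v) y'))
        rw [hdep v (back (qq ω u v) y) (back (qq ω u v) y')]
        intro i hi
        unfold back
        split_ifs with hi'
        · rw [hyy ⟨i.val + 1, hi'⟩ (by simpa using hi)]
        · rfl
    · intro u v x y huv hy
      have h0 : y 0 = qq ω u v 0 := by
        have := hy 0 (Nat.succ_pos l)
        rw [this, Pi.add_apply, sh_zero, add_zero]
      have hb : τ v (back (qq ω u v) y) = τ v x := by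
        refine hdep v _ _ fun i hi => ?_
        have hi' : i.val + 1 < L + 1 := by omega
        unfold back
        rw [dif_pos hi', hy ⟨i.val + 1, hi'⟩ (by simpa using hi), Pi.add_apply,
          sh_succ x hi']
        simp
      have h1 : τ' u y = pick (τ u y) (τ v x) := by
        show (match user u (y 0) with
        | some v => pick (τ u y) (τ v (back (qq ω u v) y))
        | none => pick (τ u y) (τ u y)) = _
        rw [h0, huser u v huv]
        show pick (τ u y) (τ v (back (qq ω u v) y)) = _
        rw [hb]
      rw [h1]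
      exact hpick2 _ _ (hadm u v x y huv fun i hi => hy i (by omega)) _ (hmem v x)

theorem OkK_pos {k : ℕ} : ∀ (j : ℕ) (a : TyK k j), OkK k j a → 1 ≤ k
  | 0, a, _ => Nat.one_le_iff_ne_zero.2 fun hk => by
      subst hk
      exact Fin.elim0 (show Fin 0 from a)
  | j + 1, _, hA => by
      obtain ⟨a, ha⟩ := hA.1
      exact OkK_pos j a (hA.2 a ha)

theorem colour_existsK {k : ℕ} (hfam : FamK k (L + 1) (2 * h)) (ω : Om T m L h) :
    ∃ κ : Fin T → X m L → Fin k, ∀ u v x, Nb ω u v → Fresh ω u v →
      κ u (qq ω u v + sh x) ≠ κ v x := by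
  rcases Nat.eq_zero_or_pos T with hT | hT
  · subst hT
    exact ⟨fun u => Fin.elim0 u, fun u => Fin.elim0 u⟩
  have hk : 1 ≤ k := by
    obtain ⟨Y, hY, -⟩ := hfam
    have h0 : 0 < 2 * h := by
      have := (gg ω ⟨0, hT⟩).isLt
      omega
    exact OkK_pos _ _ (hY ⟨0, h0⟩)
  obtain ⟨τ, -, -, h3⟩ := exists_levelK hk hfam ω (L + 1) 0 (by omega)
  exact ⟨τ, fun u v x h1 h2 => h3 u v x _ ⟨h1, h2⟩ fun _ _ => rfl⟩

end Pool.Agent.H64.RO
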