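import Pool.Agent.H43.RO.Def

/-!
# The graph of the random adversary is 3-colourable
-/

set_option autoImplicit false

namespace Pool.Agent.H64.RO

open Finset Pool.Agent.H43.RO
open Pool.Agent.H64.OC2 (Fam Ty Adm Ok)

variable {T m L h : ℕ}

/-- a true edge -/
def Edge (ω : Om T m L h) (u v : Fin T) : Prop := Nb ω u v ∧ Fresh ω u v

theorem edge_unique {ω : Om T m L h} {u v v' : Fin T} (h1 : Edge ω u v) (h2 : Edge ω u v')
    (h3 : qq ω u v 0 = qq ω u v' 0) : v = v' := by
  rcases lt_trichotomy v v' with h4 | h4 | h4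
  · exact absurd h3 (h2.2 v h1.1.1 h4)
  · exact h4
  · exact absurd h3.symm (h1.2 v' h2.1.1 h4)

/-- undo the shift -/
def back (q y : X m L) : X m L := fun i =>
  if hi : i.val + 1 < L + 1 then y ⟨i.val + 1, hi⟩ - q ⟨i.val + 1, hi⟩ else 0

theorem sh_zero (x : X m L) : sh x 0 = 0 := rfl

theorem sh_succ (x : X m L) {i : ℕ} (hi : i + 1 < L + 1) :
    sh x ⟨i + 1, hi⟩ = x ⟨i, by omega⟩ := by
  have : (⟨i + 1, hi⟩ : Fin (L + 1)) = Fin.succ ⟨i, by omega⟩ := rfl
  rw [this]
  unfold sh
  rw [Fin.cons_succ]
  rfl

theorem exists_level (hfam : Fam (L + 1) (2 * h)) (ω : Om T m L h) :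
    ∀ l j : ℕ, j + l = L + 1 → ∃ τ : Fin T → X m L → Ty j, (∀ u y, Ok j (τ u y)) ∧
      (∀ u y y', (∀ i : Fin (L + 1), i.val < l → y i = y' i) → τ u y = τ u y') ∧
      ∀ u v x y, Edge ω u v → (∀ i : Fin (L + 1), i.val < l → y i = (qq ω u v + sh x) i) →
        Adm j (τ u y) (τ v x) := by
  classical
  intro l
  induction l with
  | zero =>
    intro j hj
    obtain rfl : j = L + 1 := by omega
    obtain ⟨Y, hY1, hY2⟩ := hfam
    let code : Fin h × Bool → Fin (2 * h) := fun t =>
      ⟨2 * t.1.val + (if t.2 then 1 else 0), by have := t.1.isLt; split_ifs <;> omega⟩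
    have hcode : ∀ t t' : Fin h × Bool, code t = code t' → t = t' := by
      rintro ⟨i, b⟩ ⟨i', b'⟩ h0
      have h' : 2 * i.val + (if b then 1 else 0) = 2 * i'.val + (if b' then 1 else 0) :=
        congrArg Fin.val h0
      cases b <;> cases b' <;> simp at h' ⊢
      · exact Fin.ext h'
      · omega
      · omega
      · exact Fin.ext h'
    refine ⟨fun u _ => Y (code (ty ω u)), fun u y => hY1 _, fun _ _ _ _ => rfl, ?_⟩
    intro u v x y huv _
    refine hY2 _ _ fun hcc => ?_
    have h1 := hcode _ _ hcc
    apply huv.1.2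
    rw [h1]
    rfl
  | succ l ih =>
    intro j hj
    obtain ⟨τ, hok, hdep, hadm⟩ := ih (j + 1) (by omega)
    -- the choice
    let pick : Ty (j + 1) → Ty (j + 1) → Ty j := fun A B =>
      if H : ∃ a ∈ (show Set (Ty j) from A), ∀ b ∈ (show Set (Ty j) from B), Adm j a b
      then H.choose
      else if H : ∃ a, a ∈ (show Set (Ty j) from A) then H.choose
      else Classical.choice (by
        clear * - j
        induction j with
        | zero => exact ⟨(0 : Fin 3)⟩
        | succ j _ => exact ⟨(∅ : Set (Ty j))⟩)
    have hpick1 : ∀ A B, Ok (j + 1) A → pick A B ∈ (show Set (Ty j) from A) := by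
      intro A B hA
      show (if H : ∃ a ∈ (show Set (Ty j) from A), ∀ b ∈ (show Set (Ty j) from B), Adm j a b
        then H.choose
        else if H : ∃ a, a ∈ (show Set (Ty j) from A) then H.choose else _) ∈ _
      split_ifs with H1 H2
      · exact H1.choose_spec.1
      · exact H2.choose_spec
      · exact absurd hA.1 H2
    have hpick2 : ∀ A B, Adm (j + 1) A B →
        ∀ b ∈ (show Set (Ty j) from B), Adm j (pick A B) b := by
      intro A B hA
      have H : ∃ a ∈ (show Set (Ty j) from A), ∀ b ∈ (show Set (Ty j) from B), Adm j a b := hA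
      show ∀ b ∈ (show Set (Ty j) from B), Adm j
        (if H : ∃ a ∈ (show Set (Ty j) from A), ∀ b ∈ (show Set (Ty j) from B), Adm j a b
        then H.choose
        else if H : ∃ a, a ∈ (show Set (Ty j) from A) then H.choose else _) b
      rw [dif_pos H]
      exact H.choose_spec.2
    let user : Fin T → ZMod m → Option (Fin T) := fun u z =>
      if H : ∃ v, Edge ω u v ∧ qq ω u v 0 = z then some H.choose else none
    have huser : ∀ u v, Edge ω u v → user u (qq ω u v 0) = some v := by
      intro u v huv
      have H : ∃ v', Edge ω u v' ∧ qq ω u v' 0 = qq ω u v 0 := ⟨v, huv, rfl⟩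
      show (if H : ∃ v', Edge ω u v' ∧ qq ω u v' 0 = qq ω u v 0 then some H.choose else none) = _
      rw [dif_pos H]
      congr 1
      exact edge_unique H.choose_spec.1 huv H.choose_spec.2
    let τ' : Fin T → X m L → Ty j := fun u y =>
      match user u (y 0) with
      | some v => pick (τ u y) (τ v (back (qq ω u v) y))
      | none => pick (τ u y) (τ u y)
    have hmem : ∀ u y, τ' u y ∈ (show Set (Ty j) from τ u y) := by
      intro u y
      show (match user u (y 0) with
      | some v => pick (τ u y) (τ v (back (qq ω u v) y))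
      | none => pick (τ u y) (τ u y)) ∈ _
      cases user u (y 0) with
      | none => exact hpick1 _ _ (hok u y)
      | some v => exact hpick1 _ _ (hok u y)
    refine ⟨τ', fun u y => (hok u y).2 _ (hmem u y), ?_, ?_⟩
    · intro u y y' hyy
      have h0 : y 0 = y' 0 := hyy 0 (Nat.succ_pos l)
      have h1 : τ u y = τ u y' := hdep u y y' fun i hi => hyy i (by omega)
      show (match user u (y 0) with
      | some v => pick (τ u y) (τ v (back (qq ω u v) y))
      | none => pick (τ u y) (τ u y)) = (match user u (y' 0) with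
      | some v => pick (τ u y') (τ v (back (qq ω u v) y'))
      | none => pick (τ u y') (τ u y'))
      rw [h0, h1]
      cases user u (y' 0) with
      | none => rfl
      | some v =>
        show pick (τ u y') (τ v (back (qq ω u v) y)) = pick (τ u y') (τ v (back (qq ω u v) y'))
        rw [hdep v (back (qq ω u v) y) (back (qq ω u v) y')]
        intro i hi
        unfold back
        split_ifs with hi'
        · rw [hyy ⟨i.val + 1, hi'⟩ (by simpa using hi)]
        · rfl
    · intro u v x y huv hy
      have h0 : y 0 = qq ω u v 0 := by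
        have := hy 0 (Nat.succ_pos l)
        rw [this, Pi.add_apply, sh_zero, add_zero]
      have hb : τ v (back (qq ω u v) y) = τ v x := by
        refine hdep v _ _ fun i hi => ?_
        have hi' : i.val + 1 < L + 1 := by omega
        unfold back
        rw [dif_pos hi', hy ⟨i.val + 1, hi'⟩ (by simpa using hi), Pi.add_apply,
          sh_succ x hi']
        simp
      have h1 : τ' u y = pick (τ u y) (τ v x) := by
        show (match user u (y 0) with
        | some v => pick (τ u y) (τ v (back (qq ω u v) y))
        | none => pick (τ u y) (τ u y)) = _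
        rw [h0, huser u v huv]
        show pick (τ u y) (τ v (back (qq ω u v) y)) = _
        rw [hb]
      rw [h1]
      exact hpick2 _ _ (hadm u v x y huv fun i hi => hy i (by omega)) _ (hmem v x)

theorem colour_exists (hfam : Fam (L + 1) (2 * h)) (ω : Om T m L h) :
    ∃ κ : Fin T → X m L → Fin 3, ∀ u v x, Nb ω u v → Fresh ω u v →
      κ u (qq ω u v + sh x) ≠ κ v x := by
  obtain ⟨τ, -, -, h3⟩ := exists_level hfam ω (L + 1) 0 (by omega)
  exact ⟨τ, fun u v x h1 h2 => h3 u v x _ ⟨h1, h2⟩ fun _ _ => rfl⟩

end Pool.Agent.H64.RO
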