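import Pool.Agent.H43.RO.Gr
import Pool.Agent.H43.RO.OddDef
import Pool.Agent.H64.RO.Col

/-!
# The graph of the random adversary has large odd girth
-/

set_option autoImplicit false

namespace Pool.Agent.H64.RO

open Finset Pool.Agent.H43.RO

variable {T m L h : ℕ}

/-- the statement of `odd_step` for one type -/
def StepStmt (V : Type) : Prop :=
  ∀ (R R' : V → V → Prop) (par usr : V → V) (rk : V → ℕ), (∀ a b, R a b → rk a < rk b) →
    (∀ s t, R' s t → par t = usr s ∧ R (par s) (usr s)) → ∀ (l : ℕ) (w : ℕ → V),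
    (∀ i < l, R' (w i) (w (i + 1)) ∨ R' (w (i + 1)) (w i)) → w l = w 0 → Odd l →
    ∃ (l' : ℕ) (z : ℕ → V), l' + 2 ≤ l ∧ Odd l' ∧ z l' = z 0 ∧
      ∀ i < l', R (z i) (z (i + 1)) ∨ R (z (i + 1)) (z i)

def extN (x : X m L) : ℕ → ZMod m := fun i => if hi : i < L + 1 then x ⟨i, hi⟩ else 0

def shN (x : ℕ → ZMod m) : ℕ → ZMod m
  | 0 => 0
  | i + 1 => x i

def cutN (j : ℕ) (x : ℕ → ZMod m) : ℕ → ZMod m := fun i => if i < j then x i else 0

/-- the relation of level `j` -/
def RN (ω : Om T m L h) (j : ℕ) (s t : Fin T × (ℕ → ZMod m)) : Prop :=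
  Edge ω s.1 t.1 ∧ ∀ i < j, s.2 i = extN (qq ω s.1 t.1) i + shN t.2 i

open Classical in
/-- the user of the slot of `s` -/
noncomputable def usrN (ω : Om T m L h) (j : ℕ) (s : Fin T × (ℕ → ZMod m)) :
    Fin T × (ℕ → ZMod m) :=
  if H : ∃ v, Edge ω s.1 v ∧ qq ω s.1 v 0 = s.2 0 then
    (H.choose, cutN j fun i => s.2 (i + 1) - extN (qq ω s.1 H.choose) (i + 1))
  else s

theorem extN_zero (x : X m L) : extN x 0 = x 0 := by
  unfold extN
  rw [dif_pos (Nat.succ_pos L)]
  rfl

theorem usrN_eq {ω : Om T m L h} {j : ℕ} {s t : Fin T × (ℕ → ZMod m)} (hst : RN ω (j + 1) s t) :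
    usrN ω j s = (t.1, cutN j t.2) := by
  obtain ⟨h1, h2⟩ := hst
  have h0 : qq ω s.1 t.1 0 = s.2 0 := by
    rw [h2 0 (Nat.succ_pos j), extN_zero]
    show _ = _ + 0
    rw [add_zero]
  have H : ∃ v, Edge ω s.1 v ∧ qq ω s.1 v 0 = s.2 0 := ⟨t.1, h1, h0⟩
  have hc : H.choose = t.1 :=
    edge_unique H.choose_spec.1 h1 (H.choose_spec.2.trans h0.symm)
  unfold usrN
  rw [dif_pos H, hc]
  refine Prod.ext rfl ?_
  funext i
  show cutN j (fun i => s.2 (i + 1) - extN (qq ω s.1 t.1) (i + 1)) i = cutN j t.2 i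
  unfold cutN
  split_ifs with hi
  · show s.2 (i + 1) - extN (qq ω s.1 t.1) (i + 1) = t.2 i
    rw [h2 (i + 1) (by omega)]
    show extN (qq ω s.1 t.1) (i + 1) + t.2 i - extN (qq ω s.1 t.1) (i + 1) = t.2 i
    ring
  · rfl

theorem level_odd (hstep : StepStmt (Fin T × (ℕ → ZMod m))) (ω : Om T m L h) :
    ∀ (j l : ℕ) (w : ℕ → Fin T × (ℕ → ZMod m)), w l = w 0 →
      (∀ i < l, RN ω j (w i) (w (i + 1)) ∨ RN ω j (w (i + 1)) (w i)) → Odd l →
      2 * j + 3 ≤ l := by
  intro j
  induction j with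
  | zero =>
    intro l w hw hadj hodd
    by_contra hlt
    have hl : l = 1 := by
      obtain ⟨r, hr⟩ := hodd
      omega
    subst hl
    rcases hadj 0 (by omega) with h1 | h1
    · have h2 : (w 0).1 < (w 1).1 := h1.1.1.1
      rw [hw] at h2
      exact lt_irrefl _ h2
    · have h2 : (w 1).1 < (w 0).1 := h1.1.1.1
      rw [hw] at h2
      exact lt_irrefl _ h2
  | succ j ih =>
    intro l w hw hadj hodd
    obtain ⟨l', z, hl, hodd', hz, hadj'⟩ := hstep (RN ω j) (RN ω (j + 1))
      (fun s => (s.1, cutN j s.2)) (usrN ω j) (fun s => s.1.val)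
      (fun a b hab => Fin.lt_def.1 hab.1.1.1) (fun s t hst => by
        rw [usrN_eq hst]
        refine ⟨rfl, hst.1, fun i hi => ?_⟩
        show cutN j s.2 i = extN (qq ω s.1 t.1) i + shN (cutN j t.2) i
        have h1 : cutN j s.2 i = s.2 i := by
          unfold cutN
          rw [if_pos hi]
        rw [h1, hst.2 i (by omega)]
        congr 1
        cases i with
        | zero => rfl
        | succ i =>
          show t.2 i = cutN j t.2 i
          unfold cutN
          rw [if_pos (by omega)]) l w hadj hw hodd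
    have := ih l' z hz hadj' hodd'
    omega

variable [NeZero m]

/-- the vertex with the number `i` -/
noncomputable def posN (i : Fin (T * Fintype.card (X m L))) : Fin T × (ℕ → ZMod m) :=
  ((finProdFinEquiv.symm i).1,
    extN ((Fintype.equivFin (X m L)).symm (finProdFinEquiv.symm i).2))

theorem posN_idx (v : Fin T) (x : X m L) : posN (idx v x) = (v, extN x) := by
  unfold posN idx
  rw [Equiv.symm_apply_apply, Equiv.symm_apply_apply]

theorem GG_odd_of (hstep : StepStmt (Fin T × (ℕ → ZMod m))) (ω : Om T m L h) :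
    OddGirthGE (GG ω) (2 * (L + 1) + 3) := by
  have key : ∀ (u v : Fin T) (x : X m L), Nb ω u v → Fresh ω u v →
      RN ω (L + 1) (u, extN (qq ω u v + sh x)) (v, extN x) := by
    intro u v x h1 h2
    refine ⟨⟨h1, h2⟩, fun i hi => ?_⟩
    show extN (qq ω u v + sh x) i = extN (qq ω u v) i + shN (extN x) i
    unfold extN
    rw [dif_pos hi, dif_pos hi, Pi.add_apply]
    congr 1
    cases i with
    | zero => rfl
    | succ i =>
      rw [sh_succ x hi]
      show _ = extN x i
      unfold extN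
      rw [dif_pos (by omega)]
  intro l w hw hadj hodd
  refine level_odd hstep ω (L + 1) l (fun i => posN (w i)) (by simp only [hw]) ?_ hodd
  intro i hi
  obtain ⟨u, v, x, h1, h2, h3⟩ := hadj i hi
  rcases h3 with ⟨h4, h5⟩ | ⟨h4, h5⟩
  · left
    show RN ω (L + 1) (posN (w i)) (posN (w (i + 1)))
    rw [h4, h5, posN_idx, posN_idx]
    exact key u v x h1 h2
  · right
    show RN ω (L + 1) (posN (w (i + 1))) (posN (w i))
    rw [h4, h5, posN_idx, posN_idx]
    exact key u v x h1 h2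

end Pool.Agent.H64.RO
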