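import Pool.Agent.H64.RO.Hcg
import Pool.Agent.H3.FS.ALM

set_option autoImplicit false

/-!
# [H64 RO Alk] Alternating matrices whose kernel is a given line

`Ker e u`: the kernel of `altm e` is `{0, u}`.
* `ker_inv`: the number `N u` of the `e` (vanishing outside `prs r`) with `Ker e u` is the same for all `u ≠ 0`: `e ↦ altm e` is a bijection with the symmetric matrices with zero diagonal (see `alm_card` in `H3/FS/ALM.lean`; the inverse is `M ↦ (p ↦ if p.1 < p.2 then M p.1 p.2 else 0)`).  For `u, u' ≠ 0` there is an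
  invertible `g` with `g u = u'` (extend `u`, `u'` to bases, or: transvections; `Module.Basis`, `exists` of a linear equivalence of a vector space which maps a nonzero vector to another one: `exists_dual`..); `M ↦ (g⁻¹)ᵀ M g⁻¹` maps alternating matrices with kernel `{0, u}` to those
  with kernel `{0, u'}` (zero diagonal: `xᵀ M x = 0` for all `x` for a symmetric `M` with zero diagonal over `ZMod 2`).
* `ker_sum`: `∑ u ≠ 0, N u = #{e | kc e = 2} = 2 ^ (#prs r) alt r 1` (`alt_eq` with `s = 1`): `kc e = 2` iff the kernel is `{0, u}` for a unique `u ≠ 0`.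
* `altk`: `Enm (∃ u, b u ∧ Ker e u) = ∑ u with b u, N u` (the sets are disjoint for different `u ≠ 0`), `(2 ^ r - 1) N u = 2 ^ (#prs r) alt r 1`.
  For `r = 0`: there is no `u ≠ 0`, both sides are `0`.
-/

namespace Pool.Agent.H64.RO

open Pool.Agent.H3.FS (prs altm kc alt)

/-- the kernel is `{0, u}` -/
def Ker {r : ℕ} (e : Fin r × Fin r → ZMod 2) (u : Fin r → ZMod 2) : Prop :=
  ∀ v : Fin r → ZMod 2, (altm e).mulVec v = 0 ↔ v = 0 ∨ v = u

section matrices

open Matrix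

variable {r : ℕ}

/-- symmetric, zero diagonal, kernel `{0, u}` -/
private def AM (u : Fin r → ZMod 2) (M : Matrix (Fin r) (Fin r) (ZMod 2)) : Prop :=
  (∀ i, M i i = 0) ∧ (∀ i j, M i j = M j i) ∧ ∀ v : Fin r → ZMod 2, M.mulVec v = 0 ↔ v = 0 ∨ v = u

private theorem ak_diag (e : Fin r × Fin r → ZMod 2) (i : Fin r) : altm e i i = 0 := by
  unfold altm
  rw [if_neg (lt_irrefl i), if_neg (lt_irrefl i)]

private theorem ak_symm (e : Fin r × Fin r → ZMod 2) (i j : Fin r) : altm e i j = altm e j i := by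
  unfold altm
  rcases lt_trichotomy i j with h | h | h
  · rw [if_pos h, if_neg (lt_asymm h), if_pos h]
  · rw [h]
  · rw [if_neg (lt_asymm h), if_pos h, if_pos h]

private def unk (M : Matrix (Fin r) (Fin r) (ZMod 2)) (p : Fin r × Fin r) : ZMod 2 :=
  if p.1 < p.2 then M p.1 p.2 else 0

private theorem unk_pos (M : Matrix (Fin r) (Fin r) (ZMod 2)) {i j : Fin r} (h : i < j) :
    unk M (i, j) = M i j := if_pos h

private theorem unk_altm (M : Matrix (Fin r) (Fin r) (ZMod 2)) (h1 : ∀ i, M i i = 0)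
    (h2 : ∀ i j, M i j = M j i) : altm (unk M) = M := by
  ext i j
  unfold altm
  rcases lt_trichotomy i j with h | h | h
  · rw [if_pos h, unk_pos M h]
  · subst h
    rw [if_neg (lt_irrefl _), if_neg (lt_irrefl _), h1]
  · rw [if_neg (lt_asymm h), if_pos h, unk_pos M h, h2]

private theorem enm_AM (u : Fin r → ZMod 2) :
    Enm (fun e => Ker e u) = Nat.card {M : Matrix (Fin r) (Fin r) (ZMod 2) // AM u M} := by
  refine Nat.card_congr ⟨fun e => ⟨altm e.1, ak_diag e.1, ak_symm e.1, e.2.2⟩,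
    fun M => ⟨unk M.1, fun p hp => ?_, ?_⟩, ?_, ?_⟩
  · refine if_neg fun h => hp ?_
    exact Finset.mem_filter.2 ⟨Finset.mem_univ _, h⟩
  · intro v
    rw [unk_altm M.1 M.2.1 M.2.2.1]
    exact M.2.2.2 v
  · rintro ⟨e, h1, h2⟩
    apply Subtype.ext
    funext p
    show unk (altm e) p = e p
    by_cases hp : p.1 < p.2
    · have h3 : unk (altm e) p = altm e p.1 p.2 := if_pos hp
      rw [h3]
      unfold altm
      rw [if_pos hp]
    · have h3 : unk (altm e) p = 0 := if_neg hp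
      rw [h3, h1 p (fun h => hp (Finset.mem_filter.1 h).2)]
  · rintro ⟨M, h1, h2, h3⟩
    exact Subtype.ext (unk_altm M h1 h2)

/-- `xᵀ M y = 0` for `x = y` -/
private theorem ak_quad {M : Matrix (Fin r) (Fin r) (ZMod 2)} (h1 : ∀ i, M i i = 0)
    (h2 : ∀ i j, M i j = M j i) (x : Fin r → ZMod 2) : ∑ a, ∑ b, x a * M a b * x b = 0 := by
  rw [← Finset.sum_product']
  refine Finset.sum_involution (fun p _ => (p.2, p.1)) ?_ ?_ ?_ ?_
  · rintro ⟨a, b⟩ _
    show x a * M a b * x b + x b * M b a * x a = 0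
    rw [h2 b a, show x a * M a b * x b + x b * M a b * x a = 2 * (x a * M a b * x b) by ring,
      show (2 : ZMod 2) = 0 from rfl, zero_mul]
  · rintro ⟨a, b⟩ _ h3 h4
    have h5 : b = a := (Prod.mk.inj h4).1
    apply h3
    show x a * M a b * x b = 0
    rw [h5, h1, mul_zero, zero_mul]
  · intro p _
    exact Finset.mem_product.2 ⟨Finset.mem_univ _, Finset.mem_univ _⟩
  · intro p _
    rfl

/-- an involution which maps `u'` to `u` -/
private theorem ak_G {u u' : Fin r → ZMod 2} (hu : u ≠ 0) (hu' : u' ≠ 0) :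
    ∃ G : Matrix (Fin r) (Fin r) (ZMod 2), G * G = 1 ∧ G.mulVec u' = u ∧ G.mulVec u = u' := by
  have h01 : ∀ z : ZMod 2, z ≠ 0 → z = 1 := by decide
  obtain ⟨i, hi⟩ := Function.ne_iff.1 hu
  obtain ⟨j, hj⟩ := Function.ne_iff.1 hu'
  have hi1 : u i = 1 := h01 _ hi
  have hj1 : u' j = 1 := h01 _ hj
  obtain ⟨c, hc, hc'⟩ : ∃ c : Fin r → ZMod 2, c ⬝ᵥ u = 1 ∧ c ⬝ᵥ u' = 1 := by
    by_cases h1 : u' i = 1
    · exact ⟨Pi.single i 1, by simp [hi1], by simp [h1]⟩
    · by_cases h2 : u j = 1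
      · exact ⟨Pi.single j 1, by simp [h2], by simp [hj1]⟩
      · have h3 : u' i = 0 := by
          by_contra h
          exact h1 (h01 _ h)
        have h4 : u j = 0 := by
          by_contra h
          exact h2 (h01 _ h)
        exact ⟨Pi.single i 1 + Pi.single j 1, by simp [add_dotProduct, hi1, h4],
          by simp [add_dotProduct, h3, hj1]⟩
  have hw : c ⬝ᵥ (u + u') = 0 := by
    rw [dotProduct_add, hc, hc']
    rfl
  have hG : ∀ v : Fin r → ZMod 2, (1 + vecMulVec (u + u') c).mulVec v = v + (c ⬝ᵥ v) • (u + u') := by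
    intro v
    rw [add_mulVec, one_mulVec, vecMulVec_mulVec, op_smul_eq_smul]
  have h2 : ∀ v : Fin r → ZMod 2, v + v = 0 := by
    intro v
    funext k
    show v k + v k = 0
    exact CharTwo.add_self_eq_zero (v k)
  refine ⟨1 + vecMulVec (u + u') c, ?_, ?_, ?_⟩
  · apply Matrix.mulVec_injective
    funext v
    rw [← mulVec_mulVec, hG v, hG, dotProduct_add, dotProduct_smul, hw, smul_zero, add_zero,
      add_assoc, h2, add_zero, one_mulVec]
  · rw [hG, hc', one_smul, add_comm u u', ← add_assoc, h2, zero_add]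
  · rw [hG, hc, one_smul, ← add_assoc, h2, zero_add]

private theorem ak_conj {u u' : Fin r → ZMod 2} {G : Matrix (Fin r) (Fin r) (ZMod 2)}
    (hG : G * G = 1) (h1 : G.mulVec u' = u) {M : Matrix (Fin r) (Fin r) (ZMod 2)} (hM : AM u M) :
    AM u' (Gᵀ * M * G) := by
  have hT : Gᵀ * Gᵀ = 1 := by rw [← transpose_mul, hG, transpose_one]
  have hinj : ∀ v, G.mulVec v = 0 → v = 0 := by
    intro v hv
    have h2 : G.mulVec (G.mulVec v) = 0 := by rw [hv, mulVec_zero]
    rwa [mulVec_mulVec, hG, one_mulVec] at h2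
  have hinjT : ∀ v, Gᵀ.mulVec v = 0 → v = 0 := by
    intro v hv
    have h2 : Gᵀ.mulVec (Gᵀ.mulVec v) = 0 := by rw [hv, mulVec_zero]
    rwa [mulVec_mulVec, hT, one_mulVec] at h2
  have happ : ∀ i j, (Gᵀ * M * G) i j = ∑ a, ∑ b, G a i * M a b * G b j := by
    intro i j
    rw [Matrix.mul_apply, Finset.sum_comm]
    refine Finset.sum_congr rfl fun b _ => ?_
    rw [Matrix.mul_apply, Finset.sum_mul]
    rfl
  refine ⟨fun i => ?_, fun i j => ?_, fun v => ?_⟩
  · rw [happ]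
    exact ak_quad hM.1 hM.2.1 (fun a => G a i)
  · rw [happ, happ, Finset.sum_comm]
    refine Finset.sum_congr rfl fun b _ => Finset.sum_congr rfl fun a _ => ?_
    rw [hM.2.1 a b]
    ring
  · rw [← mulVec_mulVec, ← mulVec_mulVec]
    constructor
    · intro h
      rcases (hM.2.2 _).1 (hinjT _ h) with h3 | h3
      · exact Or.inl (hinj v h3)
      · right
        rw [← h1] at h3
        have h4 : G.mulVec (G.mulVec v) = G.mulVec (G.mulVec u') := by rw [h3]
        rwa [mulVec_mulVec, mulVec_mulVec, hG, one_mulVec, one_mulVec] at h4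
    · rintro (h | h)
      · rw [h, mulVec_zero, mulVec_zero, mulVec_zero]
      · rw [h, h1, (hM.2.2 u).2 (Or.inr rfl), mulVec_zero]

end matrices

theorem ker_inv {r : ℕ} {u u' : Fin r → ZMod 2} (hu : u ≠ 0) (hu' : u' ≠ 0) :
    Enm (fun e => Ker e u) = Enm (fun e => Ker e u') := by
  rw [enm_AM, enm_AM]
  obtain ⟨G, hG, h1, h2⟩ := ak_G hu hu'
  have hT : G.transpose * G.transpose = 1 := by
    rw [← Matrix.transpose_mul, hG, Matrix.transpose_one]
  have hid : ∀ M : Matrix (Fin r) (Fin r) (ZMod 2),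
      G.transpose * (G.transpose * M * G) * G = M := by
    intro M
    calc G.transpose * (G.transpose * M * G) * G
        = (G.transpose * G.transpose) * M * (G * G) := by simp only [Matrix.mul_assoc]
      _ = M := by rw [hT, hG, Matrix.one_mul, Matrix.mul_one]
  exact Nat.card_congr ⟨fun M => ⟨_, ak_conj hG h1 M.2⟩, fun M => ⟨_, ak_conj hG h2 M.2⟩,
    fun M => Subtype.ext (hid M.1), fun M => Subtype.ext (hid M.1)⟩

private theorem ak_sum {r : ℕ} (b : (Fin r → ZMod 2) → Prop) (hb : ¬ b 0) :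
    Enm (fun e : Fin r × Fin r → ZMod 2 => ∃ u, b u ∧ Ker e u) =
      Nat.card (Σ u : {u // b u}, {e : Fin r × Fin r → ZMod 2 // (∀ p, p ∉ prs r → e p = 0) ∧ Ker e u.1}) := by
  classical
  unfold Enm
  symm
  refine Nat.card_congr (Equiv.ofBijective
    (fun x => ⟨x.2.1, x.2.2.1, x.1.1, x.1.2, x.2.2.2⟩) ⟨?_, ?_⟩)
  · rintro ⟨⟨u, hu⟩, ⟨e, he⟩⟩ ⟨⟨u', hu'⟩, ⟨e', he'⟩⟩ h
    have h1 : e = e' := congrArg Subtype.val h
    subst h1
    have h2 : u' = u := by
      rcases (he.2 u').1 ((he'.2 u').2 (Or.inr rfl)) with h3 | h3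
      · rw [h3] at hu'
        exact absurd hu' hb
      · exact h3
    subst h2
    rfl
  · rintro ⟨e, h1, u, h2, h3⟩
    exact ⟨⟨⟨u, h2⟩, ⟨e, h1, h3⟩⟩, rfl⟩

private theorem ak_mul {r : ℕ} (b : (Fin r → ZMod 2) → Prop) (hb : ¬ b 0) {u₀ : Fin r → ZMod 2}
    (hu₀ : u₀ ≠ 0) : Enm (fun e : Fin r × Fin r → ZMod 2 => ∃ u, b u ∧ Ker e u) =
      Nat.card {u // b u} * Enm (fun e => Ker e u₀) := by
  classical
  rw [ak_sum b hb, Nat.card_sigma]
  have h1 : ∀ u : {u // b u}, Nat.card {e : Fin r × Fin r → ZMod 2 // (∀ p, p ∉ prs r → e p = 0) ∧ Ker e u.1} =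
      Enm (fun e => Ker e u₀) := fun u => ker_inv (fun h => hb (h ▸ u.2)) hu₀
  rw [Finset.sum_congr rfl fun u _ => h1 u, Finset.sum_const, smul_eq_mul, Finset.card_univ,
    Nat.card_eq_fintype_card]

private theorem ak_two {r : ℕ} (e : Fin r × Fin r → ZMod 2) :
    kc e = 2 ^ 1 ↔ ∃ u, u ≠ 0 ∧ Ker e u := by
  have h0 : (altm e).mulVec 0 = 0 := Matrix.mulVec_zero _
  unfold kc
  rw [pow_one, Nat.card_eq_two_iff' (⟨0, h0⟩ : {x : Fin r → ZMod 2 // (altm e).mulVec x = 0})]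
  constructor
  · rintro ⟨⟨u, hu⟩, hne, huniq⟩
    have hu0 : u ≠ 0 := fun h => hne (Subtype.ext h)
    refine ⟨u, hu0, fun v => ⟨fun hv => ?_, ?_⟩⟩
    · by_cases h : v = 0
      · exact Or.inl h
      · right
        exact congrArg Subtype.val (huniq ⟨v, hv⟩ (fun h1 => h (congrArg Subtype.val h1)))
    · rintro (h | h)
      · rw [h, h0]
      · rw [h, hu]
  · rintro ⟨u, hu, hk⟩
    refine ⟨⟨u, (hk u).2 (Or.inr rfl)⟩, fun h => hu (congrArg Subtype.val h), ?_⟩
    rintro ⟨v, hv⟩ hne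
    apply Subtype.ext
    rcases (hk v).1 hv with h | h
    · exact absurd (Subtype.ext h) hne
    · exact h

theorem ker_sum {r : ℕ} {u : Fin r → ZMod 2} (hu : u ≠ 0) :
    ((2 : ℝ) ^ r - 1) * (Enm (fun e => Ker e u) : ℝ) = 2 ^ (prs r).card * alt r 1 := by
  classical
  have h1 := ak_mul (r := r) (fun u => u ≠ 0) (by simp) hu
  have h2 : Nat.card {u : Fin r → ZMod 2 // u ≠ 0} = 2 ^ r - 1 := by
    rw [Nat.card_eq_fintype_card, Fintype.card_subtype_compl]
    simp
  have h3 := Pool.Agent.H3.FS.alt_eq r 1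
  rw [← h3]
  have h4 : ((Finset.univ.filter fun e : Fin r × Fin r → ZMod 2 =>
      (∀ p, p ∉ prs r → e p = 0) ∧ kc e = 2 ^ 1).card : ℕ) = Enm (fun e : Fin r × Fin r → ZMod 2 => ∃ u, u ≠ 0 ∧ Ker e u) := by
    unfold Enm
    rw [← Fintype.card_subtype, ← Nat.card_eq_fintype_card]
    exact Nat.card_congr (Equiv.subtypeEquivRight fun e => and_congr_right fun _ => ak_two e)
  rw [h4, h1, h2, Nat.cast_mul, Nat.cast_sub Nat.one_le_two_pow]
  push_cast
  ring

theorem altk {r : ℕ} (b : (Fin r → ZMod 2) → Prop) (hb : ¬ b 0) :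
    ((2 : ℝ) ^ r - 1) * (Enm (fun e : Fin r × Fin r → ZMod 2 => ∃ u, b u ∧ Ker e u) : ℝ) =
      (Nat.card {u // b u} : ℝ) * (2 ^ (prs r).card * alt r 1) := by
  by_cases h : ∃ u, b u
  · obtain ⟨u, hu⟩ := h
    have hu0 : u ≠ 0 := fun h => hb (h ▸ hu)
    rw [ak_mul b hb hu0, ← ker_sum hu0, Nat.cast_mul]
    ring
  · have h1 : IsEmpty {u // b u} := ⟨fun u => h ⟨u.1, u.2⟩⟩
    have h2 : Enm (fun e : Fin r × Fin r → ZMod 2 => ∃ u, b u ∧ Ker e u) = 0 := by
      unfold Enm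
      have : IsEmpty {e : Fin r × Fin r → ZMod 2 // (∀ p, p ∉ prs r → e p = 0) ∧ ∃ u, b u ∧ Ker e u} :=
        ⟨fun e => by
          obtain ⟨u, hu, -⟩ := e.2.2
          exact h ⟨u, hu⟩⟩
      exact Nat.card_of_isEmpty
    rw [h2, Nat.card_of_isEmpty, Nat.cast_zero, mul_zero, zero_mul]

end Pool.Agent.H64.RO
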