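import Pool.Agent.H64.OC2.Asymp

/-!
# On-line colouring: numerics for the random adversary
-/

set_option autoImplicit false

namespace Pool.Agent.H64.RO

open Pool.Agent.H64.OC2 (Fam logStar tower fam_logStar lt_logStar_of_tower_lt
  tower_lt_of_lt_logStar two_pow_le_tower)

theorem exists_cube : ∃ s0 : ℕ, ∀ s ≥ s0, 8 * ((s : ℝ) + 8) ^ 3 ≤ 2 ^ s := by
  have h1 : Filter.Tendsto (fun t : ℕ => (t : ℝ) ^ 3 / 2 ^ t) Filter.atTop (nhds 0) :=
    tendsto_pow_const_div_const_pow_of_one_lt 3 (by norm_num)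
  have h2 : ∀ᶠ t : ℕ in Filter.atTop, (t : ℝ) ^ 3 / 2 ^ t < 1 / 64 := by
    refine h1.eventually (gt_mem_nhds ?_)
    positivity
  obtain ⟨t0, ht0⟩ := Filter.eventually_atTop.1 h2
  refine ⟨max t0 8, fun t ht => ?_⟩
  have h3 := ht0 t ((le_max_left _ _).trans ht)
  have h4 : (8 : ℝ) ≤ t := by exact_mod_cast (le_max_right _ _).trans ht
  have h5 : (0 : ℝ) < 2 ^ t := by positivity
  rw [div_lt_div_iff₀ h5 (by positivity), one_mul] at h3
  have h6 : ((t : ℝ) + 8) ^ 3 ≤ (2 * t) ^ 3 :=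
    pow_le_pow_left₀ (by positivity) (by linarith) 3
  have h7 : (2 * (t : ℝ)) ^ 3 = 8 * t ^ 3 := by ring
  rw [h7] at h6
  linarith

/-- the main inequality -/
theorem exists_core : ∃ t0 : ℕ, ∀ n : ℕ, t0 < logStar n →
    3500 * (2 * (Nat.log 2 n : ℝ) + 21) ^ 2 ≤
      (n : ℝ) ^ (1 / (((logStar n : ℝ) + 4) * ((logStar n : ℝ) + 5))) := by
  obtain ⟨s0, hs0⟩ := exists_cube
  refine ⟨s0 + 4, fun n hn => ?_⟩
  obtain ⟨s, hs⟩ : ∃ s, logStar n = s + 3 := ⟨logStar n - 3, by omega⟩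
  have hs1 : s0 ≤ s := by omega
  have h4 : tower (s + 2) < n := tower_lt_of_lt_logStar (by omega)
  have hn1 : (1 : ℝ) ≤ n := by
    have : 1 ≤ n := by omega
    exact_mod_cast this
  have hn0 : (0 : ℝ) < n := by linarith
  set v : ℝ := Real.log n with hv
  set w : ℝ := 2 ^ s * (1 / 2) with hw
  have h2s : (0 : ℝ) < 2 ^ s := by positivity
  have hl2 : Real.log 2 ≤ 0.6931471808 := Real.log_two_lt_d9.le
  have hl20 : 0.6931471803 ≤ Real.log 2 := Real.log_two_gt_d9.le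
  have hwv : w ≤ v := by
    have h6 : (2 : ℝ) ^ (2 ^ s) ≤ n := by
      have h7 : 2 ^ (2 ^ s) ≤ tower (s + 2) := by
        show 2 ^ (2 ^ s) ≤ 2 ^ tower (s + 1)
        exact Nat.pow_le_pow_right (by norm_num) (two_pow_le_tower s)
      exact_mod_cast h7.trans h4.le
    have h7 := Real.log_le_log (by positivity) h6
    rw [Real.log_pow] at h7
    push_cast at h7
    nlinarith
  have hcube := hs0 s hs1
  have hs8 : (8 : ℝ) ≤ (s : ℝ) + 8 := by
    have : (0 : ℝ) ≤ s := by positivity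
    linarith
  set p : ℝ := ((s : ℝ) + 8) ^ 2 with hp
  have hp64 : 64 ≤ p := by rw [hp]; nlinarith
  have hw4 : 4 * (p * ((s : ℝ) + 8)) ≤ w := by
    have : p * ((s : ℝ) + 8) = ((s : ℝ) + 8) ^ 3 := by rw [hp]; ring
    rw [this, hw]
    linarith
  have hw1 : 1 ≤ w := by nlinarith
  have hw0 : 0 < w := by linarith
  have hv1 : 1 ≤ v := hw1.trans hwv
  have hv0 : 0 < v := by linarith
  -- the size of the logarithm in base two
  have hnat : 2 * (Nat.log 2 n : ℝ) ≤ 3 * v := by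
    have h2 : (2 : ℝ) ^ (Nat.log 2 n) ≤ n := by
      have hne : n ≠ 0 := by omega
      exact_mod_cast Nat.pow_log_le_self 2 hne
    have h3 := Real.log_le_log (by positivity) h2
    rw [Real.log_pow] at h3
    have h5 : (0 : ℝ) ≤ Nat.log 2 n := by positivity
    nlinarith
  have hl : 2 * (Nat.log 2 n : ℝ) + 21 ≤ 24 * v := by linarith
  have hl0 : (0 : ℝ) ≤ 2 * (Nat.log 2 n : ℝ) + 21 := by positivity
  have hA : 3500 * (2 * (Nat.log 2 n : ℝ) + 21) ^ 2 ≤ 2 ^ 21 * v ^ 2 := by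
    have : (2 * (Nat.log 2 n : ℝ) + 21) ^ 2 ≤ (24 * v) ^ 2 := pow_le_pow_left₀ hl0 hl 2
    nlinarith [sq_nonneg v]
  refine hA.trans ?_
  have hB : Real.log (2 ^ 21 * v ^ 2) ≤ 15 + 2 * Real.log v := by
    rw [Real.log_mul (by positivity) (by positivity), Real.log_pow, Real.log_pow]
    push_cast
    linarith
  have hlv : Real.log v ≤ Real.log w + (v / w - 1) := by
    have h1 := Real.log_le_sub_one_of_pos (show 0 < v / w by positivity)
    rw [Real.log_div hv0.ne' hw0.ne'] at h1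
    linarith
  have hlw : Real.log w ≤ s := by
    rw [hw, Real.log_mul (by positivity) (by norm_num), Real.log_pow]
    have h1 : Real.log (1 / 2) ≤ 0 := Real.log_nonpos (by norm_num) (by norm_num)
    have h2 : (0 : ℝ) ≤ s := by positivity
    nlinarith
  have hpv : 2 * p * (v / w) ≤ v / 2 := by
    rw [mul_div_assoc', div_le_div_iff₀ hw0 (by norm_num)]
    have h1 : 4 * p ≤ w := by nlinarith
    nlinarith
  have hmain : p * (15 + 2 * Real.log v) ≤ v := by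
    have h1 : p * (15 + 2 * Real.log v) ≤ p * (13 + 2 * s) + 2 * p * (v / w) := by
      have : 15 + 2 * Real.log v ≤ 13 + 2 * s + 2 * (v / w) := by linarith
      calc p * (15 + 2 * Real.log v) ≤ p * (13 + 2 * s + 2 * (v / w)) :=
            mul_le_mul_of_nonneg_left this (by linarith)
        _ = _ := by ring
    have h2 : p * (13 + 2 * s) ≤ v / 2 := by
      have : p * (13 + 2 * s) ≤ 2 * (p * ((s : ℝ) + 8)) := by nlinarith
      linarith
    linarith
  have ht : (logStar n : ℝ) = s + 3 := by rw [hs]; push_cast; ring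
  rw [ht]
  have hq0 : (0 : ℝ) < (s + 3 + 4) * (s + 3 + 5) := by positivity
  have hqp : ((s : ℝ) + 3 + 4) * (s + 3 + 5) ≤ p := by rw [hp]; nlinarith
  rw [← Real.log_le_log_iff (by positivity) (Real.rpow_pos_of_pos hn0 _), Real.log_rpow hn0]
  refine hB.trans ?_
  rw [one_div, ← hv, inv_mul_eq_div, le_div_iff₀ hq0]
  have hC : 0 ≤ 15 + 2 * Real.log v := by
    have := Real.log_nonneg hv1
    linarith
  calc (15 + 2 * Real.log v) * (((s : ℝ) + 3 + 4) * (s + 3 + 5))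
      ≤ (15 + 2 * Real.log v) * p := mul_le_mul_of_nonneg_left hqp hC
    _ = p * (15 + 2 * Real.log v) := by ring
    _ ≤ v := hmain

theorem exp_neg_le_half_pow (k : ℕ) : Real.exp (-(k : ℝ)) ≤ (1 / 2 : ℝ) ^ k := by
  have h1 : Real.exp (-(k : ℝ)) = (Real.exp (-1)) ^ k := by
    rw [← Real.exp_nat_mul]
    congr 1
    ring
  rw [h1]
  refine pow_le_pow_left₀ (Real.exp_pos _).le ?_ k
  rw [Real.exp_neg]
  have h2 : (2 : ℝ) ≤ Real.exp 1 := by
    have := Real.exp_one_gt_d9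
    linarith
  rw [one_div]
  exact inv_anti₀ (by norm_num) h2

theorem asy6 : ∃ n0 : ℕ, ∀ n ≥ n0, ∀ b : ℕ, 1 ≤ b →
    ((b : ℝ) ^ 2 < (n : ℝ) ^ (1 / ((logStar n : ℝ) + 5))) →
    ∃ T L θ K : ℕ, 1 ≤ T ∧ 2 ≤ θ ∧ Fam (L + 1) (2 * (32 * θ)) ∧ T * (16 * T) ^ (L + 1) ≤ n ∧
      Real.exp (-((T : ℝ) / 8)) +
        (T : ℝ) * (K * (((16 * T : ℕ) : ℝ) ^ (L + 1) + 1) * Real.exp (-(θ : ℝ))) ≤
        (1 / 2 : ℝ) ^ (b + 1) ∧
      72 * K * θ ^ 2 < T ∧ 2 * ((n : ℝ) ^ (1 / ((logStar n : ℝ) + 5)) / (b : ℝ) ^ 2) ≤ K := by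
  obtain ⟨t0, ht0⟩ := exists_core
  refine ⟨tower t0 + 1, fun n hn b hb hbx => ?_⟩
  have hcore := ht0 n (lt_logStar_of_tower_lt hn)
  set t : ℕ := logStar n with ht
  have hn1 : (1 : ℝ) ≤ n := by
    have : 1 ≤ n := by omega
    exact_mod_cast this
  have hn0 : (0 : ℝ) < n := by linarith
  set x : ℝ := (n : ℝ) ^ (1 / ((t : ℝ) + 5)) with hx
  set y : ℝ := (n : ℝ) ^ (1 / (((t : ℝ) + 4) * ((t : ℝ) + 5))) with hy
  set z : ℝ := (n : ℝ) ^ (1 / ((t : ℝ) + 4)) with hz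
  have hzxy : z = x * y := by
    rw [hx, hy, hz, ← Real.rpow_add hn0]
    congr 1
    have h1 : (t : ℝ) + 4 ≠ 0 := by positivity
    have h2 : (t : ℝ) + 5 ≠ 0 := by positivity
    field_simp
    ring
  have hx1 : 1 ≤ x := Real.one_le_rpow hn1 (by positivity)
  have hb1 : (1 : ℝ) ≤ b := by exact_mod_cast hb
  set ℓ : ℝ := 2 * (Nat.log 2 n : ℝ) + 21 with hℓ
  have hℓ21 : 21 ≤ ℓ := by
    have : (0 : ℝ) ≤ Nat.log 2 n := by positivity
    rw [hℓ]; linarith
  have hℓ2 : 441 ≤ ℓ ^ 2 := by nlinarith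
  set T : ℕ := ⌊z / 16⌋₊ with hT
  have hz0 : 0 ≤ z / 16 := by positivity
  have hTz : (T : ℝ) ≤ z / 16 := Nat.floor_le hz0
  have hzT : z / 16 < T + 1 := Nat.lt_floor_add_one _
  have hzbig : 3500 * ℓ ^ 2 * x ≤ z := by
    rw [hzxy]
    nlinarith
  have hT1 : 216 * ℓ ^ 2 * x ≤ (T : ℝ) - 1 := by
    have : 441 ≤ ℓ ^ 2 * x := by nlinarith
    nlinarith
  have hTpos : 1 ≤ T := by
    have : (0 : ℝ) < (T : ℝ) - 1 := by nlinarith
    have h2 : (1 : ℝ) < T := by linarith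
    exact_mod_cast h2.le
  set θ : ℕ := 2 * Nat.log 2 n + b + 20 with hθ
  have hθb : (θ : ℝ) ≤ b * ℓ := by
    rw [hθ, hℓ]
    push_cast
    have : (0 : ℝ) ≤ Nat.log 2 n := by positivity
    nlinarith
  have hθ0 : (0 : ℝ) < θ := by
    rw [hθ]
    positivity
  have hθpos : 0 < 72 * θ ^ 2 := by
    have : 0 < θ := by exact_mod_cast hθ0
    positivity
  set K : ℕ := (T - 1) / (72 * θ ^ 2) with hK
  have hK1 : 72 * θ ^ 2 * K ≤ T - 1 := Nat.mul_div_le _ _
  have hK2 : T - 1 < 72 * θ ^ 2 * (K + 1) := Nat.lt_mul_div_succ _ hθpos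
  have hN : (T : ℝ) * (16 * T) ^ (t + 3) ≤ n := by
    have h1 : (16 * (T : ℝ)) ≤ z := by linarith
    have h2 : (16 * (T : ℝ)) ^ (t + 4) ≤ z ^ (t + 4) := pow_le_pow_left₀ (by positivity) h1 _
    have h3 : z ^ (t + 4) = n := by
      rw [hz, ← Real.rpow_natCast, ← Real.rpow_mul hn0.le]
      push_cast
      rw [one_div, inv_mul_cancel₀ (by positivity), Real.rpow_one]
    rw [h3] at h2
    have h4 : (T : ℝ) * (16 * T) ^ (t + 3) ≤ (16 * (T : ℝ)) ^ (t + 4) := by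
      rw [pow_succ (16 * (T : ℝ)) (t + 3), mul_comm]
      refine mul_le_mul_of_nonneg_left ?_ (by positivity)
      have : (0 : ℝ) ≤ T := by positivity
      linarith
    exact h4.trans h2
  have hTn : (T : ℝ) ≤ n := by
    have h1 : (1 : ℝ) ≤ 16 * T := by
      have : (1 : ℝ) ≤ T := by exact_mod_cast hTpos
      linarith
    have h2 : (1 : ℝ) ≤ (16 * T) ^ (t + 3) := one_le_pow₀ h1
    have h3 : (0 : ℝ) ≤ T := by positivity
    nlinarith
  have hKT : (K : ℝ) ≤ T := by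
    have h1 : K ≤ T - 1 := by
      calc K ≤ 72 * θ ^ 2 * K := Nat.le_mul_of_pos_left _ hθpos
        _ ≤ T - 1 := hK1
    have h2 : K ≤ T := by omega
    exact_mod_cast h2
  have hbx' : (b : ℝ) < x := by nlinarith
  refine ⟨T, t + 2, θ, K, hTpos, by omega, ?_, ?_, ?_, ?_, ?_⟩
  · -- the family of types
    have h1 : Fam (t + 3) n := fam_logStar n
    refine h1.mono ?_
    have h2 : ((2 * (32 * θ) : ℕ) : ℝ) ≤ n := by
      push_cast
      have h3 : (64 : ℝ) * (b * ℓ) ≤ 216 * ℓ ^ 2 * x := by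
        have h4 : (b : ℝ) * ℓ ≤ x * ℓ := mul_le_mul_of_nonneg_right hbx'.le (by linarith)
        have h5 : x * ℓ ≤ ℓ ^ 2 * x := by nlinarith
        nlinarith
      linarith
    exact_mod_cast h2
  · have : ((T * (16 * T) ^ (t + 2 + 1) : ℕ) : ℝ) ≤ n := by
      push_cast
      exact hN
    exact_mod_cast this
  · -- the exponential terms
    have hA : Real.exp (-((T : ℝ) / 8)) ≤ (1 / 2 : ℝ) ^ (b + 2) := by
      refine le_trans ?_ (exp_neg_le_half_pow (b + 2))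
      refine Real.exp_le_exp.2 ?_
      push_cast
      have h1 : 95256 * x ≤ T := by nlinarith
      linarith
    have hB : (T : ℝ) * (K * (((16 * T : ℕ) : ℝ) ^ (t + 2 + 1) + 1) * Real.exp (-(θ : ℝ))) ≤
        (1 / 2 : ℝ) ^ (b + 2) := by
      have h1 : (T : ℝ) * (K * (((16 * T : ℕ) : ℝ) ^ (t + 2 + 1) + 1)) ≤ 2 * (n : ℝ) ^ 2 := by
        push_cast
        have h2 : (T : ℝ) * (K * ((16 * (T : ℝ)) ^ (t + 2 + 1) + 1)) =
            K * (T * (16 * T) ^ (t + 3) + T) := by ring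
        rw [h2]
        have h3 : (K : ℝ) ≤ n := hKT.trans hTn
        have h4 : (0 : ℝ) ≤ K := by positivity
        calc (K : ℝ) * (T * (16 * T) ^ (t + 3) + T) ≤ K * (n + n) :=
              mul_le_mul_of_nonneg_left (by linarith) h4
          _ ≤ n * (n + n) := mul_le_mul_of_nonneg_right h3 (by linarith)
          _ = 2 * (n : ℝ) ^ 2 := by ring
      have h2 : Real.exp (-(θ : ℝ)) ≤ (1 / 2 : ℝ) ^ (2 * Nat.log 2 n + b + 20) := by
        have := exp_neg_le_half_pow θ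
        rw [hθ] at this ⊢
        exact this
      have h3 : (n : ℝ) ^ 2 ≤ 4 * 2 ^ (2 * Nat.log 2 n) := by
        have h4 : (n : ℝ) ≤ 2 ^ (Nat.log 2 n + 1) := by
          have := Nat.lt_pow_succ_log_self (b := 2) (by norm_num) n
          simp only [Nat.succ_eq_add_one] at this
          exact_mod_cast this.le
        have h5 : (n : ℝ) ^ 2 ≤ (2 ^ (Nat.log 2 n + 1)) ^ 2 := pow_le_pow_left₀ (by linarith) h4 2
        refine h5.trans (le_of_eq ?_)
        rw [← pow_mul, show (Nat.log 2 n + 1) * 2 = 2 * Nat.log 2 n + 2 by ring, pow_add]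
        ring
      calc (T : ℝ) * (K * (((16 * T : ℕ) : ℝ) ^ (t + 2 + 1) + 1) * Real.exp (-(θ : ℝ)))
          = (T : ℝ) * (K * (((16 * T : ℕ) : ℝ) ^ (t + 2 + 1) + 1)) * Real.exp (-(θ : ℝ)) := by
            ring
        _ ≤ 2 * (n : ℝ) ^ 2 * (1 / 2 : ℝ) ^ (2 * Nat.log 2 n + b + 20) :=
            mul_le_mul h1 h2 (Real.exp_pos _).le (by positivity)
        _ ≤ 2 * (4 * 2 ^ (2 * Nat.log 2 n)) * (1 / 2 : ℝ) ^ (2 * Nat.log 2 n + b + 20) := by
            refine mul_le_mul_of_nonneg_right ?_ (by positivity)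
            linarith
        _ = 8 * (2 ^ (2 * Nat.log 2 n) * (1 / 2 : ℝ) ^ (2 * Nat.log 2 n)) *
            (1 / 2 : ℝ) ^ (b + 20) := by
            rw [show 2 * Nat.log 2 n + b + 20 = 2 * Nat.log 2 n + (b + 20) by ring, pow_add]
            ring
        _ = 8 * (1 / 2 : ℝ) ^ (b + 20) := by
            rw [← mul_pow]
            norm_num
        _ ≤ (1 / 2 : ℝ) ^ (b + 2) := by
            rw [show b + 20 = (b + 2) + 18 by ring, pow_add _ (b + 2) 18]
            have : (0 : ℝ) < (1 / 2 : ℝ) ^ (b + 2) := by positivity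
            norm_num
            linarith
    calc _ ≤ (1 / 2 : ℝ) ^ (b + 2) + (1 / 2 : ℝ) ^ (b + 2) := add_le_add hA hB
      _ = (1 / 2 : ℝ) ^ (b + 1) := by
        rw [show b + 2 = (b + 1) + 1 by ring, pow_succ _ (b + 1)]
        ring
  · have h1 : 72 * K * θ ^ 2 = 72 * θ ^ 2 * K := by ring
    rw [h1]
    omega
  · -- the size of `K`
    have h1 : (T : ℝ) - 1 < 72 * (θ : ℝ) ^ 2 * (K + 1) := by
      have h2 : ((T - 1 : ℕ) : ℝ) < ((72 * θ ^ 2 * (K + 1) : ℕ) : ℝ) := by exact_mod_cast hK2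
      rw [Nat.cast_sub hTpos] at h2
      push_cast at h2
      exact h2
    have h2 : (θ : ℝ) ^ 2 ≤ b ^ 2 * ℓ ^ 2 := by
      rw [← mul_pow]
      exact pow_le_pow_left₀ hθ0.le hθb 2
    have h3 : 216 * ℓ ^ 2 * x < 72 * (b ^ 2 * ℓ ^ 2) * (K + 1) := by
      refine lt_of_le_of_lt hT1 (lt_of_lt_of_le h1 ?_)
      refine mul_le_mul_of_nonneg_right ?_ (by positivity)
      linarith
    have h4 : 3 * x < b ^ 2 * (K + 1) := by
      have h5 : 0 < 72 * ℓ ^ 2 := by positivity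
      have h6 : 72 * ℓ ^ 2 * (3 * x) < 72 * ℓ ^ 2 * (b ^ 2 * (K + 1)) := by
        calc 72 * ℓ ^ 2 * (3 * x) = 216 * ℓ ^ 2 * x := by ring
          _ < 72 * (b ^ 2 * ℓ ^ 2) * (K + 1) := h3
          _ = _ := by ring
      exact lt_of_mul_lt_mul_left h6 h5.le
    have hb2 : (0 : ℝ) < (b : ℝ) ^ 2 := by positivity
    rw [mul_div_assoc', div_le_iff₀ hb2]
    nlinarith

end Pool.Agent.H64.RO
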