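import Pool.Agent.H64.RO.Asy6

/-!
# On-line colouring: numerics for the random adversary, any number `r ≤ log* n + 3` of levels
-/

set_option autoImplicit false

namespace Pool.Agent.H64.RO

open Pool.Agent.H64.OC2 (logStar tower lt_logStar_of_tower_lt)

theorem asy7 : ∃ n0 : ℕ, ∀ n ≥ n0, ∀ r : ℕ, 1 ≤ r → r ≤ logStar n + 3 → ∀ b : ℕ, 1 ≤ b →
    (b : ℝ) ^ 2 < (n : ℝ) ^ (1 / ((r : ℝ) + 2)) →
    ∃ T θ K : ℕ, 1 ≤ T ∧ 2 ≤ θ ∧ 2 * (32 * θ) ≤ n ∧ T * (16 * T) ^ r ≤ n ∧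
      Real.exp (-((T : ℝ) / 8)) +
        (T : ℝ) * (K * (((16 * T : ℕ) : ℝ) ^ r + 1) * Real.exp (-(θ : ℝ))) ≤
        (1 / 2 : ℝ) ^ (b + 1) ∧
      72 * K * θ ^ 2 < T ∧ 2 * ((n : ℝ) ^ (1 / ((r : ℝ) + 2)) / (b : ℝ) ^ 2) ≤ K := by
  obtain ⟨t0, ht0⟩ := exists_core
  refine ⟨tower t0 + 1, fun n hn r hr hrt b hb hbx => ?_⟩
  have hcore0 := ht0 n (lt_logStar_of_tower_lt hn)
  have hn1 : (1 : ℝ) ≤ n := by
    have : 1 ≤ n := by omega
    exact_mod_cast this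
  have hn0 : (0 : ℝ) < n := by linarith
  have hrt' : (r : ℝ) ≤ (logStar n : ℝ) + 3 := by exact_mod_cast hrt
  have hr1 : (1 : ℝ) ≤ r := by exact_mod_cast hr
  set x : ℝ := (n : ℝ) ^ (1 / ((r : ℝ) + 2)) with hx
  set y : ℝ := (n : ℝ) ^ (1 / (((r : ℝ) + 1) * ((r : ℝ) + 2))) with hy
  set z : ℝ := (n : ℝ) ^ (1 / ((r : ℝ) + 1)) with hz
  have hcore : 3500 * (2 * (Nat.log 2 n : ℝ) + 21) ^ 2 ≤ y := by
    refine hcore0.trans (Real.rpow_le_rpow_of_exponent_le hn1 ?_)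
    refine one_div_le_one_div_of_le (by positivity) ?_
    exact mul_le_mul (by linarith) (by linarith) (by positivity) (by positivity)
  have hzxy : z = x * y := by
    rw [hx, hy, hz, ← Real.rpow_add hn0]
    congr 1
    have h1 : (r : ℝ) + 1 ≠ 0 := by positivity
    have h2 : (r : ℝ) + 2 ≠ 0 := by positivity
    field_simp
    ring
  have hx1 : 1 ≤ x := Real.one_le_rpow hn1 (by positivity)
  have hb1 : (1 : ℝ) ≤ b := by exact_mod_cast hb
  set ℓ : ℝ := 2 * (Nat.log 2 n : ℝ) + 21 with hℓ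
  have hℓ21 : 21 ≤ ℓ := by
    have : (0 : ℝ) ≤ Nat.log 2 n := by positivity
    rw [hℓ]; linarith
  have hℓ2 : 441 ≤ ℓ ^ 2 := by nlinarith
  set T : ℕ := ⌊z / 16⌋₊ with hT
  have hz0 : 0 ≤ z / 16 := by positivity
  have hTz : (T : ℝ) ≤ z / 16 := Nat.floor_le hz0
  have hzT : z / 16 < T + 1 := Nat.lt_floor_add_one _
  have hzbig : 3500 * ℓ ^ 2 * x ≤ z := by
    rw [hzxy]
    nlinarith
  have hT1 : 216 * ℓ ^ 2 * x ≤ (T : ℝ) - 1 := by
    have : 441 ≤ ℓ ^ 2 * x := by nlinarith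
    nlinarith
  have hTpos : 1 ≤ T := by
    have : (0 : ℝ) < (T : ℝ) - 1 := by nlinarith
    have h2 : (1 : ℝ) < T := by linarith
    exact_mod_cast h2.le
  set θ : ℕ := 2 * Nat.log 2 n + b + 20 with hθ
  have hθb : (θ : ℝ) ≤ b * ℓ := by
    rw [hθ, hℓ]
    push_cast
    have : (0 : ℝ) ≤ Nat.log 2 n := by positivity
    nlinarith
  have hθ0 : (0 : ℝ) < θ := by
    rw [hθ]
    positivity
  have hθpos : 0 < 72 * θ ^ 2 := by
    have : 0 < θ := by exact_mod_cast hθ0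
    positivity
  set K : ℕ := (T - 1) / (72 * θ ^ 2) with hK
  have hK1 : 72 * θ ^ 2 * K ≤ T - 1 := Nat.mul_div_le _ _
  have hK2 : T - 1 < 72 * θ ^ 2 * (K + 1) := Nat.lt_mul_div_succ _ hθpos
  have hN : (T : ℝ) * (16 * T) ^ r ≤ n := by
    have h1 : (16 * (T : ℝ)) ≤ z := by linarith
    have h2 : (16 * (T : ℝ)) ^ (r + 1) ≤ z ^ (r + 1) := pow_le_pow_left₀ (by positivity) h1 _
    have h3 : z ^ (r + 1) = n := by
      rw [hz, ← Real.rpow_natCast, ← Real.rpow_mul hn0.le]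
      push_cast
      rw [one_div, inv_mul_cancel₀ (by positivity), Real.rpow_one]
    rw [h3] at h2
    have h4 : (T : ℝ) * (16 * T) ^ r ≤ (16 * (T : ℝ)) ^ (r + 1) := by
      rw [pow_succ (16 * (T : ℝ)) r, mul_comm]
      refine mul_le_mul_of_nonneg_left ?_ (by positivity)
      have : (0 : ℝ) ≤ T := by positivity
      linarith
    exact h4.trans h2
  have hTn : (T : ℝ) ≤ n := by
    have h1 : (1 : ℝ) ≤ 16 * T := by
      have : (1 : ℝ) ≤ T := by exact_mod_cast hTpos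
      linarith
    have h2 : (1 : ℝ) ≤ (16 * T) ^ r := one_le_pow₀ h1
    have h3 : (0 : ℝ) ≤ T := by positivity
    nlinarith
  have hKT : (K : ℝ) ≤ T := by
    have h1 : K ≤ T - 1 := by
      calc K ≤ 72 * θ ^ 2 * K := Nat.le_mul_of_pos_left _ hθpos
        _ ≤ T - 1 := hK1
    have h2 : K ≤ T := by omega
    exact_mod_cast h2
  have hbx' : (b : ℝ) < x := by nlinarith
  refine ⟨T, θ, K, hTpos, by omega, ?_, ?_, ?_, ?_, ?_⟩
  · -- the number of types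
    have h2 : ((2 * (32 * θ) : ℕ) : ℝ) ≤ n := by
      push_cast
      have h3 : (64 : ℝ) * (b * ℓ) ≤ 216 * ℓ ^ 2 * x := by
        have h4 : (b : ℝ) * ℓ ≤ x * ℓ := mul_le_mul_of_nonneg_right hbx'.le (by linarith)
        have h5 : x * ℓ ≤ ℓ ^ 2 * x := by nlinarith
        nlinarith
      linarith
    exact_mod_cast h2
  · have : ((T * (16 * T) ^ r : ℕ) : ℝ) ≤ n := by
      push_cast
      exact hN
    exact_mod_cast this
  · -- the exponential terms
    have hA : Real.exp (-((T : ℝ) / 8)) ≤ (1 / 2 : ℝ) ^ (b + 2) := by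
      refine le_trans ?_ (exp_neg_le_half_pow (b + 2))
      refine Real.exp_le_exp.2 ?_
      push_cast
      have h1 : 95256 * x ≤ T := by nlinarith
      linarith
    have hB : (T : ℝ) * (K * (((16 * T : ℕ) : ℝ) ^ r + 1) * Real.exp (-(θ : ℝ))) ≤
        (1 / 2 : ℝ) ^ (b + 2) := by
      have h1 : (T : ℝ) * (K * (((16 * T : ℕ) : ℝ) ^ r + 1)) ≤ 2 * (n : ℝ) ^ 2 := by
        push_cast
        have h2 : (T : ℝ) * (K * ((16 * (T : ℝ)) ^ r + 1)) =
            K * (T * (16 * T) ^ r + T) := by ring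
        rw [h2]
        have h3 : (K : ℝ) ≤ n := hKT.trans hTn
        have h4 : (0 : ℝ) ≤ K := by positivity
        calc (K : ℝ) * (T * (16 * T) ^ r + T) ≤ K * (n + n) :=
              mul_le_mul_of_nonneg_left (by linarith) h4
          _ ≤ n * (n + n) := mul_le_mul_of_nonneg_right h3 (by linarith)
          _ = 2 * (n : ℝ) ^ 2 := by ring
      have h2 : Real.exp (-(θ : ℝ)) ≤ (1 / 2 : ℝ) ^ (2 * Nat.log 2 n + b + 20) := by
        have := exp_neg_le_half_pow θ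
        rw [hθ] at this ⊢
        exact this
      have h3 : (n : ℝ) ^ 2 ≤ 4 * 2 ^ (2 * Nat.log 2 n) := by
        have h4 : (n : ℝ) ≤ 2 ^ (Nat.log 2 n + 1) := by
          have := Nat.lt_pow_succ_log_self (b := 2) (by norm_num) n
          simp only [Nat.succ_eq_add_one] at this
          exact_mod_cast this.le
        have h5 : (n : ℝ) ^ 2 ≤ (2 ^ (Nat.log 2 n + 1)) ^ 2 := pow_le_pow_left₀ (by linarith) h4 2
        refine h5.trans (le_of_eq ?_)
        rw [← pow_mul, show (Nat.log 2 n + 1) * 2 = 2 * Nat.log 2 n + 2 by ring, pow_add]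
        ring
      calc (T : ℝ) * (K * (((16 * T : ℕ) : ℝ) ^ r + 1) * Real.exp (-(θ : ℝ)))
          = (T : ℝ) * (K * (((16 * T : ℕ) : ℝ) ^ r + 1)) * Real.exp (-(θ : ℝ)) := by
            ring
        _ ≤ 2 * (n : ℝ) ^ 2 * (1 / 2 : ℝ) ^ (2 * Nat.log 2 n + b + 20) :=
            mul_le_mul h1 h2 (Real.exp_pos _).le (by positivity)
        _ ≤ 2 * (4 * 2 ^ (2 * Nat.log 2 n)) * (1 / 2 : ℝ) ^ (2 * Nat.log 2 n + b + 20) := by
            refine mul_le_mul_of_nonneg_right ?_ (by positivity)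
            linarith
        _ = 8 * (2 ^ (2 * Nat.log 2 n) * (1 / 2 : ℝ) ^ (2 * Nat.log 2 n)) *
            (1 / 2 : ℝ) ^ (b + 20) := by
            rw [show 2 * Nat.log 2 n + b + 20 = 2 * Nat.log 2 n + (b + 20) by ring, pow_add]
            ring
        _ = 8 * (1 / 2 : ℝ) ^ (b + 20) := by
            rw [← mul_pow]
            norm_num
        _ ≤ (1 / 2 : ℝ) ^ (b + 2) := by
            rw [show b + 20 = (b + 2) + 18 by ring, pow_add _ (b + 2) 18]
            have : (0 : ℝ) < (1 / 2 : ℝ) ^ (b + 2) := by positivity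
            norm_num
            linarith
    calc _ ≤ (1 / 2 : ℝ) ^ (b + 2) + (1 / 2 : ℝ) ^ (b + 2) := add_le_add hA hB
      _ = (1 / 2 : ℝ) ^ (b + 1) := by
        rw [show b + 2 = (b + 1) + 1 by ring, pow_succ _ (b + 1)]
        ring
  · have h1 : 72 * K * θ ^ 2 = 72 * θ ^ 2 * K := by ring
    rw [h1]
    omega
  · -- the size of `K`
    have h1 : (T : ℝ) - 1 < 72 * (θ : ℝ) ^ 2 * (K + 1) := by
      have h2 : ((T - 1 : ℕ) : ℝ) < ((72 * θ ^ 2 * (K + 1) : ℕ) : ℝ) := by exact_mod_cast hK2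
      rw [Nat.cast_sub hTpos] at h2
      push_cast at h2
      exact h2
    have h2 : (θ : ℝ) ^ 2 ≤ b ^ 2 * ℓ ^ 2 := by
      rw [← mul_pow]
      exact pow_le_pow_left₀ hθ0.le hθb 2
    have h3 : 216 * ℓ ^ 2 * x < 72 * (b ^ 2 * ℓ ^ 2) * (K + 1) := by
      refine lt_of_le_of_lt hT1 (lt_of_lt_of_le h1 ?_)
      refine mul_le_mul_of_nonneg_right ?_ (by positivity)
      linarith
    have h4 : 3 * x < b ^ 2 * (K + 1) := by
      have h5 : 0 < 72 * ℓ ^ 2 := by positivity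
      have h6 : 72 * ℓ ^ 2 * (3 * x) < 72 * ℓ ^ 2 * (b ^ 2 * (K + 1)) := by
        calc 72 * ℓ ^ 2 * (3 * x) = 216 * ℓ ^ 2 * x := by ring
          _ < 72 * (b ^ 2 * ℓ ^ 2) * (K + 1) := h3
          _ = _ := by ring
      exact lt_of_mul_lt_mul_left h6 h5.le
    have hb2 : (0 : ℝ) < (b : ℝ) ^ 2 := by positivity
    rw [mul_div_assoc', div_le_iff₀ hb2]
    nlinarith

end Pool.Agent.H64.RO
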