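import Pool.Agent.H64.RO.Defs

set_option autoImplicit false

/-!
# [H64 RO Nrm] The norm of `GKw`

`‖ps _‖ = 1` (`norm_ps`), each of the `card (EE X^(k+1) S)` terms has norm at most `1`.  Compare `PM.norm_GK` (`H94/PM/AVU.lean`).  If `¬ R t` then all terms of `AU` vanish
(`PM.avu_zero`).
-/

namespace Pool.Agent.H64.RO

open Polynomial
open Pool.Agent.H94.PL
open Pool.Agent.H94.PM
open Pool.Agent.H94.PN
open Pool.Agent.H94.PC (Mo Sq Pr pf om Mn mem_Mo mem_Sq mem_Pr mem_pf mem_pf')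

variable {ℓ : ℕ} [hl : Fact ℓ.Prime] {X : Type} [AddCommGroup X] [Module (ZMod ℓ) X] [Fintype X]
  [DecidableEq X] (B : X →ₗ[ZMod ℓ] X →ₗ[ZMod ℓ] ZMod ℓ)
  {F : Type} [Field F] [Finite F] (χ : LChar F ℓ) {Δ : F[X]} (dt : Dat ℓ X (pf Δ))

private theorem n_card {α : Type*} (i1 i2 : Fintype α) :
    @Fintype.card α i1 = @Fintype.card α i2 := by
  rw [Subsingleton.elim i1 i2]

private theorem n_mg {V : Type} [Fintype V] [DecidableEq V] (U : Finset V) {M : Type} [AddCommMonoid M]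
    (τ : {u // u ∈ U} → M) : ∑ u, mgU U τ (fun _ => 0) u = ∑ u, τ u := by
  rw [add_mgU U (fun u => mgU U τ (fun _ => 0) u)]
  simp only [mgU_in, mgU_out, Finset.sum_const_zero, add_zero]

open Classical in
theorem norm_GKw (w : Wg ℓ X (pf Δ)) (hw : ∀ t ε ξ, ‖w.β t ε ξ‖ ≤ 1) (k : ℕ) (R : Tp ℓ (pf Δ) → Prop)
    (τ : (Fin (k + 1) → X) × (Fin (k + 1) → X) → Tp ℓ (pf Δ)) :
    ‖GKw B dt w k R τ‖ ≤ Fintype.card (EE (Fin (k + 1) → X) (pf Δ)) := by
  unfold GKw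
  by_cases hR : R (∑ u, τ u)
  · rw [if_pos hR, norm_mul, norm_ps, one_mul]
    refine (norm_sum_le _ _).trans ?_
    refine (Finset.sum_le_card_nsmul _ _ 1 ?_).trans (le_of_eq ?_)
    · intro ε _
      split_ifs
      · rw [norm_mul, norm_ps, mul_one]
        exact hw _ _ _
      · rw [norm_zero]
        exact zero_le_one
    · rw [nsmul_eq_mul, mul_one]
      exact congrArg (fun n : ℕ => (n : ℝ)) (n_card _ _)
  · rw [if_neg hR, norm_zero]
    exact Nat.cast_nonneg _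

open Classical in
theorem auw_zero (w : Wg ℓ X (pf Δ)) (k : ℕ) (R : Tp ℓ (pf Δ) → Prop)
    (U : Finset ((Fin (k + 1) → X) × (Fin (k + 1) → X))) (t : Tp ℓ (pf Δ)) (h : ¬ R t) :
    AU χ (CDX (Bk B (k + 1))) Δ (GKw B dt w k R) U t = 0 := by
  have h0 : ∀ τ : {u // u ∈ U} → Tp ℓ (pf Δ), ∑ u, τ u = t →
      GKw B dt w k R (mgU U τ fun _ => 0) = 0 := by
    intro τ hτ
    unfold GKw
    rw [if_neg]
    rw [n_mg U τ, hτ]
    exact h
  unfold AU
  rw [Finset.sum_eq_zero, mul_zero]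
  intro τ _
  by_cases h' : ∑ u, τ u = t
  · rw [if_pos h', h0 τ h', zero_mul]
  · rw [if_neg h']

end Pool.Agent.H64.RO
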