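import Pool.Agent.H64.RO.Rep
import Pool.Agent.H40.FS.OUT

set_option autoImplicit false

/-!
# [H64 RO Cel] The hypothesis on the cells for the coherent event

* `cel_cls`: for `P` in the cell: `P` is prime to `D' * dl A` (its degree `m` is larger than those of the prime factors), so `D' * P ∈ Cls (dl A) (D'.natDegree + m)`.
* `cel`: copy of `out_cell` (`H40/FS/OUT.lean`; `hA` from `fam_inj`) with the same data `a = bas x`, `G`, `w`, and `E e = ∃ u, b u ∧ Ker e u`, `b u = ¬ 4 ∣ nu A D' (fun k => ∏ i, up3 (x i) k ^ (u i).val)`.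
  For `P` in the cell `nu A (D' * P) (xv u) = nu A D' (xv u)` (`nu_P`: `ex 2 P (xv u k) = 0` as `P ∤ x i k`: `x i k` is a square modulo `P` and `ex 2 P (up3 (x i) k) = 0`: it is a square in the completion (fourth condition of `cell`: even exponent), `ex_prod`, `ex_pow`).
  `¬ b 0` (`nu_one`).  `Wt (D' P) 2 ^ (#prs r) = Enm E`: `bd_rep`: `card Bd = 4 card {u // b u}` and `altk` (`r = 0`: `card {u // b u} = 0` as the only `u` is `0`; both sides are `0`).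
  `Qe (D' P) ↔ E e`: `ev_rep` in the place of `rad_kc`.
* `out'`: copy of `out`; `D'` is prime to `dl A` as `D' * P₀` is.
-/

namespace Pool.Agent.H64.RO

open Polynomial WithZero
open Pool.Agent.H74.FS
open Pool.Agent.H40.FS
open Pool.Agent.H94.PL (LChar XX DK AK dl Cls)
open Pool.Agent.H94.PM (LU vl IsVln IsSln)
open Pool.Agent.H94.PN (SelC)
open Pool.Agent.H94.PC (pf js mem_pf)
open Pool.Agent.H3.FS (CellD Gd Rt Ind ix prs)
open Pool.Agent.H94.PC (js)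

section
variable {F : Type} [Field F] [Finite F] {A : Fin 3 → F[X]} {D' : F[X]} {m : ℕ} {τ : F[X] → ℝ}

theorem cel_nd (hD : D'.Monic) (hΔ : dl A ≠ 0)
    (hm : ∀ v ∈ pf (D' * dl A), v.natDegree < m) {P : F[X]} (hP : P ∈ CellD (dl A) D' m τ) :
    ¬ P ∣ D' * dl A := by
  intro hd
  have h1 := H94.PC.mem_Pr.1 hP.1
  have h2 := hm P ((mem_pf (mul_ne_zero hD.ne_zero hΔ)).2 ⟨h1.1, h1.2.2, hd⟩)
  rw [h1.2.1] at h2
  exact lt_irrefl _ h2

/-- the hypothesis `dl A ≠ 0` was added (helper90): for `dl A = 0`, `D' = 1` the set `pf` is empty and the conclusion is false -/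
theorem cel_cls (hD : D'.Monic) (hDs : Squarefree D') (hcop : IsCoprime D' (dl A)) (hΔ : dl A ≠ 0)
    (hm : ∀ v ∈ pf (D' * dl A), v.natDegree < m) {P : F[X]} (hP : P ∈ CellD (dl A) D' m τ) :
    D' * P ∈ Cls (dl A) (D'.natDegree + m) := by
  have h1 := H94.PC.mem_Pr.1 hP.1
  have hnd := cel_nd hD hΔ hm hP
  have hPD : IsCoprime P D' :=
    (h1.2.2.coprime_iff_not_dvd).2 fun h => hnd (h.mul_right _)
  have hPΔ : IsCoprime P (dl A) :=
    (h1.2.2.coprime_iff_not_dvd).2 fun h => hnd (h.mul_left _)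
  rw [H94.PL.mem_Cls]
  refine ⟨hD.mul h1.1, ?_, ?_, hcop.mul_left hPΔ⟩
  · rw [hD.natDegree_mul h1.1, h1.2.1]
  · exact (squarefree_mul_iff.2 ⟨hPD.symm.isRelPrime, hDs, h1.2.2.squarefree⟩)

theorem cel_nd' [DecidableEq (RatFunc F)] {P : F[X]} (hP : P.Monic ∧ Irreducible P) {a : F[X]}
    (h : vw (some ⟨P, hP⟩ : Pl F) (pm _ a) = 1) : ¬ P ∣ a := by
  intro hd
  exact (H94.LT.val_A_eq_one_iff (K := RatFunc F) (H94.LT.place P hP.2) a).1 h
    (Ideal.mem_span_singleton.2 hd)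

end

section
variable {F : Type} [Field F] [Finite F] [DecidableEq (RatFunc F)] [DecidableEq (Oc F)]
    [∀ w : Pl F, DecidableEq (Ow F w)] (χ : LChar F 2) {A : Fin 3 → F[X]} {c : F} {D' : F[X]}
    {m : ℕ} {τ : F[X] → ℝ} {d : ℕ}

open Classical in
theorem cel (hq : 2 ∣ Nat.card F - 1) (hc : c ≠ 0) (hF : Fam A d) {C₀ : ℕ}
    (hC : ∀ (x y : Fin 3 → F[X]) (S : Finset (Pl F))
    (n : ℕ), (∀ i, x i ≠ 0) → (∀ i, y i ≠ 0) → ¬ IsSquare (x 0) → ¬ IsSquare (x 1) →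
    ¬ IsSquare (x 0 * x 1) → (∀ w : Pl F, hp χ w (x 0) (y 1) + hp χ w (x 1) (y 0) = 0) →
    (none : Pl F) ∈ S → (∀ w : Pl F, w ∉ S → ∀ k, vw w (pm w (x k)) = 1) →
    (∀ w : Pl F, w ∉ S → ∀ k, vw w (pm w (y k)) = 1) → (∀ k, (x k).natDegree ≤ n) →
    (∀ k, (y k).natDegree ≤ n) →
    ∃ (d g : F[X]) (X Z W : Fin 3 → F[X]), CD ![x 0, x 1] ![y 0, y 1] d X Z W ∧ g ≠ 0 ∧
      (∀ w : Pl F, w ∉ S → vw w (pm w d) = 1 → ev w (pm w (g * (X 0 * X 1 * X 2))) = 0) ∧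
      (∀ w : Pl F, w ∉ S → vw w (pm w d) ≠ 1 → ∃ r : Fin 2 → Kw F w,
        (∀ i, r i ^ 2 = pm w (![x 0, x 1] i)) ∧
        ev w (gle (pm w g) (fun l => pm w (X l)) (fun l => pm w (Z l)) (r 0) (r 1)) = 0) ∧
      g.natDegree ≤ C₀ * (n + 1) ∧
      ∀ l, (X l).natDegree ≤ C₀ * (n + 1) ∧ (Z l).natDegree ≤ C₀ * (n + 1))
    (hDm : D'.Monic) (hDs : Squarefree D') (hcop : IsCoprime D' (dl A))
    (hm1 : 1 ≤ m) (hm : ∀ v ∈ pf (D' * dl A), v.natDegree < m) {r : ℕ} {P₀ : F[X]}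
    (h₀ : P₀ ∈ CellD (dl A) D' m τ)
    (hR : Nat.card (SelC 2 1 c A (D' * P₀)) = 2 ^ (2 + r))
    (hI : H94.FS.Idp 1 c A (D' * P₀) P₀) {h : ℕ} (hh1 : 2 * (D' * dl A).natDegree ≤ h)
    (hh2 : C₀ * (2 * (D' * dl A).natDegree + 1) ≤ h) :
    HCg (dl A) (fun D => Nat.card (SelC 2 1 c A D)) (Qe c A) (Wt c A r)
      (fun D P => H94.FS.Idp 1 c A D P) r h D' m τ := by
  have hA := fam_inj hF
  have hD : D' ≠ 0 := hDm.ne_zero
  obtain ⟨x, hxs, hxd, hind, hhp, hcell⟩ := cell χ hq hc hA hD hm h₀ hR hI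
  obtain ⟨S, h0, h1⟩ := sb_ex hA hD
  have hsln : ∀ i, ∀ P ∈ CellD (dl A) D' m τ, IsSln 2 1 c A (D' * P) (up3 (x i)) :=
    fun i P h => (hcell P h).2.2.1 i
  have hsq : ∀ (i : Fin r) (P : F[X]) (h : P ∈ CellD (dl A) D' m τ) (k : Fin 3),
      IsSquare (iw (some ⟨P, cell_mem h⟩ : Pl F) (up3 (x i) k)) :=
    fun i P h k => (hcell P h).2.2.2.1 i k
  have hx0 : ∀ i k, x i k ≠ 0 := by
    intro i k hk
    refine (hsln i P₀ h₀).ne k ?_
    show algebraMap F[X] (RatFunc F) (x i k) = 0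
    rw [hk, map_zero]
  have hun : ∀ (i : Fin r) (w : Pl F), w ∉ S → ∀ k, vw w (pm w (x i k)) = 1 := by
    intro i w hw k
    have hSU : SU A D' (some ⟨P₀, cell_mem h₀⟩) (some ⟨P₀, cell_mem h₀⟩) S
        (insert (some ⟨P₀, cell_mem h₀⟩) S) (insert (some ⟨P₀, cell_mem h₀⟩) S) := by
      refine ⟨h0, h1, fun w => ?_, fun w => ?_⟩
      · rw [Finset.mem_insert, or_comm]
      · rw [Finset.mem_insert, or_comm]
    exact cmp_unit hq hc hA hD hSU (bad_ins h0 h1 (cell_mem h₀)) (cell_mem h₀).1.ne_zero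
      (hxs i) (hsln i P₀ h₀) (hsq i P₀ h₀) hw k
  have hns0 : ∀ i, ¬ IsSquare (x i 0) := by
    rintro i ⟨g, hg⟩
    refine hind {ix i 0} (Finset.singleton_nonempty _) 1 g ?_
    rw [Finset.prod_singleton, bas_0, hg, C_1]
    ring
  have hns1 : ∀ i, ¬ IsSquare (x i 1) := by
    rintro i ⟨g, hg⟩
    refine hind {ix i 1} (Finset.singleton_nonempty _) 1 g ?_
    rw [Finset.prod_singleton, bas_1, hg, C_1]
    ring
  have hns2 : ∀ i, ¬ IsSquare (x i 0 * x i 1) := by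
    rintro i ⟨g, hg⟩
    refine hind {ix i 0, ix i 1} (Finset.insert_nonempty _ _) 1 g ?_
    have hne : ix i 0 ≠ ix i 1 := by
      intro he
      have h3 : ((i, 0) : Fin r × Fin 2) = (i, 1) := finProdFinEquiv.injective he
      exact absurd (Prod.mk.inj h3).2 (by decide)
    rw [Finset.prod_pair hne, bas_0, bas_1, hg, C_1]
    ring
  have key := fun p : Fin r × Fin r => hC (x p.1) (x p.2) S (2 * (D' * dl A).natDegree)
    (hx0 p.1) (hx0 p.2) (hns0 p.1) (hns1 p.1) (hns2 p.1) (fun w => hhp p.1 p.2 w) h0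
    (hun p.1) (hun p.2) (hxd p.1) (hxd p.2)
  choose d g X Z W hCD hg hg1 hg2 hgd hXd using key
  let G : ∀ p : Fin r × Fin r, p ∈ prs r → Gd (bas x) p.1 p.2 := fun p _ =>
    { g := g p
      c := d p
      X := X p
      Z := Z p
      W := W p
      g0 := hg p
      c0 := (hCD p).c0
      X0 := (hCD p).X0
      W0 := (hCD p).W0
      e0 := by
        rw [bas_0, bas_1]
        exact (hCD p).e0
      e1 := by
        rw [bas_0, bas_1]
        exact (hCD p).e1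
      e2 := by
        rw [bas_0, bas_1]
        exact (hCD p).e2 }
  have hGe : ∀ (p : Fin r × Fin r) (hp : p ∈ prs r) (ρ : Fin (r * 2) → F[X]),
      MvPolynomial.eval ρ (G p hp).el = gle (g p) (X p) (Z p) (ρ (ix p.1 0)) (ρ (ix p.1 1)) :=
    fun p hp ρ => el_eval (G p hp) ρ
  have hDG : ∀ p hp, (G p hp).Dg h := by
    intro p hp
    exact ⟨(hgd p).trans hh2, fun l => ⟨((hXd p l).1).trans hh2, ((hXd p l).2).trans hh2⟩⟩
  have hl : ∀ (P : F[X]) (hP : P ∈ CellD (dl A) D' m τ) (i : Fin r),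
      ∃ a : GF F → Pt (eD c A (D' * P)) (Oc F),
        GLf (insert (some ⟨P, cell_mem hP⟩) S) c A (D' * P) (up3 (x i)) a := by
    intro P hP i
    obtain ⟨a, ha, -⟩ := alt_ex χ hq hc hA (mul_ne_zero hD (cell_mem hP).1.ne_zero)
      (bad_ins h0 h1 (cell_mem hP)) (hsln i P hP)
    exact ⟨a, ha⟩
  choose aa haa using hl
  have hrt : ∀ (P : F[X]) (hP : P ∈ CellD (dl A) D' m τ), ∃ ρ, ρ ∈ Rt m P (bas x) := by
    intro P hP
    refine rt_ex (cell_mem hP).1 (H94.PC.mem_Pr.1 hP.1).2.1 hm1 fun j => ?_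
    exact (hcell P hP).2.2.2.2.1 _ _
  have hroots : ∀ P ∈ CellD (dl A) D' m τ, ∀ j, ∃ ρ, P ∣ ρ ^ 2 - bas x j :=
    fun P hP j => (hcell P hP).2.2.2.2.1 _ _
  have hconst : ∀ P ∈ CellD (dl A) D' m τ, Nat.card (SelC 2 1 c A (D' * P)) = 2 ^ (2 + r) ∧
      H94.FS.Idp 1 c A (D' * P) P := fun P hP => ⟨(hcell P hP).1, (hcell P hP).2.1⟩
  have hdeg : ∀ i, (bas x i).natDegree ≤ h := fun i => (hxd _ _).trans hh1
  have hΔ : dl A ≠ 0 := hF.sqf.ne_zero
  obtain ⟨b, hbd⟩ : ∃ b : (Fin r → ZMod 2) → Prop, b = fun u =>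
    ¬ 4 ∣ nu A D' (fun k => ∏ i, up3 (x i) k ^ (u i).val) := ⟨_, rfl⟩
  have hup : ∀ i k, up3 (x i) k ≠ 0 := fun i k => (hsln i P₀ h₀).ne k
  have hexP : ∀ P ∈ CellD (dl A) D' m τ, ∀ i k, H94.PL.ex 2 P (up3 (x i) k) = 0 := by
    intro P hP i k
    have hPS : (some ⟨P, cell_mem hP⟩ : Pl F) ∉ S := fun h =>
      cel_nd hDm hΔ hm hP ((h1 P (cell_mem hP)).1 h)
    have h5 := cel_nd' (cell_mem hP) (hun i _ hPS k)
    show H94.PL.ex 2 P (algebraMap F[X] (RatFunc F) (x i k)) = 0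
    rw [H94.PL.ex_poly (cell_mem hP).2 (hx0 i k), multiplicity_eq_zero.2 h5, Nat.cast_zero]
  have hbP : ∀ P ∈ CellD (dl A) D' m τ, ∀ u, b u ↔
      ¬ 4 ∣ nu A (D' * P) (fun k => ∏ i, up3 (x i) k ^ (u i).val) := by
    intro P hP u
    rw [hbd, nu_P hDm.ne_zero (cell_mem hP).1 (cell_mem hP).2 (fun k => ?_)]
    rw [H94.PL.ex_prod (cell_mem hP).2 _ _ (fun i _ => pow_ne_zero _ (hup i k))]
    refine Finset.sum_eq_zero fun i _ => ?_
    rw [H94.PL.ex_pow (cell_mem hP).2 (hup i k), hexP P hP i k, mul_zero]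
  have hb0 : ¬ b 0 := by
    rw [hbd]
    have h5 : (fun k => ∏ i, up3 (x i) k ^ ((0 : Fin r → ZMod 2) i).val) = fun _ => 1 := by
      funext k
      refine Finset.prod_eq_one fun i _ => ?_
      rw [Pi.zero_apply, ZMod.val_zero, pow_zero]
    beta_reduce
    rw [h5, nu_one]
    exact not_not.2 (dvd_zero 4)
  have hWt : ∀ P ∈ CellD (dl A) D' m τ, Wt c A r (D' * P) * 2 ^ (prs r).card =
      (Enm (fun e : Fin r × Fin r → ZMod 2 => ∃ u, b u ∧ Ker e u) : ℝ) := by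
    intro P hP
    have h5 := bd_rep hq hc hF (cel_cls hDm hDs hcop hΔ hm hP) (fun i => hsln i P hP)
      (hcell P hP).2.2.2.2.2
    have h6 : Nat.card {u : Fin r → ZMod 2 //
        ¬ 4 ∣ nu A (D' * P) (fun k => ∏ i, up3 (x i) k ^ (u i).val)} = Nat.card {u // b u} :=
      Nat.card_congr (Equiv.subtypeEquivRight fun u => (hbP P hP u).symm)
    rw [h6] at h5
    have h7 := altk b hb0
    unfold Wt
    rw [h5]
    rcases Nat.eq_zero_or_pos r with hr | hr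
    · subst hr
      have h8 : Enm (fun e : Fin 0 × Fin 0 → ZMod 2 => ∃ u, b u ∧ Ker e u) = 0 := by
        unfold Enm
        rw [Nat.card_eq_zero]
        left
        refine ⟨fun e => ?_⟩
        obtain ⟨-, u, hu, -⟩ := e.2
        exact hb0 (Subsingleton.elim u 0 ▸ hu)
      rw [h8]
      norm_num
    · have h9 : (2 : ℝ) ^ r - 1 ≠ 0 := by
        have : (1 : ℝ) < 2 ^ r := one_lt_pow₀ (by norm_num) hr.ne'
        linarith
      have h10 : (Enm (fun e : Fin r × Fin r → ZMod 2 => ∃ u, b u ∧ Ker e u) : ℝ) =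
          (Nat.card {u // b u} : ℝ) * (2 ^ (prs r).card * H3.FS.alt r 1) / ((2 : ℝ) ^ r - 1) := by
        rw [eq_div_iff h9, ← h7]
        ring
      rw [h10]
      push_cast
      field_simp
  by_cases H : ∃ (P₁ : F[X]) (_ : P₁ ∈ CellD (dl A) D' m τ), ∀ (p : Fin r × Fin r)
      (hp : p ∈ prs r), ∀ ρ ∈ Rt m P₁ (bas x), js (MvPolynomial.eval ρ (G p hp).el) P₁ ≠ 0
  · obtain ⟨P₁, h₁, H⟩ := H
    obtain ⟨ρ₁, hρ₁⟩ := hrt P₁ h₁
    refine ⟨hconst, bas x, G, fun p => if hp : p ∈ prs r then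
      H94.PC.sg (fr χ (insert (some ⟨P₁, cell_mem h₁⟩) S) (aa P₁ h₁ p.1) (up3 (x p.2))) *
        js (MvPolynomial.eval ρ₁ (G p hp).el) P₁ else 1, fun e => ∃ u, b u ∧ Ker e u,
      hind, hdeg, hDG, ?_, hroots, hWt, ?_⟩
    · intro p
      beta_reduce
      by_cases hp : p ∈ prs r
      · rw [dif_pos hp]
        rcases H94.PC.sg_cases (fr χ (insert (some ⟨P₁, cell_mem h₁⟩) S) (aa P₁ h₁ p.1)
          (up3 (x p.2))) with h5 | h5 <;>
        rcases js_pm (cell_mem h₁) (H p hp ρ₁ hρ₁) with h6 | h6 <;> rw [h5, h6] <;> norm_num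
      · rw [dif_neg hp]
        exact Or.inl rfl
    · intro P hP hnv e he
      refine (ev_rep (e := e) χ hq hc hF (cel_cls hDm hDs hcop hΔ hm hP)
        (bad_ins h0 h1 (cell_mem hP)) (fun i => hsln i P hP) (hcell P hP).2.2.2.2.2
        (fun i => haa P hP i) ?_).trans ?_
      swap
      · exact exists_congr fun u => and_congr_left fun _ => (hbP P hP u).symm
      intro i j hij
      have hp : (i, j) ∈ prs r := by
        rw [prs, Finset.mem_filter]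
        exact ⟨Finset.mem_univ _, hij⟩
      apply H94.PC.sg_inj
      by_cases hPP : P = P₁
      · subst hPP
        have h5 := he (i, j) hp ρ₁ hρ₁
        beta_reduce at h5
        rw [dif_pos hp] at h5
        rw [h5]
        rcases js_pm (cell_mem h₁) (H (i, j) hp ρ₁ hρ₁) with h6 | h6 <;> rw [h6] <;> ring
      · obtain ⟨ρ, hρ⟩ := hrt P hP
        have h5 := he (i, j) hp ρ hρ
        beta_reduce at h5
        rw [dif_pos hp, hGe (i, j) hp ρ₁, hGe (i, j) hp ρ] at h5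
        rw [h5]
        have hn := js_ndvd (cell_mem hP) (hnv (i, j) hp ρ hρ)
        have hn₁ := js_ndvd (cell_mem h₁) (H (i, j) hp ρ₁ hρ₁)
        rw [hGe (i, j) hp ρ] at hn
        rw [hGe (i, j) hp ρ₁] at hn₁
        refine sgj (H94.PC.sg_mul_self _) ?_
        have hr : ∀ {Q : F[X]} {s : Fin (r * 2) → F[X]}, s ∈ Rt m Q (bas x) →
            ∀ k : Fin 2, Q ∣ ![s (ix i 0), s (ix i 1)] k ^ 2 - ![x i 0, x i 1] k := by
          intro Q s hs k
          fin_cases k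
          · have := hs.2 (ix i 0)
            rw [bas_0] at this
            exact this
          · have := hs.2 (ix i 1)
            rw [bas_1] at this
            exact this
        exact cmp2 χ hq hc hA hD hm h0 h1 (hxs i) (hxs j) (hsln i) (hsln j) (hsq i) (hsq j)
          (hCD (i, j)) (hg (i, j)) (hg1 (i, j)) (hg2 (i, j)) hP h₁ hPP (haa P hP i)
          (haa P₁ h₁ i) (ρ := ![ρ (ix i 0), ρ (ix i 1)]) (ρ₁ := ![ρ₁ (ix i 0), ρ₁ (ix i 1)])
          (hr hρ) (hr hρ₁) hn hn₁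
  · refine ⟨hconst, bas x, G, fun _ => 1, fun e => ∃ u, b u ∧ Ker e u, hind, hdeg, hDG,
      fun _ => Or.inl rfl, hroots, hWt, ?_⟩
    intro P hP hnv
    exact absurd ⟨P, hP, hnv⟩ H

end

theorem out' (F : Type) [Field F] [Finite F] [DecidableEq (RatFunc F)] [DecidableEq (Oc F)]
    [∀ w : Pl F, DecidableEq (Ow F w)] (h2 : (2 : F) ≠ 0) {A : Fin 3 → F[X]} {d : ℕ}
    (hF : Fam A d) (c : F) (hc : c ≠ 0) (r : ℕ) :
    Hyg (dl A) (fun D => IsCoprime D (dl A)) (fun D => Nat.card (SelC 2 1 c A D)) (Qe c A)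
      (Wt c A r) (fun D P => H94.FS.Idp 1 c A D P) r := by
  have hq := H3.FS.fin_q (F := F) h2
  obtain ⟨χ⟩ := H94.PL.exists_LChar F Nat.prime_two hq
  obtain ⟨C₀, hC₀⟩ := ou_gd χ hq
  refine ⟨2 * ((dl A).natDegree + 1) + C₀ * (2 * ((dl A).natDegree + 1) + 1) + 1, ?_⟩
  intro D' m τ hDm hDs hm1 hm P₀ h₀ hT hR hI
  have hcop : IsCoprime D' (dl A) := IsCoprime.of_mul_left_left hT
  obtain ⟨δ, hδ⟩ : ∃ δ, δ = (dl A).natDegree := ⟨_, rfl⟩
  obtain ⟨n, hn⟩ : ∃ n, n = D'.natDegree + m + 1 := ⟨_, rfl⟩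
  have h1 : (D' * dl A).natDegree ≤ (δ + 1) * n := by
    refine natDegree_mul_le.trans ?_
    rw [← hδ]
    have : D'.natDegree ≤ n := by omega
    have h3 : 1 ≤ n := by omega
    nlinarith
  have hn1 : 1 ≤ n := by omega
  rw [← hδ, ← hn]
  obtain ⟨C, hC⟩ : ∃ C, C = 2 * (δ + 1) + C₀ * (2 * (δ + 1) + 1) + 1 := ⟨_, rfl⟩
  rw [← hC]
  have h3 : C * n ≤ C * n ^ C := by
    refine Nat.mul_le_mul_left _ ?_
    refine Nat.le_self_pow ?_ n
    omega
  refine cel χ hq hc hF hC₀ hDm hDs hcop hm1 hm h₀ hR hI (le_trans ?_ h3) (le_trans ?_ h3)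
  · calc 2 * (D' * dl A).natDegree ≤ 2 * ((δ + 1) * n) := Nat.mul_le_mul_left _ h1
      _ = 2 * (δ + 1) * n := by ring
      _ ≤ C * n := Nat.mul_le_mul_right _ (by omega)
  · calc C₀ * (2 * (D' * dl A).natDegree + 1) ≤ C₀ * (2 * ((δ + 1) * n) + n) := by
          refine Nat.mul_le_mul_left _ ?_
          omega
      _ = C₀ * (2 * (δ + 1) + 1) * n := by ring
      _ ≤ C * n := Nat.mul_le_mul_right _ (by omega)

end Pool.Agent.H64.RO
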