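import Pool.Agent.H64.RO.Fml
import Pool.Agent.H94.PN.TK2

set_option autoImplicit false

/-!
# [H64 RO Chj] The character `j = 2`

`β t ε ξ = I^(2 nb) = (-1)^(h ε)`, `h ε = ∑ v, deg v * (ε.2 v).1 (ed v)` in `ZMod 2` (linear in `ε`; the term `2 [..]` of `nb` gives `I^4 = 1`).  Let `v₀` be a prime of `dl A` of odd degree, `k₀` the other index (`fam_one`), `σ = ep (ed v₀) l` with `l` the
third index, so `σ (ed v₀) + σ k₀ = 1`.  `zσ = (-bet σ, -L_v σ; t ⊗ σ) ∈ W t` (`TOK.tor`), so `g = locv v₀ zσ ∈ Wl v₀ (cls ..)` and `g.1 (ed v₀) = 1` (`fam_L`).  There is `z' ∈ W t = WC ..` with `locv v₀ z' = g`, `locv v z' = 0` for `v ≠ v₀` and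
`loci z' = 0`: `z'.1.1 = 0`, `z'.1.2 v₀ = g.1`, `z'.1.2 v = 0` for `v ≠ v₀`, `z'.2.1 = - deg v₀ • g.1`, and `z'.2.2 v` from the second component of `locv` (`mem_WC`).  `h z'.1 = deg v₀ * 1 = 1`.  So the sum over `W t` of the nontrivial
character is `0` (`z ↦ z + z'` is a bijection of `W t`).
-/

namespace Pool.Agent.H64.RO

open Polynomial
open Pool.Agent.H94.PL
open Pool.Agent.H94.PM
open Pool.Agent.H94.PN
open Pool.Agent.H94.PC (Mo Sq Pr pf om Mn mem_Mo mem_Sq mem_Pr mem_pf mem_pf')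

variable {F : Type} [Field F] [Finite F] (χ : LChar F 2) {A : Fin 3 → F[X]} {d : ℕ} (c : F)
  (Wl : pf (dl A) → ZMod 2 → Submodule (ZMod 2) (XX 3 2 × XX 3 2))
  (Wi : ZMod 2 → Submodule (ZMod 2) (XX 3 2 × XX 3 2))

/-- the linear function whose parity gives the character -/
noncomputable def hh (A : Fin 3 → F[X]) (z : EE (XX 3 2) (pf (dl A)) × EE (XX 3 2) (pf (dl A))) :
    ZMod 2 :=
  ∑ v : pf (dl A), (v.1.natDegree : ZMod 2) * (z.1.2 v).1 (ed A v.1)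

theorem hh_add (z w : EE (XX 3 2) (pf (dl A)) × EE (XX 3 2) (pf (dl A))) :
    hh A (z + w) = hh A z + hh A w := by
  unfold hh
  rw [← Finset.sum_add_distrib]
  refine Finset.sum_congr rfl fun v _ => ?_
  rw [← mul_add]
  rfl

theorem nb_cast (z : EE (XX 3 2) (pf (dl A)) × EE (XX 3 2) (pf (dl A))) :
    ((nb A z.1 z.2 : ℕ) : ZMod 2) = hh A z := by
  unfold nb hh
  have h2 : ((2 : ℕ) : ZMod 2) = 0 := by decide
  rw [Nat.cast_add, Nat.cast_mul, h2, zero_mul, zero_add, Nat.cast_sum]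
  refine Finset.sum_congr rfl fun v _ => ?_
  have h : ∀ x : ZMod 2, x = 0 ∨ x = 1 := by decide
  rcases h ((z.1.2 v).1 (ed A v.1)) with h1 | h1
  · rw [if_neg (by rw [h1]; simp), h1]
    simp
  · rw [if_pos (by rw [h1]; decide), h1]
    simp

theorem neg_one_flip {n n' : ℕ} (h : ((n' : ℕ) : ZMod 2) = (n : ZMod 2) + 1) :
    (-1 : ℂ) ^ n' = -(-1 : ℂ) ^ n := by
  have h1 : ((n' + n : ℕ) : ZMod 2) = ((1 : ℕ) : ZMod 2) := by
    have e : ∀ x : ZMod 2, x + 1 + x = 1 := by decide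
    rw [Nat.cast_add, h, e]
    rfl
  have h2 : (n' + n) % 2 = 1 := by
    have := (ZMod.natCast_eq_natCast_iff' _ _ _).1 h1
    omega
  have h3 : (-1 : ℂ) ^ (n' + n) = -1 := Odd.neg_one_pow (Nat.odd_iff.2 h2)
  have h4 : (-1 : ℂ) ^ n * (-1 : ℂ) ^ n = 1 := by
    rw [← mul_pow]
    norm_num
  calc (-1 : ℂ) ^ n' = (-1 : ℂ) ^ n' * ((-1 : ℂ) ^ n * (-1 : ℂ) ^ n) := by rw [h4, mul_one]
    _ = ((-1 : ℂ) ^ (n' + n)) * (-1 : ℂ) ^ n := by rw [pow_add]; ring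
    _ = _ := by rw [h3]; ring

open Classical in
/-- an element of `W t` with odd `hh` -/
theorem exists_odd (h : Fam A d) (ho : ∃ v ∈ pf (dl A), Odd v.natDegree) {t : Tp 2 (pf (dl A))}
    (ht : TOK (BB 3 2) (DC χ c A Wl Wi) t) :
    ∃ z' ∈ (DC χ c A Wl Wi).W t, hh A z' = 1 := by
  obtain ⟨v₀, hv₀, hodd⟩ := ho
  obtain ⟨k₀, hk, hdv, -⟩ := fam_one h hv₀
  obtain ⟨l, hl1, hl2⟩ : ∃ l : Fin 3, l ≠ ed A v₀ ∧ l ≠ k₀ := by
    have : ∀ a b : Fin 3, ∃ l : Fin 3, l ≠ a ∧ l ≠ b := by decide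
    exact this _ _
  obtain ⟨w, hw⟩ : ∃ w : pf (dl A), w = ⟨v₀, hv₀⟩ := ⟨_, rfl⟩
  have hw1 : w.1 = v₀ := by rw [hw]
  have htor := ht.tor (ep 2 (ed A v₀) l)
  obtain ⟨zs, hzs⟩ : ∃ zs : EE (XX 3 2) (pf (dl A)) × EE (XX 3 2) (pf (dl A)),
      zs = ((-(DC χ c A Wl Wi).bet (ep 2 (ed A v₀) l), fun v => -(DC χ c A Wl Wi).L v (ep 2 (ed A v₀) l)),
        (t.1 • ep 2 (ed A v₀) l, fun v => t.2 v • ep 2 (ed A v₀) l)) := ⟨_, rfl⟩
  rw [← hzs] at htor
  have hmem := (mem_WC χ).1 htor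
  have hg := hmem.1 w
  obtain ⟨g, hgd⟩ : ∃ g, g = locv χ w zs := ⟨_, rfl⟩
  rw [← hgd] at hg
  have hg1 : (g.1).1 (ed A v₀) = 1 := by
    have e1 : g.1 = -(DC χ c A Wl Wi).L w (ep 2 (ed A v₀) l) := by
      rw [hgd, hzs]
      rfl
    have e2 := fam_L χ h c Wl Wi w (k := k₀) (by rw [hw1]; exact hk) (by rw [hw1]; exact hdv)
      (ep 2 (ed A v₀) l) (ed A v₀)
    rw [hw1, if_pos (Or.inl rfl), ep_apply, ep_apply] at e2
    have e3 : (g.1).1 (ed A v₀) = -((DC χ c A Wl Wi).L w (ep 2 (ed A v₀) l)).1 (ed A v₀) := by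
      rw [e1]
      rfl
    rw [e3, e2, if_pos rfl, if_neg (Ne.symm hl1), if_neg hk, if_neg (Ne.symm hl2)]
    decide
  -- the element
  obtain ⟨ε, hε⟩ : ∃ ε : pf (dl A) → XX 3 2, ε = fun v => if v = w then g.1 else 0 := ⟨_, rfl⟩
  obtain ⟨b, hb⟩ : ∃ b : XX 3 2, b = -∑ v : pf (dl A), (v.1.natDegree : ZMod 2) • ε v := ⟨_, rfl⟩
  obtain ⟨ξ, hξ⟩ : ∃ ξ : pf (dl A) → XX 3 2, ξ = fun v => (if v = w then g.2 else 0) -
      ∑ v' ∈ Finset.univ.erase v, lm χ v'.1 v.1 • ε v' -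
      (χ.lg (-1) * (v.1.natDegree : ZMod 2)) • b := ⟨_, rfl⟩
  refine ⟨((0, ε), (b, ξ)), ?_, ?_⟩
  · refine (mem_WC χ).2 ⟨fun v => ?_, ?_⟩
    · have hloc : locv χ v (((0, ε), (b, ξ)) : EE (XX 3 2) (pf (dl A)) × EE (XX 3 2) (pf (dl A))) =
          if v = w then g else 0 := by
        have e2 : (v.1.natDegree : ZMod 2) • (0 : XX 3 2) +
            ∑ v' ∈ Finset.univ.erase v, lm χ v'.1 v.1 • ε v' + ξ v +
            (χ.lg (-1) * (v.1.natDegree : ZMod 2)) • b = if v = w then g.2 else 0 := by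
          have hξv : ξ v = (if v = w then g.2 else 0) -
              ∑ v' ∈ Finset.univ.erase v, lm χ v'.1 v.1 • ε v' -
              (χ.lg (-1) * (v.1.natDegree : ZMod 2)) • b := by rw [hξ]
          rw [hξv, smul_zero]
          abel
        refine (Prod.ext (x := locv χ v (((0, ε), (b, ξ)) : EE (XX 3 2) (pf (dl A)) × EE (XX 3 2) (pf (dl A))))
          (y := (ε v, if v = w then g.2 else 0)) rfl e2).trans ?_
        have hεv : ε v = if v = w then g.1 else 0 := by rw [hε]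
        rw [hεv]
        split_ifs <;> rfl
      rw [hloc]
      split_ifs with hvw
      · rw [hvw]
        exact hg
      · exact Submodule.zero_mem _
    · have hl0 : loci (((0, ε), (b, ξ)) : EE (XX 3 2) (pf (dl A)) × EE (XX 3 2) (pf (dl A))) = 0 := by
        refine Prod.ext ?_ rfl
        show -(∑ v : pf (dl A), (v.1.natDegree : ZMod 2) • ε v + b) = 0
        rw [hb, add_neg_cancel, neg_zero]
      rw [hl0]
      exact Submodule.zero_mem _
  · show (∑ v : pf (dl A), (v.1.natDegree : ZMod 2) * (ε v).1 (ed A v.1)) = 1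
    rw [Finset.sum_eq_single w]
    · rw [hε]
      simp only [if_true]
      rw [hw1, hg1, mul_one]
      have : (v₀.natDegree : ZMod 2) = ((1 : ℕ) : ZMod 2) := by
        rw [ZMod.natCast_eq_natCast_iff']
        have := Nat.odd_iff.1 hodd
        omega
      rw [this]
      rfl
    · intro v _ hv
      rw [hε]
      simp only [if_neg hv]
      exact mul_zero _
    · intro h0
      exact absurd (Finset.mem_univ _) h0

open Classical in
theorem ch_two (h : Fam A d) (ho : ∃ v ∈ pf (dl A), Odd v.natDegree) {t : Tp 2 (pf (dl A))}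
    (ht : TOK (BB 3 2) (DC χ c A Wl Wi) t) :
    ∑ z : EE (XX 3 2) (pf (dl A)) × EE (XX 3 2) (pf (dl A)),
      (if z ∈ (DC χ c A Wl Wi).W t then (Wj A 2).β t z.1 z.2 else 0) = 0 := by
  obtain ⟨z', hz', hodd⟩ := exists_odd χ c Wl Wi h ho ht
  have hβ : ∀ z : EE (XX 3 2) (pf (dl A)) × EE (XX 3 2) (pf (dl A)),
      (Wj A 2).β t z.1 z.2 = (-1 : ℂ) ^ nb A z.1 z.2 := by
    intro z
    show Complex.I ^ (2 * nb A z.1 z.2) = _
    rw [pow_mul, Complex.I_sq]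
  have hsum := Equiv.sum_comp (Equiv.addRight z')
    (fun z : EE (XX 3 2) (pf (dl A)) × EE (XX 3 2) (pf (dl A)) =>
      if z ∈ (DC χ c A Wl Wi).W t then (Wj A 2).β t z.1 z.2 else 0)
  have hneg : ∀ z : EE (XX 3 2) (pf (dl A)) × EE (XX 3 2) (pf (dl A)),
      (if (Equiv.addRight z') z ∈ (DC χ c A Wl Wi).W t then
        (Wj A 2).β t ((Equiv.addRight z') z).1 ((Equiv.addRight z') z).2 else 0) =
      -(if z ∈ (DC χ c A Wl Wi).W t then (Wj A 2).β t z.1 z.2 else 0) := by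
    intro z
    have e : (Equiv.addRight z') z = z + z' := rfl
    rw [e, hβ, hβ, Submodule.add_mem_iff_left _ hz']
    split_ifs with hz
    · apply neg_one_flip
      rw [nb_cast, nb_cast, hh_add, hodd]
    · rw [neg_zero]
  rw [Finset.sum_congr rfl fun z _ => hneg z, Finset.sum_neg_distrib] at hsum
  have h2 := neg_eq_iff_add_eq_zero.1 hsum
  rw [← two_mul] at h2
  exact (mul_eq_zero.1 h2).resolve_left two_ne_zero

end Pool.Agent.H64.RO
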