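import Pool.Agent.H64.RO.Defs

set_option autoImplicit false

/-!
# [H64 RO Cnt] The number of the maximal unlinked sets with constant first coordinate

* `lag_tail`: the number of the `Λ` with `Lag ℓ (k+1) Λ` and `g.1 0 = 0` for all `g ∈ Λ` is `Lk ℓ k`.  For `Λ' ` with `Lag ℓ k Λ'` put `Λ = {g | g.1 0 = 0, (Fin.tail g.1, Fin.tail g.2) ∈ Λ'}`: `card Λ = ℓ * ℓ^k` (`g.2 0` is free),
  isotropic (`dotp` with `Fin.sum_univ_succ`, the term `0` vanishes).  Conversely `Λ' = {(Fin.tail g.1, Fin.tail g.2) | g ∈ Λ}` (`Submodule.map`) is isotropic; `(0, e_0) ∈ Λ`: it is orthogonal to `Λ`, and `Λ` is its own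
  orthogonal complement (`card Λ = ℓ^(k+1)`, so adding it would give an isotropic subspace with more than `ℓ^(k+1)` elements; or by `finrank_add_finrank_orthogonal'` as in `gs_rank` in `H94/PN/GS.lean`); the kernel
  of `Λ → Λ'` is `{(0, s e_0)}`, so `card Λ' = ℓ^k`, and `g ∈ Λ` iff `g.1 0 = 0` and `tail g ∈ Λ'`.
* `cntw`: copy of `PN.cnt` (double counting of the pairs `(U, u)`, `u ∈ U`): for `U = u₀ + TX Λ` the condition on `U` says `w.1 0 = 0` for all `w ∈ TX Λ`, i.e. `g.1 0 = 0` for all `g ∈ Λ`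
  (pure vectors `tx_pure`, `mem_TX`, `B` nondegenerate, `X` nontrivial).
-/

namespace Pool.Agent.H64.RO

open Polynomial
open Pool.Agent.H94.PL
open Pool.Agent.H94.PM
open Pool.Agent.H94.PN
open Pool.Agent.H94.PC (Mo Sq Pr pf om Mn mem_Mo mem_Sq mem_Pr mem_pf mem_pf')

variable {ℓ k : ℕ} [hl : Fact ℓ.Prime] {X : Type} [AddCommGroup X] [Module (ZMod ℓ) X] [Fintype X]
  [DecidableEq X] {B : X →ₗ[ZMod ℓ] X →ₗ[ZMod ℓ] ZMod ℓ}

private theorem dotp_succ (a b : Fin (k + 1) → ZMod ℓ) :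
    dotp a b = a 0 * b 0 + dotp (Fin.tail a) (Fin.tail b) := by
  unfold dotp
  rw [Fin.sum_univ_succ]
  rfl

/-- the tail -/
private def tlm (ℓ k : ℕ) [Fact ℓ.Prime] : H0 ℓ (k + 1) →ₗ[ZMod ℓ] H0 ℓ k where
  toFun g := (Fin.tail g.1, Fin.tail g.2)
  map_add' _ _ := rfl
  map_smul' _ _ := rfl

private theorem tlm_apply (g : H0 ℓ (k + 1)) : tlm ℓ k g = (Fin.tail g.1, Fin.tail g.2) := rfl

/-- the dot product as a bilinear form -/
private def cD (ℓ k : ℕ) : (Fin k → ZMod ℓ) →ₗ[ZMod ℓ] (Fin k → ZMod ℓ) →ₗ[ZMod ℓ] ZMod ℓ :=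
  LinearMap.mk₂ (ZMod ℓ) dotp
    (fun x x' y => by simp only [dotp, Pi.add_apply, add_mul, Finset.sum_add_distrib])
    (fun c x y => by simp only [dotp, Pi.smul_apply, smul_eq_mul, mul_assoc, Finset.mul_sum])
    (fun x y y' => by simp only [dotp, Pi.add_apply, mul_add, Finset.sum_add_distrib])
    (fun c x y => by
      simp only [dotp, Pi.smul_apply, smul_eq_mul, Finset.mul_sum]
      exact Finset.sum_congr rfl fun i _ => by ring)

private theorem cD_apply (x y : Fin k → ZMod ℓ) : cD ℓ k x y = dotp x y := rfl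

private theorem cD_good : BGood (cD ℓ k) := by
  constructor
  · intro x y
    rw [cD_apply, cD_apply]
    unfold dotp
    exact Finset.sum_congr rfl fun i _ => mul_comm _ _
  · intro x hx
    funext i
    have h1 := hx (Pi.single i 1)
    rw [cD_apply] at h1
    unfold dotp at h1
    simpa [Pi.single_apply] using h1

/-- a Lagrangian contains every vector orthogonal to it -/
private theorem lag_perp {Λ : Submodule (ZMod ℓ) (H0 ℓ k)} (hΛ : Lag ℓ k Λ) (v : H0 ℓ k)
    (hv : ∀ w ∈ Λ, dotp v.2 w.1 + dotp w.2 v.1 = 0) : v ∈ Λ := by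
  refine la_perp (cD ℓ k) cD_good Λ ?_ ?_ v ?_
  · intro x hx y hy
    rw [laB_apply]
    exact hΛ.2.1 x hx y hy
  · rw [hΛ.1, Fintype.card_fun, Fintype.card_fin, ZMod.card]
  · intro w hw
    rw [laB_apply]
    exact hv w hw

/-- the Lagrangian with one more coordinate -/
private def upm (Λ : Submodule (ZMod ℓ) (H0 ℓ k)) : Submodule (ZMod ℓ) (H0 ℓ (k + 1)) where
  carrier := {g | g.1 0 = 0 ∧ tlm ℓ k g ∈ Λ}
  zero_mem' := ⟨rfl, by rw [map_zero]; exact Λ.zero_mem⟩
  add_mem' := by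
    rintro a b ⟨ha, ha'⟩ ⟨hb, hb'⟩
    refine ⟨?_, ?_⟩
    · show a.1 0 + b.1 0 = 0
      rw [ha, hb, add_zero]
    · rw [map_add]
      exact Λ.add_mem ha' hb'
  smul_mem' := by
    rintro c a ⟨ha, ha'⟩
    refine ⟨?_, ?_⟩
    · show c * a.1 0 = 0
      rw [ha, mul_zero]
    · rw [map_smul]
      exact Λ.smul_mem c ha'

private theorem mem_upm {Λ : Submodule (ZMod ℓ) (H0 ℓ k)} {g : H0 ℓ (k + 1)} :
    g ∈ upm Λ ↔ g.1 0 = 0 ∧ tlm ℓ k g ∈ Λ := Iff.rfl

private theorem card_upm (Λ : Submodule (ZMod ℓ) (H0 ℓ k)) : Nat.card (upm Λ) = ℓ * Nat.card Λ := by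
  let e : upm Λ ≃ ZMod ℓ × Λ :=
    { toFun := fun g => (g.1.2 0, ⟨tlm ℓ k g.1, g.2.2⟩)
      invFun := fun h => ⟨(Fin.cons 0 h.2.1.1, Fin.cons h.1 h.2.1.2), by
        rw [mem_upm]
        refine ⟨rfl, ?_⟩
        rw [tlm_apply, Fin.tail_cons, Fin.tail_cons]
        exact h.2.2⟩
      left_inv := by
        rintro ⟨g, hg⟩
        apply Subtype.ext
        rw [mem_upm] at hg
        refine Prod.ext ?_ ?_
        · show (Fin.cons 0 (Fin.tail g.1) : Fin (k + 1) → ZMod ℓ) = g.1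
          rw [← hg.1, Fin.cons_self_tail]
        · show (Fin.cons (g.2 0) (Fin.tail g.2) : Fin (k + 1) → ZMod ℓ) = g.2
          rw [Fin.cons_self_tail]
      right_inv := by
        rintro ⟨s, h, hh⟩
        refine Prod.ext ?_ ?_
        · show (Fin.cons s h.2 : Fin (k + 1) → ZMod ℓ) 0 = s
          rw [Fin.cons_zero]
        · apply Subtype.ext
          show tlm ℓ k (Fin.cons 0 h.1, Fin.cons s h.2) = h
          rw [tlm_apply, Fin.tail_cons, Fin.tail_cons] }
  rw [Nat.card_congr e, Nat.card_prod, Nat.card_zmod]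

private theorem dotp_upm (x : H0 ℓ (k + 1)) {y : H0 ℓ (k + 1)}
    (hy : y.1 0 = 0) : dotp x.2 y.1 = dotp (tlm ℓ k x).2 (tlm ℓ k y).1 := by
  rw [dotp_succ, hy, mul_zero, zero_add]
  rfl

private theorem lag_upm {Λ : Submodule (ZMod ℓ) (H0 ℓ k)} (hΛ : Lag ℓ k Λ) :
    Lag ℓ (k + 1) (upm Λ) := by
  refine ⟨?_, ?_, ?_⟩
  · rw [card_upm, hΛ.1, pow_succ, mul_comm]
  · intro x hx y hy
    rw [mem_upm] at hx hy
    rw [dotp_upm x hy.1, dotp_upm y hx.1]
    exact hΛ.2.1 _ hx.2 _ hy.2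
  · intro h2 x hx
    rw [mem_upm] at hx
    rw [dotp_upm x hx.1]
    exact hΛ.2.2 h2 _ hx.2

theorem lag_tail : Nat.card {Λ : Submodule (ZMod ℓ) (H0 ℓ (k + 1)) //
    Lag ℓ (k + 1) Λ ∧ ∀ g ∈ Λ, g.1 0 = 0} = Lk ℓ k := by
  unfold Lk
  symm
  refine Nat.card_congr (Equiv.ofBijective (fun Λ : {Λ : Submodule (ZMod ℓ) (H0 ℓ k) // Lag ℓ k Λ} =>
    (⟨upm Λ.1, lag_upm Λ.2, fun g hg => hg.1⟩ : {Λ : Submodule (ZMod ℓ) (H0 ℓ (k + 1)) //
      Lag ℓ (k + 1) Λ ∧ ∀ g ∈ Λ, g.1 0 = 0})) ⟨?_, ?_⟩)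
  · rintro ⟨Λ, hΛ⟩ ⟨Λ', hΛ'⟩ h
    apply Subtype.ext
    have h0 : upm Λ = upm Λ' := congrArg Subtype.val h
    have key : ∀ (Λ : Submodule (ZMod ℓ) (H0 ℓ k)) (g : H0 ℓ k), g ∈ Λ ↔
        ((Fin.cons 0 g.1, Fin.cons 0 g.2) : H0 ℓ (k + 1)) ∈ upm Λ := by
      intro Λ g
      rw [mem_upm, tlm_apply, Fin.tail_cons, Fin.tail_cons]
      exact ⟨fun hg => ⟨rfl, hg⟩, fun hg => hg.2⟩
    ext g
    show g ∈ Λ ↔ g ∈ Λ'
    rw [key Λ, key Λ', h0]
  · rintro ⟨Λ, hΛ, h0⟩
    have he : ((0, Pi.single 0 1) : H0 ℓ (k + 1)) ∈ Λ := by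
      refine lag_perp hΛ _ fun w hw => ?_
      have h1 : dotp (Pi.single 0 1 : Fin (k + 1) → ZMod ℓ) w.1 = 0 := by
        unfold dotp
        rw [Finset.sum_eq_single 0]
        · rw [Pi.single_eq_same, one_mul]
          exact h0 w hw
        · intro i _ hi
          rw [Pi.single_eq_of_ne hi, zero_mul]
        · intro hc
          exact absurd (Finset.mem_univ _) hc
      have h2 : dotp w.2 (0 : Fin (k + 1) → ZMod ℓ) = 0 := by
        unfold dotp
        exact Finset.sum_eq_zero fun i _ => by rw [Pi.zero_apply, mul_zero]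
      show dotp (Pi.single 0 1 : Fin (k + 1) → ZMod ℓ) w.1 + dotp w.2 (0 : Fin (k + 1) → ZMod ℓ) = 0
      rw [h1, h2, add_zero]
    let ι : H0 ℓ k →ₗ[ZMod ℓ] H0 ℓ (k + 1) :=
      { toFun := fun g => (Fin.cons 0 g.1, Fin.cons 0 g.2)
        map_add' := by
          intro a b
          refine Prod.ext ?_ ?_ <;>
          · funext i
            refine Fin.cases ?_ (fun j => ?_) i
            · simp
            · simp
        map_smul' := by
          intro c a
          refine Prod.ext ?_ ?_ <;>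
          · funext i
            refine Fin.cases ?_ (fun j => ?_) i
            · simp
            · simp }
    have hmem : ∀ g : H0 ℓ (k + 1), g ∈ Λ ↔ g.1 0 = 0 ∧ tlm ℓ k g ∈ Λ.comap ι := by
      intro g
      have e1 : g.1 0 = 0 → ι (tlm ℓ k g) = g - g.2 0 • ((0, Pi.single 0 1) : H0 ℓ (k + 1)) := by
        intro hg
        refine Prod.ext ?_ ?_
        · funext i
          show (Fin.cons 0 (Fin.tail g.1) : Fin (k + 1) → ZMod ℓ) i = g.1 i - g.2 0 * 0
          rw [← hg, Fin.cons_self_tail, hg, mul_zero, sub_zero]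
        · funext i
          show (Fin.cons 0 (Fin.tail g.2) : Fin (k + 1) → ZMod ℓ) i =
            g.2 i - g.2 0 * (Pi.single 0 1 : Fin (k + 1) → ZMod ℓ) i
          refine Fin.cases ?_ (fun j => ?_) i
          · rw [Fin.cons_zero, Pi.single_eq_same, mul_one, sub_self]
          · rw [Fin.cons_succ, Pi.single_eq_of_ne (Fin.succ_ne_zero j), mul_zero, sub_zero]
            rfl
      rw [Submodule.mem_comap]
      constructor
      · intro hg
        refine ⟨h0 g hg, ?_⟩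
        rw [e1 (h0 g hg)]
        exact Λ.sub_mem hg (Λ.smul_mem _ he)
      · rintro ⟨hg, hg'⟩
        rw [e1 hg] at hg'
        have := Λ.add_mem hg' (Λ.smul_mem (g.2 0) he)
        rwa [sub_add_cancel] at this
    have hup : upm (Λ.comap ι) = Λ := by
      ext g
      rw [mem_upm, hmem g]
    have hlag : Lag ℓ k (Λ.comap ι) := by
      have hι : ∀ x : H0 ℓ k, tlm ℓ k (ι x) = x := by
        intro x
        show ((Fin.tail (Fin.cons 0 x.1 : Fin (k + 1) → ZMod ℓ),
          Fin.tail (Fin.cons 0 x.2 : Fin (k + 1) → ZMod ℓ)) : H0 ℓ k) = x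
        rw [Fin.tail_cons, Fin.tail_cons]
      have hι0 : ∀ x : H0 ℓ k, (ι x).1 0 = 0 := fun x => rfl
      refine ⟨?_, ?_, ?_⟩
      · have h1 := card_upm (Λ.comap ι)
        rw [hup, hΛ.1, pow_succ, mul_comm] at h1
        exact (Nat.eq_of_mul_eq_mul_left hl.out.pos h1).symm
      · intro x hx y hy
        have h1 := hΛ.2.1 _ (Submodule.mem_comap.1 hx) _ (Submodule.mem_comap.1 hy)
        rw [dotp_upm _ (hι0 y), dotp_upm _ (hι0 x), hι, hι] at h1
        exact h1
      · intro h2 x hx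
        have h1 := hΛ.2.2 h2 _ (Submodule.mem_comap.1 hx)
        rw [dotp_upm _ (hι0 x), hι] at h1
        exact h1
    exact ⟨⟨Λ.comap ι, hlag⟩, Subtype.ext hup⟩

private theorem tx_first (hB : BGood B) [Nontrivial X] (Λ : Submodule (ZMod ℓ) (H0 ℓ (k + 1))) :
    (∀ w ∈ TX B Λ, w.1 0 = 0) ↔ ∀ g ∈ Λ, g.1 0 = 0 := by
  constructor
  · intro h g hg
    obtain ⟨x, hx⟩ := exists_ne (0 : X)
    have h1 : g.1 0 • x = 0 := h _ (tx_pure hg x)
    exact (smul_eq_zero.1 h1).resolve_right hx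
  · intro h w hw
    refine hB.nondeg _ fun y => ?_
    rw [hB.symm]
    exact h _ (((mem_TX B).1 hw) y)

open Classical in
theorem cntw (hB : BGood B) [Nontrivial X] (hx : ℓ ≠ 2 → ∃ x : X, B x x ≠ 0)
    (halt : ℓ = 2 → ∀ x, B x x = 0) {S : Type} (dt : Dat ℓ X S)
    (hs : ∀ v x y, B (dt.L v x) y = B x (dt.L v y))
    (hG : Algebra.adjoin (ZMod ℓ) (Set.range dt.L) = (⊤ : Subalgebra (ZMod ℓ) (Module.End (ZMod ℓ) X))) :
    ((MaxU (CDX (Bk B (k + 1)))).filter fun U => ¬ Non (Bk B (k + 1)) (dtk dt (k + 1)) U ∧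
      ∀ u ∈ U, ∀ u' ∈ U, u.1 0 = u'.1 0).card = Lk ℓ k * Fintype.card X ^ (k + 1) := by
  set 𝒰 := (MaxU (CDX (Bk B (k + 1)))).filter fun U => ¬ Non (Bk B (k + 1)) (dtk dt (k + 1)) U ∧
      ∀ u ∈ U, ∀ u' ∈ U, u.1 0 = u'.1 0 with h𝒰
  have hcardX : Fintype.card (Fin (k + 1) → X) = Fintype.card X ^ (k + 1) := by
    rw [Fintype.card_pi, Finset.prod_const, Finset.card_univ, Fintype.card_fin]
  have hpos : 0 < Fintype.card X ^ (k + 1) := pow_pos Fintype.card_pos (k + 1)
  -- the cards of the members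
  have h1 : ∀ U ∈ 𝒰, U.card = Fintype.card X ^ (k + 1) := by
    intro U hU
    rw [← hcardX]
    exact (mem_MaxU.1 (Finset.mem_filter.1 hU).1).2
  -- the members which contain a given point
  have h2 : ∀ u : (Fin (k + 1) → X) × (Fin (k + 1) → X), (𝒰.filter fun U => u ∈ U).card = Lk ℓ k := by
    intro u
    have hmem : ∀ Λ : {Λ : Submodule (ZMod ℓ) (H0 ℓ (k + 1)) // Lag ℓ (k + 1) Λ ∧ ∀ g ∈ Λ, g.1 0 = 0},
        (Finset.univ.filter fun u' => u' - u ∈ TX B Λ.1) ∈ (𝒰.filter fun U => u ∈ U) := by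
      intro Λ
      have h3 := str_conv hB halt dt hs Λ.2.1 u (Finset.univ.filter fun u' => u' - u ∈ TX B Λ.1)
        (fun u' => by rw [Finset.mem_filter]; exact ⟨fun h => h.2, fun h => ⟨Finset.mem_univ _, h⟩⟩)
      rw [Finset.mem_filter, h𝒰, Finset.mem_filter]
      refine ⟨⟨h3.1, h3.2, ?_⟩, ?_⟩
      · intro w hw w' hw'
        rw [Finset.mem_filter] at hw hw'
        have h4 := (tx_first hB Λ.1).2 Λ.2.2 _ hw.2
        have h5 := (tx_first hB Λ.1).2 Λ.2.2 _ hw'.2
        have h6 : w.1 0 - u.1 0 = 0 := h4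
        have h7 : w'.1 0 - u.1 0 = 0 := h5
        rw [sub_eq_zero.1 h6, sub_eq_zero.1 h7]
      · rw [Finset.mem_filter, sub_self]
        exact ⟨Finset.mem_univ _, Submodule.zero_mem _⟩
    have hbij : Function.Bijective (fun Λ : {Λ : Submodule (ZMod ℓ) (H0 ℓ (k + 1)) //
        Lag ℓ (k + 1) Λ ∧ ∀ g ∈ Λ, g.1 0 = 0} =>
        (⟨_, hmem Λ⟩ : {U // U ∈ (𝒰.filter fun U => u ∈ U)})) := by
      constructor
      · intro Λ Λ' h
        have h0 := congrArg Subtype.val h
        apply Subtype.ext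
        refine tx_inj hB (le_antisymm ?_ ?_)
        · intro w hw
          have h3 : w + u ∈ (Finset.univ.filter fun u' => u' - u ∈ TX B Λ.1) := by
            rw [Finset.mem_filter, add_sub_cancel_right]
            exact ⟨Finset.mem_univ _, hw⟩
          have h4 : w + u ∈ (Finset.univ.filter fun u' => u' - u ∈ TX B Λ'.1) := by
            have h5 : (Finset.univ.filter fun u' => u' - u ∈ TX B Λ.1) =
              (Finset.univ.filter fun u' => u' - u ∈ TX B Λ'.1) := h0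
            rw [← h5]
            exact h3
          rw [Finset.mem_filter, add_sub_cancel_right] at h4
          exact h4.2
        · intro w hw
          have h3 : w + u ∈ (Finset.univ.filter fun u' => u' - u ∈ TX B Λ'.1) := by
            rw [Finset.mem_filter, add_sub_cancel_right]
            exact ⟨Finset.mem_univ _, hw⟩
          have h4 : w + u ∈ (Finset.univ.filter fun u' => u' - u ∈ TX B Λ.1) := by
            have h5 : (Finset.univ.filter fun u' => u' - u ∈ TX B Λ.1) =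
              (Finset.univ.filter fun u' => u' - u ∈ TX B Λ'.1) := h0
            rw [h5]
            exact h3
          rw [Finset.mem_filter, add_sub_cancel_right] at h4
          exact h4.2
      · rintro ⟨U, hU⟩
        obtain ⟨hU1, huU⟩ := Finset.mem_filter.1 hU
        obtain ⟨hU2, hU3, hU4⟩ := Finset.mem_filter.1 hU1
        obtain ⟨u₀, Λ, hΛ, hUΛ⟩ := str hB hx dt hs hG U hU2 hU3
        have hu : u - u₀ ∈ TX B Λ := (hUΛ u).1 huU
        have h0 : ∀ g ∈ Λ, g.1 0 = 0 := by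
          refine (tx_first hB Λ).1 fun w hw => ?_
          have h4 : u + w ∈ U := by
            rw [hUΛ]
            have e : u + w - u₀ = (u - u₀) + w := by abel
            rw [e]
            exact (TX B Λ).add_mem hu hw
          have h5 : u.1 0 + w.1 0 = u.1 0 := hU4 _ h4 _ huU
          exact left_eq_add.1 h5.symm
        refine ⟨⟨Λ, hΛ, h0⟩, Subtype.ext ?_⟩
        ext u'
        rw [Finset.mem_filter, hUΛ]
        constructor
        · rintro ⟨_, h⟩
          have e : u' - u₀ = (u' - u) + (u - u₀) := by abel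
          rw [e]
          exact (TX B Λ).add_mem h hu
        · intro h
          refine ⟨Finset.mem_univ _, ?_⟩
          have e : u' - u = (u' - u₀) - (u - u₀) := by abel
          rw [e]
          exact (TX B Λ).sub_mem h hu
    have h3 := Nat.card_congr (Equiv.ofBijective _ hbij)
    rw [Nat.card_eq_fintype_card (α := {U // U ∈ (𝒰.filter fun U => u ∈ U)}),
      Fintype.card_coe, lag_tail] at h3
    exact h3.symm
  -- double counting
  have h3 : ∑ U ∈ 𝒰, U.card = ∑ u : (Fin (k + 1) → X) × (Fin (k + 1) → X), (𝒰.filter fun U => u ∈ U).card := by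
    simp only [Finset.card_eq_sum_ones, Finset.sum_filter]
    rw [Finset.sum_comm]
    refine Finset.sum_congr rfl fun U _ => ?_
    rw [← Finset.sum_filter]
    refine Finset.sum_congr ?_ fun _ _ => rfl
    ext u
    rw [Finset.mem_filter]
    exact ⟨fun h => ⟨Finset.mem_univ _, h⟩, fun h => h.2⟩
  rw [Finset.sum_congr rfl h1, Finset.sum_congr rfl fun u _ => h2 u, Finset.sum_const,
    Finset.sum_const, Finset.card_univ, Fintype.card_prod, hcardX, smul_eq_mul, smul_eq_mul] at h3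
  apply Nat.eq_of_mul_eq_mul_right hpos
  rw [h3]
  ring

end Pool.Agent.H64.RO
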