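import Pool.Agent.H94.PN.AUE
import Pool.Agent.H94.PN.CNT

set_option autoImplicit false

/-!
# [H64 RO Defs] Moments of the Selmer groups with a weight on the first class: definitions

`KM χ dt D` is the group of the classes `z = (ε, x)`, `ε : EE X (pf Δ)`, `x : pf D → X`.  A weight `w : Wg ℓ X S` gives the number
`wz χ w D z = w.β (ty D) ε (xi D x) * ps (∑ P, deg P * w.κ (x P))` of absolute value at most `1`, and `Sw χ dt w D` is the sum over `KM χ dt D`.
-/

namespace Pool.Agent.H64.RO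

open Polynomial
open Pool.Agent.H94.PL
open Pool.Agent.H94.PM
open Pool.Agent.H94.PN
open Pool.Agent.H94.PC (Mo Sq Pr pf om Mn mem_Mo mem_Sq mem_Pr mem_pf mem_pf')

/-- a weight: a function of the type of `D`, the constants and exponents at `S` and the sums `xi`; and a function of the exponents
at the primes which divide `D` -/
structure Wg (ℓ : ℕ) (X S : Type) where
  β : Tp ℓ S → EE X S → EE X S → ℂ
  κ : X → ZMod ℓ

section
variable {ℓ : ℕ} [hl : Fact ℓ.Prime] {X S : Type} [AddCommGroup X] [Module (ZMod ℓ) X] [Fintype X]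
  [Fintype S]

open Classical in
/-- the function of the types for the moments with a weight -/
noncomputable def GKw (B : X →ₗ[ZMod ℓ] X →ₗ[ZMod ℓ] ZMod ℓ) (dt : Dat ℓ X S) (w : Wg ℓ X S) (k : ℕ)
    (R : Tp ℓ S → Prop) (τ : (Fin (k + 1) → X) × (Fin (k + 1) → X) → Tp ℓ S) : ℂ :=
  if R (∑ u, τ u) then
    ps (∑ u, (τ u).1 * w.κ (u.1 0)) *
      ∑ ε : EE (Fin (k + 1) → X) S, if (ε, tens τ) ∈ (dtk dt (k + 1)).W (∑ u, τ u) then
        w.β (∑ u, τ u) (cpt 0 ε) (cpt 0 (tens τ)) * ps (phs (Bk B (k + 1)) (dtk dt (k + 1)) ε τ) else 0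
  else 0

/-- the value of the weight at the torsion class `σ` -/
noncomputable def tv (dt : Dat ℓ X S) (w : Wg ℓ X S) (t : Tp ℓ S) (σ : X) : ℂ :=
  w.β t (-dt.bet σ, fun v => -dt.L v σ) (t.1 • σ, fun v => t.2 v • σ) * ps (t.1 * w.κ σ)

/-- the second differences of `κ` in some directions do not vanish, at every point -/
def Crv (κ : X → ZMod ℓ) : Prop := ∀ c : X, ∃ x y : X, κ (c + x + y) - κ (c + x) - κ (c + y) + κ c ≠ 0

end

section
variable {ℓ : ℕ} [hl : Fact ℓ.Prime] {X : Type} [AddCommGroup X] [Module (ZMod ℓ) X] [Fintype X]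
  {F : Type} [Field F] [Finite F] (χ : LChar F ℓ) {Δ : F[X]} (dt : Dat ℓ X (pf Δ))
  (w : Wg ℓ X (pf Δ)) (D : F[X])

/-- the weight of a class -/
noncomputable def wz (z : EE X (pf Δ) × (pf D → X)) : ℂ :=
  w.β (ty χ Δ D) z.1 (xi χ Δ D z.2) * ps (∑ P : pf D, (P.1.natDegree : ZMod ℓ) * w.κ (z.2 P))

open Classical in
/-- the sum of the weights -/
noncomputable def Sw : ℂ :=
  ∑ z : EE X (pf Δ) × (pf D → X), if z ∈ KM χ dt D then wz χ w D z else 0

end

end Pool.Agent.H64.RO
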