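import Pool.Agent.H64.RO.Frc
import Pool.Agent.H3.FS.FRM

set_option autoImplicit false

/-!
# [H64 RO Frm] The limit, for an event

The sum over all `D ∈ Sq F n` with `T D`, `R D = 2 ^ (2 + r)` differs from the sum in `frc'` by at most `(1 + M)` times the number of the `D` with `T D` without `P` (`hI`).  Copy of `H3/FS/FRM.lean` (`frm_tz` there is private: copy it).
-/

namespace Pool.Agent.H64.RO

open Polynomial Filter
open Pool.Agent.H3.FS (prs Gd Ind Rt CellD Lg)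

private theorem frm_sqrt (q : ℝ) (hq : 0 ≤ q) (m : ℕ) : √(q ^ m) = √q ^ m := by
  rw [← Real.sqrt_sq (pow_nonneg (Real.sqrt_nonneg q) m)]
  congr 1
  rw [← pow_mul, mul_comm, pow_mul, Real.sq_sqrt hq]

private theorem frm_nat_sqrt : Tendsto Nat.sqrt atTop atTop := by
  rw [tendsto_atTop]
  intro b
  filter_upwards [eventually_ge_atTop (b * b)] with n hn
  exact Nat.le_sqrt.2 hn

private theorem frm_tz (q : ℝ) (hq : 1 < q) (C : ℕ) :
    Tendsto (fun n : ℕ => ((n : ℝ) + 1) ^ C / √(q ^ Nat.sqrt n)) atTop (nhds 0) := by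
  have hs : 1 < √q := by
    rw [← Real.sqrt_one]
    exact Real.sqrt_lt_sqrt zero_le_one hq
  have hs0 : 0 < √q := by linarith
  have h1 : Tendsto (fun m : ℕ => ((m : ℝ) + 1) ^ (2 * C) / √q ^ m) atTop (nhds 0) := by
    have h2 := tendsto_pow_const_div_const_pow_of_one_lt (2 * C) hs
    have h3 := (h2.comp (tendsto_add_atTop_nat 1)).const_mul (√q)
    rw [mul_zero] at h3
    refine h3.congr fun m => ?_
    simp only [Function.comp_apply]
    push_cast
    rw [pow_succ]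
    field_simp
  have h4 := h1.comp frm_nat_sqrt
  refine squeeze_zero (fun n => by positivity) (fun n => ?_) h4
  simp only [Function.comp_apply]
  rw [frm_sqrt q (by linarith)]
  refine div_le_div_of_nonneg_right ?_ (by positivity)
  have h5 : n + 1 ≤ (Nat.sqrt n + 1) ^ 2 := by
    have := Nat.lt_succ_sqrt n
    rw [sq]
    exact this
  have h6 : (n : ℝ) + 1 ≤ ((Nat.sqrt n : ℝ) + 1) ^ 2 := by exact_mod_cast h5
  calc ((n : ℝ) + 1) ^ C ≤ (((Nat.sqrt n : ℝ) + 1) ^ 2) ^ C :=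
        pow_le_pow_left₀ (by positivity) h6 C
    _ = ((Nat.sqrt n : ℝ) + 1) ^ (2 * C) := by rw [← pow_mul]

open Classical in
theorem frm' (F : Type) [Field F] [Finite F] (h2 : (2 : F) ≠ 0) {Δ : F[X]} (hΔ : Δ ≠ 0)
    {T : F[X] → Prop} {R : F[X] → ℕ} {Q : F[X] → Prop} {W : F[X] → ℝ} {Idp : F[X] → F[X] → Prop}
    (hT : ∀ D' P : F[X], P.Monic → Irreducible P → (∀ v ∈ H94.PC.pf Δ, v.natDegree < P.natDegree) →
      (T (D' * P) ↔ T D')) {r : ℕ} (hH : Hyg Δ T R Q W Idp r)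
    (hI : Tendsto (fun n : ℕ => ({D | D ∈ H94.PC.Sq F n ∧ T D ∧
      ¬ ∃ P, Lg Δ n D P ∧ Idp D P}.ncard : ℝ) / (Nat.card F : ℝ) ^ n) atTop (nhds 0))
    (M : ℝ) (hM : ∀ D, D ≠ 0 → T D → R D = 2 ^ (2 + r) → |W D| ≤ M) :
    Tendsto (fun n : ℕ => (∑ D ∈ (H94.PC.Sq F n).filter (fun D => T D ∧ R D = 2 ^ (2 + r)),
      ((if Q D then (1 : ℝ) else 0) - W D)) / (Nat.card F : ℝ) ^ n) atTop (nhds 0) := by
  obtain ⟨K, C, hK, hfrc⟩ := frc' F h2 hΔ hT hH
  have hq : (1 : ℝ) < Nat.card F := by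
    have : 1 < Nat.card F := Finite.one_lt_card
    exact_mod_cast this
  have hz := frm_tz (Nat.card F) hq C
  have herr : Tendsto (fun n : ℕ => K * (n + 1 : ℝ) ^ C * (Nat.card F : ℝ) ^ n /
      √((Nat.card F : ℝ) ^ Nat.sqrt n) / (Nat.card F : ℝ) ^ n + (1 + |M|) *
      (({D | D ∈ H94.PC.Sq F n ∧ T D ∧ ¬ ∃ P, Lg Δ n D P ∧ Idp D P}.ncard : ℝ) /
        (Nat.card F : ℝ) ^ n)) atTop (nhds 0) := by
    have h3 : Tendsto (fun n : ℕ => K * (((n : ℝ) + 1) ^ C / √((Nat.card F : ℝ) ^ Nat.sqrt n)))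
        atTop (nhds (K * 0)) := hz.const_mul K
    have h4 := h3.add (hI.const_mul (1 + |M|))
    rw [mul_zero, mul_zero, add_zero] at h4
    refine h4.congr fun n => ?_
    have hqn : (0 : ℝ) < (Nat.card F : ℝ) ^ n := by positivity
    congr 1
    field_simp
  refine squeeze_zero_norm (fun n => ?_) herr
  rw [Real.norm_eq_abs, abs_div, abs_of_pos (show (0 : ℝ) < (Nat.card F : ℝ) ^ n by positivity)]
  rw [mul_div_assoc', ← add_div]
  refine div_le_div_of_nonneg_right ?_ (by positivity)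
  rw [← Finset.sum_filter_add_sum_filter_not ((H94.PC.Sq F n).filter (fun D => T D ∧ R D = 2 ^ (2 + r)))
    (fun D => ∃ P, Lg Δ n D P ∧ Idp D P)]
  refine (abs_add_le _ _).trans (add_le_add ?_ ?_)
  · rw [Finset.filter_filter]
    refine le_trans (le_of_eq ?_) (hfrc n)
    congr 1
    refine Finset.sum_congr ?_ fun _ _ => rfl
    ext D
    simp only [Finset.mem_filter, and_assoc]
  · refine (Finset.abs_sum_le_sum_abs _ _).trans ?_
    have h5 : ∀ D ∈ ((H94.PC.Sq F n).filter (fun D => T D ∧ R D = 2 ^ (2 + r))).filter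
        (fun D => ¬ ∃ P, Lg Δ n D P ∧ Idp D P), |(if Q D then (1 : ℝ) else 0) - W D| ≤ 1 + |M| := by
      intro D hD
      have h6 := (Finset.mem_filter.1 (Finset.mem_filter.1 hD).1)
      have h7 : D ≠ 0 := (H94.PC.mem_Sq.1 h6.1).1.ne_zero
      have h8 := hM D h7 h6.2.1 h6.2.2
      have h9 : |(if Q D then (1 : ℝ) else 0)| ≤ 1 := by
        split_ifs <;> simp
      calc |(if Q D then (1 : ℝ) else 0) - W D| ≤ |(if Q D then (1 : ℝ) else 0)| + |W D| := abs_sub _ _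
        _ ≤ 1 + |M| := add_le_add h9 (h8.trans (le_abs_self M))
    refine (Finset.sum_le_card_nsmul _ _ _ h5).trans ?_
    rw [nsmul_eq_mul, mul_comm]
    refine mul_le_mul_of_nonneg_left ?_ (by positivity)
    have h6 : (((H94.PC.Sq F n).filter (fun D => T D ∧ R D = 2 ^ (2 + r))).filter
        (fun D => ¬ ∃ P, Lg Δ n D P ∧ Idp D P)).card ≤
        {D | D ∈ H94.PC.Sq F n ∧ T D ∧ ¬ ∃ P, Lg Δ n D P ∧ Idp D P}.ncard := by
      rw [← Set.ncard_coe_finset]
      refine Set.ncard_le_ncard ?_ ((Finset.finite_toSet (H94.PC.Sq F n)).subset fun D hD => hD.1)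
      intro D hD
      have h7 := Finset.mem_filter.1 (Finset.mem_coe.1 hD)
      have h8 := Finset.mem_filter.1 h7.1
      exact ⟨h8.1, h8.2.1, h7.2⟩
    exact_mod_cast h6

end Pool.Agent.H64.RO
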