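import Pool.Agent.H64.RO.Fin
import Pool.Agent.H64.RO.Frm

set_option autoImplicit false

/-!
# [H64 RO Fi1] The limit for the coherent event and fixed rank

* `fin_1`: `frm'` with `Q = Qe c A`, `W = Wt c A r`, `out'`, `fin_I`; `|Wt D| ≤ 1`-bound: `0 ≤ alt r 1 ≤ 1`, `card Bd ≤ card SelC = 2 ^ (2 + r)`, so `|Wt| ≤ 2 ^ r / (2 ^ r - 1) ≤ 2` for `r ≥ 1`, `0` for `r = 0` (`M = 2`; `Bd ⊆ SelC`, finite as its cardinality is not `0`).
  So `#{D | R D = 2 ^ (2 + r), Qe} = ∑ Wt D + o(q ^ n)`, `∑ Wt D = alt r 1 / (4 (2 ^ r - 1)) ∑_{rkS = r} card Bd`, `lawb` (`rkS_spec`): the limit of the quotient by `#Cls` is `Ty r * alt r 1 * kp / 4` (`r ≥ 1`); `r = 0`: all `Wt D = 0` and `alt 0 1 = 0` (the only `0 × 0` matrix has rank `0 ≠ -1`).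
-/

namespace Pool.Agent.H64.RO

open Polynomial Filter
open Pool.Agent.H94.PC (Sq pf mem_Sq mem_pf mem_pf')
open Pool.Agent.H94.PL (dl Cls mem_Cls)
open Pool.Agent.H94.PN (SelC)
open Pool.Agent.H40.FS (Oc Ow S4C)
open Pool.Agent.H74.FS (Pl)

private theorem f1_lim {a b X : ℕ → ℝ} {q κ L : ℝ} (hq : 0 < q) (hκ : 0 < κ) {N : ℕ}
    (hX : ∀ n, N ≤ n → κ * q ^ n ≤ X n)
    (h1 : Tendsto (fun n => (a n - b n) / q ^ n) atTop (nhds 0))
    (h3 : Tendsto (fun n => b n / X n) atTop (nhds L)) : Tendsto (fun n => a n / X n) atTop (nhds L) := by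
  have h4 : Tendsto (fun n => (a n - b n) / X n) atTop (nhds 0) := by
    have h5 : Tendsto (fun n => 1 / κ * ‖(a n - b n) / q ^ n‖) atTop (nhds 0) := by
      have := h1.norm.const_mul (1 / κ)
      simpa using this
    refine squeeze_zero_norm' ?_ h5
    filter_upwards [eventually_ge_atTop N] with n hn
    have hqn : 0 < q ^ n := pow_pos hq n
    have hXn := hX n hn
    have hX0 : 0 < X n := lt_of_lt_of_le (mul_pos hκ hqn) hXn
    rw [norm_div, norm_div, Real.norm_of_nonneg hX0.le, Real.norm_of_nonneg hqn.le, div_mul_div_comm,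
      one_mul]
    exact div_le_div_of_nonneg_left (norm_nonneg _) (mul_pos hκ hqn) hXn
  have h6 := h4.add h3
  rw [zero_add] at h6
  refine h6.congr fun n => ?_
  rw [← add_div]
  congr 1
  ring

private theorem f1_lim2 {S X : ℕ → ℝ} {C K : ℝ} {N : ℕ} (hX : ∀ n, N ≤ n → 0 < X n)
    (h : ∀ ε : ℝ, 0 < ε → ∃ n₀ : ℕ, ∀ n, n₀ ≤ n → |S n - K * X n| ≤ ε * X n) :
    Tendsto (fun n => C * S n / X n) atTop (nhds (C * K)) := by
  have h1 : Tendsto (fun n => S n / X n) atTop (nhds K) := by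
    rw [Metric.tendsto_atTop]
    intro ε hε
    obtain ⟨n₀, hn₀⟩ := h (ε / 2) (half_pos hε)
    refine ⟨max n₀ N, fun n hn => ?_⟩
    have h2 := hn₀ n ((le_max_left _ _).trans hn)
    have h3 := hX n ((le_max_right _ _).trans hn)
    rw [Real.dist_eq]
    have h4 : S n / X n - K = (S n - K * X n) / X n := by
      field_simp
    rw [h4, abs_div, abs_of_pos h3]
    have h5 : |S n - K * X n| / X n ≤ ε / 2 := by
      rw [div_le_iff₀ h3]
      exact h2
    linarith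
  have h2 := h1.const_mul C
  refine h2.congr fun n => ?_
  rw [mul_div_assoc]

private theorem f1_alt : H3.FS.alt 0 1 = 0 := by
  unfold H3.FS.alt
  have : IsEmpty {M : Matrix (Fin 0) (Fin 0) (ZMod 2) //
      (∀ i, M i i = 0) ∧ (∀ i j, M i j = M j i) ∧ M.rank + 1 = 0} :=
    ⟨fun x => by
      have := x.2.2.2
      omega⟩
  rw [Nat.card_of_isEmpty]
  simp

section
variable {F : Type} [Field F] [Finite F] (h2 : (2 : F) ≠ 0) {A : Fin 3 → F[X]} {d : ℕ} (h : Fam A d)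
variable [DecidableEq (RatFunc F)] (c : F) (hc : c ≠ 0)
variable [DecidableEq (Oc F)] [∀ w : Pl F, DecidableEq (Ow F w)]

omit [DecidableEq (Oc F)] [∀ w : Pl F, DecidableEq (Ow F w)] in
private theorem f1_card {D : F[X]} {N : ℕ} (hN : N ≠ 0) (h : Nat.card (SelC 2 1 c A D) = N) :
    Nat.card (Bd c A D) ≤ N := by
  have hfin : Finite (SelC 2 1 c A D) := Nat.finite_of_card_ne_zero (by rw [h]; exact hN)
  rw [← h]
  refine Nat.card_mono (Set.toFinite _) ?_
  rintro x ⟨δ, h1, h2, -⟩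
  exact ⟨δ, h1, h2⟩

include h2 h hc in
theorem fin_1 (r : ℕ) : Tendsto (fun n : ℕ => ({D | D ∈ Sq F n ∧ IsCoprime D (dl A) ∧
      Nat.card (SelC 2 1 c A D) = 2 ^ (2 + r) ∧ Qe c A D}.ncard : ℝ) /
      {D | D ∈ Sq F n ∧ IsCoprime D (dl A)}.ncard) atTop
      (nhds (Ty r * (kp A / 4 * H3.FS.alt r 1))) := by
  classical
  have hq := H3.FS.fin_q h2
  have hA := fam_inj h
  have hdl : dl A ≠ 0 := H94.PM.wl2_dl0 hA
  have hq0 : (0 : ℝ) < Nat.card F := by exact_mod_cast (Nat.card_pos : 0 < Nat.card F)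
  obtain ⟨κ, hκ, N', hN'⟩ := fin_pos' h2 h
  have hset : ∀ n : ℕ, {D | D ∈ Sq F n ∧ IsCoprime D (dl A)}.ncard = (Cls (dl A) n).card := by
    intro n
    rw [← Set.ncard_coe_finset]
    congr 1
    ext D
    rw [Set.mem_ofPred_eq, Finset.mem_coe, mem_Cls, mem_Sq, and_assoc, and_assoc]
  have hfrm := frm' F h2 hdl (T := fun D => IsCoprime D (dl A))
    (R := fun D => Nat.card (SelC 2 1 c A D)) (Q := Qe c A) (W := Wt c A r)
    (Idp := fun D P => H94.FS.Idp 1 c A D P) (r := r)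
    (fun D' P hm hP hv => fin_T' h D' P hm hP hv) (out' F h2 h c hc r) (fin_I h2 h c hc)
    (|H3.FS.alt r 1| * 2 ^ (2 + r) / |4 * ((2 : ℝ) ^ r - 1)|) (by
      intro D _ _ hR
      have h3 := f1_card (A := A) c (by positivity) hR
      have h4 : ((Nat.card (Bd c A D) : ℕ) : ℝ) ≤ 2 ^ (2 + r) := by exact_mod_cast h3
      unfold Wt
      rw [abs_div, abs_mul]
      refine div_le_div_of_nonneg_right ?_ (abs_nonneg _)
      refine mul_le_mul_of_nonneg_left ?_ (abs_nonneg _)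
      rw [abs_of_nonneg (by positivity)]
      exact h4)
  have hlaw := fun (ε : ℝ) (hε : 0 < ε) => lawb (A := A) (c := c) hq hc h r ε hε
  have hX : ∀ n, N' ≤ n → 0 < ((Cls (dl A) n).card : ℝ) := by
    intro n hn
    rw [← hset]
    exact lt_of_lt_of_le (mul_pos hκ (pow_pos hq0 n)) (hN' n hn)
  have hS := f1_lim2 (C := H3.FS.alt r 1 / (4 * ((2 : ℝ) ^ r - 1))) hX hlaw
  have hlimval : H3.FS.alt r 1 / (4 * ((2 : ℝ) ^ r - 1)) * (kp A * ((2 : ℝ) ^ r - 1) *
      (H94.PN.wt 2 2 r / H94.PN.Sm 2 2 0)) = Ty r * (kp A / 4 * H3.FS.alt r 1) := by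
    rw [H94.PN.wt2_eul]
    rcases Nat.eq_zero_or_pos r with hr | hr
    · subst hr
      rw [f1_alt]
      simp
    · have h5 : (1 : ℝ) < 2 ^ r := one_lt_pow₀ one_lt_two (by omega)
      have h6 : (2 : ℝ) ^ r - 1 ≠ 0 := by linarith
      unfold Ty
      field_simp
  rw [hlimval] at hS
  refine f1_lim (b := fun n => H3.FS.alt r 1 / (4 * ((2 : ℝ) ^ r - 1)) *
    ∑ D ∈ (Cls (dl A) n).filter (fun D => H94.PN.rkS 2 1 c A D = r), (Nat.card (Bd c A D) : ℝ))
    hq0 hκ hN' ?_ ?_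
  · refine hfrm.congr' ?_
    filter_upwards [eventually_ge_atTop 1] with n hn
    congr 1
    rw [Finset.sum_sub_distrib]
    congr 1
    · rw [Finset.sum_boole]
      congr 1
      rw [← Set.ncard_coe_finset]
      congr 1
      ext D
      simp only [Finset.coe_filter, Finset.mem_filter, Set.mem_ofPred_eq, and_assoc]
    · rw [Finset.mul_sum]
      refine Finset.sum_congr ?_ fun D _ => ?_
      · ext D
        simp only [Finset.mem_filter, mem_Sq, mem_Cls]
        constructor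
        · rintro ⟨⟨h7, h8, h9⟩, h10, h11⟩
          refine ⟨⟨h7, h8, h9, h10⟩, ?_⟩
          exact (H94.PN.rkS_spec hq (by norm_num) (by norm_num) hc hA hn
            (mem_Cls.2 ⟨h7, h8, h9, h10⟩) r).1 h11
        · rintro ⟨⟨h7, h8, h9, h10⟩, h11⟩
          refine ⟨⟨h7, h8, h9⟩, h10, ?_⟩
          exact (H94.PN.rkS_spec hq (by norm_num) (by norm_num) hc hA hn
            (mem_Cls.2 ⟨h7, h8, h9, h10⟩) r).2 h11
      · unfold Wt
        ring
  · refine hS.congr fun n => ?_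
    rw [hset]

end

end Pool.Agent.H64.RO
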