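import Pool.Agent.H64.RO.Mo2
import Pool.Agent.H94.PN.LAW2

set_option autoImplicit false

/-!
# [H64 RO Law] The number of the classes with `4 ∤ nu` for a given rank

Copy of `law2c`, `law2` (`H94/PN/LAW2.lean`).
* `wb_bound`: from `wt_bound (b := 2) (q := 2)`: `wt 2 2 r * 2 ^ (r (r + 1) / 2) ≤ 4 * 2 ^ r`, `r = 2 t + p`: `4 ^ (t (t + 1) / 2) = 2 ^ (t (t + 1))`; the exponents: `p = 0`: `4 t + t (t + 1) - t (2 t + 1) = 4 t - t ^ 2 ≤ 4`;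
  `p = 1`: `2 (2 t + 1) + t (t + 1) - (2 t + 1) (t + 1) = 1 + 2 t - t ^ 2 ≤ 2`.  So the left side is `≤ 4 * 2 ^ 4`.
* `lawbc`: `p = r % 2`, `lawg` with `Q = 4`, `ι = F[X] × ℕ`, `Z n` = the pairs `(D, i)`, `D ∈ Cls`, `rkS % 2 = p`, `i < card (Bd c A D)`, `s (D, i) = rkS / 2`, `T n = card {D ∈ Cls | rkS % 2 = p}`, `E n = q ^ n`, `w t = 2 kp A (2 ^ (2 t + p) - 1) wt 2 2 (2 t + p) / Sm 2 2 0`
  (`C0 = 2 kp 64 / Sm 2 2 0`).  `∑ z ∈ Z n, (4 ^ s) ^ k = ∑ D, card Bd * (4 ^ (rkS / 2)) ^ k = 2 ^ (- p k) ∑ D, card Bd * (2 ^ rkS) ^ k`: `mo2`.  `∑' t, w t (4 ^ t) ^ k = kp 2 ^ (- p k) (2 / Sm 2 2 0) ∑' t, wt (2 t + p) ((2 ^ (2 t + p)) ^ (k + 1) - (2 ^ (2 t + p)) ^ k)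
  = kp 2 ^ (- p k) (Lk (k + 1) - Lk k)` (`sm_parity`, `lk_sm2`).  `#{z ∈ Z n | s z = r / 2} = ∑_{rkS = r} card Bd`.
* `lawb`: `lawbc` and `half2` (a pair `Dtc 2 A i k` from `fam_ex`, `fam_dtv`), as `law2`.
-/

namespace Pool.Agent.H64.RO

open Polynomial
open Pool.Agent.H94.PL
open Pool.Agent.H94.PM
open Pool.Agent.H94.PN
open Pool.Agent.H94.PC (Mo Sq Pr pf om Mn mem_Mo mem_Sq mem_Pr mem_pf mem_pf')

theorem wb_bound {p : ℕ} (hp : p < 2) (t : ℕ) :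
    ((2 : ℝ) ^ (2 * t + p) - 1) * wt 2 2 (2 * t + p) * (4 : ℝ) ^ (t * (t + 1) / 2) ≤ 64 := by
  have h1 := wt_bound (b := 2) (q := 2) (by norm_num) le_rfl (2 * t + p)
  have hpos : 0 < wt 2 2 (2 * t + p) := wt_pos (by norm_num) (by norm_num) _
  have h4 : (4 : ℝ) ^ (t * (t + 1) / 2) = 2 ^ (t * (t + 1)) := by
    have h5 : 2 * (t * (t + 1) / 2) = t * (t + 1) :=
      Nat.two_mul_div_two_of_even (Nat.even_mul_succ_self t)
    rw [show (4 : ℝ) = 2 ^ 2 by norm_num, ← pow_mul, h5]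
  have hexp : 2 * (2 * t + p) + t * (t + 1) ≤ 4 + (2 * t + p) * (2 * t + p + 1) / 2 := by
    have h6 : (2 * t + p) * (2 * t + p + 1) / 2 = if p = 0 then t * (2 * t + 1)
        else (2 * t + 1) * (t + 1) := by
      interval_cases p
      · rw [if_pos rfl]
        have : (2 * t + 0) * (2 * t + 0 + 1) = 2 * (t * (2 * t + 1)) := by ring
        rw [this]
        exact Nat.mul_div_cancel_left _ (by norm_num)
      · rw [if_neg (by norm_num)]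
        have : (2 * t + 1) * (2 * t + 1 + 1) = 2 * ((2 * t + 1) * (t + 1)) := by ring
        rw [this]
        exact Nat.mul_div_cancel_left _ (by norm_num)
    rw [h6]
    interval_cases p
    · rw [if_pos rfl]
      zify
      nlinarith [sq_nonneg ((t : ℤ) - 2)]
    · rw [if_neg (by norm_num)]
      zify
      nlinarith [sq_nonneg ((t : ℤ) - 1), sq_nonneg (t : ℤ)]
  have h7 : (2 : ℝ) ^ (2 * t + p) * 2 ^ (2 * t + p) * 2 ^ (t * (t + 1)) ≤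
      16 * 2 ^ ((2 * t + p) * (2 * t + p + 1) / 2) := by
    calc (2 : ℝ) ^ (2 * t + p) * 2 ^ (2 * t + p) * 2 ^ (t * (t + 1))
        = 2 ^ (2 * (2 * t + p) + t * (t + 1)) := by
          rw [← pow_add, ← pow_add]
          congr 1
          ring
      _ ≤ 2 ^ (4 + (2 * t + p) * (2 * t + p + 1) / 2) :=
          pow_le_pow_right₀ (by norm_num) hexp
      _ = 16 * 2 ^ ((2 * t + p) * (2 * t + p + 1) / 2) := by rw [pow_add]; norm_num
  rw [h4]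
  have hX : (0 : ℝ) < 2 ^ ((2 * t + p) * (2 * t + p + 1) / 2) := by positivity
  have hY : (0 : ℝ) < 2 ^ (t * (t + 1)) := by positivity
  have hR : (0 : ℝ) < 2 ^ (2 * t + p) := by positivity
  have h8 : ((2 : ℝ) ^ (2 * t + p) - 1) * wt 2 2 (2 * t + p) * 2 ^ (t * (t + 1)) *
      2 ^ ((2 * t + p) * (2 * t + p + 1) / 2) ≤
      64 * 2 ^ ((2 * t + p) * (2 * t + p + 1) / 2) := by
    calc ((2 : ℝ) ^ (2 * t + p) - 1) * wt 2 2 (2 * t + p) * 2 ^ (t * (t + 1)) *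
        2 ^ ((2 * t + p) * (2 * t + p + 1) / 2)
        ≤ (2 : ℝ) ^ (2 * t + p) * wt 2 2 (2 * t + p) * 2 ^ (t * (t + 1)) *
        2 ^ ((2 * t + p) * (2 * t + p + 1) / 2) := by
          have : (2 : ℝ) ^ (2 * t + p) - 1 ≤ 2 ^ (2 * t + p) := by linarith
          gcongr
      _ = (2 : ℝ) ^ (2 * t + p) * (wt 2 2 (2 * t + p) * 2 ^ ((2 * t + p) * (2 * t + p + 1) / 2)) *
            2 ^ (t * (t + 1)) := by ring
      _ ≤ (2 : ℝ) ^ (2 * t + p) * (4 * 2 ^ (2 * t + p)) * 2 ^ (t * (t + 1)) :=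
          mul_le_mul_of_nonneg_right (mul_le_mul_of_nonneg_left h1 hR.le) hY.le
      _ = 4 * (2 ^ (2 * t + p) * 2 ^ (2 * t + p) * 2 ^ (t * (t + 1))) := by ring
      _ ≤ 4 * (16 * 2 ^ ((2 * t + p) * (2 * t + p + 1) / 2)) :=
          mul_le_mul_of_nonneg_left h7 (by norm_num)
      _ = 64 * 2 ^ ((2 * t + p) * (2 * t + p + 1) / 2) := by ring
  exact le_of_mul_le_mul_right h8 hX

variable {F : Type} [Field F] [Finite F] [DecidableEq (RatFunc F)] {A : Fin 3 → F[X]} {d : ℕ} {c : F}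

theorem fam_dtc (h : Fam A d) : Dtc 2 A 0 1 := by
  obtain ⟨v, hv, hvd⟩ := fam_ex h (i := 0) (k := 1) (by decide)
  refine ⟨by decide, v, (mem_pf' hv).2.1, ?_, fam_nd h hv (by decide) hvd⟩
  rw [fam_mul h hv (by decide) hvd]
  decide

private theorem law_q3 (hq : 2 ∣ Nat.card F - 1) : 3 ≤ Nat.card F := by
  have h1 : 1 < Nat.card F := Finite.one_lt_card
  omega

private theorem law_kp (A : Fin 3 → F[X]) : 0 ≤ kp A := by
  unfold kp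
  split_ifs <;> norm_num

theorem lawbc (hq : 2 ∣ Nat.card F - 1) (hc : c ≠ 0) (h : Fam A d) (r : ℕ) (ε : ℝ) (hε : 0 < ε) :
    ∃ n₀ : ℕ, ∀ n : ℕ, n₀ ≤ n →
      |∑ D ∈ (Cls (dl A) n).filter (fun D => rkS 2 1 c A D = r), (Nat.card (Bd c A D) : ℝ) -
        kp A * ((2 : ℝ) ^ r - 1) * (2 * (wt 2 2 r / Sm 2 2 0)) *
          (((Cls (dl A) n).filter fun D => rkS 2 1 c A D % 2 = r % 2).card : ℝ)| ≤
        ε * ((Cls (dl A) n).card : ℝ) := by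
  classical
  have hS : 0 < Sm 2 2 0 := sm_pos (by norm_num) (by norm_num) 0
  have hp : r % 2 < 2 := Nat.mod_lt _ (by norm_num)
  have hkp := law_kp A
  set p : ℕ := r % 2 with hpdef
  set E : ℕ → ℝ := fun n => (Nat.card F : ℝ) ^ n with hEdef
  set w : ℕ → ℝ := fun t => 2 * kp A * ((2 ^ (2 * t + p) - 1) * wt 2 2 (2 * t + p)) / Sm 2 2 0 with hw
  set Y : ℕ → Finset F[X] := fun n => (Cls (dl A) n).filter fun D => rkS 2 1 c A D % 2 = p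
    with hY
  set Z : ℕ → Finset ((_ : F[X]) × ℕ) := fun n =>
    (Y n).sigma fun D => Finset.range (Nat.card (Bd c A D)) with hZ
  have hwpos : ∀ t, 0 ≤ w t := fun t => by
    have := wt_pos (b := 2) (q := 2) (by norm_num) (by norm_num) (2 * t + p)
    have h2 : (1 : ℝ) ≤ 2 ^ (2 * t + p) := one_le_pow₀ (by norm_num)
    have h3 : (0 : ℝ) ≤ 2 ^ (2 * t + p) - 1 := by linarith
    simp only [hw]
    exact div_nonneg (mul_nonneg (mul_nonneg zero_le_two hkp) (mul_nonneg h3 this.le)) hS.le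
  have hwb : ∀ t, w t * (4 : ℝ) ^ (t * (t + 1) / 2) ≤ 2 * kp A * 64 / Sm 2 2 0 := fun t => by
    have h1 := wb_bound hp t
    have h2 : w t * (4 : ℝ) ^ (t * (t + 1) / 2) =
        2 * kp A * ((2 ^ (2 * t + p) - 1) * wt 2 2 (2 * t + p) * (4 : ℝ) ^ (t * (t + 1) / 2)) /
          Sm 2 2 0 := by
      simp only [hw]; ring
    rw [h2]
    apply div_le_div_of_nonneg_right _ hS.le
    exact mul_le_mul_of_nonneg_left h1 (mul_nonneg zero_le_two hkp)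
  have hT : ∀ n, 0 ≤ ((Y n).card : ℝ) := fun n => Nat.cast_nonneg _
  have hE : ∀ n, ((Y n).card : ℝ) ≤ E n := fun n => by
    refine le_trans ?_ (cls_le (dl A) n)
    exact_mod_cast Finset.card_le_card (Finset.filter_subset _ _)
  -- the moments of the weights
  have hmw : ∀ k : ℕ, ∑' t, w t * ((4 : ℝ) ^ t) ^ k =
      kp A * ((Lk 2 (k + 1) : ℝ) - (Lk 2 k : ℝ)) / (2 ^ p) ^ k := by
    intro k
    have h0 := (sm_parity (q := 2) (by norm_num) (k + 1) hp).sub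
      (sm_parity (q := 2) (by norm_num) k hp)
    have h1 := (h0.mul_left (2 * kp A / Sm 2 2 0 / (2 ^ p) ^ k)).tsum_eq
    have h2 : ∀ t : ℕ, w t * ((4 : ℝ) ^ t) ^ k =
        2 * kp A / Sm 2 2 0 / (2 ^ p) ^ k * (wt 2 2 (2 * t + p) * (2 ^ (2 * t + p)) ^ (k + 1) -
          wt 2 2 (2 * t + p) * (2 ^ (2 * t + p)) ^ k) := by
      intro t
      have h3 : ((2 : ℝ) ^ (2 * t + p)) ^ k = ((4 : ℝ) ^ t) ^ k * (2 ^ p) ^ k := by
        rw [pow_add, mul_pow, pow_mul 2 2 t]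
        norm_num
      have h4 : ((2 : ℝ) ^ p) ^ k ≠ 0 := pow_ne_zero _ (pow_ne_zero _ two_ne_zero)
      rw [pow_succ ((2 : ℝ) ^ (2 * t + p)) k, h3]
      simp only [hw]
      field_simp
    simp_rw [h2]
    rw [h1, lk_sm2 k, lk_sm2 (k + 1)]
    have h4 : ((2 : ℝ) ^ p) ^ k ≠ 0 := pow_ne_zero _ (pow_ne_zero _ two_ne_zero)
    field_simp
  have hM : ∀ (k : ℕ) (ε : ℝ), 0 < ε → ∃ n₀ : ℕ, ∀ n : ℕ, n₀ ≤ n →
      |∑ z ∈ Z n, ((4 : ℝ) ^ (rkS 2 1 c A z.1 / 2)) ^ k -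
        (∑' t, w t * ((4 : ℝ) ^ t) ^ k) * ((Y n).card : ℝ)| ≤ ε * E n := by
    intro k ε hε
    obtain ⟨n₀, hn₀⟩ := mo2 hq hc h hp k ε hε
    refine ⟨n₀, fun n hn => ?_⟩
    have h1 := hn₀ n hn
    rw [← Finset.sum_filter] at h1
    have hP : (1 : ℝ) ≤ (2 ^ p) ^ k := one_le_pow₀ (one_le_pow₀ (by norm_num))
    have hP0 : (0 : ℝ) < (2 ^ p) ^ k := pow_pos (pow_pos two_pos _) _
    have h2 : ∑ D ∈ Y n, (Nat.card (Bd c A D) : ℝ) * ((2 : ℝ) ^ rkS 2 1 c A D) ^ k =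
        (2 ^ p) ^ k * ∑ z ∈ Z n, ((4 : ℝ) ^ (rkS 2 1 c A z.1 / 2)) ^ k := by
      rw [hZ, Finset.sum_sigma, Finset.mul_sum]
      refine Finset.sum_congr rfl fun z hz => ?_
      have h3 : rkS 2 1 c A z % 2 = p := (Finset.mem_filter.1 hz).2
      have h4 : rkS 2 1 c A z = 2 * (rkS 2 1 c A z / 2) + p := by omega
      have h5 : (2 : ℝ) ^ rkS 2 1 c A z = 2 ^ p * 4 ^ (rkS 2 1 c A z / 2) := by
        conv_lhs => rw [h4]
        rw [pow_add, pow_mul]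
        norm_num [mul_comm]
      show _ = (2 ^ p) ^ k * ∑ s ∈ Finset.range (Nat.card (Bd c A z)),
        ((4 : ℝ) ^ (rkS 2 1 c A z / 2)) ^ k
      rw [Finset.sum_const, Finset.card_range, nsmul_eq_mul, h5, mul_pow]
      ring
    rw [h2] at h1
    rw [hmw k]
    have h6 : ∑ z ∈ Z n, ((4 : ℝ) ^ (rkS 2 1 c A z.1 / 2)) ^ k -
        kp A * ((Lk 2 (k + 1) : ℝ) - (Lk 2 k : ℝ)) / (2 ^ p) ^ k * ((Y n).card : ℝ) =
        ((2 ^ p) ^ k * ∑ z ∈ Z n, ((4 : ℝ) ^ (rkS 2 1 c A z.1 / 2)) ^ k -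
          kp A * ((Lk 2 (k + 1) : ℝ) - (Lk 2 k : ℝ)) * ((Y n).card : ℝ)) / (2 ^ p) ^ k := by
      field_simp
    rw [h6, abs_div, abs_of_pos hP0]
    exact (div_le_self (abs_nonneg _) hP).trans h1
  obtain ⟨κ, hκ, n₁, hn₁⟩ := card_Cls_ge3 (law_q3 hq) (dl A) (wl2_dl0 (fam_inj h))
  obtain ⟨n₂, hn₂⟩ := lawg (Q := 4) (s := fun z : (_ : F[X]) × ℕ => rkS 2 1 c A z.1 / 2)
    (by norm_num) hwpos hwb hT hE hM (r / 2) (ε * κ) (mul_pos hε hκ)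
  refine ⟨max n₁ n₂, fun n hn => ?_⟩
  have h1 := hn₂ n ((le_max_right _ _).trans hn)
  have h2 := hn₁ n ((le_max_left _ _).trans hn)
  have h3 : (((Z n).filter fun z => rkS 2 1 c A z.1 / 2 = r / 2).card : ℝ) =
      ∑ D ∈ (Cls (dl A) n).filter (fun D => rkS 2 1 c A D = r), (Nat.card (Bd c A D) : ℝ) := by
    have h5 : ((Z n).filter fun z => rkS 2 1 c A z.1 / 2 = r / 2) =
        ((Cls (dl A) n).filter fun D => rkS 2 1 c A D = r).sigma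
          fun D => Finset.range (Nat.card (Bd c A D)) := by
      ext z
      simp only [hZ, hY, Finset.mem_filter, Finset.mem_sigma]
      constructor
      · rintro ⟨⟨⟨ha, hb⟩, hd⟩, hc'⟩
        exact ⟨⟨ha, by omega⟩, hd⟩
      · rintro ⟨⟨ha, hb⟩, hd⟩
        exact ⟨⟨⟨ha, by rw [hb]⟩, hd⟩, by rw [hb]⟩
    rw [h5, Finset.card_sigma]
    simp
  have h4 : w (r / 2) = kp A * ((2 : ℝ) ^ r - 1) * (2 * (wt 2 2 r / Sm 2 2 0)) := by
    have h5 : 2 * (r / 2) + p = r := by omega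
    simp only [hw, h5]
    ring
  rw [h3, h4] at h1
  refine h1.trans ?_
  calc ε * κ * E n = ε * (κ * (Nat.card F : ℝ) ^ n) := by simp only [hEdef]; ring
    _ ≤ ε * ((Cls (dl A) n).card : ℝ) := mul_le_mul_of_nonneg_left h2 hε.le

theorem lawb (hq : 2 ∣ Nat.card F - 1) (hc : c ≠ 0) (h : Fam A d) (r : ℕ) (ε : ℝ) (hε : 0 < ε) :
    ∃ n₀ : ℕ, ∀ n : ℕ, n₀ ≤ n →
      |∑ D ∈ (Cls (dl A) n).filter (fun D => rkS 2 1 c A D = r), (Nat.card (Bd c A D) : ℝ) -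
        kp A * ((2 : ℝ) ^ r - 1) * (wt 2 2 r / Sm 2 2 0) * ((Cls (dl A) n).card : ℝ)| ≤
        ε * ((Cls (dl A) n).card : ℝ) := by
  classical
  have hS : 0 < Sm 2 2 0 := sm_pos (by norm_num) (by norm_num) 0
  have hwr : 0 < wt 2 2 r := wt_pos (by norm_num) (by norm_num) r
  have hp : r % 2 < 2 := Nat.mod_lt _ (by norm_num)
  have hkp := law_kp A
  have h2r : (0 : ℝ) ≤ (2 : ℝ) ^ r - 1 := by
    have : (1 : ℝ) ≤ 2 ^ r := one_le_pow₀ (by norm_num)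
    linarith
  obtain ⟨a, ha⟩ : ∃ a : ℝ, a = kp A * ((2 : ℝ) ^ r - 1) * (wt 2 2 r / Sm 2 2 0) := ⟨_, rfl⟩
  have ha0 : 0 ≤ a := by
    rw [ha]
    exact mul_nonneg (mul_nonneg hkp h2r) (div_pos hwr hS).le
  have ha1 : 0 < a + 1 := by linarith
  rw [← ha]
  obtain ⟨κ, hκ, n₁, hn₁⟩ := card_Cls_ge3 (law_q3 hq) (dl A) (wl2_dl0 (fam_inj h))
  obtain ⟨n₂, hn₂⟩ := lawbc hq hc h r (ε / 2) (half_pos hε)
  have hδ : 0 < ε * κ / (4 * (a + 1)) := div_pos (mul_pos hε hκ) (by linarith)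
  obtain ⟨n₃, hn₃⟩ := half2 hq (m := 3) (α := 1) (c := c) (A := A) (by decide) le_rfl (by decide) hc
    (fam_inj h) (fam_dtc h) hp (ε * κ / (4 * (a + 1))) hδ
  refine ⟨max n₁ (max n₂ n₃), fun n hn => ?_⟩
  have h1 := hn₁ n ((le_max_left _ _).trans hn)
  have h2 := hn₂ n (((le_max_left _ _).trans (le_max_right _ _)).trans hn)
  have h3 := hn₃ n (((le_max_right _ _).trans (le_max_right _ _)).trans hn)
  generalize (∑ D ∈ (Cls (dl A) n).filter (fun D => rkS 2 1 c A D = r), (Nat.card (Bd c A D) : ℝ)) = X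
    at h2 ⊢
  generalize (((Cls (dl A) n).filter fun D => rkS 2 1 c A D % 2 = r % 2).card : ℝ) = Y at h2 h3
  generalize ((Cls (dl A) n).card : ℝ) = N at h1 h2 h3 ⊢
  have h4 : X - a * N = (X - kp A * ((2 : ℝ) ^ r - 1) * (2 * (wt 2 2 r / Sm 2 2 0)) * Y) +
      2 * a * (Y - 1 / 2 * N) := by rw [ha]; ring
  rw [h4]
  refine (abs_add_le _ _).trans ?_
  have ha2 : 0 ≤ 2 * a := by linarith
  have h5 : |2 * a * (Y - 1 / 2 * N)| = 2 * a * |Y - 1 / 2 * N| := by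
    rw [abs_mul, abs_of_nonneg ha2]
  rw [h5]
  have h6 : 2 * a * |Y - 1 / 2 * N| ≤ 2 * a * (ε * κ / (4 * (a + 1)) * (Nat.card F : ℝ) ^ n) :=
    mul_le_mul_of_nonneg_left h3 ha2
  have h7 : 2 * a * (ε * κ / (4 * (a + 1)) * (Nat.card F : ℝ) ^ n) =
      (a / (a + 1)) * (ε / 2 * (κ * (Nat.card F : ℝ) ^ n)) := by
    field_simp
    ring
  have h8 : a / (a + 1) ≤ 1 := by
    rw [div_le_one ha1]
    linarith
  have h9 : (a / (a + 1)) * (ε / 2 * (κ * (Nat.card F : ℝ) ^ n)) ≤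
      1 * (ε / 2 * (κ * (Nat.card F : ℝ) ^ n)) :=
    mul_le_mul_of_nonneg_right h8 (mul_nonneg (half_pos hε).le
      (mul_nonneg hκ.le (pow_nonneg (Nat.cast_nonneg _) _)))
  have h10 : ε / 2 * (κ * (Nat.card F : ℝ) ^ n) ≤ ε / 2 * N :=
    mul_le_mul_of_nonneg_left h1 (half_pos hε).le
  linarith

end Pool.Agent.H64.RO
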