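import Pool.Agent.H64.RO.Cel
import Pool.Agent.H64.RO.Law
import Pool.Agent.H3.FS.FIS

set_option autoImplicit false

/-!
# [H64 RO Fin] The limits

`T D = IsCoprime D (dl A)`; `D ∈ Sq F n` and `T D` iff `D ∈ Cls (dl A) n` (`mem_Cls`, `mem_Sq`).  `Ty r = (∏' i, (1 + 1 / 2 ^ i))⁻¹ * ∏ i < r, 2 / (2 ^ (i + 1) - 1)` (`= wt 2 2 r / Sm 2 2 0`, `wt2_eul`).
* `fin_pos'`: `card_Cls_ge3`.
* `fin_T'`: `P` is prime to `dl A` if its degree is larger than those of the primes of `dl A` (`IsCoprime.mul_left`, ..).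
* `fin_I`: the exceptional set is a subset of the one in `H94.FS.in2` (`fam_gen`, `fam_inj`).
* `fin_rk'`: `law2` (`fam_gen`, `fam_dtc`), `rkS_spec`.
* `fin_0`: `H3.FS.frm` with this `T`, `H40.FS.out F h2 A .. T`, `fin_I`, `fin_rk'`, `fin_pos'`.
-/

namespace Pool.Agent.H64.RO

open Polynomial Filter
open Pool.Agent.H94.PC (Sq pf mem_Sq mem_pf mem_pf')
open Pool.Agent.H94.PL (dl Cls mem_Cls)
open Pool.Agent.H94.PN (SelC)
open Pool.Agent.H40.FS (Oc Ow S4C)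
open Pool.Agent.H74.FS (Pl)

/-- the share of the rank `r` -/
noncomputable def Ty (r : ℕ) : ℝ := (∏' i : ℕ, (1 + 1 / (2 : ℝ) ^ i))⁻¹ *
  ∏ i ∈ Finset.range r, (2 / ((2 : ℝ) ^ (i + 1) - 1))

section
variable {F : Type} [Field F] [Finite F] (h2 : (2 : F) ≠ 0) {A : Fin 3 → F[X]} {d : ℕ} (h : Fam A d)

omit [Finite F] in
theorem fin_cls0 [Finite F] (Δ : F[X]) (n : ℕ) :
    {D | D ∈ Sq F n ∧ IsCoprime D Δ} = (Cls Δ n : Set F[X]) := by
  ext D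
  simp only [Set.mem_setOf_eq, Finset.mem_coe, mem_Cls, mem_Sq]
  constructor
  · rintro ⟨⟨h1, h2, h3⟩, h4⟩
    exact ⟨h1, h2, h3, h4⟩
  · rintro ⟨h1, h2, h3, h4⟩
    exact ⟨⟨h1, h2, h3⟩, h4⟩

omit [Finite F] in
theorem fin_cls [Finite F] (Δ : F[X]) (n : ℕ) :
    {D | D ∈ Sq F n ∧ IsCoprime D Δ}.ncard = (Cls Δ n).card := by
  rw [fin_cls0, Set.ncard_coe_finset]

include h in
theorem fin_T' (D' P : F[X]) (hm : P.Monic) (hP : Irreducible P)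
    (hv : ∀ v ∈ pf (dl A), v.natDegree < P.natDegree) :
    IsCoprime (D' * P) (dl A) ↔ IsCoprime D' (dl A) := by
  classical
  have hdl : dl A ≠ 0 := H94.PM.wl2_dl0 (fam_inj h)
  have hPc : IsCoprime P (dl A) := by
    rw [hP.coprime_iff_not_dvd]
    intro hd
    have h1 : P ∈ pf (dl A) := (mem_pf hdl).2 ⟨hm, hP, hd⟩
    exact lt_irrefl _ (hv P h1)
  constructor
  · intro h1
    exact h1.of_mul_left_left
  · intro h1
    exact h1.mul_left hPc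

include h2 h in
theorem fin_pos' : ∃ κ : ℝ, 0 < κ ∧ ∃ N' : ℕ, ∀ n, N' ≤ n → κ * (Nat.card F : ℝ) ^ n ≤
    ({D | D ∈ Sq F n ∧ IsCoprime D (dl A)}.ncard : ℝ) := by
  have hq := H3.FS.fin_q h2
  have hdl : dl A ≠ 0 := H94.PM.wl2_dl0 (fam_inj h)
  have hq3 : 3 ≤ Nat.card F := by
    have h4 : 2 ≤ Nat.card F := Finite.one_lt_card
    omega
  obtain ⟨κ, hκ, N', hN'⟩ := H94.PM.card_Cls_ge3 (F := F) hq3 (dl A) hdl
  refine ⟨κ, hκ, N', fun n hn => ?_⟩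
  rw [fin_cls]
  exact hN' n hn

variable [DecidableEq (RatFunc F)] (c : F) (hc : c ≠ 0)

include h2 h hc in
theorem fin_I : Tendsto (fun n : ℕ => ({D | D ∈ Sq F n ∧ IsCoprime D (dl A) ∧
      ¬ ∃ P, H3.FS.Lg (dl A) n D P ∧ H94.FS.Idp 1 c A D P}.ncard : ℝ) / (Nat.card F : ℝ) ^ n)
    atTop (nhds 0) := by
  have hq := H3.FS.fin_q h2
  have h0 := H94.FS.in2 (α := 1) (c := c) (A := A) hq (by norm_num) hc (fam_inj h) (fam_gen h)
  refine squeeze_zero (fun n => by positivity) (fun n => ?_) h0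
  refine div_le_div_of_nonneg_right (Nat.cast_le.2 (Set.ncard_le_ncard ?_ ?_)) (by positivity)
  · rintro D ⟨h1, -, h3⟩
    exact ⟨h1, h3⟩
  · exact (Set.Finite.subset (Sq F n).finite_toSet fun D hD => hD.1)

include h2 h hc in
theorem fin_rk' (r : ℕ) : Tendsto (fun n : ℕ => ({D | D ∈ Sq F n ∧ IsCoprime D (dl A) ∧
      Nat.card (SelC 2 1 c A D) = 2 ^ (2 + r)}.ncard : ℝ) /
      {D | D ∈ Sq F n ∧ IsCoprime D (dl A)}.ncard) atTop (nhds (Ty r)) := by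
  classical
  have hq := H3.FS.fin_q h2
  have hA := fam_inj h
  have hdl : dl A ≠ 0 := H94.PM.wl2_dl0 hA
  have hq3 : 3 ≤ Nat.card F := by
    have h4 : 2 ≤ Nat.card F := Finite.one_lt_card
    omega
  have hq0 : (0 : ℝ) < Nat.card F := by exact_mod_cast (Nat.card_pos : 0 < Nat.card F)
  obtain ⟨κ, hκ, N', hN'⟩ := H94.PM.card_Cls_ge3 (F := F) hq3 (dl A) hdl
  rw [Metric.tendsto_atTop]
  intro ε hε
  obtain ⟨N, hN⟩ := H94.PN.law2 (α := 1) (c := c) (A := A) hq (by norm_num) (le_refl 3)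
    (by norm_num) hc hA (fam_gen h) (fam_dtc h) r (ε / 2) (by positivity)
  refine ⟨max N (max N' 1), fun n hn => ?_⟩
  have h1 := hN n ((le_max_left _ _).trans hn)
  have hn1 : 1 ≤ n := (le_max_right _ _).trans ((le_max_right _ _).trans hn)
  have hT : (0 : ℝ) < ((Cls (dl A) n).card : ℝ) :=
    lt_of_lt_of_le (by positivity) (hN' n ((le_max_left _ _).trans ((le_max_right _ _).trans hn)))
  have hset : {D | D ∈ Sq F n ∧ IsCoprime D (dl A) ∧ Nat.card (SelC 2 1 c A D) = 2 ^ (2 + r)}.ncard =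
      ((Cls (dl A) n).filter fun D => H94.PN.rkS 2 1 c A D = r).card := by
    rw [← Set.ncard_coe_finset]
    congr 1
    ext D
    simp only [Set.mem_setOf_eq, Finset.mem_coe, Finset.mem_filter, mem_Cls, mem_Sq]
    constructor
    · rintro ⟨⟨h1, h2, h3⟩, h4, h5⟩
      have h6 : D ∈ Cls (dl A) n := mem_Cls.2 ⟨h1, h2, h3, h4⟩
      exact ⟨⟨h1, h2, h3, h4⟩,
        (H94.PN.rkS_spec hq (by norm_num) (by norm_num) hc hA hn1 h6 r).1 h5⟩
    · rintro ⟨⟨h1, h2, h3, h4⟩, h5⟩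
      have h6 : D ∈ Cls (dl A) n := mem_Cls.2 ⟨h1, h2, h3, h4⟩
      exact ⟨⟨h1, h2, h3⟩, h4,
        (H94.PN.rkS_spec hq (by norm_num) (by norm_num) hc hA hn1 h6 r).2 h5⟩
  rw [H94.PN.wt2_eul] at h1
  rw [Real.dist_eq, hset, fin_cls]
  have h7 : |(((Cls (dl A) n).filter fun D => H94.PN.rkS 2 1 c A D = r).card : ℝ) /
      ((Cls (dl A) n).card : ℝ) - Ty r| * ((Cls (dl A) n).card : ℝ) ≤
      ε / 2 * ((Cls (dl A) n).card : ℝ) := by
    rw [← abs_of_pos hT, ← abs_mul, abs_of_pos hT, sub_mul, div_mul_cancel₀ _ hT.ne']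
    exact h1
  have h8 := le_of_mul_le_mul_right h7 hT
  linarith

variable [DecidableEq (Oc F)] [∀ w : Pl F, DecidableEq (Ow F w)]

include h2 h hc in
theorem fin_0 (r s : ℕ) : Tendsto (fun n : ℕ => ({D | D ∈ Sq F n ∧ IsCoprime D (dl A) ∧
      Nat.card (SelC 2 1 c A D) = 2 ^ (2 + r) ∧ Nat.card (S4C c A D) = 2 ^ (2 + s)}.ncard : ℝ) /
      {D | D ∈ Sq F n ∧ IsCoprime D (dl A)}.ncard) atTop (nhds (Ty r * H3.FS.alt r s)) := by
  have hA := fam_inj h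
  have hdl : dl A ≠ 0 := H94.PM.wl2_dl0 hA
  obtain ⟨κ, hκ, N', hN'⟩ := fin_pos' h2 h
  exact H3.FS.frm F h2 hdl (T := fun D => IsCoprime D (dl A))
    (R := fun D => Nat.card (SelC 2 1 c A D)) (S4 := fun D => Nat.card (S4C c A D))
    (Idp := fun D P => H94.FS.Idp 1 c A D P)
    (fun D' P h1 h3 h4 => fin_T' h D' P h1 h3 h4)
    (H40.FS.out F h2 A hA c hc fun D => IsCoprime D (dl A)) (fin_I h2 h c hc)
    (fun r => Ty r) (fun r => fin_rk' h2 h c hc r) ⟨κ, hκ, Filter.eventually_atTop.2 ⟨N', hN'⟩⟩ r s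

end

end Pool.Agent.H64.RO
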