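import Pool.Agent.H64.RO.Fi1

set_option autoImplicit false

/-!
# [H64 RO Fis] The sum over the ranks

* `fin_s`: `fis_gen` as in `H3/FS/FIS.lean` (`fis`) with `V n r` = the `D` with `R D = 2 ^ (2 + r)` and (`S4 D = 4` or `Qe D`), limit `Ty r (alt r 0 + kp / 4 alt r 1)` (`fin_0` with `s = 0`, `fin_1`: disjoint, `4 ≠ 8`); `fis_mass`.
-/

namespace Pool.Agent.H64.RO

open Polynomial Filter
open Pool.Agent.H94.PC (Sq pf mem_Sq mem_pf mem_pf')
open Pool.Agent.H94.PL (dl Cls mem_Cls)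
open Pool.Agent.H94.PN (SelC)
open Pool.Agent.H40.FS (Oc Ow S4C)
open Pool.Agent.H74.FS (Pl)

section
variable {F : Type} [Field F] [Finite F] (h2 : (2 : F) ≠ 0) {A : Fin 3 → F[X]} {d : ℕ} (h : Fam A d)
variable [DecidableEq (RatFunc F)] (c : F) (hc : c ≠ 0)
variable [DecidableEq (Oc F)] [∀ w : Pl F, DecidableEq (Ow F w)]

include h2 h hc in
theorem fin_s : Tendsto (fun n : ℕ => ({D | D ∈ Sq F n ∧ IsCoprime D (dl A) ∧
      (Nat.card (S4C c A D) = 4 ∨ Qe c A D)}.ncard : ℝ) /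
      {D | D ∈ Sq F n ∧ IsCoprime D (dl A)}.ncard) atTop
      (nhds (∑' r : ℕ, Ty r * (H3.FS.alt r 0 + kp A / 4 * H3.FS.alt r 1))) := by
  classical
  obtain ⟨κ, hκ, N', hN'⟩ := fin_pos' h2 h
  have hq0 : (0 : ℝ) < Nat.card F := by exact_mod_cast (Nat.card_pos : 0 < Nat.card F)
  have hfin : ∀ (n : ℕ) (p : F[X] → Prop), {D | D ∈ Sq F n ∧ p D}.Finite := fun n p =>
    (Sq F n).finite_toSet.subset fun D hD => hD.1
  set X : ℕ → Set F[X] := fun n => {D | D ∈ Sq F n ∧ IsCoprime D (dl A)} with hX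
  set U : ℕ → ℕ → Set F[X] := fun n r => {D | D ∈ Sq F n ∧ IsCoprime D (dl A) ∧
    Nat.card (SelC 2 1 c A D) = 2 ^ (2 + r)} with hU
  set V0 : ℕ → ℕ → Set F[X] := fun n r => {D | D ∈ Sq F n ∧ IsCoprime D (dl A) ∧
    Nat.card (SelC 2 1 c A D) = 2 ^ (2 + r) ∧ Nat.card (S4C c A D) = 2 ^ (2 + 0)} with hV0
  set V1 : ℕ → ℕ → Set F[X] := fun n r => {D | D ∈ Sq F n ∧ IsCoprime D (dl A) ∧
    Nat.card (SelC 2 1 c A D) = 2 ^ (2 + r) ∧ Qe c A D} with hV1
  set V : ℕ → ℕ → Set F[X] := fun n r => {D | D ∈ Sq F n ∧ IsCoprime D (dl A) ∧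
    Nat.card (SelC 2 1 c A D) = 2 ^ (2 + r) ∧ (Nat.card (S4C c A D) = 4 ∨ Qe c A D)} with hV
  set W : ℕ → Set F[X] := fun n => {D | D ∈ Sq F n ∧ IsCoprime D (dl A) ∧
    (Nat.card (S4C c A D) = 4 ∨ Qe c A D)} with hW
  have hXf : ∀ n, (X n).Finite := fun n => hfin n _
  have hUf : ∀ n r, (U n r).Finite := fun n r => hfin n _
  have hV0f : ∀ n r, (V0 n r).Finite := fun n r => hfin n _
  have hV1f : ∀ n r, (V1 n r).Finite := fun n r => hfin n _
  have hVf : ∀ n r, (V n r).Finite := fun n r => hfin n _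
  have hWf : ∀ n, (W n).Finite := fun n => hfin n _
  have hV01 : ∀ n r, ((V n r).ncard : ℝ) = (V0 n r).ncard + (V1 n r).ncard := by
    intro n r
    have h1 : V n r = V0 n r ∪ V1 n r := by
      ext D
      constructor
      · rintro ⟨hD1, hD2, hD3, hD4 | hD4⟩
        · exact Or.inl ⟨hD1, hD2, hD3, by rw [hD4]; norm_num⟩
        · exact Or.inr ⟨hD1, hD2, hD3, hD4⟩
      · rintro (⟨hD1, hD2, hD3, hD4⟩ | ⟨hD1, hD2, hD3, hD4⟩)
        · exact ⟨hD1, hD2, hD3, Or.inl (by rw [hD4]; norm_num)⟩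
        · exact ⟨hD1, hD2, hD3, Or.inr hD4⟩
    have h2 : Disjoint (V0 n r) (V1 n r) := by
      rw [Set.disjoint_left]
      rintro D ⟨-, -, -, hD4⟩ ⟨-, -, -, hD5, -⟩
      rw [hD4] at hD5
      norm_num at hD5
    rw [h1, Set.ncard_union_eq h2 (hV0f n r) (hV1f n r)]
    push_cast
    rfl
  have hinj : ∀ {D : F[X]} {r r' : ℕ}, Nat.card (SelC 2 1 c A D) = 2 ^ (2 + r) →
      Nat.card (SelC 2 1 c A D) = 2 ^ (2 + r') → r = r' := by
    intro D r r' h1 h3
    have := Nat.pow_right_injective le_rfl (h1.symm.trans h3)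
    omega
  -- sums over `r < R` are cardinalities of unions
  have hsum : ∀ (Y : ℕ → Set F[X]), (∀ r, (Y r).Finite) →
      (∀ r, ∀ D ∈ Y r, Nat.card (SelC 2 1 c A D) = 2 ^ (2 + r)) → ∀ R : ℕ,
      ∑ r ∈ Finset.range R, ((Y r).ncard : ℝ) = ((⋃ r ∈ Finset.range R, Y r).ncard : ℝ) := by
    intro Y hY hr R
    induction R with
    | zero => simp
    | succ R ih =>
      have hd1 : Disjoint (Y R) (⋃ r ∈ Finset.range R, Y r) := by
        rw [Set.disjoint_left]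
        intro D h1 h3
        rw [Set.mem_iUnion₂] at h3
        obtain ⟨r, hr1, hr3⟩ := h3
        have := hinj (hr R D h1) (hr r D hr3)
        rw [Finset.mem_range] at hr1
        omega
      have hf1 : (⋃ r ∈ Finset.range R, Y r).Finite :=
        (Finset.range R).finite_toSet.biUnion fun r _ => hY r
      rw [Finset.sum_range_succ, ih, Finset.range_add_one, Finset.set_biUnion_insert,
        Set.ncard_union_eq hd1 (hY R) hf1]
      push_cast
      ring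
  have hUs : ∀ n R, ∑ r ∈ Finset.range R, ((U n r).ncard : ℝ) =
      ((⋃ r ∈ Finset.range R, U n r).ncard : ℝ) := fun n R =>
    hsum (U n) (hUf n) (fun r D hD => hD.2.2) R
  have hVs : ∀ n R, ∑ r ∈ Finset.range R, ((V n r).ncard : ℝ) =
      ((⋃ r ∈ Finset.range R, V n r).ncard : ℝ) := fun n R =>
    hsum (V n) (hVf n) (fun r D hD => hD.2.2.1) R
  have hb : ∀ r, Tendsto (fun n => ((V n r).ncard : ℝ) / ((X n).ncard : ℝ)) atTop
      (nhds (Ty r * (H3.FS.alt r 0 + kp A / 4 * H3.FS.alt r 1))) := by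
    intro r
    have h3 := (fin_0 h2 h c hc r 0).add (fin_1 h2 h c hc r)
    rw [← mul_add] at h3
    refine h3.congr fun n => ?_
    rw [hV01, add_div]
  refine H3.FS.fis_gen (a := fun n r => ((U n r).ncard : ℝ) / ((X n).ncard : ℝ))
    (b := fun n r => ((V n r).ncard : ℝ) / ((X n).ncard : ℝ))
    (β := fun n => ((W n).ncard : ℝ) / ((X n).ncard : ℝ))
    (fin_rk' h2 h c hc) hb
    (fun n r => by positivity) (fun n r => ?_) (fun n R => ?_) ?_ H3.FS.fis_mass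
  · exact div_le_div_of_nonneg_right (Nat.cast_le.2 (Set.ncard_le_ncard
      (fun D hD => ⟨hD.1, hD.2.1, hD.2.2.1⟩) (hUf n r))) (by positivity)
  · rw [← Finset.sum_div, hVs]
    refine div_le_div_of_nonneg_right (Nat.cast_le.2 (Set.ncard_le_ncard ?_ (hWf n)))
      (by positivity)
    intro D hD
    rw [Set.mem_iUnion₂] at hD
    obtain ⟨r, -, hD⟩ := hD
    exact ⟨hD.1, hD.2.1, hD.2.2.2⟩
  · refine eventually_atTop.2 ⟨N', fun n hn R => ?_⟩
    have hT : (0 : ℝ) < ((X n).ncard : ℝ) := lt_of_lt_of_le (by positivity) (hN' n hn)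
    rw [← Finset.sum_div, ← Finset.sum_div, hVs, hUs, ← sub_nonneg]
    have e : ((⋃ r ∈ Finset.range R, V n r).ncard : ℝ) / ((X n).ncard : ℝ) +
        (1 - ((⋃ r ∈ Finset.range R, U n r).ncard : ℝ) / ((X n).ncard : ℝ)) -
        ((W n).ncard : ℝ) / ((X n).ncard : ℝ) =
        (((⋃ r ∈ Finset.range R, V n r).ncard : ℝ) + (X n).ncard -
          ((⋃ r ∈ Finset.range R, U n r).ncard : ℝ) - (W n).ncard) / (X n).ncard := by
      field_simp
      ring
    rw [e]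
    refine div_nonneg ?_ hT.le
    have h3 : (W n ∪ ⋃ r ∈ Finset.range R, U n r) ⊆ X n := by
      rintro D (hD | hD)
      · exact ⟨hD.1, hD.2.1⟩
      · rw [Set.mem_iUnion₂] at hD
        obtain ⟨r, -, hD⟩ := hD
        exact ⟨hD.1, hD.2.1⟩
    have h4 : (W n ∩ ⋃ r ∈ Finset.range R, U n r) ⊆ ⋃ r ∈ Finset.range R, V n r := by
      rintro D ⟨hD, hD'⟩
      rw [Set.mem_iUnion₂] at hD' ⊢
      obtain ⟨r, hr, hD'⟩ := hD'
      exact ⟨r, hr, hD.1, hD.2.1, hD'.2.2, hD.2.2⟩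
    have h5 := Set.ncard_le_ncard h3 (hXf n)
    have h6 := Set.ncard_le_ncard h4
      ((Finset.range R).finite_toSet.biUnion fun r _ => hVf n r)
    have h7 := Set.ncard_union_add_ncard_inter (W n) (⋃ r ∈ Finset.range R, U n r) (hWf n)
      ((Finset.range R).finite_toSet.biUnion fun r _ => hUf n r)
    have h8 : (W n).ncard + (⋃ r ∈ Finset.range R, U n r).ncard ≤
        (X n).ncard + (⋃ r ∈ Finset.range R, V n r).ncard := by omega
    have h9 : ((W n).ncard : ℝ) + ((⋃ r ∈ Finset.range R, U n r).ncard : ℝ) ≤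
        ((X n).ncard : ℝ) + ((⋃ r ∈ Finset.range R, V n r).ncard : ℝ) := by exact_mod_cast h8
    linarith

end

end Pool.Agent.H64.RO
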