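import Pool.Agent.H64.RO.Nu
import Pool.Agent.H94.PN.GENF
import Pool.Agent.H94.PM.WL2

set_option autoImplicit false

/-!
# [H64 RO Fml] Facts on the family

`dl A = (A 0 - A 1) (A 0 - A 2) (A 1 - A 2)` (`prs 3`), squarefree.
* `fam_inj`: `natDegree (A i - A k) = d ≥ 1`, so `≠ 0`.
* `fam_one`: a prime `v` of `dl A` divides exactly one of the differences (if it divided two, `v ^ 2 ∣ dl A`), with multiplicity one; `ed A v` is one of the two indices.
* `fam_sum`: the primes `v ∈ pf (dl A)` with `v ∣ A i - A k` (`i ≠ k`) have degrees with sum `d`: `A i - A k` is squarefree of degree `d`, its monic prime factors are these (`H94.PC`: there is a formula for the product of `pf` of a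
  squarefree polynomial, `PC.part_prod`, or `UniqueFactorizationMonoid.prod_normalizedFactors`/`Finset.prod` of `pf` and `natDegree_prod`).
* `fam_L`: `L_v σ` for `v ∣ A i - A k`: `(lapv 2 A v σ).1 l = σ i + σ k` for `l = i, k`, `0` for the third index.
* `fam_gen`: with `v ∣ A 0 - A 1` and `v' ∣ A 0 - A 2` (they exist since `d ≥ 1`) the operators `L_v x = (x 0 + x 1) e`, `e = ep 0 1`, `L_v' x = (x 0 + x 2) e'`, `e' = ep 0 2`: in the basis `e, e'` of `XX 3 2`: `L_v e = 0`, `L_v e' = e`,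
  `L_v' e = e'`, `L_v' e' = 0`; products: the four matrix units.  So they generate `End`.
* `fam_dtv`: every prime of `dl A` is detecting.
-/

namespace Pool.Agent.H64.RO

open Polynomial
open Pool.Agent.H94.PL
open Pool.Agent.H94.PM
open Pool.Agent.H94.PN
open Pool.Agent.H94.PC (Mo Sq Pr pf om Mn mem_Mo mem_Sq mem_Pr mem_pf mem_pf')

variable {F : Type} [Field F] {A : Fin 3 → F[X]} {d : ℕ}

theorem fam_inj (h : Fam A d) : ∀ i k, i ≠ k → A i ≠ A k := by
  intro i k hik he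
  have h1 := h.deg i k hik
  rw [he, sub_self, natDegree_zero] at h1
  have h2 := h.pos
  omega

section
variable [Finite F]

theorem fam_kk {v : F[X]} (hv : v ∈ pf (dl A)) : ∃ k : Fin 3, k ≠ ed A v ∧ v ∣ A (ed A v) - A k := by
  classical
  by_cases h1 : v ∣ A 0 - A 1 ∨ v ∣ A 0 - A 2
  · have h2 : ed A v = 0 := by
      unfold ed
      rw [if_pos h1]
    rw [h2]
    rcases h1 with h1 | h1
    · exact ⟨1, by decide, h1⟩
    · exact ⟨2, by decide, h1⟩
  · have h2 : ed A v = 1 := by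
      unfold ed
      rw [if_neg h1]
    rw [h2]
    obtain ⟨p, hp, hd⟩ := exists_pr A ⟨v, hv⟩
    have h3 := mem_prs.1 hp
    obtain ⟨a, b⟩ := p
    have h4 : ∀ a b : Fin 3, a < b → (a = 0 ∧ b = 1) ∨ (a = 0 ∧ b = 2) ∨ (a = 1 ∧ b = 2) := by decide
    rcases h4 a b h3 with ⟨ha, hb⟩ | ⟨ha, hb⟩ | ⟨ha, hb⟩
    · subst ha
      subst hb
      exact absurd (Or.inl hd) h1
    · subst ha
      subst hb
      exact absurd (Or.inr hd) h1
    · subst ha
      subst hb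
      exact ⟨2, by decide, hd⟩

theorem fam_mul (h : Fam A d) {v : F[X]} (hv : v ∈ pf (dl A)) {i k : Fin 3} (hik : i ≠ k)
    (hd : v ∣ A i - A k) : multiplicity v (A i - A k) = 1 := by
  have h1 : ¬ v ^ (1 + 1) ∣ A i - A k := by
    intro h2
    have h3 : v * v ∣ dl A := by
      rw [← pow_two]
      exact h2.trans (dvd_dl hik)
    exact (mem_pf' hv).2.1.not_isUnit (h.sqf v h3)
  exact multiplicity_eq_of_dvd_of_not_dvd (by rwa [pow_one]) h1

theorem fam_nd (h : Fam A d) {v : F[X]} (hv : v ∈ pf (dl A)) {i k : Fin 3} (hik : i ≠ k)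
    (hd : v ∣ A i - A k) (a b : Fin 3) (hab : a ≠ b) (g1 : ¬ (a = i ∧ b = k))
    (g2 : ¬ (a = k ∧ b = i)) : ¬ v ∣ A a - A b := by
  intro h1
  have h2 := pr_unique h.sqf ⟨v, hv⟩ hik hd
  have h3 := pr_unique h.sqf ⟨v, hv⟩ hab h1
  rcases h2 with ⟨e1, e2⟩ | ⟨e1, e2⟩
  · rcases h3 with ⟨e3, e4⟩ | ⟨e3, e4⟩
    · exact g1 ⟨e3.trans e1.symm, e4.trans e2.symm⟩
    · exact g2 ⟨e3.trans e2.symm, e4.trans e1.symm⟩
  · rcases h3 with ⟨e3, e4⟩ | ⟨e3, e4⟩
    · exact g2 ⟨e3.trans e2.symm, e4.trans e1.symm⟩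
    · exact g1 ⟨e3.trans e1.symm, e4.trans e2.symm⟩

theorem fam_one (h : Fam A d) {v : F[X]} (hv : v ∈ pf (dl A)) : ∃ k : Fin 3, k ≠ ed A v ∧ v ∣ A (ed A v) - A k ∧
    multiplicity v (A (ed A v) - A k) = 1 ∧ multiplicity v (A k - A (ed A v)) = 1 ∧
    ∀ a b, a ≠ b → ¬ (a = ed A v ∧ b = k) → ¬ (a = k ∧ b = ed A v) → ¬ v ∣ A a - A b := by
  obtain ⟨k, hk, hd⟩ := fam_kk hv
  have h1 := fam_mul h hv hk.symm hd
  refine ⟨k, hk, hd, h1, ?_, fam_nd h hv hk.symm hd⟩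
  rw [← neg_sub, multiplicity_neg]
  exact h1

open Classical in
theorem fam_sum (h : Fam A d) {i k : Fin 3} (hik : i ≠ k) :
    ∑ v ∈ pf (dl A), (if v ∣ A i - A k then v.natDegree else 0) = d := by
  have hne := ne_of_sqf h.sqf hik
  have hsq : Squarefree (A i - A k) := h.sqf.squarefree_of_dvd (dvd_dl hik)
  rw [← Finset.sum_filter]
  have e : (pf (dl A)).filter (fun v => v ∣ A i - A k) = pf (A i - A k) := by
    ext Q
    rw [Finset.mem_filter, mem_pf h.sqf.ne_zero, mem_pf hne]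
    constructor
    · rintro ⟨⟨h1, h2, _⟩, h3⟩
      exact ⟨h1, h2, h3⟩
    · rintro ⟨h1, h2, h3⟩
      exact ⟨⟨h1, h2, h3.trans (dvd_dl hik)⟩, h3⟩
  rw [e, natDegree_factor hsq, h.deg i k hik]

theorem fam_lap (h : Fam A d) {v : F[X]} (hv : v ∈ pf (dl A)) {i k : Fin 3} (hik : i ≠ k)
    (hd : v ∣ A i - A k) (σ : XX 3 2) : lapv 2 A v σ = (σ.1 i - σ.1 k) • ep 2 i k := by
  have h1 := lap_single (add_zero 0) rfl (mlt 2 A v) (fun _ _ _ => mlt_symm A v _ _) hik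
    (fun a b hab g1 g2 => by
      unfold mlt
      rw [multiplicity_eq_zero.2 (fam_nd h hv hik hd a b hab g1 g2), Nat.cast_zero]) σ
  have h3 : mlt 2 A v i k = 1 := by
    unfold mlt
    rw [fam_mul h hv hik hd, Nat.cast_one]
  rw [h3, one_mul] at h1
  exact h1

/-- the Laplace operator of `v` -/
theorem fam_L (χ : LChar F 2) (h : Fam A d) (c : F)
    (Wl : pf (dl A) → ZMod 2 → Submodule (ZMod 2) (XX 3 2 × XX 3 2))
    (Wi : ZMod 2 → Submodule (ZMod 2) (XX 3 2 × XX 3 2)) (v : pf (dl A)) {k : Fin 3} (hk : k ≠ ed A v.1)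
    (hv : v.1 ∣ A (ed A v.1) - A k) (σ : XX 3 2) (l : Fin 3) :
    ((DC χ c A Wl Wi).L v σ).1 l = if l = ed A v.1 ∨ l = k then σ.1 (ed A v.1) + σ.1 k else 0 := by
  have hne : ed A v.1 ≠ k := hk.symm
  have h1 : (DC χ c A Wl Wi).L v σ = (σ.1 (ed A v.1) - σ.1 k) • ep 2 (ed A v.1) k :=
    fam_lap h v.2 hne hv σ
  rw [h1]
  change (σ.1 (ed A v.1) - σ.1 k) * ((if l = ed A v.1 then 1 else 0) - (if l = k then 1 else 0)) = _
  rw [CharTwo.sub_eq_add, CharTwo.sub_eq_add]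
  by_cases a1 : l = ed A v.1
  · have a2 : l ≠ k := by
      rw [a1]
      exact hne
    rw [if_pos a1, if_neg a2, if_pos (Or.inl a1), add_zero, mul_one]
  · by_cases a2 : l = k
    · rw [if_neg a1, if_pos a2, if_pos (Or.inr a2), zero_add, mul_one]
    · rw [if_neg a1, if_neg a2, if_neg (not_or.2 ⟨a1, a2⟩), add_zero, mul_zero]

theorem fam_ex0 (h : Fam A d) {i k : Fin 3} (hik : i ≠ k) : ∃ v ∈ pf (dl A), v ∣ A i - A k := by
  have h1 : ¬ IsUnit (A i - A k) := by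
    intro hu
    have h2 := natDegree_eq_zero_of_isUnit hu
    have h3 := h.deg i k hik
    have h4 := h.pos
    omega
  obtain ⟨g, hm, hi, hg⟩ := exists_monic_irreducible_factor _ h1
  exact ⟨g, (mem_pf h.sqf.ne_zero).2 ⟨hm, hi, hg.trans (dvd_dl hik)⟩, hg⟩

omit [Finite F] in
theorem xx_dec (x : XX 3 2) : x = x.1 1 • ep 2 0 1 + x.1 2 • ep 2 0 2 := by
  have h1 : ∀ a b c : ZMod 2, a + b + c = 0 → a = b + c := by decide
  have h2 := XX_sum x
  rw [Fin.sum_univ_three] at h2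
  apply Subtype.ext
  funext k
  change x.1 k = x.1 1 * (ep 2 0 1).1 k + x.1 2 * (ep 2 0 2).1 k
  rw [ep_apply, ep_apply]
  have h4 : ∀ k : Fin 3, k = 0 ∨ k = 1 ∨ k = 2 := by decide
  rcases h4 k with hk | hk | hk
  · subst hk
    rw [h1 _ _ _ h2]
    simp
  · subst hk
    have h5 : ∀ b c : ZMod 2, b = b * (0 - 1) + c * (0 - 0) := by decide
    rw [if_neg (by decide), if_pos rfl, if_neg (by decide)]
    exact h5 _ _
  · subst hk
    have h5 : ∀ b c : ZMod 2, c = b * (0 - 0) + c * (0 - 1) := by decide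
    rw [if_neg (by decide), if_neg (by decide), if_pos rfl]
    exact h5 _ _

theorem fam_gen (h : Fam A d) : GenA 2 A := by
  obtain ⟨v, hv, hvd⟩ := fam_ex0 h (i := 0) (k := 1) (by decide)
  obtain ⟨w, hw, hwd⟩ := fam_ex0 h (i := 0) (k := 2) (by decide)
  have c3 : ∀ a b c : ZMod 2, a + b + c = 0 → a - b = c ∧ a - c = b := by decide
  have hL : ∀ x : XX 3 2, lapv 2 A v x = x.1 2 • ep 2 0 1 := by
    intro x
    rw [fam_lap h hv (by decide) hvd x]
    have h2 := XX_sum x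
    rw [Fin.sum_univ_three] at h2
    rw [(c3 _ _ _ h2).1]
  have hL' : ∀ x : XX 3 2, lapv 2 A w x = x.1 1 • ep 2 0 2 := by
    intro x
    rw [fam_lap h hw (by decide) hwd x]
    have h2 := XX_sum x
    rw [Fin.sum_univ_three] at h2
    rw [(c3 _ _ _ h2).2]
  have e2 : (ep 2 0 1 : XX 3 2).1 1 = 1 := by
    rw [ep_apply]
    decide
  have e3 : (ep 2 0 2 : XX 3 2).1 2 = 1 := by
    rw [ep_apply]
    decide
  unfold GenA
  rw [eq_top_iff]
  rintro f -
  set S := Algebra.adjoin (ZMod 2) {f : Module.End (ZMod 2) (XX 3 2) |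
    ∃ v : F[X], Irreducible v ∧ f = lapv 2 A v} with hS
  have mv : lapv 2 A v ∈ S := Algebra.subset_adjoin ⟨v, (mem_pf' hv).2.1, rfl⟩
  have mw : lapv 2 A w ∈ S := Algebra.subset_adjoin ⟨w, (mem_pf' hw).2.1, rfl⟩
  have hf : f = (f (ep 2 0 1)).1 1 • ((lapv 2 A v : Module.End (ZMod 2) (XX 3 2)) * lapv 2 A w) +
      (f (ep 2 0 1)).1 2 • lapv 2 A w + (f (ep 2 0 2)).1 1 • lapv 2 A v +
      (f (ep 2 0 2)).1 2 • ((lapv 2 A w : Module.End (ZMod 2) (XX 3 2)) * lapv 2 A v) := by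
    refine LinearMap.ext fun x => ?_
    have h1 : f x = x.1 1 • f (ep 2 0 1) + x.1 2 • f (ep 2 0 2) := by
      conv_lhs => rw [xx_dec x]
      rw [map_add, map_smul, map_smul]
    rw [h1]
    conv_lhs => rw [xx_dec (f (ep 2 0 1)), xx_dec (f (ep 2 0 2))]
    change _ = (f (ep 2 0 1)).1 1 • lapv 2 A v (lapv 2 A w x) + (f (ep 2 0 1)).1 2 • lapv 2 A w x +
      (f (ep 2 0 2)).1 1 • lapv 2 A v x + (f (ep 2 0 2)).1 2 • lapv 2 A w (lapv 2 A v x)
    rw [hL' x, hL x, map_smul, map_smul, hL, hL', e2, e3, one_smul, one_smul]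
    module
  rw [hf]
  exact S.add_mem (S.add_mem (S.add_mem (S.smul_mem (S.mul_mem mv mw) _) (S.smul_mem mw _))
    (S.smul_mem mv _)) (S.smul_mem (S.mul_mem mw mv) _)

theorem fam_dtv (h : Fam A d) {v : F[X]} (hv : v ∈ pf (dl A)) : Dtv A v := by
  obtain ⟨k, hk, hd, h1, h2, h3⟩ := fam_one h hv
  refine ⟨(mem_pf' hv).2.1, ed A v, k, hk.symm, ?_, h3⟩
  rw [h1]
  decide

theorem fam_ex (h : Fam A d) {i k : Fin 3} (hik : i ≠ k) : ∃ v ∈ pf (dl A), v ∣ A i - A k :=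
  fam_ex0 h hik

end

end Pool.Agent.H64.RO
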