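import Pool.Agent.H64.RO.Hcg

set_option autoImplicit false

/-!
# [H64 RO Fra] One cell, for an event

Copy of `H3/FS/FRA.lean`: `S4 (D' P) = 2 ^ (2 + s)` is replaced by `Q (D' P)`, `kc e = 2 ^ s` by `E e`, the finset `E1` by the `e` which vanish outside `prs r` and satisfy `E e`, `alt_eq` by `E1.card = Enm E = W (D' P₁) 2 ^ (#prs r)` (`HCg.data`, `P₁` a prime of the cell; so `W` is constant
on the cell).  `E1.card ≤ 2 ^ (#prs r)` as in `alt_le_one`.  If the cell is empty both sides are `0`.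
-/

namespace Pool.Agent.H64.RO

open Polynomial
open Pool.Agent.H3.FS (prs Gd Ind Rt CellD Lg)

private theorem fra_prod {F : Type} [Field F] [Finite F] {D : F[X]} :
    ∏ v ∈ H94.PC.pf D, v ∣ D := by
  refine Finset.prod_dvd_of_coprime ?_ fun v hv => (H94.PC.mem_pf' hv).2.2
  intro v hv w hw hne
  have hv' := H94.PC.mem_pf' (Finset.mem_coe.1 hv)
  have hw' := H94.PC.mem_pf' (Finset.mem_coe.1 hw)
  show IsCoprime v w
  rw [hv'.2.1.coprime_iff_not_dvd]
  intro h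
  exact hne (eq_of_monic_of_associated hv'.1 hw'.1
    ((hv'.2.1.dvd_irreducible_iff_associated hw'.2.1).1 h))

private theorem fra_Rt {F : Type} [Field F] [Finite F] {n m : ℕ} (hm : 1 ≤ m) {P : F[X]}
    (hP : P ∈ H94.PC.Pr F m) (a : Fin n → F[X]) (hs : ∀ i, ∃ ρ, P ∣ ρ ^ 2 - a i) :
    (Rt m P a).Nonempty := by
  rw [H94.PC.mem_Pr] at hP
  obtain ⟨hP1, hP2, hP3⟩ := hP
  choose ρ hρ using hs
  refine ⟨fun i => ρ i %ₘ P, fun i => ?_, fun i => ?_⟩
  · rw [← hP2]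
    exact natDegree_modByMonic_lt _ hP1 (fun h => by
      rw [h, natDegree_one] at hP2
      omega)
  · have h1 : P ∣ ρ i - ρ i %ₘ P := by
      have h2 := modByMonic_add_div (ρ i) P
      exact ⟨ρ i /ₘ P, by rw [sub_eq_iff_eq_add, add_comm]; exact h2.symm⟩
    have h3 : (ρ i %ₘ P) ^ 2 - a i =
        (ρ i ^ 2 - a i) - (ρ i - ρ i %ₘ P) * (ρ i + ρ i %ₘ P) := by ring
    show P ∣ (ρ i %ₘ P) ^ 2 - a i
    rw [h3]
    exact dvd_sub (hρ i) (h1.mul_right _)

private theorem sg_inj {x y : ZMod 2} (h : H94.PC.sg x = H94.PC.sg y) : x = y := by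
  have h2 : ∀ z : ZMod 2, z = 0 ∨ z = 1 := by decide
  rcases h2 x with rfl | rfl <;> rcases h2 y with rfl | rfl
  · rfl
  · rw [H94.PC.sg_zero, H94.PC.sg_one] at h; norm_num at h
  · rw [H94.PC.sg_zero, H94.PC.sg_one] at h; norm_num at h
  · rfl

open Classical in
theorem fra' (F : Type) [Field F] [Finite F] (h2 : (2 : F) ≠ 0) (r : ℕ) : ∃ K : ℝ, 0 ≤ K ∧
    ∀ (Δ : F[X]) (R : F[X] → ℕ) (Q : F[X] → Prop) (W : F[X] → ℝ) (Idp : F[X] → F[X] → Prop)
      (h : ℕ) (D' : F[X]) (m : ℕ) (τ : F[X] → ℝ), D' * Δ ≠ 0 → 1 ≤ m → 1 ≤ h →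
      (D' * Δ).natDegree ≤ h → (∀ v ∈ H94.PC.pf (D' * Δ), v.natDegree < m) →
      HCg Δ R Q W Idp r h D' m τ →
      |∑ P ∈ (H94.PC.Pr F m).filter (fun P => P ∈ CellD Δ D' m τ),
        ((if Q (D' * P) then (1 : ℝ) else 0) - W (D' * P))| ≤ K * h * √((Nat.card F : ℝ) ^ m) := by
  classical
  obtain ⟨K1, hK1, H1⟩ := Pool.Agent.H3.FS.eqb F h2 r
  obtain ⟨K2, hK2, H2⟩ := Pool.Agent.H3.FS.eqd F h2 r
  refine ⟨2 ^ (prs r).card * K2 + K1, by positivity, ?_⟩
  intro Δ R Q W Idp h D' m τ hD hm hh hdeg hpf HC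
  obtain ⟨X, hX⟩ : ∃ X : ℝ, X = √((Nat.card F : ℝ) ^ m) := ⟨_, rfl⟩
  have hX1 : 1 ≤ X := by
    rw [hX, Real.one_le_sqrt]
    have h1 : (1 : ℝ) ≤ Nat.card F := by exact_mod_cast Nat.card_pos
    exact one_le_pow₀ h1
  have hh1 : (1 : ℝ) ≤ h := by exact_mod_cast hh
  rw [← hX]
  have hRHS : 0 ≤ (2 ^ (prs r).card * K2 + K1) * h * X := by positivity
  rcases Set.eq_empty_or_nonempty (CellD Δ D' m τ) with hemp | ⟨P₁, hP₁⟩
  · rw [hemp]
    simpa using hRHS
  obtain ⟨a, G, w, E, hI, ha, hG, hw, hsq, hWE, hdat⟩ := HC.data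
  obtain ⟨S, hS⟩ : ∃ S : Finset F[X], S = H94.PC.pf (D' * Δ) := ⟨_, rfl⟩
  obtain ⟨τ', hτ'⟩ : ∃ τ' : F[X] → ℝ, τ' = fun v => if v ∈ S then τ v else 1 := ⟨_, rfl⟩
  have hτS : ∀ v ∈ S, τ' v = τ v := fun v hv => by rw [hτ']; simp [hv]
  have hS1 : ∀ v ∈ S, v.Monic ∧ Irreducible v ∧ v.natDegree < m := by
    intro v hv
    rw [hS] at hv
    exact ⟨(H94.PC.mem_pf' hv).1, (H94.PC.mem_pf' hv).2.1, hpf v hv⟩
  have hτ1 : ∀ v, τ' v = 1 ∨ τ' v = -1 := by
    intro v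
    by_cases hv : v ∈ S
    · rw [hτS v hv]
      have h3 := hP₁.1
      rw [H94.PC.mem_Pr] at h3
      obtain ⟨h4, h5, h6⟩ := h3
      obtain ⟨h7, h8, h9⟩ := hS1 v hv
      rw [← hP₁.2 v (by rw [← hS]; exact hv)]
      refine H94.PC.js_cases' h4 ?_
      rw [isCoprime_comm, h6.coprime_iff_not_dvd]
      intro h10
      have h11 := natDegree_le_of_dvd h10 h7.ne_zero
      omega
    · left
      rw [hτ']
      simp [hv]
  have hCel : CellD Δ D' m τ = Pool.Agent.H3.FS.Cel m S τ' a := by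
    ext P
    constructor
    · intro hP
      refine ⟨hP.1, fun v hv => ?_, hsq P hP⟩
      rw [hτS v hv]
      exact hP.2 v (by rw [← hS]; exact hv)
    · rintro ⟨hP1, hP2, -⟩
      refine ⟨hP1, fun v hv => ?_⟩
      rw [← hS] at hv
      rw [← hτS v hv]
      exact hP2 v hv
  have hSdeg : (∏ v ∈ S, v).natDegree ≤ h := by
    rw [hS]
    exact (natDegree_le_of_dvd fra_prod hD).trans hdeg
  obtain ⟨C, hC⟩ : ∃ C : Set F[X], C = CellD Δ D' m τ := ⟨_, rfl⟩
  have hCfin : C.Finite := by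
    refine (Finset.finite_toSet (H94.PC.Pr F m)).subset ?_
    intro P hP
    rw [hC] at hP
    exact hP.1
  obtain ⟨A, hA⟩ : ∃ A : Set F[X],
    A = {P | P ∈ CellD Δ D' m τ ∧ Q (D' * P)} := ⟨_, rfl⟩
  have hAC : A ⊆ C := by
    intro P hP
    rw [hA] at hP
    rw [hC]
    exact hP.1
  have hAfin : A.Finite := hCfin.subset hAC
  -- the bad primes
  obtain ⟨bad, hbd⟩ : ∃ bad : Finset F[X], bad = (H94.PC.Pr F m).filter (fun P =>
      (∃ i, P ∣ a i) ∨ ∃ p hp, ∃ ρ ∈ Rt m P a,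
        H94.PC.js (MvPolynomial.eval ρ (G p hp).el) P = 0) := ⟨_, rfl⟩
  have hbc : (bad.card : ℝ) ≤ K1 * h := by
    have hbad := H1 m h a G hm hh ha hG hI
    have e : {P : F[X] | P ∈ H94.PC.Pr F m ∧ ((∃ i, P ∣ a i) ∨ ∃ p hp, ∃ ρ ∈ Rt m P a,
        H94.PC.js (MvPolynomial.eval ρ (G p hp).el) P = 0)} = (bad : Set F[X]) := by
      rw [hbd]
      ext P
      simp only [Finset.coe_filter]
    rw [e, Set.ncard_coe_finset] at hbad
    exact hbad
  -- the signs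
  obtain ⟨E1, hE1⟩ : ∃ E1 : Finset (Fin r × Fin r → ZMod 2), E1 = (Finset.univ.filter
      fun e : Fin r × Fin r → ZMod 2 => (∀ p, p ∉ prs r → e p = 0) ∧ E e) := ⟨_, rfl⟩
  obtain ⟨γ, hγ⟩ : ∃ γ : ℝ, γ = W (D' * P₁) := ⟨_, rfl⟩
  have hp2 : (0 : ℝ) < 2 ^ (prs r).card := by positivity
  have hE1n : E1.card = Enm E := by
    rw [hE1, Enm, Nat.card_eq_fintype_card, Fintype.card_subtype]
  have hE1c : (E1.card : ℝ) = 2 ^ (prs r).card * γ := by
    rw [hE1n, hγ, ← hWE P₁ hP₁, mul_comm]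
  have hWc : ∀ P ∈ CellD Δ D' m τ, W (D' * P) = γ := by
    intro P hP
    have h3 : W (D' * P) * 2 ^ (prs r).card = γ * 2 ^ (prs r).card := by
      rw [hWE P hP, hγ, hWE P₁ hP₁]
    exact mul_right_cancel₀ hp2.ne' h3
  have hE1le : (E1.card : ℝ) ≤ 2 ^ (prs r).card := by
    have h3 : E1.card ≤ Fintype.card ({p // p ∈ prs r} → ZMod 2) := by
      rw [← Finset.card_univ]
      refine Finset.card_le_card_of_injOn (fun e p => e p.1) (fun _ _ => Finset.mem_univ _) ?_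
      intro e he e' he' hee
      rw [hE1, Finset.coe_filter] at he he'
      funext p
      by_cases hp : p ∈ prs r
      · exact congrFun hee ⟨p, hp⟩
      · rw [he.2.1 p hp, he'.2.1 p hp]
    have h4 : Fintype.card ({p // p ∈ prs r} → ZMod 2) = 2 ^ (prs r).card := by
      rw [Fintype.card_fun, ZMod.card, Fintype.card_coe]
    rw [h4] at h3
    exact_mod_cast h3
  have hmE : ∀ e, e ∈ E1 ↔ (∀ p, p ∉ prs r → e p = 0) ∧ E e := by
    intro e
    rw [hE1, Finset.mem_filter]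
    simp
  obtain ⟨B, hB⟩ : ∃ B : (Fin r × Fin r → ZMod 2) → Set F[X],
    B = fun e => Pool.Agent.H3.FS.CelG m S τ' a G (fun p => w p * H94.PC.sg (e p)) := ⟨_, rfl⟩
  have hBC : ∀ e, B e ⊆ C := by
    intro e P hP
    rw [hB] at hP
    rw [hC, hCel]
    exact hP.1
  have hBfin : ∀ e, (B e).Finite := fun e => hCfin.subset (hBC e)
  have hww : ∀ p, w p * w p = 1 := by
    intro p
    rcases hw p with h1 | h1 <;> rw [h1] <;> norm_num
  have hsgn : ∀ p (x : ZMod 2), w p * H94.PC.sg x = 1 ∨ w p * H94.PC.sg x = -1 := by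
    intro p x
    rcases hw p with h1 | h1 <;> rcases H94.PC.sg_cases x with h3 | h3 <;> rw [h1, h3] <;>
      norm_num
  have hBcard : ∀ e, |((B e).ncard : ℝ) - (C.ncard : ℝ) / 2 ^ (prs r).card| ≤ K2 * h * X := by
    intro e
    have h3 := H2 m h S a G τ' (fun p => w p * H94.PC.sg (e p)) hm hh hS1 hSdeg ha hG hI hτ1
      (fun p => hsgn p (e p))
    rw [← hCel, ← hC, ← hX] at h3
    rw [hB]
    exact h3
  -- `B e ⊆ A` for `e ∈ E1`
  have hBA : ∀ e ∈ E1, B e ⊆ A := by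
    intro e he P hP
    have hPC : P ∈ CellD Δ D' m τ := by
      have := hBC e hP
      rwa [hC] at this
    rw [hB] at hP
    rw [hA]
    refine ⟨hPC, ?_⟩
    have h3 : ∀ p hp, ∀ ρ ∈ Rt m P a,
        H94.PC.js (MvPolynomial.eval ρ (G p hp).el) P = w p * H94.PC.sg (e p) := hP.2
    refine (hdat P hPC ?_ e ?_).2 ((hmE e).1 he).2
    · intro p hp ρ hρ
      rw [h3 p hp ρ hρ]
      rcases hsgn p (e p) with h4 | h4 <;> rw [h4] <;> norm_num
    · intro p hp ρ hρ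
      rw [h3 p hp ρ hρ, ← mul_assoc, hww, one_mul]
  -- disjointness
  have hdis : ∀ e ∈ E1, ∀ e' ∈ E1, e ≠ e' → Disjoint (B e) (B e') := by
    intro e he e' he' hne
    rw [Set.disjoint_left]
    intro P hP hP'
    apply hne
    have hPC : P ∈ CellD Δ D' m τ := by
      have := hBC e hP
      rwa [hC] at this
    obtain ⟨ρ, hρ⟩ := fra_Rt hm hPC.1 a (hsq P hPC)
    rw [hB] at hP hP'
    funext p
    by_cases hp : p ∈ prs r
    · have h3 := hP.2 p hp ρ hρ
      have h4 := hP'.2 p hp ρ hρ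
      rw [h3] at h4
      have h4' : w p * H94.PC.sg (e p) = w p * H94.PC.sg (e' p) := h4
      have h5 : H94.PC.sg (e p) = H94.PC.sg (e' p) := by
        have h6 : w p * (w p * H94.PC.sg (e p)) = w p * (w p * H94.PC.sg (e' p)) := by rw [h4']
        rwa [← mul_assoc, ← mul_assoc, hww, one_mul, one_mul] at h6
      exact sg_inj h5
    · rw [((hmE e).1 he).1 p hp, ((hmE e').1 he').1 p hp]
  -- `A ⊆ bad ∪ ⋃ B e`
  have hcov : A ⊆ (bad : Set F[X]) ∪ ⋃ e ∈ E1, B e := by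
    intro P hP
    by_cases hb : P ∈ bad
    · exact Or.inl (Finset.mem_coe.2 hb)
    right
    rw [hA] at hP
    obtain ⟨hPC, hP4⟩ := hP
    have hPP := hPC.1
    have hni : ∀ i, ¬ P ∣ a i := by
      intro i hi
      apply hb
      rw [hbd, Finset.mem_filter]
      exact ⟨hPP, Or.inl ⟨i, hi⟩⟩
    have hnj : ∀ p, ∀ hp : p ∈ prs r, ∀ ρ ∈ Rt m P a,
        H94.PC.js (MvPolynomial.eval ρ (G p hp).el) P ≠ 0 := by
      intro p hp ρ hρ h0
      apply hb
      rw [hbd, Finset.mem_filter]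
      exact ⟨hPP, Or.inr ⟨p, hp, ρ, hρ, h0⟩⟩
    obtain ⟨ρ₀, hρ₀⟩ := fra_Rt hm hPP a (hsq P hPC)
    obtain ⟨e, he⟩ : ∃ e : Fin r × Fin r → ZMod 2, (∀ p, p ∉ prs r → e p = 0) ∧
        ∀ p (hp : p ∈ prs r), w p * H94.PC.sg (e p) =
          H94.PC.js (MvPolynomial.eval ρ₀ (G p hp).el) P := by
      refine ⟨fun p => if hp : p ∈ prs r then
        (if w p = H94.PC.js (MvPolynomial.eval ρ₀ (G p hp).el) P then 0 else 1) else 0, ?_, ?_⟩
      · intro p hp
        simp [hp]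
      · intro p hp
        simp only [hp, dif_pos]
        have h3 := (H94.PC.js_cases (MvPolynomial.eval ρ₀ (G p hp).el) P).resolve_left
          (hnj p hp ρ₀ hρ₀)
        by_cases h4 : w p = H94.PC.js (MvPolynomial.eval ρ₀ (G p hp).el) P
        · rw [if_pos h4, H94.PC.sg_zero, mul_one, h4]
        · rw [if_neg h4, H94.PC.sg_one, mul_neg, mul_one]
          rcases hw p with h5 | h5 <;> rcases h3 with h6 | h6
          · exact absurd (h5.trans h6.symm) h4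
          · rw [h5, h6]
          · rw [h5, h6]
            norm_num
          · exact absurd (h5.trans h6.symm) h4
    have hall : ∀ p hp, ∀ ρ ∈ Rt m P a,
        H94.PC.js (MvPolynomial.eval ρ (G p hp).el) P = w p * H94.PC.sg (e p) := by
      intro p hp ρ hρ
      rw [he.2 p hp]
      exact Pool.Agent.H3.FS.eqc h2 G p hp hm hPP hρ hρ₀ (hnj p hp ρ hρ) (hnj p hp ρ₀ hρ₀)
    have hkc : E e := by
      refine (hdat P hPC hnj e ?_).1 hP4
      intro p hp ρ hρ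
      rw [hall p hp ρ hρ, ← mul_assoc, hww, one_mul]
    rw [Set.mem_iUnion₂]
    refine ⟨e, (hmE e).2 ⟨he.1, hkc⟩, ?_⟩
    rw [hB]
    refine ⟨?_, hall⟩
    rw [← hCel]
    exact hPC
  -- counting
  have hUfin : (⋃ e ∈ E1, B e).Finite := hCfin.subset (by
    intro P hP
    rw [Set.mem_iUnion₂] at hP
    obtain ⟨e, _, he⟩ := hP
    exact hBC e he)
  have hU : (⋃ e ∈ E1, B e).ncard = ∑ e ∈ E1, (B e).ncard := by
    have h3 : (⋃ e ∈ E1, B e) = ((E1.biUnion fun e => (hBfin e).toFinset : Finset F[X]) :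
        Set F[X]) := by
      ext P
      simp
    rw [h3, Set.ncard_coe_finset, Finset.card_biUnion]
    · refine Finset.sum_congr rfl fun e _ => ?_
      rw [Set.ncard_eq_toFinset_card _ (hBfin e)]
    · intro e he e' he' hne
      show Disjoint (hBfin e).toFinset (hBfin e').toFinset
      rw [Finset.disjoint_left]
      intro P hP hP'
      rw [Set.Finite.mem_toFinset] at hP hP'
      exact Set.disjoint_left.1 (hdis e he e' he' hne) hP hP'
  have hup : (A.ncard : ℝ) ≤ K1 * h + ∑ e ∈ E1, ((B e).ncard : ℝ) := by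
    have h3 : A.ncard ≤ bad.card + ∑ e ∈ E1, (B e).ncard := by
      rw [← hU, ← Set.ncard_coe_finset bad]
      refine (Set.ncard_le_ncard hcov ((Finset.finite_toSet _).union hUfin)).trans ?_
      exact Set.ncard_union_le _ _
    have h4 : (A.ncard : ℝ) ≤ bad.card + ∑ e ∈ E1, ((B e).ncard : ℝ) := by exact_mod_cast h3
    linarith
  have hlo : ∑ e ∈ E1, ((B e).ncard : ℝ) ≤ A.ncard := by
    have h3 : ∑ e ∈ E1, (B e).ncard ≤ A.ncard := by
      rw [← hU]
      refine Set.ncard_le_ncard ?_ hAfin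
      intro P hP
      rw [Set.mem_iUnion₂] at hP
      obtain ⟨e, he, hPe⟩ := hP
      exact hBA e he hPe
    exact_mod_cast h3
  have hsum : |∑ e ∈ E1, ((B e).ncard : ℝ) - γ * C.ncard| ≤
      2 ^ (prs r).card * (K2 * h * X) := by
    have h3 : γ * (C.ncard : ℝ) = ∑ _e ∈ E1, (C.ncard : ℝ) / 2 ^ (prs r).card := by
      rw [Finset.sum_const, nsmul_eq_mul, hE1c]
      field_simp
    rw [h3, ← Finset.sum_sub_distrib]
    refine (Finset.abs_sum_le_sum_abs _ _).trans ?_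
    refine (Finset.sum_le_sum fun e _ => hBcard e).trans ?_
    rw [Finset.sum_const, nsmul_eq_mul]
    exact mul_le_mul_of_nonneg_right hE1le (by positivity)
  -- the sum over the cell
  have hcell : ∀ P, P ∈ (H94.PC.Pr F m).filter (fun P => P ∈ CellD Δ D' m τ) ↔
      P ∈ CellD Δ D' m τ := by
    intro P
    rw [Finset.mem_filter]
    exact ⟨fun h3 => h3.2, fun h3 => ⟨h3.1, h3⟩⟩
  have hsumA : ∑ P ∈ (H94.PC.Pr F m).filter (fun P => P ∈ CellD Δ D' m τ),
      (if Q (D' * P) then (1 : ℝ) else 0) = A.ncard := by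
    rw [← Finset.sum_filter, Finset.sum_const, nsmul_eq_mul, mul_one, ← Set.ncard_coe_finset]
    congr 2
    ext P
    rw [Finset.mem_coe, Finset.mem_filter, hcell, hA]
    rfl
  have hsumC : ∑ P ∈ (H94.PC.Pr F m).filter (fun P => P ∈ CellD Δ D' m τ), W (D' * P) =
      γ * C.ncard := by
    have h3 : ∀ P ∈ (H94.PC.Pr F m).filter (fun P => P ∈ CellD Δ D' m τ), W (D' * P) = γ :=
      fun P hP => hWc P ((hcell P).1 hP)
    rw [Finset.sum_congr rfl h3, Finset.sum_const, nsmul_eq_mul, mul_comm,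
      ← Set.ncard_coe_finset]
    congr 3
    ext P
    rw [Finset.mem_coe, hcell, hC]
  rw [Finset.sum_sub_distrib, hsumA, hsumC]
  have hK1X : K1 * h ≤ K1 * h * X := le_mul_of_one_le_right (by positivity) hX1
  have hfinal : (2 ^ (prs r).card * K2 + K1) * h * X =
      2 ^ (prs r).card * (K2 * h * X) + K1 * h * X := by ring
  have hK1h : 0 ≤ K1 * h := by positivity
  rw [hfinal]
  rw [abs_le] at hsum ⊢
  obtain ⟨m1, m2⟩ := hsum
  constructor <;> linarith

end Pool.Agent.H64.RO
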