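import Pool.Agent.H64.RO.Fra

set_option autoImplicit false

/-!
# [H64 RO Frb] All primes `P` of degree `m` for one `D'`, for an event

Copy of `H3/FS/FRB.lean`: the sum over the `P ∈ Pr F m` with `T (D' P)`, `R (D' P) = 2 ^ (2 + r)`, `Idp (D' P) P` of `[Q (D' P)] - W (D' P)` is the sum over the cells `It P = I`; each cell which contains such a `P` is entirely in the set (`Hyg`, `const`; `T` by `hT`), and `fra'`.
-/

namespace Pool.Agent.H64.RO

open Polynomial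
open Pool.Agent.H3.FS (prs Gd Ind Rt CellD Lg)

private theorem frbp_mono {F : Type} [Field F] [Finite F] {Δ : F[X]} {R : F[X] → ℕ}
    {Q : F[X] → Prop} {W : F[X] → ℝ}
    {Idp : F[X] → F[X] → Prop} {r h h' : ℕ} {D' : F[X]} {m : ℕ} {τ : F[X] → ℝ}
    (hH : HCg Δ R Q W Idp r h D' m τ) (hh : h ≤ h') : HCg Δ R Q W Idp r h' D' m τ := by
  obtain ⟨h1, a, G, w, E, h2, h3, h4, h5, h6, h7, h8⟩ := hH
  refine ⟨h1, a, G, w, E, h2, fun i => (h3 i).trans hh, fun p hp => ?_, h5, h6, h7, h8⟩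
  have h9 := h4 p hp
  unfold Gd.Dg at h9 ⊢
  exact ⟨h9.1.trans hh, fun l => ⟨(h9.2 l).1.trans hh, (h9.2 l).2.trans hh⟩⟩

private theorem frbp_cop {F : Type} [Field F] {v P : F[X]} (hv : Irreducible v)
    (hP : Irreducible P) (h : v.natDegree < P.natDegree) : IsCoprime v P := by
  rw [Irreducible.coprime_iff_not_dvd hv]
  intro hd
  have h1 := natDegree_le_of_dvd (hv.dvd_symm hP hd) hv.ne_zero
  omega

private theorem frbp_pf {F : Type} [Field F] [Finite F] {A B : F[X]} (hA : A ≠ 0) (hB : B ≠ 0)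
    [DecidableEq F[X]] : H94.PC.pf (A * B) = H94.PC.pf A ∪ H94.PC.pf B := by
  ext P
  rw [Finset.mem_union, H94.PC.mem_pf (mul_ne_zero hA hB), H94.PC.mem_pf hA, H94.PC.mem_pf hB]
  constructor
  · rintro ⟨h1, h2, h3⟩
    rcases h2.prime.dvd_or_dvd h3 with h | h
    · exact Or.inl ⟨h1, h2, h⟩
    · exact Or.inr ⟨h1, h2, h⟩
  · rintro (⟨h1, h2, h3⟩ | ⟨h1, h2, h3⟩)
    · exact ⟨h1, h2, h3.mul_right B⟩
    · exact ⟨h1, h2, h3.mul_left A⟩

open Classical in
theorem frb' (F : Type) [Field F] [Finite F] (h2 : (2 : F) ≠ 0) {Δ : F[X]} (hΔ : Δ ≠ 0)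
    {T : F[X] → Prop} {R : F[X] → ℕ} {Q : F[X] → Prop} {W : F[X] → ℝ} {Idp : F[X] → F[X] → Prop}
    (hT : ∀ D' P : F[X], P.Monic → Irreducible P → (∀ v ∈ H94.PC.pf Δ, v.natDegree < P.natDegree) →
      (T (D' * P) ↔ T D')) {r : ℕ} (hH : Hyg Δ T R Q W Idp r) : ∃ (K : ℝ) (C : ℕ), 0 ≤ K ∧
    ∀ (D' : F[X]) (m : ℕ), D'.Monic → Squarefree D' → 1 ≤ m →
      (∀ v ∈ H94.PC.pf (D' * Δ), v.natDegree < m) →
      |∑ P ∈ (H94.PC.Pr F m).filter (fun P => T (D' * P) ∧ R (D' * P) = 2 ^ (2 + r) ∧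
          Idp (D' * P) P), ((if Q (D' * P) then (1 : ℝ) else 0) - W (D' * P))| ≤
        2 ^ (H94.PC.pf D').card * (K * (D'.natDegree + m + 1 : ℝ) ^ C *
          √((Nat.card F : ℝ) ^ m)) := by
  obtain ⟨K0, hK0, hfra⟩ := fra' F h2 r
  obtain ⟨C, hC⟩ := hH
  refine ⟨2 ^ (H94.PC.pf Δ).card * (K0 * (C + Δ.natDegree + 2)), C + 1, by positivity, ?_⟩
  intro D' m hD hsq hm hv
  have hD0 : D' ≠ 0 := hD.ne_zero
  have hDΔ : D' * Δ ≠ 0 := mul_ne_zero hD0 hΔ
  obtain ⟨h, hh⟩ : ∃ h : ℕ, h = C * (D'.natDegree + m + 1) ^ C + (D'.natDegree + Δ.natDegree + 1) :=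
    ⟨_, rfl⟩
  have hpf := frbp_pf hD0 hΔ
  obtain ⟨S, hS⟩ : ∃ S : Finset F[X], S = H94.PC.pf (D' * Δ) := ⟨_, rfl⟩
  have hScard : S.card ≤ (H94.PC.pf D').card + (H94.PC.pf Δ).card := by
    rw [hS, hpf]
    exact Finset.card_union_le _ _
  let τ : Finset F[X] → F[X] → ℝ := fun I v => if v ∈ I then -1 else 1
  let It : F[X] → Finset F[X] := fun P => S.filter (fun v => H94.PC.js v P = -1)
  have hjs : ∀ P ∈ H94.PC.Pr F m, ∀ v ∈ S, H94.PC.js v P = 1 ∨ H94.PC.js v P = -1 := by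
    intro P hP v hvS
    obtain ⟨hP1, hP2, hP3⟩ := H94.PC.mem_Pr.1 hP
    rw [hS] at hvS
    have h4 := H94.PC.mem_pf' hvS
    have h5 := hv v hvS
    exact H94.PC.js_cases' hP1 (frbp_cop h4.2.1 hP3 (by omega))
  have hcell : ∀ I ⊆ S, ∀ P, P ∈ CellD Δ D' m (τ I) ↔ P ∈ H94.PC.Pr F m ∧ It P = I := by
    intro I hI P
    constructor
    · rintro ⟨h4, h5⟩
      refine ⟨h4, ?_⟩
      rw [← hS] at h5
      ext v
      simp only [It, Finset.mem_filter]
      constructor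
      · rintro ⟨h6, h7⟩
        rw [h5 v h6] at h7
        by_contra h8
        simp only [τ, if_neg h8] at h7
        norm_num at h7
      · intro h6
        refine ⟨hI h6, ?_⟩
        rw [h5 v (hI h6)]
        simp only [τ, if_pos h6]
    · rintro ⟨h4, h5⟩
      refine ⟨h4, ?_⟩
      rw [← hS]
      intro v hvS
      by_cases h6 : v ∈ I
      · simp only [τ, if_pos h6]
        rw [← h5] at h6
        exact (Finset.mem_filter.1 h6).2
      · simp only [τ, if_neg h6]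
        rcases hjs P h4 v hvS with h7 | h7
        · exact h7
        · exfalso
          apply h6
          rw [← h5]
          exact Finset.mem_filter.2 ⟨hvS, h7⟩
  let A : Finset F[X] := (H94.PC.Pr F m).filter (fun P => T (D' * P) ∧ R (D' * P) = 2 ^ (2 + r) ∧
    Idp (D' * P) P)
  let f : F[X] → ℝ := fun P => (if Q (D' * P) then (1 : ℝ) else 0) - W (D' * P)
  have hIt : ∀ P ∈ H94.PC.Pr F m, It P ∈ S.powerset := fun P _ =>
    Finset.mem_powerset.2 (Finset.filter_subset _ _)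
  have sA : ∑ P ∈ A, f P = ∑ I ∈ S.powerset, ∑ P ∈ A.filter (fun P => It P = I), f P :=
    (Finset.sum_fiberwise_of_maps_to (fun P hP => hIt P (Finset.mem_filter.1 hP).1) f).symm
  have hbd : ∀ I ∈ S.powerset, |∑ P ∈ A.filter (fun P => It P = I), f P| ≤
      K0 * h * √((Nat.card F : ℝ) ^ m) := by
    intro I hI
    rw [Finset.mem_powerset] at hI
    rcases (A.filter (fun P => It P = I)).eq_empty_or_nonempty with he | ⟨P₀, hP₀⟩
    · rw [he, Finset.sum_empty, abs_zero]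
      positivity
    · simp only [A, Finset.mem_filter] at hP₀
      obtain ⟨⟨hP1, hP2, hP3, hP4⟩, hP5⟩ := hP₀
      have hc0 := (hcell I hI P₀).2 ⟨hP1, hP5⟩
      have hHC := frbp_mono (hC D' m (τ I) hD hsq hm hv P₀ hc0 hP2 hP3 hP4)
        (show C * (D'.natDegree + m + 1) ^ C ≤ h by omega)
      have hTD : ∀ P ∈ H94.PC.Pr F m, (T (D' * P) ↔ T D') := by
        intro P hP
        obtain ⟨h4, h5, h6⟩ := H94.PC.mem_Pr.1 hP
        refine hT D' P h4 h6 fun v hvΔ => ?_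
        rw [h5]
        refine hv v ?_
        rw [hpf]
        exact Finset.mem_union_right _ hvΔ
      have hTD' : T D' := (hTD P₀ hP1).1 hP2
      have cA : A.filter (fun P => It P = I) =
          (H94.PC.Pr F m).filter (fun P => P ∈ CellD Δ D' m (τ I)) := by
        ext P
        simp only [A, Finset.mem_filter]
        constructor
        · rintro ⟨⟨h4, -⟩, h5⟩
          exact ⟨h4, (hcell I hI P).2 ⟨h4, h5⟩⟩
        · rintro ⟨h4, h5⟩
          have h6 := hHC.const P h5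
          exact ⟨⟨h4, (hTD P h4).2 hTD', h6.1, h6.2⟩, ((hcell I hI P).1 h5).2⟩
      have hdeg : (D' * Δ).natDegree ≤ h := by
        rw [natDegree_mul hD0 hΔ]
        omega
      have h8 := hfra Δ R Q W Idp h D' m (τ I) hDΔ hm (by omega) hdeg hv hHC
      rw [cA]
      exact h8
  have hx : ((h : ℕ) : ℝ) ≤ (C + Δ.natDegree + 2) * (D'.natDegree + m + 1 : ℝ) ^ (C + 1) := by
    obtain ⟨x, hx⟩ : ∃ x : ℝ, x = (D'.natDegree + m + 1 : ℝ) := ⟨_, rfl⟩
    have hd0 : (0 : ℝ) ≤ D'.natDegree := Nat.cast_nonneg _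
    have hm0 : (0 : ℝ) ≤ m := Nat.cast_nonneg _
    have hΔ0 : (0 : ℝ) ≤ Δ.natDegree := Nat.cast_nonneg _
    have hC0 : (0 : ℝ) ≤ C := Nat.cast_nonneg _
    have hx1 : 1 ≤ x := by rw [hx]; linarith
    rw [← hx]
    have e1 : (h : ℝ) = C * x ^ C + (D'.natDegree + Δ.natDegree + 1) := by
      rw [hh, hx]
      push_cast
      ring
    rw [e1]
    have e2 : x ^ C ≤ x ^ (C + 1) := pow_le_pow_right₀ hx1 (Nat.le_succ C)
    have e3 : x ≤ x ^ (C + 1) := le_self_pow₀ hx1 (Nat.succ_ne_zero C)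
    have e4 : 1 ≤ x ^ (C + 1) := one_le_pow₀ hx1
    have e5 : (D'.natDegree : ℝ) + 1 ≤ x := by rw [hx]; linarith
    have e6 : (C : ℝ) * x ^ C ≤ C * x ^ (C + 1) := mul_le_mul_of_nonneg_left e2 hC0
    have e7 : (Δ.natDegree : ℝ) * 1 ≤ Δ.natDegree * x ^ (C + 1) := mul_le_mul_of_nonneg_left e4 hΔ0
    nlinarith
  calc |∑ P ∈ A, f P|
      = |∑ I ∈ S.powerset, ∑ P ∈ A.filter (fun P => It P = I), f P| := by
        rw [sA]
    _ ≤ ∑ I ∈ S.powerset, |∑ P ∈ A.filter (fun P => It P = I), f P| :=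
        Finset.abs_sum_le_sum_abs _ _
    _ ≤ ∑ I ∈ S.powerset, K0 * h * √((Nat.card F : ℝ) ^ m) := Finset.sum_le_sum hbd
    _ = 2 ^ S.card * (K0 * h * √((Nat.card F : ℝ) ^ m)) := by
        rw [Finset.sum_const, Finset.card_powerset, nsmul_eq_mul]
        push_cast
        rfl
    _ ≤ 2 ^ ((H94.PC.pf D').card + (H94.PC.pf Δ).card) *
          (K0 * ((C + Δ.natDegree + 2) * (D'.natDegree + m + 1 : ℝ) ^ (C + 1)) *
            √((Nat.card F : ℝ) ^ m)) := by
        refine mul_le_mul (pow_le_pow_right₀ (by norm_num) hScard) ?_ (by positivity)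
          (by positivity)
        refine mul_le_mul_of_nonneg_right ?_ (Real.sqrt_nonneg _)
        exact mul_le_mul_of_nonneg_left hx hK0
    _ = _ := by
        rw [pow_add]
        ring

end Pool.Agent.H64.RO
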