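import Pool.Agent.H64.RO.Frb

set_option autoImplicit false

/-!
# [H64 RO Frc] The sum over `D'`, for an event

Copy of `H3/FS/FRC.lean`.  The bijection `(D', P) ↦ D' P` of `frc_count` gives `∑ D ∈ .., f D = ∑ m, ∑ D', ∑ P, f (D' * P)` (`Finset.sum_sigma`, `Finset.sum_image` with the injectivity in the proof of `frc_count`) with `f D = [Q D] - W D`; then `frb'` and `frs` as there.
-/

namespace Pool.Agent.H64.RO

open Polynomial
open Pool.Agent.H3.FS (prs Gd Ind Rt CellD Lg)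

open Classical in
private theorem frc_sum {F : Type} [Field F] [Finite F] {Δ : F[X]} (hΔ : Δ ≠ 0)
    (Q : F[X] → F[X] → Prop) (n : ℕ) (f : F[X] → ℝ) :
    ∑ D ∈ (H94.PC.Sq F n).filter (fun D => ∃ P, Lg Δ n D P ∧ Q D P), f D =
      ∑ m ∈ Finset.Icc (max 1 (Nat.sqrt n)) n,
        ∑ D' ∈ (H94.PC.Sq F (n - m)).filter (fun D' : F[X] =>
          ∀ v ∈ H94.PC.pf (D' * Δ), v.natDegree < m),
          ∑ P ∈ (H94.PC.Pr F m).filter (fun P => Q (D' * P) P), f (D' * P) := by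
  let J : Finset (Σ _ : ℕ, Σ _ : F[X], F[X]) := (Finset.Icc (max 1 (Nat.sqrt n)) n).sigma
    (fun m => ((H94.PC.Sq F (n - m)).filter (fun D' : F[X] =>
          ∀ v ∈ H94.PC.pf (D' * Δ), v.natDegree < m)).sigma
      (fun D' => (H94.PC.Pr F m).filter (fun P => Q (D' * P) P)))
  let φ : (Σ _ : ℕ, Σ _ : F[X], F[X]) → F[X] := fun x => x.2.1 * x.2.2
  have hJ : ∑ x ∈ J, f (φ x) = ∑ m ∈ Finset.Icc (max 1 (Nat.sqrt n)) n,
        ∑ D' ∈ (H94.PC.Sq F (n - m)).filter (fun D' : F[X] =>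
          ∀ v ∈ H94.PC.pf (D' * Δ), v.natDegree < m),
          ∑ P ∈ (H94.PC.Pr F m).filter (fun P => Q (D' * P) P), f (D' * P) := by
    rw [Finset.sum_sigma]
    refine Finset.sum_congr rfl fun m _ => ?_
    rw [Finset.sum_sigma]
  have hmem : ∀ m D' P, (⟨m, ⟨D', P⟩⟩ : Σ _ : ℕ, Σ _ : F[X], F[X]) ∈ J ↔
      (max 1 (Nat.sqrt n) ≤ m ∧ m ≤ n) ∧ ((D'.Monic ∧ D'.natDegree = n - m ∧ Squarefree D') ∧
        ∀ v ∈ H94.PC.pf (D' * Δ), v.natDegree < m) ∧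
        (P.Monic ∧ P.natDegree = m ∧ Irreducible P) ∧ Q (D' * P) P := by
    intro m D' P
    simp only [J, Finset.mem_sigma, Finset.mem_Icc, Finset.mem_filter, H94.PC.mem_Sq,
      H94.PC.mem_Pr]
  have himg : (H94.PC.Sq F n).filter (fun D => ∃ P, Lg Δ n D P ∧ Q D P) = J.image φ := by
    ext D
    rw [Finset.mem_filter, Finset.mem_image]
    constructor
    · rintro ⟨hD, P, ⟨hP1, hP2, hP3, D', rfl, hv⟩, hQ⟩
      obtain ⟨d1, d2, d3⟩ := H94.PC.mem_Sq.1 hD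
      have hD'm : D'.Monic := hP1.of_mul_monic_right d1
      have hdeg : D'.natDegree + P.natDegree = n := by
        rw [← d2, hD'm.natDegree_mul hP1]
      refine ⟨⟨P.natDegree, ⟨D', P⟩⟩, (hmem _ _ _).2 ⟨⟨?_, by omega⟩,
        ⟨⟨hD'm, by omega, d3.squarefree_of_dvd (dvd_mul_right _ _)⟩, hv⟩,
        ⟨hP1, rfl, hP2⟩, hQ⟩, rfl⟩
      exact max_le (Nat.succ_le_of_lt (Irreducible.natDegree_pos hP2)) hP3
    · rintro ⟨⟨m, ⟨D', P⟩⟩, hx, rfl⟩
      obtain ⟨⟨h1, h2⟩, ⟨⟨h3, h4, h5⟩, h6⟩, ⟨h7, h8, h9⟩, h10⟩ := (hmem _ _ _).1 hx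
      show D' * P ∈ H94.PC.Sq F n ∧ ∃ P_1, Lg Δ n (D' * P) P_1 ∧ Q (D' * P) P_1
      refine ⟨H94.PC.mem_Sq.2 ⟨h3.mul h7, ?_, ?_⟩, P, ⟨h7, h9, ?_, D', rfl, ?_⟩, h10⟩
      · rw [h3.natDegree_mul h7, h4, h8]
        omega
      · have hnd : ¬ P ∣ D' := by
          intro hd
          have h11 := h6 P ((H94.PC.mem_pf (mul_ne_zero h3.ne_zero hΔ)).2
            ⟨h7, h9, hd.mul_right Δ⟩)
          omega
        have hc : IsCoprime D' P := ((Irreducible.coprime_iff_not_dvd h9).2 hnd).symm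
        rw [squarefree_mul_iff]
        exact ⟨hc.isRelPrime, h5, h9.squarefree⟩
      · rw [h8]
        exact (le_max_right _ _).trans h1
      · rw [h8]
        exact h6
  have hinj : Set.InjOn φ (J : Set (Σ _ : ℕ, Σ _ : F[X], F[X])) := by
    rintro ⟨m, ⟨D1, P1⟩⟩ hx ⟨m', ⟨D2, P2⟩⟩ hy hxy
    obtain ⟨-, ⟨⟨a1, -, -⟩, a2⟩, ⟨a3, a4, a5⟩, -⟩ := (hmem _ _ _).1 (Finset.mem_coe.1 hx)
    obtain ⟨-, ⟨⟨b1, -, -⟩, b2⟩, ⟨b3, b4, b5⟩, -⟩ := (hmem _ _ _).1 (Finset.mem_coe.1 hy)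
    have hxy' : D1 * P1 = D2 * P2 := hxy
    have hP : P1 = P2 := by
      by_contra hne
      have e1 : ¬ P1 ∣ P2 := fun hd => hne (eq_of_monic_of_associated a3 b3
        (a5.associated_of_dvd b5 hd))
      have e2 : ¬ P2 ∣ P1 := fun hd => hne (eq_of_monic_of_associated a3 b3
        (b5.associated_of_dvd a5 hd).symm)
      have e3 : P1 ∣ D2 := by
        have h1 : P1 ∣ D2 * P2 := ⟨D1, by rw [← hxy', mul_comm]⟩
        exact (a5.prime.dvd_or_dvd h1).resolve_right e1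
      have e4 : P2 ∣ D1 := by
        have h1 : P2 ∣ D1 * P1 := ⟨D2, by rw [hxy', mul_comm]⟩
        exact (b5.prime.dvd_or_dvd h1).resolve_right e2
      have e5 := b2 P1 ((H94.PC.mem_pf (mul_ne_zero b1.ne_zero hΔ)).2 ⟨a3, a5, e3.mul_right Δ⟩)
      have e6 := a2 P2 ((H94.PC.mem_pf (mul_ne_zero a1.ne_zero hΔ)).2 ⟨b3, b5, e4.mul_right Δ⟩)
      omega
    subst hP
    have hD : D1 = D2 := mul_right_cancel₀ a3.ne_zero hxy'
    subst hD
    have hm : m = m' := by omega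
    subst hm
    rfl
  rw [himg, Finset.sum_image hinj, hJ]

open Classical in
theorem frc' (F : Type) [Field F] [Finite F] (h2 : (2 : F) ≠ 0) {Δ : F[X]} (hΔ : Δ ≠ 0)
    {T : F[X] → Prop} {R : F[X] → ℕ} {Q : F[X] → Prop} {W : F[X] → ℝ} {Idp : F[X] → F[X] → Prop}
    (hT : ∀ D' P : F[X], P.Monic → Irreducible P → (∀ v ∈ H94.PC.pf Δ, v.natDegree < P.natDegree) →
      (T (D' * P) ↔ T D')) {r : ℕ} (hH : Hyg Δ T R Q W Idp r) : ∃ (K : ℝ) (C : ℕ), 0 ≤ K ∧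
    ∀ n : ℕ, |∑ D ∈ (H94.PC.Sq F n).filter (fun D => T D ∧ R D = 2 ^ (2 + r) ∧
        ∃ P, Lg Δ n D P ∧ Idp D P), ((if Q D then (1 : ℝ) else 0) - W D)| ≤
      K * (n + 1 : ℝ) ^ C * (Nat.card F : ℝ) ^ n / √((Nat.card F : ℝ) ^ Nat.sqrt n) := by
  obtain ⟨K, C, hK, hb⟩ := frb' F h2 hΔ hT hH
  refine ⟨K, C + 2, hK, fun n => ?_⟩
  obtain ⟨q, hq⟩ : ∃ q : ℝ, q = (Nat.card F : ℝ) := ⟨_, rfl⟩
  have hq1 : 1 ≤ q := by
    rw [hq]
    exact_mod_cast Nat.card_pos (α := F)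
  have hq0 : 0 < q := by linarith
  have e1 : (H94.PC.Sq F n).filter (fun D => T D ∧ R D = 2 ^ (2 + r) ∧
        ∃ P, Lg Δ n D P ∧ Idp D P) =
      (H94.PC.Sq F n).filter (fun D => ∃ P, Lg Δ n D P ∧ (T D ∧ R D = 2 ^ (2 + r) ∧ Idp D P)) := by
    refine Finset.filter_congr fun D _ => ?_
    constructor
    · rintro ⟨h3, h4, P, h5, h6⟩
      exact ⟨P, h5, h3, h4, h6⟩
    · rintro ⟨P, h5, h3, h4, h6⟩
      exact ⟨h3, h4, P, h5, h6⟩
  have e3 : ∑ D ∈ (H94.PC.Sq F n).filter (fun D => ∃ P, Lg Δ n D P ∧ (T D ∧ R D = 2 ^ (2 + r) ∧ Idp D P)),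
      ((if Q D then (1 : ℝ) else 0) - W D) = ∑ m ∈ Finset.Icc (max 1 (Nat.sqrt n)) n,
      ∑ D' ∈ (H94.PC.Sq F (n - m)).filter (fun D' : F[X] =>
          ∀ v ∈ H94.PC.pf (D' * Δ), v.natDegree < m),
          ∑ P ∈ (H94.PC.Pr F m).filter (fun P => T (D' * P) ∧ R (D' * P) = 2 ^ (2 + r) ∧
            Idp (D' * P) P), ((if Q (D' * P) then (1 : ℝ) else 0) - W (D' * P)) := by
    refine (frc_sum hΔ (fun D P => T D ∧ R D = 2 ^ (2 + r) ∧ Idp D P) n _).trans ?_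
    refine Finset.sum_congr rfl fun m _ => Finset.sum_congr rfl fun D' _ => ?_
    refine Finset.sum_congr ?_ fun _ _ => rfl
    ext P
    simp only [Finset.mem_filter]
  rw [e1, e3, ← hq]
  obtain ⟨M, hM⟩ : ∃ M : ℝ, M = q ^ n / √(q ^ Nat.sqrt n) := ⟨_, rfl⟩
  have hM0 : 0 ≤ M := by rw [hM]; positivity
  have hterm : ∀ m ∈ Finset.Icc (max 1 (Nat.sqrt n)) n,
      |∑ D' ∈ (H94.PC.Sq F (n - m)).filter (fun D' : F[X] =>
          ∀ v ∈ H94.PC.pf (D' * Δ), v.natDegree < m),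
          ∑ P ∈ (H94.PC.Pr F m).filter (fun P => T (D' * P) ∧ R (D' * P) = 2 ^ (2 + r) ∧
            Idp (D' * P) P), ((if Q (D' * P) then (1 : ℝ) else 0) - W (D' * P))| ≤
        K * (n + 1 : ℝ) ^ (C + 1) * M := by
    intro m hm
    rw [Finset.mem_Icc] at hm
    have hm1 : 1 ≤ m := (le_max_left _ _).trans hm.1
    have hms : Nat.sqrt n ≤ m := (le_max_right _ _).trans hm.1
    refine (Finset.abs_sum_le_sum_abs _ _).trans ?_
    have h3 : ∀ D' ∈ (H94.PC.Sq F (n - m)).filter (fun D' : F[X] =>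
          ∀ v ∈ H94.PC.pf (D' * Δ), v.natDegree < m),
        |∑ P ∈ (H94.PC.Pr F m).filter (fun P => T (D' * P) ∧ R (D' * P) = 2 ^ (2 + r) ∧
            Idp (D' * P) P), ((if Q (D' * P) then (1 : ℝ) else 0) - W (D' * P))| ≤
          2 ^ (H94.PC.pf D').card * (K * (n + 1 : ℝ) ^ C * √(q ^ m)) := by
      intro D' hD'
      rw [Finset.mem_filter] at hD'
      obtain ⟨d1, d2, d3⟩ := H94.PC.mem_Sq.1 hD'.1
      have h4 := hb D' m d1 d3 hm1 hD'.2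
      rw [← hq] at h4
      have h5 : (D'.natDegree : ℝ) + m = n := by
        rw [d2]
        have : n - m + m = n := by omega
        exact_mod_cast this
      rw [h5] at h4
      exact h4
    refine (Finset.sum_le_sum h3).trans ?_
    rw [← Finset.sum_mul]
    have h4 : ∑ D' ∈ (H94.PC.Sq F (n - m)).filter (fun D' : F[X] =>
          ∀ v ∈ H94.PC.pf (D' * Δ), v.natDegree < m), (2 : ℝ) ^ (H94.PC.pf D').card ≤
        (n + 1) * q ^ (n - m) := by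
      calc _ ≤ ∑ D' ∈ H94.PC.Sq F (n - m), (2 : ℝ) ^ (H94.PC.pf D').card :=
            Finset.sum_le_sum_of_subset_of_nonneg (Finset.filter_subset _ _)
              (fun _ _ _ => by positivity)
        _ ≤ ((n - m : ℕ) + 1) * (Nat.card F : ℝ) ^ (n - m) := Pool.Agent.H3.FS.frs F (n - m)
        _ ≤ (n + 1) * q ^ (n - m) := by
            rw [hq]
            apply mul_le_mul_of_nonneg_right _ (by positivity)
            have : ((n - m : ℕ) : ℝ) ≤ n := by exact_mod_cast Nat.sub_le n m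
            linarith
    have h5 : q ^ (n - m) * √(q ^ m) ≤ M := by
      have hs : 0 < √(q ^ m) := Real.sqrt_pos.2 (by positivity)
      have h6 : q ^ (n - m) * √(q ^ m) = q ^ n / √(q ^ m) := by
        rw [eq_div_iff hs.ne', mul_assoc, Real.mul_self_sqrt (by positivity), ← pow_add]
        congr 1
        omega
      rw [h6, hM]
      apply div_le_div_of_nonneg_left (by positivity) (Real.sqrt_pos.2 (by positivity))
      exact Real.sqrt_le_sqrt (pow_le_pow_right₀ hq1 hms)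
    calc (∑ D' ∈ (H94.PC.Sq F (n - m)).filter (fun D' : F[X] =>
          ∀ v ∈ H94.PC.pf (D' * Δ), v.natDegree < m), (2 : ℝ) ^ (H94.PC.pf D').card) *
          (K * (n + 1 : ℝ) ^ C * √(q ^ m)) ≤
          ((n + 1) * q ^ (n - m)) * (K * (n + 1 : ℝ) ^ C * √(q ^ m)) :=
          mul_le_mul_of_nonneg_right h4 (by positivity)
      _ = K * (n + 1 : ℝ) ^ (C + 1) * (q ^ (n - m) * √(q ^ m)) := by ring
      _ ≤ K * (n + 1 : ℝ) ^ (C + 1) * M := mul_le_mul_of_nonneg_left h5 (by positivity)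
  refine (Finset.abs_sum_le_sum_abs _ _).trans ((Finset.sum_le_sum hterm).trans ?_)
  rw [Finset.sum_const, nsmul_eq_mul, Nat.card_Icc]
  have h7 : ((n + 1 - max 1 (Nat.sqrt n) : ℕ) : ℝ) ≤ n + 1 := by
    exact_mod_cast Nat.sub_le (n + 1) (max 1 (Nat.sqrt n))
  calc ((n + 1 - max 1 (Nat.sqrt n) : ℕ) : ℝ) * (K * (n + 1 : ℝ) ^ (C + 1) * M) ≤
        (n + 1) * (K * (n + 1 : ℝ) ^ (C + 1) * M) :=
        mul_le_mul_of_nonneg_right h7 (by positivity)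
    _ = K * (n + 1 : ℝ) ^ (C + 2) * q ^ n / √(q ^ Nat.sqrt n) := by
        rw [hM]
        ring

end Pool.Agent.H64.RO
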