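import Pool.Agent.H64.RO.GrOdd
import Pool.Agent.H43.RO.OddStep

set_option autoImplicit false

namespace Pool.Agent.H64.RO

open Pool.Agent.H43.RO

/-- the graph of the random adversary has no odd closed walk of length `< 2 (L + 1) + 3` -/
theorem GG_odd {T m L h : ℕ} [NeZero m] (ω : Om T m L h) :
    OddGirthGE (GG ω) (2 * (L + 1) + 3) :=
  GG_odd_of (fun R R' par usr rk hR h1 _ w hw hcl hodd =>
    odd_step R R' par usr rk hR h1 w hw hcl hodd) ω

end Pool.Agent.H64.RO
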