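import Pool.Agent.H94.PN.GS

set_option autoImplicit false

/-!
# [H64 RO Gsf] The Gauss sum with a function of one coordinate

`Gs f i₀` is the sum of `PN.gs` (`H94/PN/GS.lean`) with the additional factor `f (ε i₀) (w.1 i₀)`.  Copy the proof of `gs` (with its private lemmas): the average over `K = {c | (0, c) ∈ TX Λ}` does not touch `ε`, `w.1`, so
`Gs f = ∑ w ∈ TX Λ, ∑ ε, [∀ i, (ε i, w.1 i) ∈ W, ε ∈ V ⊗ P₀] f (ε i₀) (w.1 i₀) = card K * ∑ z ∈ W ⊗ P₀, f (z i₀).1 (z i₀).2` by the bijection `eA : A ≃ (gsQ W P₀) × K` (`z i = (ε i, w.1 i)`), `card K * card (W ⊗ P₀) = card V ^ k`.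
* `gsf_a`: `x.1 i₀ = 0` for all `x ∈ Λ`, i.e. `p i₀ = 0` for all `p ∈ P₀`: then `z i₀ = 0` for `z ∈ W ⊗ P₀` (all functionals of `z i₀` vanish).
* `gsf_b`: otherwise there is `p ∈ P₀` with `p i₀ = 1`; the map `W ⊗ P₀ → W`, `z ↦ z i₀` is linear and surjective (`i ↦ p i • y` is in `W ⊗ P₀`), its fibres have `card (W ⊗ P₀) / card W` elements, so
  `card W * ∑ z ∈ W ⊗ P₀, f (z i₀) = card (W ⊗ P₀) * ∑ y ∈ W, f y`.
-/

namespace Pool.Agent.H64.RO

open Pool.Agent.H94.PL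
open Pool.Agent.H94.PM
open Pool.Agent.H94.PN

section aux

variable {ℓ k : ℕ} [hl : Fact ℓ.Prime] {Y : Type} [AddCommGroup Y] [Module (ZMod ℓ) Y]

/-- `Y ⊗ P` -/
private def gsQ (Y : Type) [AddCommGroup Y] [Module (ZMod ℓ) Y] (P : Submodule (ZMod ℓ) (Fin k → ZMod ℓ)) :
    Submodule (ZMod ℓ) (Fin k → Y) where
  carrier := {a | ∀ φ : Y →ₗ[ZMod ℓ] ZMod ℓ, (fun i => φ (a i)) ∈ P}
  zero_mem' := by
    intro φ
    have e : (fun i => φ ((0 : Fin k → Y) i)) = 0 := by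
      funext i
      simp
    rw [e]
    exact P.zero_mem
  add_mem' := by
    intro a b ha hb φ
    have e : (fun i => φ ((a + b) i)) = (fun i => φ (a i)) + fun i => φ (b i) := by
      funext i
      simp
    rw [e]
    exact P.add_mem (ha φ) (hb φ)
  smul_mem' := by
    intro c a ha φ
    have e : (fun i => φ ((c • a) i)) = c • fun i => φ (a i) := by
      funext i
      simp
    rw [e]
    exact P.smul_mem c (ha φ)

private theorem gs_memQ {P : Submodule (ZMod ℓ) (Fin k → ZMod ℓ)} {a : Fin k → Y} :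
    a ∈ gsQ Y P ↔ ∀ φ : Y →ₗ[ZMod ℓ] ZMod ℓ, (fun i => φ (a i)) ∈ P := Iff.rfl

private theorem gs_cardQ [Finite Y] (P : Submodule (ZMod ℓ) (Fin k → ZMod ℓ)) :
    Nat.card (gsQ Y P) = Nat.card P ^ Module.finrank (ZMod ℓ) Y := by
  set b := Module.finBasis (ZMod ℓ) Y with hb
  have hrep : ∀ (g : Fin (Module.finrank (ZMod ℓ) Y) → P) (i : Fin k) (j : Fin (Module.finrank (ZMod ℓ) Y)),
      b.repr (∑ j, (g j : Fin k → ZMod ℓ) i • b j) j = (g j : Fin k → ZMod ℓ) i := by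
    intro g i j
    have h1 : (∑ j, (g j : Fin k → ZMod ℓ) i • b j) = b.equivFun.symm (fun j => (g j : Fin k → ZMod ℓ) i) := by
      rw [Module.Basis.equivFun_symm_apply]
    have h2 : b.repr (b.equivFun.symm (fun j => (g j : Fin k → ZMod ℓ) i)) j =
        b.equivFun (b.equivFun.symm (fun j => (g j : Fin k → ZMod ℓ) i)) j := rfl
    rw [h1, h2, LinearEquiv.apply_symm_apply]
  let e : (Fin (Module.finrank (ZMod ℓ) Y) → P) ≃ gsQ Y P :=
    { toFun := fun g => ⟨fun i => ∑ j, (g j : Fin k → ZMod ℓ) i • b j, by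
        intro φ
        have e1 : (fun i => φ (∑ j, (g j : Fin k → ZMod ℓ) i • b j)) =
            ∑ j, φ (b j) • (g j : Fin k → ZMod ℓ) := by
          funext i
          rw [map_sum, Finset.sum_apply]
          refine Finset.sum_congr rfl fun j _ => ?_
          rw [map_smul, Pi.smul_apply, smul_eq_mul, smul_eq_mul, mul_comm]
        rw [e1]
        exact Submodule.sum_mem _ fun j _ => Submodule.smul_mem _ _ (g j).2⟩
      invFun := fun a => fun j => ⟨fun i => b.coord j (a.1 i), a.2 (b.coord j)⟩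
      left_inv := by
        intro g
        funext j
        apply Subtype.ext
        funext i
        exact hrep g i j
      right_inv := by
        intro a
        apply Subtype.ext
        funext i
        exact b.sum_repr (a.1 i) }
  rw [← Nat.card_congr e, Nat.card_fun, Nat.card_fin]

/-- lifting from the first coordinates -/
private theorem gs_lift [Finite Y] (Λ : Submodule (ZMod ℓ) (H0 ℓ k)) {a : Fin k → Y}
    (ha : a ∈ gsQ Y (Λ.map (LinearMap.fst (ZMod ℓ) (Fin k → ZMod ℓ) (Fin k → ZMod ℓ)))) :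
    ∃ c : Fin k → Y, ∀ φ : Y →ₗ[ZMod ℓ] ZMod ℓ,
      ((fun i => φ (a i), fun i => φ (c i)) : H0 ℓ k) ∈ Λ := by
  set b := Module.finBasis (ZMod ℓ) Y with hb
  have h1 : ∀ j, ∃ g : Fin k → ZMod ℓ, ((fun i => b.coord j (a i), g) : H0 ℓ k) ∈ Λ := by
    intro j
    obtain ⟨x, hx, hx2⟩ := Submodule.mem_map.1 (ha (b.coord j))
    refine ⟨x.2, ?_⟩
    have : ((fun i => b.coord j (a i), x.2) : H0 ℓ k) = x := by
      refine Prod.ext ?_ rfl
      exact hx2.symm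
    rw [this]
    exact hx
  choose g hg using h1
  refine ⟨fun i => ∑ j, g j i • b j, fun φ => ?_⟩
  have e1 : ((fun i => φ (a i), fun i => φ (∑ j, g j i • b j)) : H0 ℓ k) =
      ∑ j, φ (b j) • ((fun i => b.coord j (a i), g j) : H0 ℓ k) := by
    refine Prod.ext ?_ ?_
    · rw [Prod.fst_sum]
      funext i
      rw [Finset.sum_apply]
      have h2 : a i = ∑ j, b.coord j (a i) • b j := (b.sum_repr (a i)).symm
      have h3 : φ (a i) = ∑ j, b.coord j (a i) * φ (b j) := by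
        conv_lhs => rw [h2]
        rw [map_sum]
        exact Finset.sum_congr rfl fun j _ => by rw [map_smul, smul_eq_mul]
      change φ (a i) = _
      rw [h3]
      refine Finset.sum_congr rfl fun j _ => ?_
      rw [Prod.smul_fst, Pi.smul_apply, smul_eq_mul, mul_comm]
    · rw [Prod.snd_sum]
      funext i
      rw [Finset.sum_apply]
      change φ (∑ j, g j i • b j) = _
      rw [map_sum]
      refine Finset.sum_congr rfl fun j _ => ?_
      rw [Prod.smul_snd, Pi.smul_apply, smul_eq_mul, map_smul, smul_eq_mul, mul_comm]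
  rw [e1]
  exact Submodule.sum_mem _ fun j _ => Submodule.smul_mem _ _ (hg j)

private theorem gs_alt [Finite Y] {Λ : Submodule (ZMod ℓ) (H0 ℓ k)} (hΛ : Lag ℓ k Λ)
    (β : Y →ₗ[ZMod ℓ] Y →ₗ[ZMod ℓ] ZMod ℓ) (hs : ∀ x y, β x y = β y x) (h2 : ℓ = 2 → ∀ x, β x x = 0)
    {z c : Fin k → Y} (h : ∀ φ : Y →ₗ[ZMod ℓ] ZMod ℓ, ((fun i => φ (z i), fun i => φ (c i)) : H0 ℓ k) ∈ Λ) :
    ∑ i, β (c i) (z i) = 0 := by
  classical
  set b := Module.finBasis (ZMod ℓ) Y with hb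
  have h3 : ∀ i, β (c i) (z i) = ∑ p : Fin (Module.finrank (ZMod ℓ) Y) × Fin (Module.finrank (ZMod ℓ) Y),
      β (b p.1) (b p.2) * (b.coord p.1 (c i) * b.coord p.2 (z i)) := by
    intro i
    have hc : c i = ∑ j, b.coord j (c i) • b j := (b.sum_repr (c i)).symm
    have hz : z i = ∑ j, b.coord j (z i) • b j := (b.sum_repr (z i)).symm
    rw [Fintype.sum_prod_type]
    have e1 : β (c i) (z i) = ∑ j, b.coord j (c i) * β (b j) (z i) := by
      conv_lhs => rw [hc]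
      simp only [map_sum, map_smul, LinearMap.sum_apply, LinearMap.smul_apply, smul_eq_mul]
    have e2 : ∀ j, β (b j) (z i) = ∑ l, b.coord l (z i) * β (b j) (b l) := by
      intro j
      conv_lhs => rw [hz]
      simp only [map_sum, map_smul, smul_eq_mul]
    rw [e1]
    refine Finset.sum_congr rfl fun j _ => ?_
    rw [e2, Finset.mul_sum]
    refine Finset.sum_congr rfl fun l _ => ?_
    ring
  rw [Finset.sum_congr rfl fun i _ => h3 i, Finset.sum_comm]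
  have h4 : ∀ p : Fin (Module.finrank (ZMod ℓ) Y) × Fin (Module.finrank (ZMod ℓ) Y),
      ∑ i, β (b p.1) (b p.2) * (b.coord p.1 (c i) * b.coord p.2 (z i)) =
        β (b p.1) (b p.2) * dotp (fun i => b.coord p.1 (c i)) (fun i => b.coord p.2 (z i)) := by
    intro p
    rw [← Finset.mul_sum]
    rfl
  rw [Finset.sum_congr rfl fun p _ => h4 p]
  apply Finset.sum_involution (fun p _ => (p.2, p.1))
  · rintro ⟨j, l⟩ _
    have h5 := hΛ.2.1 _ (h (b.coord j)) _ (h (b.coord l))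
    simp only at h5 ⊢
    rw [hs (b l) (b j), ← mul_add, h5, mul_zero]
  · rintro ⟨j, l⟩ _ hne heq
    apply hne
    simp only [Prod.mk.injEq] at heq
    obtain ⟨h6, _⟩ := heq
    subst h6
    simp only
    by_cases hl2 : ℓ = 2
    · rw [h2 hl2, zero_mul]
    · rw [hΛ.2.2 hl2 _ (h (b.coord l)), mul_zero]
  · rintro ⟨j, l⟩ _
    exact Finset.mem_univ _
  · rintro ⟨j, l⟩ _
    rfl

private theorem gs_dual [Finite Y] {B : Y →ₗ[ZMod ℓ] Y →ₗ[ZMod ℓ] ZMod ℓ} (hB : BGood B) (φ : Y →ₗ[ZMod ℓ] ZMod ℓ) :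
    ∃ y, ∀ x, φ x = B y x := by
  have hinj : Function.Injective B := by
    rw [injective_iff_map_eq_zero]
    intro x hx
    apply hB.nondeg
    intro y
    rw [hx]
    rfl
  have hsur : Function.Surjective B := by
    have hf : Module.finrank (ZMod ℓ) Y = Module.finrank (ZMod ℓ) (Module.Dual (ZMod ℓ) Y) :=
      (Subspace.dual_finrank_eq).symm
    exact (LinearMap.injective_iff_surjective_of_finrank_eq_finrank hf).1 hinj
  obtain ⟨y, hy⟩ := hsur φ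
  exact ⟨y, fun x => by rw [hy]⟩

private theorem gs_memTX [Finite Y] {B : Y →ₗ[ZMod ℓ] Y →ₗ[ZMod ℓ] ZMod ℓ} (hB : BGood B)
    {Λ : Submodule (ZMod ℓ) (H0 ℓ k)} {w : (Fin k → Y) × (Fin k → Y)} :
    w ∈ TX B Λ ↔ ∀ φ : Y →ₗ[ZMod ℓ] ZMod ℓ, ((fun i => φ (w.1 i), fun i => φ (w.2 i)) : H0 ℓ k) ∈ Λ := by
  rw [mem_TX]
  constructor
  · intro h φ
    obtain ⟨y, hy⟩ := gs_dual hB φ
    have := h y
    simp only [hy]
    exact this
  · intro h y
    exact h (B y)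

/-- the dot product as a bilinear form -/
private def gsD (ℓ k : ℕ) : LinearMap.BilinForm (ZMod ℓ) (Fin k → ZMod ℓ) :=
  LinearMap.mk₂ (ZMod ℓ) dotp
    (fun x x' y => by simp only [dotp, Pi.add_apply, add_mul, Finset.sum_add_distrib])
    (fun c x y => by simp only [dotp, Pi.smul_apply, smul_eq_mul, mul_assoc, Finset.mul_sum])
    (fun x y y' => by simp only [dotp, Pi.add_apply, mul_add, Finset.sum_add_distrib])
    (fun c x y => by
      simp only [dotp, Pi.smul_apply, smul_eq_mul, Finset.mul_sum]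
      exact Finset.sum_congr rfl fun i _ => by ring)

private theorem gsD_apply (x y : Fin k → ZMod ℓ) : gsD ℓ k x y = dotp x y := rfl

private theorem gsD_ker : LinearMap.ker (gsD ℓ k) = ⊥ := by
  classical
  rw [LinearMap.ker_eq_bot']
  intro x hx
  funext i
  have h1 := LinearMap.congr_fun hx (Pi.single i 1)
  rw [gsD_apply] at h1
  unfold dotp at h1
  simpa [Pi.single_apply] using h1

/-- `P₀ = K₀^⊥` and the dimensions -/
private theorem gs_rank {Λ : Submodule (ZMod ℓ) (H0 ℓ k)} (hΛ : Lag ℓ k Λ) :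
    (Module.finrank (ZMod ℓ) (Λ.map (LinearMap.fst (ZMod ℓ) (Fin k → ZMod ℓ) (Fin k → ZMod ℓ))) +
      Module.finrank (ZMod ℓ) (Λ.comap (LinearMap.inr (ZMod ℓ) (Fin k → ZMod ℓ) (Fin k → ZMod ℓ))) = k) ∧
    ∀ p : Fin k → ZMod ℓ, (∀ c ∈ Λ.comap (LinearMap.inr (ZMod ℓ) (Fin k → ZMod ℓ) (Fin k → ZMod ℓ)), dotp c p = 0) →
      p ∈ Λ.map (LinearMap.fst (ZMod ℓ) (Fin k → ZMod ℓ) (Fin k → ZMod ℓ)) := by
  set P := Λ.map (LinearMap.fst (ZMod ℓ) (Fin k → ZMod ℓ) (Fin k → ZMod ℓ)) with hP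
  set K := Λ.comap (LinearMap.inr (ZMod ℓ) (Fin k → ZMod ℓ) (Fin k → ZMod ℓ)) with hK
  set f : Λ →ₗ[ZMod ℓ] (Fin k → ZMod ℓ) := (LinearMap.fst (ZMod ℓ) (Fin k → ZMod ℓ) (Fin k → ZMod ℓ)) ∘ₗ Λ.subtype with hf
  have hΛk : Module.finrank (ZMod ℓ) Λ = k := by
    have h1 := hΛ.1
    rw [Module.natCard_eq_pow_finrank (K := ZMod ℓ), Nat.card_zmod] at h1
    exact Nat.pow_right_injective hl.out.two_le h1
  have hrange : LinearMap.range f = P := by
    rw [hf, LinearMap.range_comp, Submodule.range_subtype]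
  have h1 := LinearMap.finrank_range_add_finrank_ker f
  rw [hrange, hΛk] at h1
  have h2 : Module.finrank (ZMod ℓ) (LinearMap.ker f) ≤ Module.finrank (ZMod ℓ) K := by
    let g : LinearMap.ker f →ₗ[ZMod ℓ] K :=
      { toFun := fun x => ⟨(x.1 : H0 ℓ k).2, by
          rw [hK, Submodule.mem_comap]
          have h3 : LinearMap.inr (ZMod ℓ) (Fin k → ZMod ℓ) (Fin k → ZMod ℓ) (x.1 : H0 ℓ k).2 = (x.1 : H0 ℓ k) := by
            refine Prod.ext ?_ rfl
            have h4 : f x.1 = 0 := x.2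
            exact h4.symm
          rw [h3]
          exact x.1.2⟩
        map_add' := fun x y => rfl
        map_smul' := fun c x => rfl }
    apply LinearMap.finrank_le_finrank_of_injective (f := g)
    intro x y hxy
    apply Subtype.ext
    apply Subtype.ext
    refine Prod.ext ?_ (congrArg Subtype.val hxy)
    have h4 : f x.1 = 0 := x.2
    have h5 : f y.1 = 0 := y.2
    exact h4.trans h5.symm
  have h3 := LinearMap.BilinForm.finrank_add_finrank_orthogonal' (B := gsD ℓ k) K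
  rw [gsD_ker, inf_bot_eq, finrank_bot, add_zero, Module.finrank_fin_fun] at h3
  have h4 : P ≤ LinearMap.BilinForm.orthogonal (gsD ℓ k) K := by
    rintro p hp
    rw [LinearMap.BilinForm.mem_orthogonal_iff]
    intro c hc
    obtain ⟨x, hx, rfl⟩ := Submodule.mem_map.1 hp
    have h5 := hΛ.2.1 _ (Submodule.mem_comap.1 hc) _ hx
    have h6 : dotp x.2 (LinearMap.inr (ZMod ℓ) (Fin k → ZMod ℓ) (Fin k → ZMod ℓ) c).1 = 0 := by
      unfold dotp
      apply Finset.sum_eq_zero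
      intro i _
      simp
    rw [h6, add_zero] at h5
    exact h5
  have h5 := Submodule.finrank_mono h4
  have h6 : Module.finrank (ZMod ℓ) P + Module.finrank (ZMod ℓ) K = k := by omega
  refine ⟨h6, ?_⟩
  intro p hp
  have h7 : P = LinearMap.BilinForm.orthogonal (gsD ℓ k) K :=
    Submodule.eq_of_le_of_finrank_eq h4 (by omega)
  rw [h7, LinearMap.BilinForm.mem_orthogonal_iff]
  intro c hc
  exact hp c hc

end aux

variable {ℓ k : ℕ} [hl : Fact ℓ.Prime] {V : Type} [AddCommGroup V] [Module (ZMod ℓ) V] [Fintype V]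

open Classical in
/-- the sum -/
noncomputable def Gs (Bv : V →ₗ[ZMod ℓ] V →ₗ[ZMod ℓ] ZMod ℓ) (Mv : V →ₗ[ZMod ℓ] V)
    (W : Submodule (ZMod ℓ) (V × V)) (Λ : Submodule (ZMod ℓ) (H0 ℓ k)) (f : V → V → ℂ) (i₀ : Fin k) : ℂ :=
  ∑ w : (Fin k → V) × (Fin k → V), (if w ∈ TX Bv Λ then
      ∑ ε : Fin k → V, (if ∀ i, (ε i, w.1 i) ∈ W then
        f (ε i₀) (w.1 i₀) * ps (∑ i, Bv (w.2 i) (ε i + Mv (w.1 i))) else 0) else 0)

/-- the annihilator of `V ⊗ K₀` is `V ⊗ P₀` -/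
private theorem gs_ann {Bv : V →ₗ[ZMod ℓ] V →ₗ[ZMod ℓ] ZMod ℓ} (hB : BGood Bv)
    {Λ : Submodule (ZMod ℓ) (H0 ℓ k)} (hΛ : Lag ℓ k Λ) (x : Fin k → V) :
    x ∈ gsQ V (Λ.map (LinearMap.fst (ZMod ℓ) (Fin k → ZMod ℓ) (Fin k → ZMod ℓ))) ↔
      ∀ c : Fin k → V, ((0 : Fin k → V), c) ∈ TX Bv Λ → ∑ i, Bv (c i) (x i) = 0 := by
  constructor
  · intro hx c hc
    set b := Module.finBasis (ZMod ℓ) V with hb
    have h1 : ∀ i, Bv (c i) (x i) = ∑ j, Bv (b j) (c i) * b.coord j (x i) := by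
      intro i
      have hxi : x i = ∑ j, b.coord j (x i) • b j := (b.sum_repr (x i)).symm
      conv_lhs => rw [hxi]
      rw [map_sum]
      refine Finset.sum_congr rfl fun j _ => ?_
      rw [map_smul, smul_eq_mul, hB.symm (c i) (b j), mul_comm]
    rw [Finset.sum_congr rfl fun i _ => h1 i, Finset.sum_comm]
    apply Finset.sum_eq_zero
    intro j _
    obtain ⟨y, hy, hy1⟩ := Submodule.mem_map.1 (hx (b.coord j))
    have h2 := hΛ.2.1 _ (hc (b j)) _ hy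
    have h3 : dotp y.2 (fun i => Bv (b j) ((0 : Fin k → V) i)) = 0 := by
      unfold dotp
      apply Finset.sum_eq_zero
      intro i _
      simp
    have h4 : y.1 = fun i => b.coord j (x i) := hy1
    simp only at h2
    rw [h3, add_zero, h4] at h2
    exact h2
  · intro h φ
    obtain ⟨y, hy⟩ := gs_dual hB φ
    apply (gs_rank hΛ).2
    intro c hc
    have h1 : ((0 : Fin k → V), fun i => c i • y) ∈ TX Bv Λ := by
      intro y'
      have h2 : ((fun i => Bv y' ((0 : Fin k → V) i), fun i => Bv y' (c i • y)) : H0 ℓ k) =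
          Bv y' y • (LinearMap.inr (ZMod ℓ) (Fin k → ZMod ℓ) (Fin k → ZMod ℓ) c) := by
        refine Prod.ext ?_ ?_
        · funext i
          simp
        · funext i
          simp [mul_comm]
      change ((fun i => Bv y' ((0 : Fin k → V) i), fun i => Bv y' (c i • y)) : H0 ℓ k) ∈ Λ
      rw [h2]
      exact Λ.smul_mem _ (Submodule.mem_comap.1 hc)
    have h3 := h _ h1
    unfold dotp
    rw [← h3]
    refine Finset.sum_congr rfl fun i _ => ?_
    rw [map_smul, LinearMap.smul_apply, smul_eq_mul, ← hy]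

private theorem gs_orth {Bv : V →ₗ[ZMod ℓ] V →ₗ[ZMod ℓ] ZMod ℓ} (K : Submodule (ZMod ℓ) (Fin k → V)) [Fintype K]
    (x : Fin k → V) :
    ∑ c : K, ps (∑ i, Bv ((c : Fin k → V) i) (x i)) =
      open Classical in if (∀ c ∈ K, ∑ i, Bv (c i) (x i) = 0) then (Fintype.card K : ℂ) else 0 := by
  classical
  by_cases h : ∀ c ∈ K, ∑ i, Bv (c i) (x i) = 0
  · rw [if_pos h]
    rw [Finset.sum_congr rfl (fun c _ => by rw [h c.1 c.2, ps_zero])]
    simp
  · rw [if_neg h]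
    push Not at h
    obtain ⟨c0, hc0, h0⟩ := h
    have h1 : ∑ c : K, ps (∑ i, Bv (((⟨c0, hc0⟩ + c : K) : Fin k → V) i) (x i)) =
        ∑ c : K, ps (∑ i, Bv ((c : Fin k → V) i) (x i)) :=
      Equiv.sum_comp (Equiv.addLeft (⟨c0, hc0⟩ : K)) (fun c => ps (∑ i, Bv ((c : Fin k → V) i) (x i)))
    have h2 : ∑ c : K, ps (∑ i, Bv (((⟨c0, hc0⟩ + c : K) : Fin k → V) i) (x i)) =
        ps (∑ i, Bv (c0 i) (x i)) * ∑ c : K, ps (∑ i, Bv ((c : Fin k → V) i) (x i)) := by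
      rw [Finset.mul_sum]
      refine Finset.sum_congr rfl fun c _ => ?_
      rw [← ps_add, ← Finset.sum_add_distrib]
      congr 1
      refine Finset.sum_congr rfl fun i _ => ?_
      rw [Submodule.coe_add, Pi.add_apply, map_add, LinearMap.add_apply]
    have h3 : (1 - ps (∑ i, Bv (c0 i) (x i))) * ∑ c : K, ps (∑ i, Bv ((c : Fin k → V) i) (x i)) = 0 := by
      rw [sub_mul, one_mul, ← h2, h1, sub_self]
    rcases mul_eq_zero.1 h3 with h4 | h4
    · exact absurd (ps_eq_one_iff.1 (sub_eq_zero.1 h4).symm) h0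
    · exact h4

/-- vectors of `W^k` with coordinates in `V ⊗ P` -/
private theorem gs_memW (W : Submodule (ZMod ℓ) (V × V)) (P : Submodule (ZMod ℓ) (Fin k → ZMod ℓ))
    (z : Fin k → W) : z ∈ gsQ W P ↔
      (fun i => (z i : V × V).1) ∈ gsQ V P ∧ (fun i => (z i : V × V).2) ∈ gsQ V P := by
  constructor
  · intro h
    constructor
    · intro φ
      exact h (φ ∘ₗ (LinearMap.fst (ZMod ℓ) V V) ∘ₗ W.subtype)
    · intro φ
      exact h (φ ∘ₗ (LinearMap.snd (ZMod ℓ) V V) ∘ₗ W.subtype)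
  · rintro ⟨h1, h2⟩ φ
    obtain ⟨ψ, hψ⟩ := LinearMap.exists_extend φ
    have h3 := P.add_mem (h1 (ψ ∘ₗ LinearMap.inl (ZMod ℓ) V V)) (h2 (ψ ∘ₗ LinearMap.inr (ZMod ℓ) V V))
    have h4 : (fun i => φ (z i)) = ((fun i => (ψ ∘ₗ LinearMap.inl (ZMod ℓ) V V) (z i : V × V).1) +
        fun i => (ψ ∘ₗ LinearMap.inr (ZMod ℓ) V V) (z i : V × V).2) := by
      funext i
      rw [← hψ]
      simp only [LinearMap.comp_apply, Submodule.subtype_apply, Pi.add_apply, LinearMap.inl_apply, LinearMap.inr_apply]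
      rw [← map_add]
      congr 1
      simp
    rw [h4]
    exact h3

/-- the exponent vanishes -/
private theorem gs_zero {Bv : V →ₗ[ZMod ℓ] V →ₗ[ZMod ℓ] ZMod ℓ} (hB : BGood Bv) (Mv : V →ₗ[ZMod ℓ] V)
    (W : Submodule (ZMod ℓ) (V × V))
    (hb : ∀ z ∈ W, ∀ z' ∈ W, Bv z.2 (z'.1 + Mv z'.2) = Bv z'.2 (z.1 + Mv z.2))
    (hb2 : ℓ = 2 → ∀ z ∈ W, Bv z.2 (z.1 + Mv z.2) = 0)
    {Λ : Submodule (ZMod ℓ) (H0 ℓ k)} (hΛ : Lag ℓ k Λ) {w : (Fin k → V) × (Fin k → V)} (hw : w ∈ TX Bv Λ)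
    {ε : Fin k → V} (hε : ∀ i, (ε i, w.1 i) ∈ W)
    (hεP : ε ∈ gsQ V (Λ.map (LinearMap.fst (ZMod ℓ) (Fin k → ZMod ℓ) (Fin k → ZMod ℓ))))
    (haP : w.1 ∈ gsQ V (Λ.map (LinearMap.fst (ZMod ℓ) (Fin k → ZMod ℓ) (Fin k → ZMod ℓ))))
    (hxP : (fun i => ε i + Mv (w.1 i)) ∈ gsQ V (Λ.map (LinearMap.fst (ZMod ℓ) (Fin k → ZMod ℓ) (Fin k → ZMod ℓ)))) :
    ∑ i, Bv (w.2 i) (ε i + Mv (w.1 i)) = 0 := by
  let z : Fin k → W := fun i => ⟨(ε i, w.1 i), hε i⟩
  have hz : z ∈ gsQ W (Λ.map (LinearMap.fst (ZMod ℓ) (Fin k → ZMod ℓ) (Fin k → ZMod ℓ))) :=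
    (gs_memW W _ z).2 ⟨hεP, haP⟩
  obtain ⟨c, hc⟩ := gs_lift Λ hz
  let β : W →ₗ[ZMod ℓ] W →ₗ[ZMod ℓ] ZMod ℓ := LinearMap.mk₂ (ZMod ℓ)
    (fun u v => Bv (u : V × V).2 ((v : V × V).1 + Mv (v : V × V).2))
    (fun x x' y => by
      simp only [Submodule.coe_add, Prod.snd_add, map_add, LinearMap.add_apply]
      ring)
    (fun c x y => by simp only [Submodule.coe_smul, Prod.smul_snd, map_smul, LinearMap.smul_apply])
    (fun x y y' => by
      simp only [Submodule.coe_add, Prod.snd_add, Prod.fst_add, map_add]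
      ring)
    (fun c x y => by
      simp only [Submodule.coe_smul, Prod.smul_snd, Prod.smul_fst, map_smul, ← smul_add])
  have h1 := gs_alt hΛ β (fun u v => hb u.1 u.2 v.1 v.2) (fun h2 u => hb2 h2 u.1 u.2) hc
  have h2 : ∑ i, Bv ((c i : V × V).2) (ε i + Mv (w.1 i)) = 0 := h1
  have h3 : ((0 : Fin k → V), fun i => w.2 i - (c i : V × V).2) ∈ TX Bv Λ := by
    intro y
    have h4 := Λ.sub_mem (hw y) (hc ((Bv y) ∘ₗ (LinearMap.snd (ZMod ℓ) V V) ∘ₗ W.subtype))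
    have h5 : ((fun i => Bv y ((0 : Fin k → V) i), fun i => Bv y (w.2 i - (c i : V × V).2)) : H0 ℓ k) =
        ((fun i => Bv y (w.1 i), fun i => Bv y (w.2 i)) : H0 ℓ k) -
          ((fun i => ((Bv y) ∘ₗ (LinearMap.snd (ZMod ℓ) V V) ∘ₗ W.subtype) (z i),
            fun i => ((Bv y) ∘ₗ (LinearMap.snd (ZMod ℓ) V V) ∘ₗ W.subtype) (c i)) : H0 ℓ k) := by
      refine Prod.ext ?_ ?_
      · funext i
        simp [z]
      · funext i
        simp
    change ((fun i => Bv y ((0 : Fin k → V) i), fun i => Bv y (w.2 i - (c i : V × V).2)) : H0 ℓ k) ∈ Λ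
    rw [h5]
    exact h4
  have h6 := (gs_ann hB hΛ (fun i => ε i + Mv (w.1 i))).1 hxP _ h3
  have h7 : ∑ i, Bv (w.2 i - (c i : V × V).2) (ε i + Mv (w.1 i)) =
      ∑ i, Bv (w.2 i) (ε i + Mv (w.1 i)) - ∑ i, Bv ((c i : V × V).2) (ε i + Mv (w.1 i)) := by
    rw [← Finset.sum_sub_distrib]
    refine Finset.sum_congr rfl fun i _ => ?_
    rw [map_sub, LinearMap.sub_apply]
  rw [h7, h2, sub_zero] at h6
  exact h6

open Classical in
private theorem gsf_core {Bv : V →ₗ[ZMod ℓ] V →ₗ[ZMod ℓ] ZMod ℓ} (hB : BGood Bv) (Mv : V →ₗ[ZMod ℓ] V)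
    (W : Submodule (ZMod ℓ) (V × V)) (hc : Nat.card W = Nat.card V)
    (hb : ∀ z ∈ W, ∀ z' ∈ W, Bv z.2 (z'.1 + Mv z'.2) = Bv z'.2 (z.1 + Mv z.2))
    (hb2 : ℓ = 2 → ∀ z ∈ W, Bv z.2 (z.1 + Mv z.2) = 0)
    {Λ : Submodule (ZMod ℓ) (H0 ℓ k)} (hΛ : Lag ℓ k Λ) (F : V → V → ℂ) (i₀ : Fin k) :
    ∃ c : ℕ, (c : ℂ) * (Fintype.card
        (gsQ W (Λ.map (LinearMap.fst (ZMod ℓ) (Fin k → ZMod ℓ) (Fin k → ZMod ℓ)))) : ℂ) =
          (Fintype.card V : ℂ) ^ k ∧
      Gs Bv Mv W Λ F i₀ = (c : ℂ) *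
        ∑ z : gsQ W (Λ.map (LinearMap.fst (ZMod ℓ) (Fin k → ZMod ℓ) (Fin k → ZMod ℓ))),
          F (z.1 i₀ : V × V).1 (z.1 i₀ : V × V).2 := by
  set P₀ := Λ.map (LinearMap.fst (ZMod ℓ) (Fin k → ZMod ℓ) (Fin k → ZMod ℓ)) with hP₀
  set K₀ := Λ.comap (LinearMap.inr (ZMod ℓ) (Fin k → ZMod ℓ) (Fin k → ZMod ℓ)) with hK₀
  set K : Submodule (ZMod ℓ) (Fin k → V) :=
    (TX Bv Λ).comap (LinearMap.inr (ZMod ℓ) (Fin k → V) (Fin k → V)) with hK
  have hKm : ∀ c, c ∈ K ↔ ((0 : Fin k → V), c) ∈ TX Bv Λ := fun c => Iff.rfl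
  -- facts on elements of `TX`
  have haP : ∀ w ∈ TX Bv Λ, w.1 ∈ gsQ V P₀ := by
    intro w hw φ
    exact Submodule.mem_map.2 ⟨_, (gs_memTX hB).1 hw φ, rfl⟩
  have hMP : ∀ w ∈ TX Bv Λ, (fun i => Mv (w.1 i)) ∈ gsQ V P₀ := by
    intro w hw φ
    exact haP w hw (φ ∘ₗ Mv)
  have hxP : ∀ w ∈ TX Bv Λ, ∀ ε : Fin k → V, ((fun i => ε i + Mv (w.1 i)) ∈ gsQ V P₀ ↔ ε ∈ gsQ V P₀) := by
    intro w hw ε
    have h1 : (fun i => ε i + Mv (w.1 i)) = ε + fun i => Mv (w.1 i) := rfl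
    rw [h1]
    exact Submodule.add_mem_iff_left _ (hMP w hw)
  -- averaging over `K`
  set f : (Fin k → V) × (Fin k → V) → ℂ := fun w => (if w ∈ TX Bv Λ then
      ∑ ε : Fin k → V, (if ∀ i, (ε i, w.1 i) ∈ W then
        F (ε i₀) (w.1 i₀) * ps (∑ i, Bv (w.2 i) (ε i + Mv (w.1 i))) else 0) else 0) with hf
  have hfG : Gs Bv Mv W Λ F i₀ = ∑ w, f w := rfl
  have hfK : ∀ c : K, ∑ w, f w = ∑ w, f (w + ((0 : Fin k → V), (c : Fin k → V))) := fun c =>
    (Equiv.sum_comp (Equiv.addRight ((0 : Fin k → V), (c : Fin k → V))) f).symm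
  have hmem : ∀ (c : K) (w : (Fin k → V) × (Fin k → V)),
      w + ((0 : Fin k → V), (c : Fin k → V)) ∈ TX Bv Λ ↔ w ∈ TX Bv Λ := fun c w =>
    Submodule.add_mem_iff_left _ ((hKm c.1).1 c.2)
  have hfc : ∀ (c : K) (w : (Fin k → V) × (Fin k → V)), f (w + ((0 : Fin k → V), (c : Fin k → V))) =
      (if w ∈ TX Bv Λ then ∑ ε : Fin k → V, (if ∀ i, (ε i, w.1 i) ∈ W then
        F (ε i₀) (w.1 i₀) * ps (∑ i, Bv (w.2 i) (ε i + Mv (w.1 i))) *
          ps (∑ i, Bv ((c : Fin k → V) i) (ε i + Mv (w.1 i))) else 0) else 0) := by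
    intro c w
    have h1 : (w + ((0 : Fin k → V), (c : Fin k → V))).1 = w.1 := add_zero _
    have h2 : ∀ i, (w + ((0 : Fin k → V), (c : Fin k → V))).2 i = w.2 i + (c : Fin k → V) i := fun i => rfl
    have h3 : ∀ x : Fin k → V, ps (∑ i, Bv (w.2 i + (c : Fin k → V) i) (x i + Mv (w.1 i))) =
        ps (∑ i, Bv (w.2 i) (x i + Mv (w.1 i))) * ps (∑ i, Bv ((c : Fin k → V) i) (x i + Mv (w.1 i))) := by
      intro x
      rw [← ps_add, ← Finset.sum_add_distrib]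
      congr 1
      refine Finset.sum_congr rfl fun i _ => ?_
      rw [map_add Bv, LinearMap.add_apply]
    simp only [hf, hmem c w, h1, h2, h3, mul_assoc]
  have hsum : ∀ w : (Fin k → V) × (Fin k → V), ∑ c : K, f (w + ((0 : Fin k → V), (c : Fin k → V))) =
      (Fintype.card K : ℂ) * (if w ∈ TX Bv Λ then ∑ ε : Fin k → V,
        (if (∀ i, (ε i, w.1 i) ∈ W) ∧ ε ∈ gsQ V P₀ then F (ε i₀) (w.1 i₀) else 0) else 0) := by
    intro w
    rw [Finset.sum_congr rfl fun c _ => hfc c w]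
    by_cases hw : w ∈ TX Bv Λ
    · simp only [if_pos hw]
      rw [Finset.sum_comm, Finset.mul_sum]
      refine Finset.sum_congr rfl fun ε _ => ?_
      by_cases hε : ∀ i, (ε i, w.1 i) ∈ W
      · simp only [if_pos hε]
        rw [← Finset.mul_sum, gs_orth K]
        by_cases hx : (fun i => ε i + Mv (w.1 i)) ∈ gsQ V P₀
        · have h1 := (gs_ann hB hΛ _).1 hx
          have h2 := (hxP w hw ε).1 hx
          rw [if_pos (fun c hc => h1 c ((hKm c).1 hc)), if_pos ⟨hε, h2⟩,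
            gs_zero hB Mv W hb hb2 hΛ hw hε h2 (haP w hw) hx, ps_zero]
          ring
        · have h1 : ¬ ∀ c ∈ K, ∑ i, Bv (c i) (ε i + Mv (w.1 i)) = 0 := fun h =>
            hx ((gs_ann hB hΛ _).2 fun c hc => h c ((hKm c).2 hc))
          have h2 : ε ∉ gsQ V P₀ := fun h => hx ((hxP w hw ε).2 h)
          rw [if_neg h1, if_neg (fun h => h2 h.2)]
          ring
      · simp only [if_neg hε]
        rw [if_neg (fun h => hε h.1)]
        simp
    · simp only [if_neg hw]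
      simp
  have hKpos : (Fintype.card K : ℂ) ≠ 0 := by
    have : 0 < Fintype.card K := Fintype.card_pos
    exact_mod_cast this.ne'
  have hmain : (Fintype.card K : ℂ) * ∑ w, f w = (Fintype.card K : ℂ) * ∑ w : (Fin k → V) × (Fin k → V),
      (if w ∈ TX Bv Λ then ∑ ε : Fin k → V,
        (if (∀ i, (ε i, w.1 i) ∈ W) ∧ ε ∈ gsQ V P₀ then F (ε i₀) (w.1 i₀) else 0) else 0) := by
    have h1 : (Fintype.card K : ℂ) * ∑ w, f w = ∑ c : K, ∑ w, f w := by
      rw [Finset.sum_const, Finset.card_univ, nsmul_eq_mul]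
    rw [h1, Finset.sum_congr rfl fun c _ => hfK c, Finset.sum_comm, Finset.sum_congr rfl fun w _ => hsum w,
      Finset.mul_sum]
  have hmain' := mul_left_cancel₀ hKpos hmain
  -- counting
  have hlift : ∀ z : gsQ W P₀, ∃ c : Fin k → W, ∀ φ : W →ₗ[ZMod ℓ] ZMod ℓ,
      ((fun i => φ (z.1 i), fun i => φ (c i)) : H0 ℓ k) ∈ Λ := fun z => gs_lift Λ z.2
  choose L hL using hlift
  have hLT : ∀ z : gsQ W P₀, ((fun i => (z.1 i : V × V).2), fun i => (L z i : V × V).2) ∈ TX Bv Λ := by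
    intro z y
    exact hL z ((Bv y) ∘ₗ (LinearMap.snd (ZMod ℓ) V V) ∘ₗ W.subtype)
  let A : Type := {p : ((Fin k → V) × (Fin k → V)) × (Fin k → V) //
    p.1 ∈ TX Bv Λ ∧ (∀ i, (p.2 i, p.1.1 i) ∈ W) ∧ p.2 ∈ gsQ V P₀}
  have hcount : ∑ w : (Fin k → V) × (Fin k → V),
      (if w ∈ TX Bv Λ then ∑ ε : Fin k → V,
        (if (∀ i, (ε i, w.1 i) ∈ W) ∧ ε ∈ gsQ V P₀ then F (ε i₀) (w.1 i₀) else 0) else 0) =
        ∑ a : A, F (a.1.2 i₀) (a.1.1.1 i₀) := by
    have h1 : ∀ w : (Fin k → V) × (Fin k → V), (if w ∈ TX Bv Λ then ∑ ε : Fin k → V,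
        (if (∀ i, (ε i, w.1 i) ∈ W) ∧ ε ∈ gsQ V P₀ then F (ε i₀) (w.1 i₀) else 0) else 0) =
        ∑ ε : Fin k → V, (if w ∈ TX Bv Λ ∧ (∀ i, (ε i, w.1 i) ∈ W) ∧ ε ∈ gsQ V P₀ then F (ε i₀) (w.1 i₀) else 0) := by
      intro w
      by_cases hw : w ∈ TX Bv Λ
      · simp only [hw, true_and, if_true]
      · simp [hw]
    rw [Finset.sum_congr rfl fun w _ => h1 w, ← Fintype.sum_prod_type'
        (fun (w : (Fin k → V) × (Fin k → V)) (ε : Fin k → V) =>
          (if w ∈ TX Bv Λ ∧ (∀ i, (ε i, w.1 i) ∈ W) ∧ ε ∈ gsQ V P₀ then F (ε i₀) (w.1 i₀) else 0)),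
      ← Finset.sum_filter]
    exact Finset.sum_subtype _ (fun p => by simp) (fun p : ((Fin k → V) × (Fin k → V)) × (Fin k → V) =>
      F (p.2 i₀) (p.1.1 i₀))
  let eA : A ≃ (gsQ W P₀) × K :=
    { toFun := fun p =>
        let z : gsQ W P₀ := ⟨fun i => ⟨(p.1.2 i, p.1.1.1 i), p.2.2.1 i⟩,
          (gs_memW W P₀ _).2 ⟨p.2.2.2, haP _ p.2.1⟩⟩
        (z, ⟨p.1.1.2 - fun i => (L z i : V × V).2, by
          have h1 := (TX Bv Λ).sub_mem p.2.1 (hLT z)
          have h2 : p.1.1 - ((fun i => (z.1 i : V × V).2), fun i => (L z i : V × V).2) =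
              ((0 : Fin k → V), p.1.1.2 - fun i => (L z i : V × V).2) := by
            refine Prod.ext ?_ rfl
            change p.1.1.1 - (fun i => (z.1 i : V × V).2) = 0
            exact sub_self _
          rw [h2] at h1
          exact h1⟩)
      invFun := fun q => ⟨(((fun i => (q.1.1 i : V × V).2), (fun i => (L q.1 i : V × V).2) + q.2.1),
          fun i => (q.1.1 i : V × V).1), by
        refine ⟨?_, fun i => (q.1.1 i).2, ((gs_memW W P₀ _).1 q.1.2).1⟩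
        have h1 := (TX Bv Λ).add_mem (hLT q.1) ((hKm _).1 q.2.2)
        have h2 : (((fun i => (q.1.1 i : V × V).2), fun i => (L q.1 i : V × V).2) +
            ((0 : Fin k → V), (q.2.1 : Fin k → V)) : (Fin k → V) × (Fin k → V)) =
            ((fun i => (q.1.1 i : V × V).2), (fun i => (L q.1 i : V × V).2) + q.2.1) := by
          refine Prod.ext ?_ rfl
          change (fun i => (q.1.1 i : V × V).2) + 0 = _
          exact add_zero _
        rw [h2] at h1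
        exact h1⟩
      left_inv := by
        rintro ⟨⟨⟨a, b⟩, ε⟩, h1, h2, h3⟩
        apply Subtype.ext
        simp only [add_sub_cancel]
      right_inv := by
        rintro ⟨z, c⟩
        simp only [add_sub_cancel_left, Subtype.coe_eta] }
  have hsumA : ∑ a : A, F (a.1.2 i₀) (a.1.1.1 i₀) =
      (Fintype.card K : ℂ) * ∑ z : gsQ W P₀, F (z.1 i₀ : V × V).1 (z.1 i₀ : V × V).2 := by
    rw [← Equiv.sum_comp eA.symm (fun a : A => F (a.1.2 i₀) (a.1.1.1 i₀))]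
    have h1 : ∀ q : (gsQ W P₀) × K, F ((eA.symm q).1.2 i₀) ((eA.symm q).1.1.1 i₀) =
        F (q.1.1 i₀ : V × V).1 (q.1.1 i₀ : V × V).2 := fun q => rfl
    rw [Finset.sum_congr rfl fun q _ => h1 q, Fintype.sum_prod_type]
    rw [Finset.mul_sum]
    refine Finset.sum_congr rfl fun z _ => ?_
    show ∑ _y : K, F (z.1 i₀ : V × V).1 (z.1 i₀ : V × V).2 = _
    rw [Finset.sum_const, Finset.card_univ, nsmul_eq_mul]
  refine ⟨Fintype.card K, ?_, by rw [hfG, hmain', hcount, hsumA]⟩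
  have hKcard : Nat.card K = Nat.card K₀ ^ Module.finrank (ZMod ℓ) V := by
    rw [← gs_cardQ (Y := V) K₀]
    apply Nat.card_congr
    apply Equiv.subtypeEquivRight
    intro c
    rw [gs_memQ]
    change ((0 : Fin k → V), c) ∈ TX Bv Λ ↔ _
    rw [gs_memTX hB]
    refine forall_congr' fun φ => ?_
    rw [hK₀, Submodule.mem_comap]
    have h1 : ((fun i => φ ((0 : Fin k → V) i), fun i => φ (c i)) : H0 ℓ k) =
        LinearMap.inr (ZMod ℓ) (Fin k → ZMod ℓ) (Fin k → ZMod ℓ) (fun i => φ (c i)) := by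
      refine Prod.ext ?_ rfl
      funext i
      simp
    change ((fun i => φ ((0 : Fin k → V) i), fun i => φ (c i)) : H0 ℓ k) ∈ Λ ↔ _
    rw [h1]
  have hWV : Module.finrank (ZMod ℓ) W = Module.finrank (ZMod ℓ) V := by
    rw [Module.natCard_eq_pow_finrank (K := ZMod ℓ) (V := W), Module.natCard_eq_pow_finrank (K := ZMod ℓ) (V := V),
      Nat.card_zmod] at hc
    exact Nat.pow_right_injective hl.out.two_le hc
  have hcc : (Fintype.card K) * Fintype.card (gsQ W P₀) = Fintype.card V ^ k := by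
    rw [← Nat.card_eq_fintype_card (α := K), ← Nat.card_eq_fintype_card (α := gsQ W P₀), gs_cardQ,
      hKcard, hWV, ← mul_pow]
    have hPK : Nat.card K₀ * Nat.card P₀ = ℓ ^ k := by
      rw [Module.natCard_eq_pow_finrank (K := ZMod ℓ) (V := P₀), Module.natCard_eq_pow_finrank (K := ZMod ℓ) (V := K₀),
        Nat.card_zmod, ← pow_add, add_comm, (gs_rank hΛ).1]
    rw [hPK]
    have hV : Fintype.card V = ℓ ^ Module.finrank (ZMod ℓ) V := by
      rw [← Nat.card_eq_fintype_card, Module.natCard_eq_pow_finrank (K := ZMod ℓ), Nat.card_zmod]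
    rw [hV, ← pow_mul, ← pow_mul, mul_comm]
  exact_mod_cast hcc

theorem gsf_a {Bv : V →ₗ[ZMod ℓ] V →ₗ[ZMod ℓ] ZMod ℓ} (hB : BGood Bv) (Mv : V →ₗ[ZMod ℓ] V)
    (W : Submodule (ZMod ℓ) (V × V)) (hc : Nat.card W = Nat.card V)
    (hb : ∀ z ∈ W, ∀ z' ∈ W, Bv z.2 (z'.1 + Mv z'.2) = Bv z'.2 (z.1 + Mv z.2))
    (hb2 : ℓ = 2 → ∀ z ∈ W, Bv z.2 (z.1 + Mv z.2) = 0)
    {Λ : Submodule (ZMod ℓ) (H0 ℓ k)} (hΛ : Lag ℓ k Λ) (f : V → V → ℂ) (i₀ : Fin k)
    (h0 : ∀ x ∈ Λ, x.1 i₀ = 0) : Gs Bv Mv W Λ f i₀ = (Fintype.card V : ℂ) ^ k * f 0 0 := by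
  classical
  obtain ⟨c, h1, h2⟩ := gsf_core hB Mv W hc hb hb2 hΛ f i₀
  have h3 : ∀ z : gsQ W (Λ.map (LinearMap.fst (ZMod ℓ) (Fin k → ZMod ℓ) (Fin k → ZMod ℓ))),
      (z.1 i₀ : W) = 0 := by
    intro z
    refine (Module.forall_dual_apply_eq_zero_iff (ZMod ℓ) (z.1 i₀)).1 fun φ => ?_
    obtain ⟨x, hx, hx2⟩ := Submodule.mem_map.1 (z.2 φ)
    have h4 := congrFun hx2 i₀
    rw [← h0 x hx]
    exact h4.symm
  rw [h2, ← h1, Finset.sum_congr rfl fun z _ => by rw [h3 z], Finset.sum_const, Finset.card_univ, nsmul_eq_mul,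
    mul_assoc]
  rfl

open Classical in
theorem gsf_b {Bv : V →ₗ[ZMod ℓ] V →ₗ[ZMod ℓ] ZMod ℓ} (hB : BGood Bv) (Mv : V →ₗ[ZMod ℓ] V)
    (W : Submodule (ZMod ℓ) (V × V)) (hc : Nat.card W = Nat.card V)
    (hb : ∀ z ∈ W, ∀ z' ∈ W, Bv z.2 (z'.1 + Mv z'.2) = Bv z'.2 (z.1 + Mv z.2))
    (hb2 : ℓ = 2 → ∀ z ∈ W, Bv z.2 (z.1 + Mv z.2) = 0)
    {Λ : Submodule (ZMod ℓ) (H0 ℓ k)} (hΛ : Lag ℓ k Λ) (f : V → V → ℂ) (i₀ : Fin k)
    (h0 : ¬ ∀ x ∈ Λ, x.1 i₀ = 0) (hf : ∑ z : V × V, (if z ∈ W then f z.1 z.2 else 0) = 0) :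
    Gs Bv Mv W Λ f i₀ = 0 := by
  obtain ⟨c, -, h2⟩ := gsf_core hB Mv W hc hb hb2 hΛ f i₀
  rw [h2]
  push Not at h0
  obtain ⟨x, hx, hx0⟩ := h0
  obtain ⟨P, hP⟩ : ∃ P, P = Λ.map (LinearMap.fst (ZMod ℓ) (Fin k → ZMod ℓ) (Fin k → ZMod ℓ)) := ⟨_, rfl⟩
  have hxP : x.1 ∈ P := by
    rw [hP]
    exact Submodule.mem_map.2 ⟨x, hx, rfl⟩
  rw [← hP]
  obtain ⟨s, hs⟩ : ∃ s : W → gsQ W P, ∀ y, (s y).1 i₀ = y := by
    refine ⟨fun y => ⟨fun i => ((x.1 i₀)⁻¹ * x.1 i) • y, fun φ => ?_⟩, fun y => ?_⟩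
    · have e : (fun i => φ (((x.1 i₀)⁻¹ * x.1 i) • y)) = ((x.1 i₀)⁻¹ * φ y) • x.1 := by
        funext i
        rw [map_smul, Pi.smul_apply, smul_eq_mul, smul_eq_mul]
        ring
      rw [e]
      exact P.smul_mem _ hxP
    · show ((x.1 i₀)⁻¹ * x.1 i₀) • y = y
      rw [inv_mul_cancel₀ hx0, one_smul]
  obtain ⟨G, hG⟩ : ∃ G : W → ℂ, G = fun y : W => f (y : V × V).1 (y : V × V).2 := ⟨_, rfl⟩
  have hGs : ∑ y : W, G y = 0 := by
    rw [← hf, ← Finset.sum_filter]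
    rw [hG]
    exact (Finset.sum_subtype (Finset.univ.filter fun z => z ∈ W) (fun p => by simp)
      (fun p : V × V => f p.1 p.2)).symm
  have h5 : ∀ y : W, ∑ z : gsQ W P, G (z.1 i₀) = ∑ z : gsQ W P, G (z.1 i₀ + y) := by
    intro y
    rw [← Equiv.sum_comp (Equiv.addRight (s y)) (fun z : gsQ W P => G (z.1 i₀))]
    refine Finset.sum_congr rfl fun z _ => ?_
    have : (Equiv.addRight (s y) z).1 i₀ = z.1 i₀ + y := by
      show z.1 i₀ + (s y).1 i₀ = _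
      rw [hs]
    rw [this]
  have h6 : (Fintype.card W : ℂ) * ∑ z : gsQ W P, G (z.1 i₀) = 0 := by
    have e1 : (Fintype.card W : ℂ) * ∑ z : gsQ W P, G (z.1 i₀) = ∑ y : W, ∑ z : gsQ W P, G (z.1 i₀) := by
      rw [Finset.sum_const, Finset.card_univ, nsmul_eq_mul]
    rw [e1, Finset.sum_congr rfl fun y _ => h5 y, Finset.sum_comm]
    refine Finset.sum_eq_zero fun z _ => ?_
    rw [← hGs]
    exact Equiv.sum_comp (Equiv.addLeft (z.1 i₀)) G
  have h7 : (Fintype.card W : ℂ) ≠ 0 := by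
    have : 0 < Fintype.card W := Fintype.card_pos
    exact_mod_cast this.ne'
  have h8 : ∑ z : gsQ W P, G (z.1 i₀) = 0 := by
    rcases mul_eq_zero.1 h6 with h | h
    · exact absurd h h7
    · exact h
  have h9 : ∑ z : gsQ W P, f (z.1 i₀ : V × V).1 (z.1 i₀ : V × V).2 = 0 := by
    rw [← h8, hG]
  rw [h9, mul_zero]

end Pool.Agent.H64.RO
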