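import Pool.Agent.H3.FS.FRC

set_option autoImplicit false

/-!
# [H64 RO Hcg] The frame of the four-Selmer law for an event: definitions

As `H3/FS/FRD.lean`, with an event `Q D` in place of `S4 D = 2 ^ (2 + s)` and its expected frequency `W D` in place of `alt r s`.
* `Enm E`: the number of the `e` which vanish outside `prs r` and satisfy `E e`.
* `HCg`: on the cell the rank, the independence are constant, `Q (D' P) ↔ E e` for the vector `e` of the signs, and `W (D' P) 2 ^ (#prs r) = Enm E`.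
-/

namespace Pool.Agent.H64.RO

open Polynomial
open Pool.Agent.H3.FS (prs Gd Ind Rt CellD Lg)

/-- the number of the vectors with the property `E` -/
noncomputable def Enm {r : ℕ} (E : (Fin r × Fin r → ZMod 2) → Prop) : ℕ :=
  Nat.card {e : Fin r × Fin r → ZMod 2 // (∀ p, p ∉ prs r → e p = 0) ∧ E e}

section
variable {F : Type} [Field F] [Finite F]

/-- the hypothesis on a cell, for an event -/
structure HCg (Δ : F[X]) (R : F[X] → ℕ) (Q : F[X] → Prop) (W : F[X] → ℝ)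
    (Idp : F[X] → F[X] → Prop) (r h : ℕ) (D' : F[X]) (m : ℕ) (τ : F[X] → ℝ) : Prop where
  /-- the rank and the independence are constant on the cell -/
  const : ∀ P ∈ CellD Δ D' m τ, R (D' * P) = 2 ^ (2 + r) ∧ Idp (D' * P) P
  /-- the data -/
  data : ∃ (a : Fin (r * 2) → F[X]) (G : ∀ p : Fin r × Fin r, p ∈ prs r → Gd a p.1 p.2)
    (w : Fin r × Fin r → ℝ) (E : (Fin r × Fin r → ZMod 2) → Prop), Ind a ∧
    (∀ i, (a i).natDegree ≤ h) ∧ (∀ p hp, (G p hp).Dg h) ∧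
    (∀ p, w p = 1 ∨ w p = -1) ∧ (∀ P ∈ CellD Δ D' m τ, ∀ i, ∃ ρ, P ∣ ρ ^ 2 - a i) ∧
    (∀ P ∈ CellD Δ D' m τ, W (D' * P) * 2 ^ (prs r).card = (Enm E : ℝ)) ∧
    ∀ P ∈ CellD Δ D' m τ,
      (∀ p hp, ∀ ρ ∈ Rt m P a, H94.PC.js (MvPolynomial.eval ρ (G p hp).el) P ≠ 0) →
      ∀ e : Fin r × Fin r → ZMod 2, (∀ p hp, ∀ ρ ∈ Rt m P a,
        H94.PC.sg (e p) = w p * H94.PC.js (MvPolynomial.eval ρ (G p hp).el) P) →
      (Q (D' * P) ↔ E e)

/-- the hypothesis for the rank `r`: all cells, with data of polynomial height -/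
def Hyg (Δ : F[X]) (T : F[X] → Prop) (R : F[X] → ℕ) (Q : F[X] → Prop) (W : F[X] → ℝ)
    (Idp : F[X] → F[X] → Prop) (r : ℕ) : Prop :=
  ∃ C : ℕ, ∀ (D' : F[X]) (m : ℕ) (τ : F[X] → ℝ), D'.Monic → Squarefree D' → 1 ≤ m →
    (∀ v ∈ H94.PC.pf (D' * Δ), v.natDegree < m) →
    ∀ P₀ ∈ CellD Δ D' m τ, T (D' * P₀) → R (D' * P₀) = 2 ^ (2 + r) → Idp (D' * P₀) P₀ →
      HCg Δ R Q W Idp r (C * (D'.natDegree + m + 1) ^ C) D' m τ

end

end Pool.Agent.H64.RO
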