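import Pool.Agent.H64.RO.Lens

/-!
# What the quantities at time `v` depend on
-/

set_option autoImplicit false

namespace Pool.Agent.H64.RO

open Finset Pool.Agent.H43.RO

variable {T m L h : ℕ} {c : Om T m L h → Fin T → X m L → ℕ}

/-- the same choices before `v` -/
def Before (v : Fin T) (ω ω' : Om T m L h) : Prop := ∀ w < v, ω w = ω' w

/-- the same choices before `v`, the same `al v` and `qq · v` -/
def Same (v : Fin T) (ω ω' : Om T m L h) : Prop :=
  Before v ω ω' ∧ al ω v = al ω' v ∧ ∀ u, qq ω u v = qq ω' u v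

theorem before_setAl (v : Fin T) (ω : Om T m L h) (a : Fin h → Bool) :
    Before v (setAl v ω a) ω := fun _ hw => setAl_of_ne v ω a hw.ne

theorem before_setQq (v : Fin T) (ω : Om T m L h) (q : Fin T → X m L) :
    Before v (setQq v ω q) ω := fun _ hw => setQq_of_ne v ω q hw.ne

theorem same_setGg (v : Fin T) (ω : Om T m L h) (g : Fin h) : Same v (setGg v ω g) ω :=
  ⟨fun _ hw => setGg_of_ne v ω g hw.ne, by simp, by simp⟩

variable {v : Fin T} {ω ω' : Om T m L h}

theorem Before.al (H : Before v ω ω') {u : Fin T} (hu : u < v) :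
    Pool.Agent.H43.RO.al ω u = Pool.Agent.H43.RO.al ω' u := by
  unfold Pool.Agent.H43.RO.al; rw [H u hu]

theorem Before.gg (H : Before v ω ω') {u : Fin T} (hu : u < v) :
    Pool.Agent.H43.RO.gg ω u = Pool.Agent.H43.RO.gg ω' u := by
  unfold Pool.Agent.H43.RO.gg; rw [H u hu]

theorem Before.qq (H : Before v ω ω') (w : Fin T) {u : Fin T} (hu : u < v) :
    Pool.Agent.H43.RO.qq ω w u = Pool.Agent.H43.RO.qq ω' w u := by
  unfold Pool.Agent.H43.RO.qq; rw [H u hu]

theorem Before.ty (H : Before v ω ω') {u : Fin T} (hu : u < v) :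
    Pool.Agent.H43.RO.ty ω u = Pool.Agent.H43.RO.ty ω' u := by
  unfold Pool.Agent.H43.RO.ty; rw [H.al hu, H.gg hu]

theorem Before.mono (H : Before v ω ω') {w : Fin T} (hw : w ≤ v) : Before w ω ω' :=
  fun u hu => H u (hu.trans_le hw)

theorem Before.same (H : Before v ω ω') {w : Fin T} (hw : w < v) : Same w ω ω' :=
  ⟨H.mono hw.le, H.al hw, fun _ => H.qq _ hw⟩

theorem Same.of_le (H : Same v ω ω') {w : Fin T} (hw : w ≤ v) : Same w ω ω' := by
  rcases hw.lt_or_eq with h | rfl
  · exact H.1.same h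
  · exact H

theorem Same.c_eq (hc : Play c) (H : Same v ω ω') : c ω v = c ω' v :=
  funext fun x => hc.past ω ω' v H.1 H.2.1 H.2.2 x

theorem Before.c_eq (hc : Play c) (H : Before v ω ω') {u : Fin T} (hu : u < v) :
    c ω u = c ω' u := (H.same hu).c_eq hc

theorem Same.nb_iff (H : Same v ω ω') (u : Fin T) : Nb ω u v ↔ Nb ω' u v := by
  unfold Nb
  refine and_congr_right fun hu => ?_
  rw [H.2.1, H.1.ty hu]

theorem Same.fresh_iff (H : Same v ω ω') (u : Fin T) : Fresh ω u v ↔ Fresh ω' u v := by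
  unfold Fresh
  refine forall_congr' fun v' => forall_congr' fun _ => forall_congr' fun hv' => ?_
  rw [H.1.qq u hv', H.2.2 u]

section

variable [NeZero m]

theorem Before.D_eq (hc : Play c) (H : Before v ω ω') {s : ℕ} (hs : s ≤ v.val) {u : Fin T}
    (hu : u < v) (b : ℕ) : D c ω s u b = D c ω' s u b := by
  unfold D
  rw [H.c_eq hc hu]
  congr 2
  refine congrArg _ (Finset.filter_congr fun y _ => ?_)
  refine and_congr_right fun _ => ?_
  refine forall_congr' fun v' => forall_congr' fun _ => forall_congr' fun hv' => ?_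
  rw [H.qq u (show v' < v from Fin.lt_def.2 (Nat.lt_of_lt_of_le hv' hs))]

theorem Before.W_eq (hc : Play c) (H : Before v ω ω') {s : ℕ} (hs : s ≤ v.val) (b : ℕ)
    (t : Fin h × Bool) : W c ω s b t = W c ω' s b t := by
  unfold W
  refine Finset.sum_congr (Finset.filter_congr fun u _ => ?_) fun u hu => ?_
  · refine and_congr_right fun hu => ?_
    rw [H.ty (show u < v from Fin.lt_def.2 (Nat.lt_of_lt_of_le hu hs))]
  · rw [Finset.mem_filter] at hu
    exact H.D_eq hc hs (show u < v from Fin.lt_def.2 (Nat.lt_of_lt_of_le hu.2.1 hs)) b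

theorem Before.S_eq (hc : Play c) (H : Before v ω ω') {s : ℕ} (hs : s ≤ v.val) (b : ℕ)
    (θ : ℝ) : S θ c ω s b = S θ c ω' s b := by
  unfold S
  exact Finset.sum_congr rfl fun t _ => by rw [H.W_eq hc hs]

theorem Before.cols_eq (hc : Play c) (H : Before v ω ω') {s : ℕ} (hs : s ≤ v.val) :
    cols c ω s = cols c ω' s := by
  unfold cols
  refine Finset.biUnion_congr rfl fun u hu => ?_
  rw [Finset.mem_filter] at hu
  rw [H.c_eq hc (show u < v from Fin.lt_def.2 (Nat.lt_of_lt_of_le hu.2 hs))]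

theorem Same.cols_succ_eq (hc : Play c) (H : Same v ω ω') :
    cols c ω (v.val + 1) = cols c ω' (v.val + 1) := by
  unfold cols
  refine Finset.biUnion_congr rfl fun u hu => ?_
  rw [Finset.mem_filter] at hu
  rw [(H.of_le (show u ≤ v from Nat.lt_succ_iff.1 hu.2)).c_eq hc]

theorem Same.F_eq (hc : Play c) (H : Same v ω ω') (b : ℕ) : F c ω v b = F c ω' v b := by
  unfold F
  rw [H.c_eq hc]

theorem Same.E1_iff (hc : Play c) (H : Same v ω ω') (θ M : ℝ) :
    E1 θ M c ω v ↔ E1 θ M c ω' v := by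
  unfold E1
  rw [H.1.cols_eq hc le_rfl]
  refine forall_congr' fun b => forall_congr' fun _ => ?_
  rw [H.1.S_eq hc le_rfl, H.2.1]
  simp only [H.1.W_eq hc le_rfl]

theorem Same.E2_iff (hc : Play c) (H : Same v ω ω') (θ : ℝ) :
    E2 θ c ω v ↔ E2 θ c ω' v := by
  classical
  unfold E2
  rw [H.1.cols_eq hc le_rfl]
  refine forall_congr' fun b => forall_congr' fun _ => ?_
  have h1 : ∑ u ∈ univ.filter (fun u : Fin T => Nb ω u v), D c ω v u b =
      ∑ u ∈ univ.filter (fun u : Fin T => Nb ω' u v), D c ω' v u b := by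
    refine Finset.sum_congr (Finset.filter_congr fun u _ => H.nb_iff u) fun u hu => ?_
    rw [Finset.mem_filter] at hu
    exact H.1.D_eq hc le_rfl hu.2.1 b
  have h2 : (∀ x : X m L, ∃ u, Nb ω u v ∧ Fresh ω u v ∧ c ω u (qq ω u v + sh x) = b) ↔
      ∀ x : X m L, ∃ u, Nb ω' u v ∧ Fresh ω' u v ∧ c ω' u (qq ω' u v + sh x) = b := by
    refine forall_congr' fun x => exists_congr fun u => ?_
    rw [H.nb_iff u, H.fresh_iff u, H.2.2 u]
    refine and_congr_right fun hu => ?_
    rw [H.1.c_eq hc hu.1]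
  constructor
  · intro h3 h4 x
    refine h2.1 (h3 ?_) x
    convert h4 using 1
  · intro h3 h4 x
    refine h2.2 (h3 ?_) x
    convert h4 using 1
    convert h1.symm using 2

theorem Same.Good_iff (hc : Play c) (H : Same v ω ω') (θ M : ℝ) (K : ℕ) :
    Good θ M K c ω v ↔ Good θ M K c ω' v := by
  unfold Good
  rw [H.cols_succ_eq hc]
  refine and_congr_left fun _ => ?_
  refine forall_congr' fun w => forall_congr' fun hw => ?_
  rw [(H.of_le hw).E1_iff hc, (H.of_le hw).E2_iff hc]

end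

end Pool.Agent.H64.RO
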