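import Pool.Agent.H64.RO.Fml
import Pool.Agent.H94.PN.SCD

set_option autoImplicit false

/-!
# [H64 RO Inf] The degree of a rational function modulo `2`

* `int_ex`: `x' = x / ∏ Q ∈ S, Q ^ (ex 2 Q x).val` has all exponents `0` (`ex_div`, `ex_prod`, `ex_poly`), so `x' = a y ^ 2` with a constant `a` (`PL.pow_of_ex_kap` after division by a constant, see its use in `PM.zM_inj`; or: the product of the primes which divide
  `x.num`, `x.denom`), `RatFunc.intDegree_mul`, `intDegree` of a polynomial is its degree (`RatFunc.intDegree_polynomial`).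
* `inf_zM`: `(loci ..).1` has the components `- (∑ v, deg v * ex v (δ k) + ∑ P, deg P * ex P (δ k))` (`toX_apply`, `sln_ex`), `sln_good` for the other primes, `int_ex` with `S = pf (dl A) ∪ pf D` (disjoint as `D` is prime to `dl A`).
-/

namespace Pool.Agent.H64.RO

open Polynomial
open Pool.Agent.H94.PL
open Pool.Agent.H94.PM
open Pool.Agent.H94.PN
open Pool.Agent.H94.PC (Mo Sq Pr pf om Mn mem_Mo mem_Sq mem_Pr mem_pf mem_pf')

variable {F : Type} [Field F] [Finite F] {A : Fin 3 → F[X]} {d : ℕ} {c : F}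

omit [Finite F] in
private theorem mul_ne {P Q : F[X]} (hP : P.Monic) (hPi : Irreducible P) (hQ : Q.Monic)
    (hQi : Irreducible Q) (hne : Q ≠ P) : multiplicity Q P = 0 := by
  rw [multiplicity_eq_zero]
  intro hd
  exact hne (eq_of_monic_of_associated hQ hP (hQi.associated_of_dvd hPi hd))

omit [Finite F] in
private theorem deg_sum (T : Finset F[X]) (hT : ∀ Q ∈ T, Q.Monic ∧ Irreducible Q) (n : ℕ) :
    ∀ a : F[X], a ≠ 0 → a.natDegree ≤ n → (∀ Q : F[X], Q.Monic → Irreducible Q → Q ∣ a → Q ∈ T) →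
    a.natDegree = ∑ Q ∈ T, Q.natDegree * multiplicity Q a := by
  classical
  have hun : ∀ a : F[X], IsUnit a → a.natDegree = ∑ Q ∈ T, Q.natDegree * multiplicity Q a := by
    intro a hu
    rw [natDegree_eq_zero_of_isUnit hu]
    symm
    refine Finset.sum_eq_zero fun Q hQ => ?_
    rw [multiplicity_eq_zero.2 fun h => (hT Q hQ).2.not_isUnit (isUnit_of_dvd_unit h hu), mul_zero]
  induction n with
  | zero =>
    intro a ha hn _
    refine hun a ?_
    have h1 : a.natDegree = 0 := by omega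
    exact (isUnit_iff_degree_eq_zero).2 (by rw [degree_eq_natDegree ha, h1]; rfl)
  | succ n ih =>
    intro a ha hn hm
    by_cases hu : IsUnit a
    · exact hun a hu
    · obtain ⟨P, hPm, hPi, hPa⟩ := exists_monic_irreducible_factor a hu
      have hPT := hm P hPm hPi hPa
      obtain ⟨g, hg⟩ := hPa
      have hg0 : g ≠ 0 := by
        rintro rfl
        exact ha (by rw [hg, mul_zero])
      have hdeg : a.natDegree = P.natDegree + g.natDegree := by
        rw [hg, natDegree_mul hPi.ne_zero hg0]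
      have hPd := hPi.natDegree_pos
      have h1 := ih g hg0 (by omega) fun Q h1 h2 h3 => hm Q h1 h2 (hg ▸ h3.mul_left P)
      have h2 : ∀ Q ∈ T, Q.natDegree * multiplicity Q a =
          (if Q = P then P.natDegree else 0) + Q.natDegree * multiplicity Q g := by
        intro Q hQ
        have h3 : multiplicity Q a = multiplicity Q P + multiplicity Q g := by
          rw [hg]
          exact multiplicity_mul (hT Q hQ).2.prime
            (FiniteMultiplicity.of_not_isUnit (hT Q hQ).2.not_isUnit (hg ▸ ha))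
        rw [h3, mul_add]
        congr 1
        by_cases h4 : Q = P
        · rw [if_pos h4, h4]
          have h5 : multiplicity P P = 1 := by
            refine multiplicity_eq_of_dvd_of_not_dvd (by rw [pow_one]) ?_
            intro h6
            rw [pow_succ, pow_one] at h6
            exact hPi.not_isUnit (hPi.squarefree P h6)
          rw [h5, mul_one]
        · rw [if_neg h4, mul_ne hPm hPi (hT Q hQ).1 (hT Q hQ).2 h4, mul_zero]
      rw [Finset.sum_congr rfl h2, Finset.sum_add_distrib, Finset.sum_ite_eq', if_pos hPT, hdeg,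
        ← h1]

theorem int_ex {x : RatFunc F} (hx : x ≠ 0) (S : Finset F[X]) (hS : ∀ Q ∈ S, Q.Monic ∧ Irreducible Q)
    (h : ∀ Q : F[X], Q.Monic → Irreducible Q → Q ∉ S → ex 2 Q x = 0) :
    ((x.intDegree : ℤ) : ZMod 2) = ∑ Q ∈ S, (Q.natDegree : ZMod 2) * ex 2 Q x := by
  classical
  have hn : x.num ≠ 0 := RatFunc.num_ne_zero hx
  have hd : x.denom ≠ 0 := x.denom_ne_zero
  have hnd : x.num * x.denom ≠ 0 := mul_ne_zero hn hd
  have hT : ∀ Q ∈ S ∪ pf (x.num * x.denom), Q.Monic ∧ Irreducible Q := by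
    intro Q hQ
    rcases Finset.mem_union.1 hQ with h1 | h1
    · exact hS Q h1
    · exact ⟨(mem_pf' h1).1, (mem_pf' h1).2.1⟩
  have h1 := deg_sum (S ∪ pf (x.num * x.denom)) hT _ x.num hn le_rfl fun Q a1 a2 a3 =>
    Finset.mem_union_right _ ((mem_pf hnd).2 ⟨a1, a2, a3.mul_right _⟩)
  have h2 := deg_sum (S ∪ pf (x.num * x.denom)) hT _ x.denom hd le_rfl fun Q a1 a2 a3 =>
    Finset.mem_union_right _ ((mem_pf hnd).2 ⟨a1, a2, a3.mul_left _⟩)
  have h3 : ((x.intDegree : ℤ) : ZMod 2) =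
      ∑ Q ∈ S ∪ pf (x.num * x.denom), (Q.natDegree : ZMod 2) * ex 2 Q x := by
    rw [RatFunc.intDegree, Int.cast_sub, Int.cast_natCast, Int.cast_natCast, h1, h2, Nat.cast_sum,
      Nat.cast_sum, ← Finset.sum_sub_distrib]
    refine Finset.sum_congr rfl fun Q _ => ?_
    rw [Nat.cast_mul, Nat.cast_mul, ← mul_sub]
    rfl
  rw [h3]
  symm
  refine Finset.sum_subset Finset.subset_union_left fun Q hQ hQS => ?_
  rw [h Q (hT Q hQ).1 (hT Q hQ).2 hQS, mul_zero]

theorem inf_zM [DecidableEq (RatFunc F)] (χ : LChar F 2) (hc : c ≠ 0) (h : Fam A d) {n : ℕ}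
    {D : F[X]} (hD : D ∈ Cls (dl A) n) {δ : Fin 3 → RatFunc F} (hδ : IsSln 2 1 c A D δ) (k : Fin 3) :
    ((loci ((zM χ A D δ).1, xi χ (dl A) D (zM χ A D δ).2)).1).1 k =
      (((δ k).intDegree : ℤ) : ZMod 2) := by
  classical
  obtain ⟨hDm, -, hDs, hDA⟩ := mem_Cls.1 hD
  have hdl0 : dl A ≠ 0 := h.sqf.ne_zero
  have hdis : Disjoint (pf (dl A)) (pf D) := by
    rw [Finset.disjoint_left]
    intro Q hQ hQ'
    exact (mem_pf' hQ).2.1.not_isUnit (hDA.isUnit_of_dvd' (mem_pf' hQ').2.2 (mem_pf' hQ).2.2)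
  rw [int_ex (hδ.ne k) (pf (dl A) ∪ pf D) (by
      intro Q hQ
      rcases Finset.mem_union.1 hQ with h1 | h1
      · exact ⟨(mem_pf' h1).1, (mem_pf' h1).2.1⟩
      · exact ⟨(mem_pf' h1).1, (mem_pf' h1).2.1⟩) (by
      intro Q hQm hQ hQT
      rw [Finset.mem_union, not_or] at hQT
      exact sln_good (m := 3) (ℓ := 2) (by decide) (by decide) hc hDm hδ hQm hQ
        (fun h4 => hQT.2 ((mem_pf hDm.ne_zero).2 ⟨hQm, hQ, h4⟩))
        (fun h4 => hQT.1 ((mem_pf hdl0).2 ⟨hQm, hQ, h4⟩)) k)]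
  rw [Finset.sum_union hdis]
  have c1 : ∀ Q : pf D, ((zM χ A D δ).2 Q).1 k = ex 2 Q.1 (δ k) := fun Q =>
    toX_apply (sln_ex hδ (mem_pf' Q.2).2.1) k
  have c3 : ∀ v : pf (dl A), ((zM χ A D δ).1.2 v).1 k = ex 2 v.1 (δ k) := fun v =>
    toX_apply (sln_ex hδ (mem_pf' v.2).2.1) k
  have hev : ∀ w : XX 3 2, w.1 k = ((LinearMap.proj k).comp (XM 3 2).subtype) w := fun _ => rfl
  have h5 : (loci ((zM χ A D δ).1, xi χ (dl A) D (zM χ A D δ).2)).1 =
      -(∑ v : pf (dl A), (v.1.natDegree : ZMod 2) • (zM χ A D δ).1.2 v +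
        ∑ P : pf D, (P.1.natDegree : ZMod 2) • (zM χ A D δ).2 P) := rfl
  rw [h5, hev, map_neg, map_add, map_sum, map_sum, CharTwo.neg_eq]
  congr 1
  · rw [← Finset.sum_coe_sort (pf (dl A)) (fun Q => (Q.natDegree : ZMod 2) * ex 2 Q (δ k))]
    refine Finset.sum_congr rfl fun v _ => ?_
    rw [map_smul, ← hev, c3, smul_eq_mul]
  · rw [← Finset.sum_coe_sort (pf D) (fun Q => (Q.natDegree : ZMod 2) * ex 2 Q (δ k))]
    refine Finset.sum_congr rfl fun v _ => ?_
    rw [map_smul, ← hev, c1, smul_eq_mul]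

end Pool.Agent.H64.RO
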