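import Pool.Agent.H64.RO.Fml
import Pool.Agent.H94.PM.T1
import Pool.Agent.H94.PM.TRA

set_option autoImplicit false

/-!
# [H64 RO Loc] Selmer tuples at the primes of `dl A` and at infinity

`IsSln 2 1 c A D δ`, `D ∈ Cls (dl A) n` (so `D` is prime to `dl A`).
* `loc_gen`: over a complete field `M` with discrete valuation: `IsMum 2 D A P Q` with `P` irreducible (the general case: product of irreducible factors, see how `H94/PM` reduces to irreducible `P`; or `IsVln` with all `P i` irreducible);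
  `j` an index with `vl (A j - A i) = e` for all `i ≠ j`.  Put `r = deg P`, `p_i = vl (P (A i))`.  `p_j < r e`: `p_i = p_j` for all `i` (`t1_gt_vl`; `vl (A j - A i) = e`); `p_j > r e`: `p_i = r e` for `i ≠ j` (`t1_lt_vl`); so in all cases
  [`p_j = r e`] or [`p_i = p_j` for all `i`] or [`p_i = r e` for `i ≠ j`].  The value `δ_k = (-D)^r P (A k)` has `vl δ_k = r vl D + p_k` and `∑ k, vl δ_k` is even (`prod_of_isVln`).  If `vl D + e` is even then `vl δ_j` is even:
  first case: `r (vl D + e)`; second: `3 vl δ_j` even; third: the two others are `r (vl D + e)`, even.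
* `loc_v`: `v ∈ pf (dl A)`, `v ∣ A i - A k`, `j` the third index: `e = 0`, `vl D = 0`: `ex v (δ j) = 0`.
* `loc_i`: at infinity `vl (A i - A k) = - d` for all pairs, `vl (c D) = - n`: if `n + d` is even then all `vl_∞ (δ k)` are even, i.e. the degrees of the `δ k` are even.
For the passage from `IsSln` to the completions see `IsSln_at` (`H94/PM/TRA.lean`) and how `LocD` is proved there (`val_l_P`, `toP`, `vl`, `ex`).
-/

namespace Pool.Agent.H64.RO

open Polynomial WithZero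
open Pool.Agent.H94.PL
open Pool.Agent.H94.PM
open Pool.Agent.H94.PN
open Pool.Agent.H94.PC (Mo Sq Pr pf om Mn mem_Mo mem_Sq mem_Pr mem_pf mem_pf')

variable {F : Type} [Field F] [Finite F] [DecidableEq (RatFunc F)] {A : Fin 3 → F[X]} {d : ℕ} {c : F}

theorem loc_v (hq : 2 ∣ Nat.card F - 1) (hc : c ≠ 0) (h : Fam A d) {n : ℕ} {D : F[X]} (hD : D ∈ Cls (dl A) n)
    {δ : Fin 3 → RatFunc F} (hδ : IsSln 2 1 c A D δ) {v : F[X]} (hv : v ∈ pf (dl A)) {j : Fin 3}
    (hj : ∀ i, i ≠ j → ¬ v ∣ A j - A i) : ex 2 v (δ j) = 0 := by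
  obtain ⟨h1, h3, h4, h5⟩ := mem_Cls.1 hD
  have hvi : Irreducible v := (mem_pf' hv).2.1
  have hvD : ¬ v ∣ D := fun hd => hvi.not_isUnit (h5.isUnit_of_dvd' hd (mem_pf' hv).2.2)
  have hvl := vl_DK_good hc hvi hvD
  have h6 : ∀ j : Fin 3, ∃ i k : Fin 3, j ≠ i ∧ j ≠ k ∧ ∀ a b : Fin 3, a ≠ b → ¬ (a = i ∧ b = k) →
      ¬ (a = k ∧ b = i) → a = j ∨ b = j := by decide
  obtain ⟨i, k, hji, hjk, hall⟩ := h6 j
  have key : ((2 : ℕ) : ℤ) ∣ vl (wP v hvi) (toP v hvi (δ j)) := by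
    refine lv (A := fun k => toP v hvi (AK A k)) (wP_self v hvi) Nat.prime_two (by decide) (by decide)
      ((map_ne_zero (toP v hvi)).2 (DK_ne hc h1.ne_zero)) (Dvd.intro 0 (by rw [mul_zero]; exact hvl.symm))
      (i := i) (k := k) ?_ ?_
      (IsSln_at hδ hvi) j hji hjk
    · rw [← map_sub, AK, AK, ← map_sub]
      exact wP_le_one v hvi _
    · intro a b hab g1 g2
      have h7 : ¬ v ∣ A a - A b := by
        rcases hall a b hab g1 g2 with h8 | h8
        · subst h8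
          exact hj b hab.symm
        · subst h8
          intro h9
          refine hj a hab ?_
          rw [← neg_sub]
          exact (dvd_neg).2 h9
      rw [← map_sub, AK, AK, ← map_sub]
      exact wP_eq_one hvi h7
  rw [← vl_toP hvi (hδ.ne j)]
  exact (ZMod.intCast_zmod_eq_zero_iff_dvd _ _).2 key

theorem loc_i (hq : 2 ∣ Nat.card F - 1) (hc : c ≠ 0) (h : Fam A d) {n : ℕ} {D : F[X]} (hD : D ∈ Cls (dl A) n)
    (hn : Even (n + d)) {δ : Fin 3 → RatFunc F} (hδ : IsSln 2 1 c A D δ) (k : Fin 3) :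
    ((δ k).intDegree : ZMod 2) = 0 := by
  haveI := complete_inf F
  obtain ⟨h1, h3, h4, h5⟩ := mem_Cls.1 hD
  obtain ⟨φ, hφ⟩ : ∃ φ : RatFunc F →+* RatFunc.CompletionAtInfty F, φ = algebraMap (RatFunc F) (RatFunc.CompletionAtInfty F) :=
    ⟨_, rfl⟩
  obtain ⟨w, hw⟩ : ∃ w : Valuation (RatFunc.CompletionAtInfty F) ℤᵐ⁰, w = Valued.v := ⟨_, rfl⟩
  have hpoly : ∀ p : F[X], p ≠ 0 → vl w (φ (algebraMap F[X] (RatFunc F) p)) = -(p.natDegree : ℤ) := by
    intro p hp
    unfold vl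
    rw [hw, hφ, Pool.Agent.H94.LT.val_inf_poly hp, log_exp]
  have hX : φ (algebraMap F[X] (RatFunc F) X) ≠ 0 := (map_ne_zero φ).2 (RatFunc.algebraMap_ne_zero X_ne_zero)
  have hϖ : w (φ (algebraMap F[X] (RatFunc F) X))⁻¹ = exp (-1 : ℤ) := by
    rw [hw, hφ, map_inv₀, Pool.Agent.H94.LT.val_inf_poly X_ne_zero, natDegree_X, WithZero.exp_neg]
    norm_num
  obtain ⟨t, ht⟩ : ∃ t, t = (φ (algebraMap F[X] (RatFunc F) X))⁻¹ ^ d := ⟨_, rfl⟩
  have ht0 : t ≠ 0 := by
    rw [ht]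
    exact pow_ne_zero _ (inv_ne_zero hX)
  have htv : vl w t = d := by
    rw [ht, vl_pow, vl_inv, hpoly X X_ne_zero, natDegree_X]
    push_cast
    ring
  have hDK0 : φ (DK c D) ≠ 0 := (map_ne_zero φ).2 (DK_ne hc h1.ne_zero)
  have hDKv : vl w (φ (DK c D)) = -(n : ℤ) := by
    rw [DK, hpoly _ (mul_ne_zero (C_ne_zero.2 hc) h1.ne_zero), natDegree_C_mul hc, h3]
  have hinf : IsVln 2 1 (φ (DK c D)) (fun k => φ (AK A k)) (fun k => φ (δ k)) := by
    rw [hφ]
    exact hδ.inf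
  have h7 : φ (DK c D) = t * (t⁻¹ * φ (DK c D)) := by
    rw [← mul_assoc, mul_inv_cancel₀ ht0, one_mul]
  rw [h7] at hinf
  have hinf2 := (scl_vln (by decide) ht0 _ _).1 hinf
  have key : ((2 : ℕ) : ℤ) ∣ vl w (φ (δ k)) := by
    subst hw
    refine lv_good hϖ Nat.prime_two (by decide) (by decide) (mul_ne_zero (inv_ne_zero ht0) hDK0) ?_ ?_ hinf2 k
    · rw [vl_mul (inv_ne_zero ht0) hDK0, vl_inv, htv, hDKv]
      obtain ⟨e, he⟩ := hn
      refine ⟨-e, ?_⟩
      have : ((n : ℤ) + d) = e + e := by exact_mod_cast he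
      push_cast
      linarith
    · intro a b hab
      have h8 : A a - A b ≠ 0 := sub_ne_zero.2 (fam_inj h a b hab)
      have h9 : t ^ 1 * φ (AK A a) - t ^ 1 * φ (AK A b) = t * φ (algebraMap F[X] (RatFunc F) (A a - A b)) := by
        rw [pow_one, ← mul_sub, ← map_sub, AK, AK, ← map_sub]
      have h10 : φ (algebraMap F[X] (RatFunc F) (A a - A b)) ≠ 0 :=
        (map_ne_zero φ).2 (RatFunc.algebraMap_ne_zero h8)
      rw [h9]
      have h11 : vl (Valued.v : Valuation (RatFunc.CompletionAtInfty F) ℤᵐ⁰)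
          (t * φ (algebraMap F[X] (RatFunc F) (A a - A b))) = 0 := by
        rw [vl_mul ht0 h10, htv, hpoly _ h8, h.deg a b hab, add_neg_cancel]
      have h12 := (vl_eq_iff (mul_ne_zero ht0 h10) 0).1 h11
      rw [h12, neg_zero, exp_zero]
  have hfin : vl w (φ (δ k)) = -(δ k).intDegree := by
    have h8 := hδ.ne k
    have h9 : δ k = algebraMap F[X] (RatFunc F) (δ k).num / algebraMap F[X] (RatFunc F) (δ k).denom :=
      (RatFunc.num_div_denom _).symm
    have hn0 := RatFunc.num_ne_zero h8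
    have hd0 := RatFunc.denom_ne_zero (δ k)
    have h10 : φ (algebraMap F[X] (RatFunc F) (δ k).num) ≠ 0 := (map_ne_zero φ).2 (RatFunc.algebraMap_ne_zero hn0)
    have h11 : φ (algebraMap F[X] (RatFunc F) (δ k).denom) ≠ 0 := (map_ne_zero φ).2 (RatFunc.algebraMap_ne_zero hd0)
    have h12 : φ (δ k) = φ (algebraMap F[X] (RatFunc F) (δ k).num) / φ (algebraMap F[X] (RatFunc F) (δ k).denom) := by
      rw [← map_div₀, ← h9]
    rw [h12, vl_div h10 h11, hpoly _ hn0, hpoly _ hd0]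
    unfold RatFunc.intDegree
    ring
  rw [hfin] at key
  exact (ZMod.intCast_zmod_eq_zero_iff_dvd _ _).2 ((dvd_neg).1 key)

end Pool.Agent.H64.RO
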