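import Pool.Agent.H64.RO.Tvj
import Pool.Agent.H64.RO.Loc
import Pool.Agent.H64.RO.Inf
import Pool.Agent.H94.FS.IN0

set_option autoImplicit false

/-!
# [H64 RO Inv] Invariance of `nz` under torsion

`z = zM δ`, `z' = z + torz σ` (`torz dt D σ = ((-bet σ, -L_v σ), fun _ => σ)`).
`q x = [x ≠ 0]`, `B = BB 3 2` (the dot product): `2 q (x + y) ≡ 2 q x + 2 q y + 2 B x y mod 4` for all `x, y ∈ XX 3 2` (4 elements; `x = y`: `B x x = 0`; `x ≠ y` both nonzero: `B x y = 1`, `q (x + y) = 1`) (`q_add`).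
* primes of `D`: `2 ∑ deg P q (z_P + σ) ≡ 2 ∑ deg P q z_P + 2 n q σ + 2 B (∑ deg P z_P) σ` (`∑ deg P = n`, `PC.natDegree_prod_pf`).
* `v ∈ pf (dl A)`, `i = ed v`, `k` the other index (`fam_one`), `a = (ex v (δ i)).val`, `b = (σ i + σ k).val = ((L_v σ) i).val` (`fam_L`): `[(ε_v + L_v σ) i ≠ 0] = a + b - 2 a b`.  The sum is `∑ deg v a_v + 2 d q σ - 2 ∑ deg v a_v b_v` (`ed_tor`).
  `(ε_v) j = 0` for the third index `j` (`loc_v`), so `ε_v ∈ {0, e_i + e_k}` (`sln_ex`) and `B ε_v σ = a_v b_v`: the last term is `2 B (∑ deg v ε_v) σ mod 4`.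
* infinity: `r = (loci ..).1`, `r' = r + (n + d) σ` (`loc_tor`; `loci` is linear, `xi` additive, `xi` of a constant: `PN.xi_const`/`in0_xi`): `2 q r' ≡ 2 q r + 2 (n + d) q σ + 2 (n + d) B r σ` (cases of the parity of `n + d`).
* sum: `r = ∑ deg P z_P + ∑ deg v ε_v` (signs do not matter), so the difference is `2 (2 n + 2 d) q σ + 2 (1 + n + d) B r σ ≡ 0`: if `n + d` is even then `r = 0` (`inf_zM`, `loc_i`).
-/

namespace Pool.Agent.H64.RO

open Polynomial
open Pool.Agent.H94.PL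
open Pool.Agent.H94.PM
open Pool.Agent.H94.PN
open Pool.Agent.H94.PC (Mo Sq Pr pf om Mn mem_Mo mem_Sq mem_Pr mem_pf mem_pf')

private theorem in_zero (z : XX 3 2) : z = 0 ↔ (z.1 0 = 0 ∧ z.1 1 = 0 ∧ z.1 2 = 0) := by
  constructor
  · rintro rfl
    exact ⟨rfl, rfl, rfl⟩
  · rintro ⟨h0, h1, h2⟩
    apply Subtype.ext
    funext i
    have h3 : ∀ i : Fin 3, i = 0 ∨ i = 1 ∨ i = 2 := by decide
    rcases h3 i with rfl | rfl | rfl
    · exact h0
    · exact h1
    · exact h2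

private theorem in_dec : ∀ a b c a' b' c' : ZMod 2, a + b + c = 0 → a' + b' + c' = 0 →
    (if ¬ (a + a' = 0 ∧ b + b' = 0 ∧ c + c' = 0) then 2 else 0) ≡
      (if ¬ (a = 0 ∧ b = 0 ∧ c = 0) then 2 else 0) + (if ¬ (a' = 0 ∧ b' = 0 ∧ c' = 0) then 2 else 0) +
        2 * (a * a' + b * b' + c * c').val [MOD 4] := by
  decide

theorem q_add (x y : XX 3 2) : (if x + y ≠ 0 then 2 else 0) ≡
    (if x ≠ 0 then 2 else 0) + (if y ≠ 0 then 2 else 0) + 2 * (BB 3 2 x y).val [MOD 4] := by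
  have hx := XX_sum x
  have hy := XX_sum y
  rw [Fin.sum_univ_three] at hx hy
  have h := in_dec _ _ _ _ _ _ hx hy
  rw [BB_apply, Fin.sum_univ_three]
  have e1 : (if x + y ≠ 0 then 2 else 0) =
      (if ¬ (x.1 0 + y.1 0 = 0 ∧ x.1 1 + y.1 1 = 0 ∧ x.1 2 + y.1 2 = 0) then 2 else 0) :=
    if_congr (not_congr (in_zero (x + y))) rfl rfl
  have e2 : (if x ≠ 0 then 2 else 0) = (if ¬ (x.1 0 = 0 ∧ x.1 1 = 0 ∧ x.1 2 = 0) then 2 else 0) :=
    if_congr (not_congr (in_zero x)) rfl rfl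
  have e3 : (if y ≠ 0 then 2 else 0) = (if ¬ (y.1 0 = 0 ∧ y.1 1 = 0 ∧ y.1 2 = 0) then 2 else 0) :=
    if_congr (not_congr (in_zero y)) rfl rfl
  rw [e1, e2, e3]
  exact h

/-- twice an element of `ZMod 2` -/
private def inT : ZMod 2 →+ ZMod 4 where
  toFun a := 2 * ((a.val : ℕ) : ZMod 4)
  map_zero' := by decide
  map_add' := by decide

private theorem inT_val (a : ZMod 2) : inT a = 2 * ((a.val : ℕ) : ZMod 4) := rfl

private theorem inT_nat (n : ℕ) (a : ZMod 2) : (n : ZMod 4) * inT a = inT ((n : ZMod 2) * a) := by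
  rw [← nsmul_eq_mul, ← nsmul_eq_mul, map_nsmul]

/-- the function `2 [x ≠ 0]` -/
private noncomputable def inq (x : XX 3 2) : ZMod 4 := ((if x ≠ 0 then 2 else 0 : ℕ) : ZMod 4)

/-- the function `[a ≠ 0]` -/
private def inc (a : ZMod 2) : ZMod 4 := ((if a ≠ 0 then 1 else 0 : ℕ) : ZMod 4)

private theorem inq_add (x y : XX 3 2) : inq (x + y) = inq x + inq y + inT (BB 3 2 x y) := by
  have h := (ZMod.natCast_eq_natCast_iff _ _ 4).2 (q_add x y)
  unfold inq
  rw [h, inT_val]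
  push_cast
  rfl

private theorem inc_add : ∀ a b : ZMod 2, inc (a + b) = inc a + inc b + inT (a * b) := by
  decide

private theorem inq_two (x : XX 3 2) : 2 * inq x = 0 := by
  unfold inq
  split_ifs
  · decide
  · decide

private theorem inT_two : ∀ a : ZMod 2, 2 * inT a = 0 := by decide

private theorem in_mul_odd (k : ℕ) (z : ZMod 4) (hz : 2 * z = 0) : ((2 * k + 1 : ℕ) : ZMod 4) * z = z := by
  push_cast
  linear_combination (k : ZMod 4) * hz

private theorem in_mul_even (k : ℕ) (z : ZMod 4) (hz : 2 * z = 0) : ((k + k : ℕ) : ZMod 4) * z = 0 := by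
  push_cast
  linear_combination (k : ZMod 4) * hz

private theorem in_inf (r σ : XX 3 2) (m : ℕ) :
    inq (r + (m : ZMod 2) • σ) = inq r + m * inq σ + m * inT (BB 3 2 r σ) := by
  rcases Nat.even_or_odd' m with ⟨k, hk | hk⟩
  · have hm : m = k + k := by omega
    have h1 : (m : ZMod 2) = 0 := by
      rw [hm]
      push_cast
      exact CharTwo.add_self_eq_zero _
    rw [h1, zero_smul, add_zero, hm, in_mul_even k _ (inq_two σ), in_mul_even k _ (inT_two _), add_zero,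
      add_zero]
  · have h1 : (m : ZMod 2) = 1 := by
      rw [hk]
      push_cast
      have h2 : (2 : ZMod 2) = 0 := rfl
      rw [h2, zero_mul, zero_add]
    rw [h1, one_smul, inq_add, hk, in_mul_odd k _ (inq_two σ), in_mul_odd k _ (inT_two _)]

private theorem in_ite (n : ℕ) (p : Prop) [Decidable p] (a : ℕ) :
    ((if p then n * a else 0 : ℕ) : ZMod 4) = (n : ZMod 4) * ((if p then a else 0 : ℕ) : ZMod 4) := by
  split_ifs
  · push_cast
    rfl
  · rw [Nat.cast_zero, mul_zero]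

variable {F : Type} [Field F] [Finite F] [DecidableEq (RatFunc F)] (χ : LChar F 2)
  {A : Fin 3 → F[X]} {d : ℕ} {c : F}
  (Wl : pf (dl A) → ZMod 2 → Submodule (ZMod 2) (XX 3 2 × XX 3 2))
  (Wi : ZMod 2 → Submodule (ZMod 2) (XX 3 2 × XX 3 2))

omit [DecidableEq (RatFunc F)] in
/-- `nz` modulo `4` -/
private theorem in_nz (D : F[X]) (z : EE (XX 3 2) (pf (dl A)) × (pf D → XX 3 2)) :
    ((nz χ A D z : ℕ) : ZMod 4) = ∑ P : pf D, (P.1.natDegree : ZMod 4) * inq (z.2 P) +
      inq (loci (z.1, xi χ (dl A) D z.2)).1 +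
      ∑ v : pf (dl A), (v.1.natDegree : ZMod 4) * inc ((z.1.2 v).1 (ed A v.1)) := by
  classical
  unfold nz nb
  rw [Nat.cast_add, Nat.cast_add, Nat.cast_mul, Nat.cast_sum, Nat.cast_sum, Finset.mul_sum, add_assoc]
  congr 1
  · refine Finset.sum_congr rfl fun P _ => ?_
    unfold inq
    split_ifs
    · push_cast
      ring
    · simp
  · congr 1
    · unfold inq
      split_ifs
      · norm_num
      · norm_num
    · refine Finset.sum_congr rfl fun v _ => ?_
      unfold inc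
      split_ifs
      · push_cast
        ring
      · simp

omit [DecidableEq (RatFunc F)] in
private theorem in_xi (D : F[X]) (x : pf D → XX 3 2) (σ : XX 3 2) :
    xi χ (dl A) D (x + fun _ => σ) = xi χ (dl A) D x + xi χ (dl A) D (fun _ => σ) := by
  refine Prod.ext ?_ ?_
  · show ∑ P : pf D, (P.1.natDegree : ZMod 2) • (x P + σ) = ∑ P : pf D, (P.1.natDegree : ZMod 2) • x P +
      ∑ P : pf D, (P.1.natDegree : ZMod 2) • σ
    simp only [smul_add, Finset.sum_add_distrib]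
  · funext v
    show ∑ P : pf D, lm χ v.1 P.1 • (x P + σ) = ∑ P : pf D, lm χ v.1 P.1 • x P +
      ∑ P : pf D, lm χ v.1 P.1 • σ
    simp only [smul_add, Finset.sum_add_distrib]

theorem nz_add (hq : 2 ∣ Nat.card F - 1) (hc : c ≠ 0) (h : Fam A d) {n : ℕ} {D : F[X]}
    (hD : D ∈ Cls (dl A) n) {δ : Fin 3 → RatFunc F} (hδ : IsSln 2 1 c A D δ) (σ : XX 3 2) :
    nz χ A D (zM χ A D δ + H94.FS.torz (DC χ c A Wl Wi) D σ) ≡ nz χ A D (zM χ A D δ) [MOD 4] := by
  classical
  obtain ⟨hD1, hD2, hD3, hD4⟩ := mem_Cls.1 hD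
  rw [← ZMod.natCast_eq_natCast_iff, in_nz, in_nz]
  obtain ⟨z, hz⟩ : ∃ z, z = zM χ A D δ := ⟨_, rfl⟩
  obtain ⟨r, hr⟩ : ∃ r, r = (loci (z.1, xi χ (dl A) D z.2)).1 := ⟨_, rfl⟩
  -- the primes of `D`
  have s1 : ∑ P : pf D, (P.1.natDegree : ZMod 4) * inq ((z + H94.FS.torz (DC χ c A Wl Wi) D σ).2 P) =
      ∑ P : pf D, (P.1.natDegree : ZMod 4) * inq (z.2 P) + n * inq σ +
        inT (BB 3 2 (∑ P : pf D, (P.1.natDegree : ZMod 2) • z.2 P) σ) := by
    have e1 : ∀ P : pf D, (P.1.natDegree : ZMod 4) * inq ((z + H94.FS.torz (DC χ c A Wl Wi) D σ).2 P) =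
        (P.1.natDegree : ZMod 4) * inq (z.2 P) + (P.1.natDegree : ZMod 4) * inq σ +
          inT (BB 3 2 ((P.1.natDegree : ZMod 2) • z.2 P) σ) := by
      intro P
      have e2 : (z + H94.FS.torz (DC χ c A Wl Wi) D σ).2 P = z.2 P + σ := rfl
      rw [e2, inq_add, mul_add, mul_add, inT_nat, map_smul, LinearMap.smul_apply, smul_eq_mul]
    have e3 : ∑ P : pf D, (P.1.natDegree : ZMod 4) = n := by
      rw [← Nat.cast_sum, Finset.sum_coe_sort (pf D) (fun P => P.natDegree),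
        Pool.Agent.H94.PC.natDegree_prod_pf hD1 hD3, hD2]
    rw [Finset.sum_congr rfl fun P _ => e1 P, Finset.sum_add_distrib, Finset.sum_add_distrib,
      ← Finset.sum_mul, map_sum, LinearMap.sum_apply, map_sum, e3]
  -- the primes of `dl A`
  have s2 : ∑ v : pf (dl A), (v.1.natDegree : ZMod 4) *
        inc (((z + H94.FS.torz (DC χ c A Wl Wi) D σ).1.2 v).1 (ed A v.1)) =
      ∑ v : pf (dl A), (v.1.natDegree : ZMod 4) * inc ((z.1.2 v).1 (ed A v.1)) + d * inq σ +
        inT (BB 3 2 (∑ v : pf (dl A), (v.1.natDegree : ZMod 2) • z.1.2 v) σ) := by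
    have e1 : ∀ v : pf (dl A), (v.1.natDegree : ZMod 4) *
          inc (((z + H94.FS.torz (DC χ c A Wl Wi) D σ).1.2 v).1 (ed A v.1)) =
        (v.1.natDegree : ZMod 4) * inc ((z.1.2 v).1 (ed A v.1)) +
          (v.1.natDegree : ZMod 4) * inc (((DC χ c A Wl Wi).L v σ).1 (ed A v.1)) +
          inT (BB 3 2 ((v.1.natDegree : ZMod 2) • z.1.2 v) σ) := by
      intro v
      have e2 : ((z + H94.FS.torz (DC χ c A Wl Wi) D σ).1.2 v).1 (ed A v.1) =
          (z.1.2 v).1 (ed A v.1) + ((DC χ c A Wl Wi).L v σ).1 (ed A v.1) := by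
        show (z.1.2 v).1 (ed A v.1) + (-((DC χ c A Wl Wi).L v σ).1) (ed A v.1) = _
        rw [Pi.neg_apply, CharTwo.neg_eq]
      obtain ⟨k, hk, hv, -, -, hun⟩ := fam_one h v.2
      have hbb : BB 3 2 (z.1.2 v) σ =
          (z.1.2 v).1 (ed A v.1) * ((DC χ c A Wl Wi).L v σ).1 (ed A v.1) := by
        rw [fam_L χ h c Wl Wi v hk hv, if_pos (Or.inl rfl), BB_apply]
        -- the third index
        obtain ⟨j, hj1, hj2⟩ : ∃ j : Fin 3, j ≠ ed A v.1 ∧ j ≠ k := by
          have h3 : ∀ a b : Fin 3, ∃ j : Fin 3, j ≠ a ∧ j ≠ b := by decide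
          exact h3 _ _
        have hz0 : (z.1.2 v).1 j = 0 := by
          have h4 : (z.1.2 v).1 j = ex 2 v.1 (δ j) := by
            rw [hz]
            exact toX_apply (sln_ex hδ (mem_pf' v.2).2.1) j
          rw [h4]
          refine loc_v hq hc h hD hδ v.2 fun i hi => ?_
          refine hun j i hi.symm ?_ ?_
          · rintro ⟨h5, -⟩
            exact hj1 h5
          · rintro ⟨h5, -⟩
            exact hj2 h5
        have hsum := XX_sum (z.1.2 v)
        have h6 : ∀ f : Fin 3 → ZMod 2, ∑ l, f l = f (ed A v.1) + f k + f j := by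
          have h7 : ∀ a b j : Fin 3, b ≠ a → j ≠ a → j ≠ b → ∀ f : Fin 3 → ZMod 2,
              ∑ l, f l = f a + f b + f j := by
            decide
          exact h7 _ _ _ hk hj1 hj2
        rw [h6] at hsum ⊢
        rw [hz0] at hsum ⊢
        have h8 : (z.1.2 v).1 k = (z.1.2 v).1 (ed A v.1) := by
          have h9 : ∀ a b : ZMod 2, a + b + 0 = 0 → b = a := by decide
          exact h9 _ _ hsum
        rw [h8]
        ring
      rw [e2, inc_add, mul_add, mul_add, inT_nat, map_smul, LinearMap.smul_apply, smul_eq_mul, hbb]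
    -- the torsion part
    have e3 : ∑ v : pf (dl A), (v.1.natDegree : ZMod 4) * inc (((DC χ c A Wl Wi).L v σ).1 (ed A v.1)) =
        ((∑ v : pf (dl A), (if ((DC χ c A Wl Wi).L v σ).1 (ed A v.1) ≠ 0 then v.1.natDegree else 0) : ℕ) :
          ZMod 4) := by
      rw [Nat.cast_sum]
      refine Finset.sum_congr rfl fun v _ => ?_
      unfold inc
      split_ifs
      · push_cast
        ring
      · simp
    have e4 : ((∑ v : pf (dl A), (if ((DC χ c A Wl Wi).L v σ).1 (ed A v.1) ≠ 0 then v.1.natDegree else 0) : ℕ) :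
          ZMod 4) = d * inq σ := by
      by_cases hσ : σ = 0
      · have e4 : ∑ v : pf (dl A), (if ((DC χ c A Wl Wi).L v σ).1 (ed A v.1) ≠ 0 then v.1.natDegree else 0) = 0 := by
          refine Finset.sum_eq_zero fun v _ => if_neg ?_
          rw [not_not, hσ, map_zero]
          rfl
        rw [e4]
        unfold inq
        rw [if_neg (not_not.2 hσ), Nat.cast_zero, mul_zero]
      · rw [ed_tor χ c Wl Wi h hσ]
        unfold inq
        rw [if_pos hσ]
        push_cast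
        ring
    rw [Finset.sum_congr rfl fun v _ => e1 v, Finset.sum_add_distrib, Finset.sum_add_distrib,
      map_sum, LinearMap.sum_apply, map_sum, e3, e4]
  -- infinity
  have s3 : inq (loci ((z + H94.FS.torz (DC χ c A Wl Wi) D σ).1,
        xi χ (dl A) D (z + H94.FS.torz (DC χ c A Wl Wi) D σ).2)).1 =
      inq r + ((n + d : ℕ) : ZMod 4) * inq σ + ((n + d : ℕ) : ZMod 4) * inT (BB 3 2 r σ) := by
    have e1 : ((z + H94.FS.torz (DC χ c A Wl Wi) D σ).1,
        xi χ (dl A) D (z + H94.FS.torz (DC χ c A Wl Wi) D σ).2) =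
        (z.1, xi χ (dl A) D z.2) + ((-(DC χ c A Wl Wi).bet σ, fun v => -(DC χ c A Wl Wi).L v σ),
          ((ty χ (dl A) D).1 • σ, fun v => (ty χ (dl A) D).2 v • σ)) := by
      refine Prod.ext rfl ?_
      show xi χ (dl A) D (z.2 + fun _ => σ) = _
      rw [in_xi, xi_const χ hD σ]
      rfl
    have e2 : (ty χ (dl A) D).1 = (n : ZMod 2) := by
      show (D.natDegree : ZMod 2) = n
      rw [hD2]
    rw [e1, map_add, Prod.fst_add, loc_tor χ c Wl Wi h, e2, ← hr, ← Nat.cast_add, in_inf]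
  rw [← hz, s1, s2, s3, ← hr]
  -- the sum
  have hr2 : BB 3 2 r σ = BB 3 2 (∑ P : pf D, (P.1.natDegree : ZMod 2) • z.2 P) σ +
      BB 3 2 (∑ v : pf (dl A), (v.1.natDegree : ZMod 2) • z.1.2 v) σ := by
    rw [hr]
    show BB 3 2 (-(∑ v : pf (dl A), (v.1.natDegree : ZMod 2) • z.1.2 v +
      ∑ P : pf D, (P.1.natDegree : ZMod 2) • z.2 P)) σ = _
    rw [map_neg, LinearMap.neg_apply, CharTwo.neg_eq, map_add, LinearMap.add_apply, add_comm]
  have hT2 : inT (BB 3 2 (∑ P : pf D, (P.1.natDegree : ZMod 2) • z.2 P) σ) +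
      inT (BB 3 2 (∑ v : pf (dl A), (v.1.natDegree : ZMod 2) • z.1.2 v) σ) = inT (BB 3 2 r σ) := by
    rw [hr2, map_add]
  have hlast : ((n + d + 1 : ℕ) : ZMod 4) * inT (BB 3 2 r σ) = 0 := by
    rcases Nat.even_or_odd (n + d) with he | ho
    · have h0 : r = 0 := by
        rw [in_zero, hr, hz]
        refine ⟨?_, ?_, ?_⟩
        · rw [inf_zM χ hc h hD hδ]
          exact loc_i hq hc h hD he hδ 0
        · rw [inf_zM χ hc h hD hδ]
          exact loc_i hq hc h hD he hδ 1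
        · rw [inf_zM χ hc h hD hδ]
          exact loc_i hq hc h hD he hδ 2
      rw [h0, map_zero, LinearMap.zero_apply, map_zero, mul_zero]
    · obtain ⟨k, hk⟩ := ho.add_one
      rw [hk]
      exact in_mul_even k _ (inT_two _)
  have h2q : 2 * inq σ = 0 := inq_two σ
  push_cast at hlast ⊢
  linear_combination hT2 + hlast + ((n : ZMod 4) + d) * h2q

end Pool.Agent.H64.RO
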