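import Pool.Agent.H43.RO.Def

/-!
# Resampling one component of the random choice
-/

set_option autoImplicit false

namespace Pool.Agent.H64.RO

open Finset Pool.Agent.H43.RO

section general

variable {Ω A : Type*} [Fintype Ω] [Fintype A] {get : Ω → A} {set : Ω → A → Ω}

/-- averaging over one component (`set` overwrites the component `get`) -/
theorem lens_sum (h1 : ∀ ω a b, set (set ω a) b = set ω b) (h2 : ∀ ω a, get (set ω a) = a)
    (h3 : ∀ ω, set ω (get ω) = ω) (f : Ω → ℝ) :
    ∑ ω, ∑ a, f (set ω a) = Fintype.card A * ∑ ω, f ω := by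
  rw [← Fintype.sum_prod_type' (f := fun ω a => f (set ω a))]
  have h : ∑ x : Ω × A, f (set x.1 x.2) = ∑ x : Ω × A, f x.1 := by
    refine Finset.sum_bij' (fun x _ => (set x.1 x.2, get x.1))
      (fun x _ => (set x.1 x.2, get x.1)) (by simp) (by simp) ?_ ?_ ?_
    · rintro ⟨ω, a⟩ _
      simp [h1, h2, h3]
    · rintro ⟨ω, a⟩ _
      simp [h1, h2, h3]
    · rintro ⟨ω, a⟩ _
      rfl
  rw [h, Fintype.sum_prod_type]
  simp [Finset.mul_sum]

/-- if for every `ω` at most the proportion `δ` of the values of one component makes `P` true,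
then `P` is true for at most the proportion `δ` of all `ω` -/
theorem lens_card_le (h1 : ∀ ω a b, set (set ω a) b = set ω b)
    (h2 : ∀ ω a, get (set ω a) = a) (h3 : ∀ ω, set ω (get ω) = ω) [Nonempty A]
    (P : Ω → Prop) [DecidablePred P] {δ : ℝ}
    (h : ∀ ω, ((univ.filter fun a => P (set ω a)).card : ℝ) ≤ δ * Fintype.card A) :
    ((univ.filter P).card : ℝ) ≤ δ * Fintype.card Ω := by
  have h4 := lens_sum h1 h2 h3 (fun ω => if P ω then (1 : ℝ) else 0)
  simp only [Finset.sum_boole] at h4
  have h5 : ∑ ω : Ω, ((univ.filter fun a => P (set ω a)).card : ℝ) ≤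
      ∑ _ω : Ω, δ * Fintype.card A := Finset.sum_le_sum fun ω _ => h ω
  rw [h4, Finset.sum_const, nsmul_eq_mul, card_univ] at h5
  have h6 : (0 : ℝ) < Fintype.card A := by exact_mod_cast Fintype.card_pos
  nlinarith [h5, h6]

end general

variable {T m L h : ℕ}

/-- overwrite `al ω v` -/
def setAl (v : Fin T) (ω : Om T m L h) (a : Fin h → Bool) : Om T m L h :=
  Function.update ω v (a, (ω v).2.1, (ω v).2.2)

/-- overwrite `gg ω v` -/
def setGg (v : Fin T) (ω : Om T m L h) (g : Fin h) : Om T m L h :=
  Function.update ω v ((ω v).1, g, (ω v).2.2)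

/-- overwrite all `qq ω u v` -/
def setQq (v : Fin T) (ω : Om T m L h) (q : Fin T → X m L) : Om T m L h :=
  Function.update ω v ((ω v).1, (ω v).2.1, q)

section values

variable (v : Fin T) (ω : Om T m L h)

@[simp] theorem setAl_al (a : Fin h → Bool) : al (setAl v ω a) v = a := by simp [setAl, al]
@[simp] theorem setAl_gg (a : Fin h → Bool) (w : Fin T) : gg (setAl v ω a) w = gg ω w := by
  unfold gg setAl
  by_cases hw : w = v
  · subst hw; simp
  · rw [Function.update_of_ne hw]
@[simp] theorem setAl_qq (a : Fin h → Bool) (u w : Fin T) : qq (setAl v ω a) u w = qq ω u w := by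
  unfold qq setAl
  by_cases hw : w = v
  · subst hw; simp
  · rw [Function.update_of_ne hw]
theorem setAl_of_ne (a : Fin h → Bool) {w : Fin T} (hw : w ≠ v) : setAl v ω a w = ω w := by
  unfold setAl; rw [Function.update_of_ne hw]

@[simp] theorem setGg_gg (g : Fin h) : gg (setGg v ω g) v = g := by simp [setGg, gg]
@[simp] theorem setGg_al (g : Fin h) (w : Fin T) : al (setGg v ω g) w = al ω w := by
  unfold al setGg
  by_cases hw : w = v
  · subst hw; simp
  · rw [Function.update_of_ne hw]
@[simp] theorem setGg_qq (g : Fin h) (u w : Fin T) : qq (setGg v ω g) u w = qq ω u w := by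
  unfold qq setGg
  by_cases hw : w = v
  · subst hw; simp
  · rw [Function.update_of_ne hw]
theorem setGg_of_ne (g : Fin h) {w : Fin T} (hw : w ≠ v) : setGg v ω g w = ω w := by
  unfold setGg; rw [Function.update_of_ne hw]

@[simp] theorem setQq_qq (q : Fin T → X m L) (u : Fin T) : qq (setQq v ω q) u v = q u := by
  simp [setQq, qq]
@[simp] theorem setQq_al (q : Fin T → X m L) (w : Fin T) : al (setQq v ω q) w = al ω w := by
  unfold al setQq
  by_cases hw : w = v
  · subst hw; simp
  · rw [Function.update_of_ne hw]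
@[simp] theorem setQq_gg (q : Fin T → X m L) (w : Fin T) : gg (setQq v ω q) w = gg ω w := by
  unfold gg setQq
  by_cases hw : w = v
  · subst hw; simp
  · rw [Function.update_of_ne hw]
theorem setQq_of_ne (q : Fin T → X m L) {w : Fin T} (hw : w ≠ v) : setQq v ω q w = ω w := by
  unfold setQq; rw [Function.update_of_ne hw]

end values

variable [NeZero m]

theorem sum_setAl (v : Fin T) (f : Om T m L h → ℝ) :
    ∑ ω, ∑ a, f (setAl v ω a) = Fintype.card (Fin h → Bool) * ∑ ω, f ω :=
  lens_sum (get := fun ω => al ω v) (by intro ω a b; simp [setAl]) (by intro ω a; simp)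
    (by intro ω; simp [setAl, al]) f

theorem sum_setGg (v : Fin T) (f : Om T m L h → ℝ) :
    ∑ ω, ∑ g, f (setGg v ω g) = h * ∑ ω, f ω := by
  have := lens_sum (get := fun ω : Om T m L h => gg ω v) (set := setGg v)
    (by intro ω a b; simp [setGg]) (by intro ω a; simp) (by intro ω; simp [setGg, gg]) f
  simpa using this

theorem sum_setQq (v : Fin T) (f : Om T m L h → ℝ) :
    ∑ ω, ∑ q, f (setQq v ω q) = Fintype.card (Fin T → X m L) * ∑ ω, f ω :=
  lens_sum (get := fun ω => (ω v).2.2) (by intro ω a b; simp [setQq])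
    (by intro ω a; simp [setQq]) (by intro ω; simp [setQq]) f

open Classical in
theorem card_le_setAl (v : Fin T) (P : Om T m L h → Prop) {δ : ℝ}
    (hP : ∀ ω, ((univ.filter fun a => P (setAl v ω a)).card : ℝ) ≤
      δ * Fintype.card (Fin h → Bool)) :
    ((univ.filter P).card : ℝ) ≤ δ * Fintype.card (Om T m L h) :=
  lens_card_le (get := fun ω => al ω v) (by intro ω a b; simp [setAl]) (by intro ω a; simp)
    (by intro ω; simp [setAl, al]) P hP

open Classical in
theorem card_le_setQq (v : Fin T) (P : Om T m L h → Prop) {δ : ℝ}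
    (hP : ∀ ω, ((univ.filter fun q => P (setQq v ω q)).card : ℝ) ≤
      δ * Fintype.card (Fin T → X m L)) :
    ((univ.filter P).card : ℝ) ≤ δ * Fintype.card (Om T m L h) :=
  lens_card_le (get := fun ω => (ω v).2.2) (by intro ω a b; simp [setQq])
    (by intro ω a; simp [setQq]) (by intro ω; simp [setQq]) P hP

end Pool.Agent.H64.RO
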