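import Pool.Agent.H64.RO.Inv
import Pool.Agent.H94.PN.TOR
import Pool.Agent.H74.FS.CLF

set_option autoImplicit false

/-!
# [H64 RO Selj] `nu` on Selmer tuples

* `nu_congr`: `ex_mul`, `ex_pow_l`; `intDegree (x y^2) = intDegree x + 2 intDegree y`.
* `nu_zM`: `(z.2 P).1 k = ex 2 P (δ k)` (`toX_apply`, `sln_ex`), so `z.2 P ≠ 0 ↔ ∃ k, ex 2 P (δ k) ≠ 0`; `inf_zM`; `(ε.2 v).1 k = ex 2 v (δ k)`.  Sums over `pf D`: `Finset.sum_coe_sort`.
* `nu_one`: all exponents and degrees are `0`.
* `nu_tr`: `t = none`: trivial.  `t = some j`: `s i = if i = j then 0 else 1`, `tr c A D (some j) k = tv (-DK c D) (AK A) s k * y k ^ 2` (see the proof of `H74.FS.sln_tr`), so `zM (tr) = zM (tv ..) = torz (toX s)` (`zM_congr`, `zM_tor`);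
  `zM (tr * δ) = zM tr + zM δ` (`kap_mul`, `ex_mul`, `toX` of a sum: componentwise `toX_apply`); `tr * δ` is a Selmer tuple (`sln_tr`, `sln_mul`); `nu_zM` twice, `nz_add`.  (`Wl`, `Wi` arbitrary, e.g. `⊤`; `χ` from `exists_LChar`.)
* `nu_P`: `pf (D' * P) = insert P (pf D')`; the term of `P` is `0`.  (If `P ∈ pf D'` the sets are equal.)
* `bd_km`: the bijection `KM → SelC` of `scd`: `z ↦` class of `δ` with `zM δ = z` maps `{z | ¬ 4 ∣ nz z}` onto `Bd` (`nu_zM`; for a class in `Bd` with tuple `δ'` the chosen `δ` differs from `δ'` by squares, `nu_congr`).  (Proof of `scd` in `H94/PN/SCD.lean`.)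
-/

namespace Pool.Agent.H64.RO

open Polynomial
open Pool.Agent.H94.PL
open Pool.Agent.H94.PM
open Pool.Agent.H94.PN
open Pool.Agent.H94.PC (Mo Sq Pr pf om Mn mem_Mo mem_Sq mem_Pr mem_pf mem_pf')

section
variable {F : Type} [Field F] [Finite F] {A : Fin 3 → F[X]}

theorem nu_congr (D : F[X]) {δ γ : Fin 3 → RatFunc F} (hδ : ∀ k, δ k ≠ 0) (hγ : ∀ k, γ k ≠ 0) :
    nu A D (fun k => δ k * γ k ^ 2) = nu A D δ := by
  classical
  have h1 : ∀ P : F[X], Irreducible P → ∀ k, ex 2 P (δ k * γ k ^ 2) = ex 2 P (δ k) := by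
    intro P hP k
    rw [ex_mul hP (hδ k) (pow_ne_zero 2 (hγ k)), ex_pow_l hP (hγ k), add_zero]
  have h2 : ∀ k, (((δ k * γ k ^ 2).intDegree : ℤ) : ZMod 2) = (((δ k).intDegree : ℤ) : ZMod 2) := by
    intro k
    rw [pow_two, RatFunc.intDegree_mul (hδ k) (mul_ne_zero (hγ k) (hγ k)), RatFunc.intDegree_mul (hγ k) (hγ k)]
    push_cast
    rw [CharTwo.add_self_eq_zero, add_zero]
  unfold nu
  congr 1
  · congr 1
    · congr 1
      refine Finset.sum_congr rfl fun P hP => ?_
      simp only [h1 P (mem_pf' hP).2.1]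
    · simp only [h2]
  · refine Finset.sum_congr rfl fun v hv => ?_
    rw [h1 v (mem_pf' hv).2.1]

theorem nu_one (D : F[X]) : nu A D (fun _ => 1) = 0 := by
  classical
  unfold nu
  have h1 : ∑ P ∈ pf D, (if ∃ _ : Fin 3, ex 2 P (1 : RatFunc F) ≠ 0 then P.natDegree else 0) = 0 := by
    refine Finset.sum_eq_zero fun P hP => if_neg ?_
    rintro ⟨_, h⟩
    exact h (ex_one (mem_pf' hP).2.1)
  have h2 : ∑ v ∈ pf (dl A), (if ex 2 v (1 : RatFunc F) ≠ 0 then v.natDegree else 0) = 0 := by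
    refine Finset.sum_eq_zero fun P hP => if_neg ?_
    rw [not_not]
    exact ex_one (mem_pf' hP).2.1
  have h3 : ¬ ∃ _ : Fin 3, (((1 : RatFunc F).intDegree : ℤ) : ZMod 2) ≠ 0 := by
    rintro ⟨_, h⟩
    apply h
    rw [RatFunc.intDegree_one, Int.cast_zero]
  rw [h1, h2, if_neg h3]

theorem nu_P {D' P : F[X]} (hD' : D' ≠ 0) (hPm : P.Monic) (hP : Irreducible P)
    {δ : Fin 3 → RatFunc F} (h : ∀ k, ex 2 P (δ k) = 0) : nu A (D' * P) δ = nu A D' δ := by
  classical
  have hne : D' * P ≠ 0 := mul_ne_zero hD' hP.ne_zero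
  unfold nu
  congr 3
  symm
  apply Finset.sum_subset
  · intro Q hQ
    obtain ⟨h1, h2, h3⟩ := (mem_pf hD').1 hQ
    exact (mem_pf hne).2 ⟨h1, h2, h3.mul_right P⟩
  · intro Q hQ hQ'
    obtain ⟨h1, h2, h3⟩ := (mem_pf hne).1 hQ
    have h4 : Q = P := by
      rcases h2.prime.dvd_or_dvd h3 with h5 | h5
      · exact absurd ((mem_pf hD').2 ⟨h1, h2, h5⟩) hQ'
      · exact eq_of_monic_of_associated h1 hPm (h2.associated_of_dvd hP h5)
    rw [if_neg]
    rintro ⟨k, hk⟩
    rw [h4] at hk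
    exact hk (h k)

end

variable {F : Type} [Field F] [Finite F] [DecidableEq (RatFunc F)] {A : Fin 3 → F[X]} {d : ℕ} {c : F}

theorem nu_zM (χ : LChar F 2) (hc : c ≠ 0) (h : Fam A d) {n : ℕ} {D : F[X]}
    (hD : D ∈ Cls (dl A) n) {δ : Fin 3 → RatFunc F} (hδ : IsSln 2 1 c A D δ) :
    nz χ A D (zM χ A D δ) = nu A D δ := by
  classical
  have h1 : ∀ P : pf D, (zM χ A D δ).2 P ≠ 0 ↔ ∃ k, ex 2 P.1 (δ k) ≠ 0 := by
    intro P
    have h2 : ∀ k, ((zM χ A D δ).2 P).1 k = ex 2 P.1 (δ k) := fun k => toX_apply (sln_ex hδ (mem_pf' P.2).2.1) k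
    constructor
    · intro h3
      by_contra h4
      push Not at h4
      apply h3
      apply Subtype.ext
      funext k
      rw [h2, h4]
      rfl
    · rintro ⟨k, hk⟩ h3
      apply hk
      rw [← h2, h3]
      rfl
  have h2 : (loci ((zM χ A D δ).1, xi χ (dl A) D (zM χ A D δ).2)).1 ≠ 0 ↔
      ∃ k, (((δ k).intDegree : ℤ) : ZMod 2) ≠ 0 := by
    constructor
    · intro h3
      by_contra h4
      push Not at h4
      apply h3
      apply Subtype.ext
      funext k
      rw [inf_zM χ hc h hD hδ, h4]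
      rfl
    · rintro ⟨k, hk⟩ h3
      apply hk
      rw [← inf_zM χ hc h hD hδ, h3]
      rfl
  have h3 : ∀ v : pf (dl A), ((zM χ A D δ).1.2 v).1 (ed A v.1) = ex 2 v.1 (δ (ed A v.1)) := fun v =>
    toX_apply (sln_ex hδ (mem_pf' v.2).2.1) _
  unfold nz nu nb
  rw [add_assoc]
  congr 1
  · congr 1
    rw [← Finset.sum_coe_sort (pf D) (fun P => if ∃ k, ex 2 P (δ k) ≠ 0 then P.natDegree else 0)]
    refine Finset.sum_congr rfl fun P _ => ?_
    exact if_congr (h1 P) rfl rfl
  · congr 1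
    · congr 1
      exact if_congr h2 rfl rfl
    · rw [← Finset.sum_coe_sort (pf (dl A)) (fun v => if ex 2 v (δ (ed A v)) ≠ 0 then v.natDegree else 0)]
      refine Finset.sum_congr rfl fun v _ => ?_
      rw [h3]

theorem nu_tr (hq : 2 ∣ Nat.card F - 1) (hc : c ≠ 0) (h : Fam A d) {n : ℕ} {D : F[X]}
    (hD : D ∈ Cls (dl A) n) {δ : Fin 3 → RatFunc F} (hδ : IsSln 2 1 c A D δ) (t : Option (Fin 3)) :
    nu A D (fun k => H74.FS.tr c A D t k * δ k) ≡ nu A D δ [MOD 4] := by
  classical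
  have hA := fam_inj h
  obtain ⟨hDm, _, hDs, hDA⟩ := mem_Cls.1 hD
  obtain ⟨χ⟩ := exists_LChar F Nat.prime_two hq
  have hm : Nat.Coprime 3 2 := by norm_num
  have hα : 2 ∣ 1 * 3 + 1 := by norm_num
  have hT := H74.FS.tr_ne hc hA hDm.ne_zero t
  have hS := H74.FS.sln_mul (H74.FS.sln_tr hc hA hDm.ne_zero t) hδ
  obtain ⟨σ, hσ⟩ : ∃ σ : XX 3 2, zM χ A D (H74.FS.tr c A D t) = H94.FS.torz (DC χ c A ⊤ ⊤) D σ := by
    cases t with
    | none =>
      refine ⟨0, ?_⟩
      have e1 : zM χ A D (H74.FS.tr c A D none) = 0 := by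
        have g1 : ∀ P : F[X], Irreducible P → (toX fun k => ex 2 P (H74.FS.tr c A D none k) : XX 3 2) = 0 := by
          intro P hP
          have g2 : (fun k : Fin 3 => ex 2 P (H74.FS.tr c A D none k)) = fun _ => 0 := by
            funext k
            exact ex_one hP
          rw [g2]
          apply Subtype.ext
          funext k
          exact toX_apply (by simp) k
        have g3 : (toX fun k => kap χ (H74.FS.tr c A D none k) : XX 3 2) = 0 := by
          have g2 : (fun k : Fin 3 => kap χ (H74.FS.tr c A D none k)) = fun _ => 0 := by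
            funext k
            exact kap_one χ
          rw [g2]
          apply Subtype.ext
          funext k
          exact toX_apply (by simp) k
        refine Prod.ext (Prod.ext g3 ?_) ?_
        · funext v
          exact g1 v.1 (mem_pf' v.2).2.1
        · funext P
          exact g1 P.1 (mem_pf' P.2).2.1
      rw [e1]
      unfold H94.FS.torz
      refine Prod.ext (Prod.ext ?_ ?_) rfl
      · show (0 : XX 3 2) = -(DC χ c A ⊤ ⊤).bet 0
        rw [map_zero, neg_zero]
      · funext v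
        show (0 : XX 3 2) = -(DC χ c A ⊤ ⊤).L v 0
        rw [map_zero, neg_zero]
    | some j =>
      obtain ⟨s, hs⟩ : ∃ s : Fin 3 → ℤ, s = fun i => if i = j then 0 else 1 := ⟨_, rfl⟩
      refine ⟨toX fun k => ((s k : ℤ) : ZMod 2), ?_⟩
      have hsum : (2 : ℤ) ∣ ∑ k, s k := by
        have g1 : ∀ j : Fin 3, (2 : ℤ) ∣ ∑ k : Fin 3, (if k = j then (0 : ℤ) else 1) := by decide
        rw [hs]
        exact g1 j
      have e1 := zM_tor χ hm hα hc hA hDm hDs hDA s (by exact_mod_cast hsum) (Wl := ⊤) (Wi := ⊤)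
      have hAK : ∀ i k, i ≠ k → AK A i - AK A k ≠ 0 := by
        intro i k hik h0
        exact hA i k hik (RatFunc.algebraMap_injective F (sub_eq_zero.1 h0))
      have hDK : DK c D ≠ 0 := DK_ne hc hDm.ne_zero
      have hne : ∀ k, H94.PL.tv (-DK c D) (AK A) s k ≠ 0 := by
        intro k
        unfold H94.PL.tv
        refine mul_ne_zero (zpow_ne_zero _ (neg_ne_zero.2 hDK)) (Finset.prod_ne_zero_iff.2 fun i hi => ?_)
        exact zpow_ne_zero _ (hAK k i (Finset.ne_of_mem_erase hi).symm)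
      have e2 : zM χ A D (H74.FS.tr c A D (some j)) = zM χ A D (fun k => H94.PL.tv (-DK c D) (AK A) s k) := by
        refine zM_congr χ hne fun k => ?_
        have hpe : ∀ (f : Fin 3 → RatFunc F) (j : Fin 3), ∏ k ∈ Finset.univ.erase j, f k = f (j + 1) * f (j + 2) := by
          intro f j
          have h1 : Finset.univ.erase j = {j + 1, j + 2} := by
            revert j
            decide
          have h2 : j + 1 ≠ j + 2 := by
            revert j
            decide
          rw [h1, Finset.prod_pair h2]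
        by_cases hk : k = j
        · subst hk
          have h1 : ∀ k : Fin 3, k ≠ k + 1 ∧ k ≠ k + 2 := by decide
          refine ⟨1, one_ne_zero, ?_⟩
          have e3 : H74.FS.tr c A D (some k) k = (AK A k - AK A (k + 1)) * (AK A k - AK A (k + 2)) := if_pos rfl
          have e4 : H94.PL.tv (-DK c D) (AK A) s k = (AK A k - AK A (k + 1)) * (AK A k - AK A (k + 2)) := by
            unfold H94.PL.tv
            rw [hpe, hs]
            simp only [if_true, if_neg (h1 k).1.symm, if_neg (h1 k).2.symm, zpow_zero, one_mul, sub_zero, zpow_one]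
          rw [e3, e4]
          ring
        · have e3 : H74.FS.tr c A D (some j) k = DK c D * (AK A j - AK A k) := if_neg hk
          refine ⟨AK A k - AK A j, hAK k j hk, ?_⟩
          have e4 : H94.PL.tv (-DK c D) (AK A) s k * (AK A k - AK A j) = -DK c D := by
            unfold H94.PL.tv
            rw [Finset.prod_eq_single j]
            · rw [hs]
              simp only [if_true, if_neg hk, zpow_one, zero_sub, zpow_neg]
              have := hAK k j hk
              field_simp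
            · intro i hi hij
              rw [hs]
              simp only [if_neg hij, if_neg hk, sub_self, zpow_zero]
            · intro hj
              exact absurd (Finset.mem_erase.2 ⟨Ne.symm hk, Finset.mem_univ j⟩) hj
          rw [e3, pow_two, ← mul_assoc, e4]
          ring
      rw [e2, e1]
      rfl
  have hmul : zM χ A D (fun k => H74.FS.tr c A D t k * δ k) = zM χ A D δ + zM χ A D (H74.FS.tr c A D t) := by
    have hTS := H74.FS.sln_tr hc hA hDm.ne_zero t
    have g1 : ∀ P : F[X], Irreducible P → (toX fun k => ex 2 P (H74.FS.tr c A D t k * δ k) : XX 3 2) =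
        (toX fun k => ex 2 P (δ k)) + toX fun k => ex 2 P (H74.FS.tr c A D t k) := by
      intro P hP
      apply Subtype.ext
      funext k
      rw [toX_apply (sln_ex hS hP)]
      show _ = (toX fun k => ex 2 P (δ k) : XX 3 2).1 k + (toX fun k => ex 2 P (H74.FS.tr c A D t k) : XX 3 2).1 k
      rw [toX_apply (sln_ex hδ hP), toX_apply (sln_ex hTS hP), ex_mul hP (hT k) (hδ.ne k), add_comm]
    have g3 : (toX fun k => kap χ (H74.FS.tr c A D t k * δ k) : XX 3 2) =
        (toX fun k => kap χ (δ k)) + toX fun k => kap χ (H74.FS.tr c A D t k) := by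
      apply Subtype.ext
      funext k
      rw [toX_apply (sln_kap χ hS)]
      show _ = (toX fun k => kap χ (δ k) : XX 3 2).1 k + (toX fun k => kap χ (H74.FS.tr c A D t k) : XX 3 2).1 k
      rw [toX_apply (sln_kap χ hδ), toX_apply (sln_kap χ hTS), kap_mul χ (hT k) (hδ.ne k), add_comm]
    refine Prod.ext (Prod.ext g3 ?_) ?_
    · funext v
      exact g1 v.1 (mem_pf' v.2).2.1
    · funext P
      exact g1 P.1 (mem_pf' P.2).2.1
  have key := nz_add χ ⊤ ⊤ hq hc h hD hδ σ
  rw [← hσ, ← hmul, nu_zM χ hc h hD hS, nu_zM χ hc h hD hδ] at key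
  exact key

theorem bd_km (χ : LChar F 2)
    {Wl : pf (dl A) → ZMod 2 → Submodule (ZMod 2) (XX 3 2 × XX 3 2)}
    {Wi : ZMod 2 → Submodule (ZMod 2) (XX 3 2 × XX 3 2)}
    (hq : 2 ∣ Nat.card F - 1) (hc : c ≠ 0) (h : Fam A d)
    (hWl : OKl χ 1 A Wl) (hcl : ∀ v b, Nat.card (Wl v b) ≤ Nat.card (XX 3 2))
    (hWi : OKi χ 1 c A Wi) (hci : ∀ b, Nat.card (Wi b) ≤ Nat.card (XX 3 2))
    {n : ℕ} {D : F[X]} (hD : D ∈ Cls (dl A) n) :
    Nat.card (Bd c A D) =
      Nat.card {z : KM χ (DC χ c A Wl Wi) D // ¬ 4 ∣ nz χ A D z.1} := by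
  classical
  have hA := fam_inj h
  obtain ⟨hDm, _, hDs, hDA⟩ := mem_Cls.1 hD
  have hm : Nat.Coprime 3 2 := by norm_num
  have hα : 2 ∣ 1 * 3 + 1 := by norm_num
  have hex : ∀ z : KM χ (DC χ c A Wl Wi) D, ∃ δ : Fin 3 → RatFunc F,
      IsSln 2 1 c A D δ ∧ zM χ A D δ = z.1 := fun z =>
    srj χ hq hm hα hc hA hWl hcl hWi hci hD z.2
  choose dz hS hzM using hex
  let f : {z : KM χ (DC χ c A Wl Wi) D // ¬ 4 ∣ nz χ A D z.1} → Bd c A D := fun z =>
    ⟨fun k => QuotientGroup.mk (Units.mk0 (dz z.1 k) ((hS z.1).ne k)),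
      ⟨fun k => Units.mk0 (dz z.1 k) ((hS z.1).ne k), fun k => rfl, hS z.1, by
        have h1 := z.2
        rw [← hzM z.1, nu_zM χ hc h hD (hS z.1)] at h1
        exact h1⟩⟩
  have hf : Function.Bijective f := by
    constructor
    · intro z z' hzz
      have h1 : ∀ k, (QuotientGroup.mk (Units.mk0 (dz z.1 k) ((hS z.1).ne k)) :
          (RatFunc F)ˣ ⧸ (powMonoidHom 2 : (RatFunc F)ˣ →* (RatFunc F)ˣ).range) =
          QuotientGroup.mk (Units.mk0 (dz z'.1 k) ((hS z'.1).ne k)) := fun k =>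
        congrFun (congrArg Subtype.val hzz) k
      have h2 : ∀ k, ∃ y : RatFunc F, y ≠ 0 ∧ dz z'.1 k = dz z.1 k * y ^ 2 := by
        intro k
        obtain ⟨w, hw⟩ := QuotientGroup.eq.1 (h1 k)
        refine ⟨(w : RatFunc F), w.ne_zero, ?_⟩
        have h3 : (w : RatFunc F) ^ 2 = (dz z.1 k)⁻¹ * dz z'.1 k := by
          have h4 := congrArg (fun u : (RatFunc F)ˣ => (u : RatFunc F)) hw
          simp only [powMonoidHom_apply, Units.val_pow_eq_pow_val, Units.val_mul,
            Units.val_inv_eq_inv_val, Units.val_mk0] at h4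
          exact h4
        rw [h3, mul_inv_cancel_left₀ ((hS z.1).ne k)]
      apply Subtype.ext
      apply Subtype.ext
      rw [← hzM z.1, ← hzM z'.1]
      exact (zM_congr χ (hS z.1).ne h2).symm
    · rintro ⟨x, δ', hx, hsl, hnu⟩
      have hmem := zM_mem χ hm hα hc hA hDm hDs hDA hsl hWl hWi
      have hnz : ¬ 4 ∣ nz χ A D (zM χ A D fun k => (δ' k : RatFunc F)) := by
        rw [nu_zM χ hc h hD hsl]
        exact hnu
      refine ⟨⟨⟨_, hmem⟩, hnz⟩, ?_⟩
      apply Subtype.ext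
      funext k
      show QuotientGroup.mk (Units.mk0 (dz ⟨_, hmem⟩ k) _) = x k
      rw [hx k]
      obtain ⟨y, hy0, hy⟩ := zM_inj χ hm hα hc hA hDm (hS ⟨_, hmem⟩) hsl (hzM ⟨_, hmem⟩) k
      refine (QuotientGroup.eq.2 (MonoidHom.mem_range.2 ⟨Units.mk0 y hy0, ?_⟩)).symm
      apply Units.ext
      simp only [powMonoidHom_apply, Units.val_pow_eq_pow_val, Units.val_mul,
        Units.val_inv_eq_inv_val, Units.val_mk0]
      rw [hy, inv_mul_cancel_left₀ (δ' k).ne_zero]
  exact (Nat.card_congr (Equiv.ofBijective f hf)).symm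

end Pool.Agent.H64.RO
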