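import Pool.Agent.H64.RO.Fml
import Pool.Agent.H94.PN.TK2

set_option autoImplicit false

/-!
# [H64 RO Tvj] The torsion classes have weight one

`σ : XX 3 2`, `t = ty D`, `t.1 = n`.  `ε = (-bet σ, -L_v σ)`, `ξ = (t.1 • σ, t.2 v • σ)`.
* `loc_tor`: `(loci (ε, ξ)).1 = (n + d) • σ` (in characteristic `2`): component `l` of `∑ v, deg v • L_v σ` is `∑_{i ≠ l} (∑_{v ∣ A l - A i} deg v) (σ l + σ i) = d (σ l + σ i + σ l + σ i') = d (σ i + σ i') = d σ l` (`fam_L`, `fam_sum`, sum of `σ` zero).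
* `ed_tor`: `∑ v, [(L_v σ) (ed v) ≠ 0] deg v = 2 d` if `σ ≠ 0`: `(L_v σ) (ed v) = σ i + σ k` for `v ∣ A i - A k` (`fam_L`), which is `≠ 0` for exactly two of the three pairs `{i, k}`; `fam_sum`.
* `tv_Wj`: `σ = 0`: `1`.  `σ ≠ 0`: `tv = I^(j (2 [n + d odd] + 2 d)) * (-1)^(j n) = I^(2 j ([n + d odd] + d + n)) = 1`, as `[n + d odd] + n + d` is even.
* `nz_tor`: the same for `nz`: `4 ∣ nz` for the class `((-bet σ, -L_v σ), fun _ => σ)`, `D ∈ Cls`.
-/

namespace Pool.Agent.H64.RO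

open Polynomial
open Pool.Agent.H94.PL
open Pool.Agent.H94.PM
open Pool.Agent.H94.PN
open Pool.Agent.H94.PC (Mo Sq Pr pf om Mn mem_Mo mem_Sq mem_Pr mem_pf mem_pf')

variable {F : Type} [Field F] [Finite F] (χ : LChar F 2) {A : Fin 3 → F[X]} {d : ℕ} (c : F)
  (Wl : pf (dl A) → ZMod 2 → Submodule (ZMod 2) (XX 3 2 × XX 3 2))
  (Wi : ZMod 2 → Submodule (ZMod 2) (XX 3 2 × XX 3 2))

private theorem tj_f3 : ∀ i : Fin 3, i = 0 ∨ i = 1 ∨ i = 2 := by decide

open Classical in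
private theorem tj_L (h : Fam A d) (v : pf (dl A)) (σ : XX 3 2) (l : Fin 3) :
    ((DC χ c A Wl Wi).L v σ).1 l =
      ∑ i ∈ Finset.univ.erase l, (if v.1 ∣ A l - A i then (σ.1 l + σ.1 i) else 0) := by
  classical
  obtain ⟨k, hk, hv, hm, hm', hun⟩ := fam_one h v.2
  show (lap (add_zero 0) (mlt 2 A v.1) (fun _ _ _ => mlt_symm A v.1 _ _) σ).1 l = _
  rw [lap_apply]
  refine Finset.sum_congr rfl fun i hi => ?_
  have hil : i ≠ l := Finset.ne_of_mem_erase hi
  unfold mlt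
  split_ifs with hd
  · have h1 : multiplicity v.1 (A l - A i) = 1 := by
      by_cases h2 : l = ed A v.1 ∧ i = k
      · rw [h2.1, h2.2, hm]
      · by_cases h3 : l = k ∧ i = ed A v.1
        · rw [h3.1, h3.2, hm']
        · exact absurd hd (hun l i hil.symm h2 h3)
    rw [h1, Nat.cast_one, one_mul, CharTwo.sub_eq_add]
  · rw [multiplicity_eq_zero.2 hd, Nat.cast_zero, zero_mul]

open Classical in
private theorem tj_sum (h : Fam A d) {i k : Fin 3} (hik : i ≠ k) :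
    ∑ v : pf (dl A), ((if v.1 ∣ A i - A k then v.1.natDegree else 0 : ℕ)) = d := by
  classical
  have h1 := fam_sum h hik
  rw [← Finset.sum_coe_sort] at h1
  exact h1

private theorem tj_L2 (h : Fam A d) (σ : XX 3 2) :
    ∑ v : pf (dl A), (v.1.natDegree : ZMod 2) • (DC χ c A Wl Wi).L v σ = (d : ZMod 2) • σ := by
  classical
  apply Subtype.ext
  funext l
  have e1 : (∑ v : pf (dl A), (v.1.natDegree : ZMod 2) • (DC χ c A Wl Wi).L v σ).1 l =
      ∑ v : pf (dl A), (v.1.natDegree : ZMod 2) * ((DC χ c A Wl Wi).L v σ).1 l := by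
    rw [Submodule.coe_sum, Finset.sum_apply]
    rfl
  have e2 : ∀ v : pf (dl A), (v.1.natDegree : ZMod 2) * ((DC χ c A Wl Wi).L v σ).1 l =
      ∑ i ∈ Finset.univ.erase l, ((if v.1 ∣ A l - A i then v.1.natDegree else 0 : ℕ) : ZMod 2) *
        (σ.1 l + σ.1 i) := by
    intro v
    rw [tj_L χ c Wl Wi h, Finset.mul_sum]
    refine Finset.sum_congr rfl fun i _ => ?_
    split_ifs
    · rfl
    · rw [Nat.cast_zero, mul_zero, zero_mul]
  rw [e1, Finset.sum_congr rfl fun v _ => e2 v, Finset.sum_comm]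
  have e3 : ∀ i ∈ Finset.univ.erase l, ∑ v : pf (dl A),
      ((if v.1 ∣ A l - A i then v.1.natDegree else 0 : ℕ) : ZMod 2) * (σ.1 l + σ.1 i) =
        (d : ZMod 2) * (σ.1 l + σ.1 i) := by
    intro i hi
    rw [← Finset.sum_mul, ← Nat.cast_sum, tj_sum h (Finset.ne_of_mem_erase hi).symm]
  rw [Finset.sum_congr rfl e3, ← Finset.mul_sum]
  show _ = (d : ZMod 2) * σ.1 l
  congr 1
  rw [Finset.sum_add_distrib, Finset.sum_const, Finset.card_erase_of_mem (Finset.mem_univ l), Finset.card_univ,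
    Fintype.card_fin]
  have h2 : σ.1 l + ∑ i ∈ Finset.univ.erase l, σ.1 i = 0 := by
    rw [Finset.add_sum_erase _ _ (Finset.mem_univ l)]
    exact XX_sum σ
  have h3 : (3 - 1) • σ.1 l = 0 := by
    show 2 • σ.1 l = 0
    rw [two_nsmul]
    exact CharTwo.add_self_eq_zero _
  rw [h3, zero_add]
  exact (CharTwo.add_eq_zero.1 h2).symm

theorem loc_tor (h : Fam A d) (t : Tp 2 (pf (dl A))) (σ : XX 3 2) :
    (loci ((-(DC χ c A Wl Wi).bet σ, fun v => -(DC χ c A Wl Wi).L v σ),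
      (t.1 • σ, fun v => t.2 v • σ))).1 = (t.1 + (d : ZMod 2)) • σ := by
  show -(∑ v : pf (dl A), (v.1.natDegree : ZMod 2) • (-(DC χ c A Wl Wi).L v σ) + t.1 • σ) = _
  simp only [smul_neg]
  rw [Finset.sum_neg_distrib, tj_L2 χ c Wl Wi h]
  apply Subtype.ext
  funext l
  show -(-((d : ZMod 2) * σ.1 l) + t.1 * σ.1 l) = (t.1 + (d : ZMod 2)) * σ.1 l
  rw [CharTwo.neg_eq, CharTwo.neg_eq]
  ring

private theorem tj_pair (e k : Fin 3) (hek : k ≠ e) (s : Fin 3 → ZMod 2) (n : ℕ) (p : Fin 3 → Fin 3 → Prop)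
    [∀ a b, Decidable (p a b)]
    (hp : ∀ a b, a ≠ b → (p a b ↔ (a = e ∧ b = k) ∨ (a = k ∧ b = e))) :
    (if s e + s k ≠ 0 then n else 0) =
      (if s 0 + s 1 ≠ 0 then (if p 0 1 then n else 0) else 0) +
      (if s 0 + s 2 ≠ 0 then (if p 0 2 then n else 0) else 0) +
      (if s 1 + s 2 ≠ 0 then (if p 1 2 then n else 0) else 0) := by
  have h01 := hp 0 1 (by decide)
  have h02 := hp 0 2 (by decide)
  have h12 := hp 1 2 (by decide)
  have c1 := add_comm (s 0) (s 1)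
  have c2 := add_comm (s 0) (s 2)
  have c3 := add_comm (s 1) (s 2)
  rcases tj_f3 e with rfl | rfl | rfl <;>
    rcases tj_f3 k with rfl | rfl | rfl <;>
      first
        | exact absurd rfl hek
        | (have g1 := h01; have g2 := h02; have g3 := h12
           simp only [show ((0 : Fin 3) = 1) = False from eq_false (by decide),
             show ((0 : Fin 3) = 2) = False from eq_false (by decide),
             show ((1 : Fin 3) = 0) = False from eq_false (by decide),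
             show ((1 : Fin 3) = 2) = False from eq_false (by decide),
             show ((2 : Fin 3) = 0) = False from eq_false (by decide),
             show ((2 : Fin 3) = 1) = False from eq_false (by decide), and_false,
             or_false, false_or, and_self, iff_true, iff_false, and_true] at g1 g2 g3
           simp only [g1, g2, g3, if_true, if_false, ite_self, add_zero, zero_add, c1, c2, c3])

private theorem tj_two (s : Fin 3 → ZMod 2) (hs : ∑ k, s k = 0) (h0 : s ≠ 0) (d : ℕ) :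
    (if s 0 + s 1 ≠ 0 then d else 0) + (if s 0 + s 2 ≠ 0 then d else 0) +
      (if s 1 + s 2 ≠ 0 then d else 0) = 2 * d := by
  rw [Fin.sum_univ_three] at hs
  have h1 : ¬ (s 0 = 0 ∧ s 1 = 0 ∧ s 2 = 0) := by
    rintro ⟨a, b, c⟩
    apply h0
    funext i
    rcases tj_f3 i with rfl | rfl | rfl
    · exact a
    · exact b
    · exact c
  generalize s 0 = x at *
  generalize s 1 = y at *
  generalize s 2 = z at *
  clear h0
  have key : ∀ x y z : ZMod 2, x + y + z = 0 → ¬ (x = 0 ∧ y = 0 ∧ z = 0) →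
      ((x + y ≠ 0 ∧ x + z ≠ 0 ∧ ¬ (y + z ≠ 0)) ∨ (x + y ≠ 0 ∧ ¬ (x + z ≠ 0) ∧ y + z ≠ 0) ∨
        (¬ (x + y ≠ 0) ∧ x + z ≠ 0 ∧ y + z ≠ 0)) := by decide
  rcases key x y z hs h1 with ⟨a, b, c⟩ | ⟨a, b, c⟩ | ⟨a, b, c⟩
  · rw [if_pos a, if_pos b, if_neg c]; ring
  · rw [if_pos a, if_neg b, if_pos c]; ring
  · rw [if_neg a, if_pos b, if_pos c]; ring

theorem ed_tor (h : Fam A d) {σ : XX 3 2} (hσ : σ ≠ 0) :
    ∑ v : pf (dl A), (if ((DC χ c A Wl Wi).L v σ).1 (ed A v.1) ≠ 0 then v.1.natDegree else 0) = 2 * d := by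
  classical
  have e1 : ∀ v : pf (dl A), (if ((DC χ c A Wl Wi).L v σ).1 (ed A v.1) ≠ 0 then v.1.natDegree else 0) =
      (if σ.1 0 + σ.1 1 ≠ 0 then (if v.1 ∣ A 0 - A 1 then v.1.natDegree else 0) else 0) +
      (if σ.1 0 + σ.1 2 ≠ 0 then (if v.1 ∣ A 0 - A 2 then v.1.natDegree else 0) else 0) +
      (if σ.1 1 + σ.1 2 ≠ 0 then (if v.1 ∣ A 1 - A 2 then v.1.natDegree else 0) else 0) := by
    intro v
    obtain ⟨k, hk, hv, -, -, hun⟩ := fam_one h v.2
    rw [fam_L χ h c Wl Wi v hk hv, if_pos (Or.inl rfl)]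
    refine tj_pair (ed A v.1) k hk σ.1 v.1.natDegree (fun a b => v.1 ∣ A a - A b) fun a b hab => ?_
    constructor
    · intro hd
      by_contra hcon
      push Not at hcon
      exact hun a b hab (fun h1 => hcon.1 h1.1 h1.2) (fun h1 => hcon.2 h1.1 h1.2) hd
    · rintro (⟨rfl, rfl⟩ | ⟨rfl, rfl⟩)
      · exact hv
      · rw [← neg_sub]
        exact (dvd_neg).2 hv
  rw [Finset.sum_congr rfl fun v _ => e1 v, Finset.sum_add_distrib, Finset.sum_add_distrib]
  have e2 : ∀ (p : Prop) [Decidable p] (i k : Fin 3), i ≠ k →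
      ∑ v : pf (dl A), (if p then (if v.1 ∣ A i - A k then v.1.natDegree else 0) else 0) =
        if p then d else 0 := by
    intro p _ i k hik
    split_ifs
    · exact tj_sum h hik
    · exact Finset.sum_const_zero
  rw [e2 _ 0 1 (by decide), e2 _ 0 2 (by decide), e2 _ 1 2 (by decide)]
  refine tj_two σ.1 (XX_sum σ) (fun h1 => hσ (Subtype.ext h1)) d

private theorem tj_nb (h : Fam A d) {n : ℕ} {D : F[X]} (hD : D ∈ Cls (dl A) n) {σ : XX 3 2} (hσ : σ ≠ 0) :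
    nb A (-(DC χ c A Wl Wi).bet σ, fun v => -(DC χ c A Wl Wi).L v σ)
      ((ty χ (dl A) D).1 • σ, fun v => (ty χ (dl A) D).2 v • σ) =
        2 * (if ((n + d : ℕ) : ZMod 2) ≠ 0 then 1 else 0) + 2 * d := by
  classical
  unfold nb
  rw [loc_tor χ c Wl Wi h, ← ed_tor χ c Wl Wi h hσ]
  congr 1
  · congr 1
    have h1 : (ty χ (dl A) D).1 = (n : ZMod 2) := by
      show (D.natDegree : ZMod 2) = n
      rw [(mem_Cls.1 hD).2.1]
    rw [h1, ← Nat.cast_add]
    refine if_congr ?_ rfl rfl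
    rw [not_iff_not, smul_eq_zero, or_iff_left hσ]
  · refine Finset.sum_congr rfl fun v _ => if_congr ?_ rfl rfl
    show (-((DC χ c A Wl Wi).L v σ).1) (ed A v.1) ≠ 0 ↔ _
    rw [Pi.neg_apply, neg_ne_zero]

private theorem tj_nb0 (t : Tp 2 (pf (dl A))) :
    nb A (-(DC χ c A Wl Wi).bet 0, fun v => -(DC χ c A Wl Wi).L v 0)
      (t.1 • (0 : XX 3 2), fun v => t.2 v • (0 : XX 3 2)) = 0 := by
  classical
  unfold nb
  have h1 : (loci ((-(DC χ c A Wl Wi).bet 0, fun v => -(DC χ c A Wl Wi).L v 0),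
      (t.1 • (0 : XX 3 2), fun v => t.2 v • (0 : XX 3 2)))).1 = 0 := by
    show -(∑ v : pf (dl A), (v.1.natDegree : ZMod 2) • (-(DC χ c A Wl Wi).L v 0) + t.1 • (0 : XX 3 2)) = 0
    simp only [map_zero, neg_zero, smul_zero, Finset.sum_const_zero, add_zero]
  rw [if_neg (not_not.2 h1), mul_zero, zero_add]
  refine Finset.sum_eq_zero fun v _ => if_neg ?_
  rw [not_not]
  show (-((DC χ c A Wl Wi).L v 0).1) (ed A v.1) = 0
  rw [map_zero]
  exact neg_zero

private theorem tj_ps (a : ℕ) : ps ((a : ℕ) : ZMod 2) = (-1 : ℂ) ^ a := by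
  have h1 : ps (1 : ZMod 2) = -1 := by
    have h2 : ps (1 : ZMod 2) * ps (1 : ZMod 2) = 1 := by
      rw [← ps_add, show (1 : ZMod 2) + 1 = 0 from rfl, ps_zero]
    rcases mul_self_eq_one_iff.1 h2 with h3 | h3
    · exact absurd (ps_eq_one_iff.1 h3) (by decide)
    · exact h3
  rw [← mul_one ((a : ℕ) : ZMod 2), ps_natCast_mul, h1]

theorem tv_Wj (h : Fam A d) (j : ℕ) {n : ℕ} {D : F[X]} (hD : D ∈ Cls (dl A) n) (σ : XX 3 2) :
    tv (DC χ c A Wl Wi) (Wj A j) (ty χ (dl A) D) σ = 1 := by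
  classical
  show Complex.I ^ (j * nb A (-(DC χ c A Wl Wi).bet σ, fun v => -(DC χ c A Wl Wi).L v σ)
      ((ty χ (dl A) D).1 • σ, fun v => (ty χ (dl A) D).2 v • σ)) *
        ps ((ty χ (dl A) D).1 * (Wj A j).κ σ) = 1
  by_cases hσ : σ = 0
  · subst hσ
    have h1 : (Wj A j).κ (0 : XX 3 2) = 0 := if_pos rfl
    rw [tj_nb0, mul_zero, pow_zero, h1, mul_zero, ps_zero, mul_one]
  · rw [tj_nb χ c Wl Wi h hD hσ]
    have h1 : (Wj A j).κ σ = (j : ZMod 2) := if_neg hσ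
    have h2 : (ty χ (dl A) D).1 = (n : ZMod 2) := by
      show (D.natDegree : ZMod 2) = n
      rw [(mem_Cls.1 hD).2.1]
    rw [h1, h2, ← Nat.cast_mul, tj_ps]
    obtain ⟨b, hb⟩ : ∃ b : ℕ, b = (if ((n + d : ℕ) : ZMod 2) ≠ 0 then 1 else 0) := ⟨_, rfl⟩
    rw [← hb]
    have h3 : Even (n + d + b) := by
      rw [hb]
      split_ifs with h4
      · rw [Ne, ZMod.natCast_eq_zero_iff_even, Nat.not_even_iff_odd] at h4
        exact h4.add_one
      · rw [not_not, ZMod.natCast_eq_zero_iff_even] at h4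
        rw [add_zero]
        exact h4
    have h5 : j * (2 * b + 2 * d) = 2 * (j * (b + d)) := by ring
    rw [h5, pow_mul, Complex.I_sq, ← pow_add]
    have h6 : j * (b + d) + n * j = j * (n + d + b) := by ring
    rw [h6]
    exact (h3.mul_left j).neg_one_pow

theorem nz_tor (h : Fam A d) {n : ℕ} {D : F[X]} (hD : D ∈ Cls (dl A) n) (σ : XX 3 2) :
    4 ∣ nz χ A D ((-(DC χ c A Wl Wi).bet σ, fun v => -(DC χ c A Wl Wi).L v σ), fun _ => σ) := by
  classical
  unfold nz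
  rw [xi_const χ hD σ]
  by_cases hσ : σ = 0
  · subst hσ
    rw [tj_nb0]
    simp
  · rw [tj_nb χ c Wl Wi h hD hσ]
    have h1 : ∑ P : pf D, (if (((-(DC χ c A Wl Wi).bet σ, fun v => -(DC χ c A Wl Wi).L v σ), fun _ => σ) :
        EE (XX 3 2) (pf (dl A)) × (pf D → XX 3 2)).2 P ≠ 0 then P.1.natDegree else 0) = n := by
      rw [Finset.sum_congr rfl fun P _ => if_pos hσ, Finset.sum_coe_sort (pf D) (fun P => P.natDegree),
        Pool.Agent.H94.PC.natDegree_prod_pf (mem_Cls.1 hD).1 (mem_Cls.1 hD).2.2.1, (mem_Cls.1 hD).2.1]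
    rw [h1]
    obtain ⟨b, hb⟩ : ∃ b : ℕ, b = (if ((n + d : ℕ) : ZMod 2) ≠ 0 then 1 else 0) := ⟨_, rfl⟩
    rw [← hb]
    have h3 : Even (n + d + b) := by
      rw [hb]
      split_ifs with h4
      · rw [Ne, ZMod.natCast_eq_zero_iff_even, Nat.not_even_iff_odd] at h4
        exact h4.add_one
      · rw [not_not, ZMod.natCast_eq_zero_iff_even] at h4
        rw [add_zero]
        exact h4
    obtain ⟨r, hr⟩ := h3
    exact ⟨r, by omega⟩

end Pool.Agent.H64.RO
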