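import Pool.Agent.H64.RO.Nu

set_option autoImplicit false

/-!
# [H64 RO Wjl] The weights `Wj`

* `wz_Wj`: `ps (∑ P, deg P * κ (z.2 P)) = (-1)^(j * ∑ P, [z.2 P ≠ 0] deg P) = I^(2 j ..)`: `ps (0 : ZMod 2) = 1`, `ps 1 = -1` (`PL.ps` is the standard character of `ZMod 2`).
* `norm_Wj`: `‖I^n‖ = 1`.
* `crv_Wj`: `j` odd: `κ x = [x ≠ 0]` on `XX 3 2 = {x : (Z/2)^3 with sum 0}` (4 elements): for `x, y` two different nonzero elements `{c, c + x, c + y, c + x + y}` is all of `XX 3 2`, so the sum (in `ZMod 2` signs do not matter) is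
  `3 = 1`.  (`ep 2 0 1`, `ep 2 0 2`; every `c` is one of `0, ep 0 1, ep 0 2, ep 1 2`.)
-/

namespace Pool.Agent.H64.RO

open Polynomial
open Pool.Agent.H94.PL
open Pool.Agent.H94.PM
open Pool.Agent.H94.PN
open Pool.Agent.H94.PC (Mo Sq Pr pf om Mn mem_Mo mem_Sq mem_Pr mem_pf mem_pf')

variable {F : Type} [Field F] [Finite F] (χ : LChar F 2) {A : Fin 3 → F[X]}

private theorem wjl_ps_one : ps (1 : ZMod 2) = -1 := by
  unfold ps
  have h : ((1 : ℤ) : ZMod 2) = 1 := by norm_num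
  rw [← h, ZMod.stdAddChar_coe]
  have h2 : 2 * (Real.pi : ℂ) * Complex.I * ((1 : ℤ) : ℂ) / ((2 : ℕ) : ℂ) = Real.pi * Complex.I := by
    push_cast; ring
  rw [h2, Complex.exp_pi_mul_I]

private theorem wjl_ps_nat (n : ℕ) : ps (n : ZMod 2) = Complex.I ^ (2 * n) := by
  induction n with
  | zero => rw [Nat.cast_zero, ps_zero, mul_zero, pow_zero]
  | succ n ih =>
    rw [Nat.cast_add, ps_add, ih, Nat.cast_one, wjl_ps_one, mul_add, pow_add, mul_one, Complex.I_sq]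

theorem wz_Wj (j : ℕ) (D : F[X]) (z : EE (XX 3 2) (pf (dl A)) × (pf D → XX 3 2)) :
    wz χ (Wj A j) D z = Complex.I ^ (j * nz χ A D z) := by
  have h1 : (∑ P : pf D, (P.1.natDegree : ZMod 2) * (Wj A j).κ (z.2 P)) =
      ((j * ∑ P : pf D, (if z.2 P ≠ 0 then P.1.natDegree else 0) : ℕ) : ZMod 2) := by
    rw [Nat.cast_mul, Nat.cast_sum, Finset.mul_sum]
    refine Finset.sum_congr rfl fun P _ => ?_
    show (P.1.natDegree : ZMod 2) * (if z.2 P = 0 then 0 else (j : ZMod 2)) = _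
    by_cases h : z.2 P = 0
    · simp [h]
    · simp only [h, if_false, ne_eq, not_false_eq_true, if_true]
      rw [mul_comm]
  unfold wz
  rw [h1, wjl_ps_nat]
  show Complex.I ^ (j * nb A z.1 (xi χ (dl A) D z.2)) * _ = _
  rw [← pow_add]
  congr 1
  unfold nz
  ring

theorem norm_Wj (j : ℕ) (t : Tp 2 (pf (dl A))) (ε ξ : EE (XX 3 2) (pf (dl A))) :
    ‖(Wj A j).β t ε ξ‖ ≤ 1 := by
  show ‖Complex.I ^ (j * nb A ε ξ)‖ ≤ 1
  rw [norm_pow, Complex.norm_I, one_pow]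

private theorem wjl_all (c : XX 3 2) : c = 0 ∨ c = ep 2 0 1 ∨ c = ep 2 0 2 ∨ c = ep 2 0 1 + ep 2 0 2 := by
  have hs := XX_sum c
  rw [Fin.sum_univ_three] at hs
  have h : ∀ x y z : ZMod 2, x + y + z = 0 → (x = 0 ∧ y = 0 ∧ z = 0) ∨ (x = 1 ∧ y = 1 ∧ z = 0) ∨
      (x = 1 ∧ y = 0 ∧ z = 1) ∨ (x = 0 ∧ y = 1 ∧ z = 1) := by decide
  have he : ∀ d : XX 3 2, c.1 0 = d.1 0 → c.1 1 = d.1 1 → c.1 2 = d.1 2 → c = d := by
    intro d h0 h1 h2
    apply Subtype.ext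
    funext k
    fin_cases k
    · exact h0
    · exact h1
    · exact h2
  rcases h _ _ _ hs with ⟨h0, h1, h2⟩ | ⟨h0, h1, h2⟩ | ⟨h0, h1, h2⟩ | ⟨h0, h1, h2⟩
  · left
    exact he _ (by rw [h0]; rfl) (by rw [h1]; rfl) (by rw [h2]; rfl)
  · right; left
    exact he _ (by rw [h0, ep_apply]; decide) (by rw [h1, ep_apply]; decide) (by rw [h2, ep_apply]; decide)
  · right; right; left
    exact he _ (by rw [h0, ep_apply]; decide) (by rw [h1, ep_apply]; decide) (by rw [h2, ep_apply]; decide)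
  · right; right; right
    refine he _ ?_ ?_ ?_
    · rw [h0]
      show (0 : ZMod 2) = (ep 2 0 1 : XX 3 2).1 0 + (ep 2 0 2 : XX 3 2).1 0
      rw [ep_apply, ep_apply]; decide
    · rw [h1]
      show (1 : ZMod 2) = (ep 2 0 1 : XX 3 2).1 1 + (ep 2 0 2 : XX 3 2).1 1
      rw [ep_apply, ep_apply]; decide
    · rw [h2]
      show (1 : ZMod 2) = (ep 2 0 1 : XX 3 2).1 2 + (ep 2 0 2 : XX 3 2).1 2
      rw [ep_apply, ep_apply]; decide

private theorem wjl_dbl (x : XX 3 2) : x + x = 0 := by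
  apply Subtype.ext
  funext k
  show x.1 k + x.1 k = 0
  exact CharTwo.add_self_eq_zero _

theorem crv_Wj {j : ℕ} (hj : Odd j) : Crv (Wj A j).κ := by
  intro c
  refine ⟨ep 2 0 1, ep 2 0 2, ?_⟩
  have hj1 : (j : ZMod 2) = 1 := by
    obtain ⟨m, rfl⟩ := hj
    push_cast
    have : (2 : ZMod 2) = 0 := by decide
    rw [this]; simp
  have hκ : ∀ x, (Wj A j).κ x = if x = 0 then 0 else 1 := by
    intro x
    show (if x = 0 then 0 else (j : ZMod 2)) = _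
    rw [hj1]
  have n1 : (ep 2 0 1 : XX 3 2) ≠ 0 := by
    intro h
    have h1 : (ep 2 0 1 : XX 3 2).1 0 = 0 := by rw [h]; rfl
    rw [ep_apply] at h1
    exact absurd h1 (by decide)
  have n2 : (ep 2 0 2 : XX 3 2) ≠ 0 := by
    intro h
    have h1 : (ep 2 0 2 : XX 3 2).1 0 = 0 := by rw [h]; rfl
    rw [ep_apply] at h1
    exact absurd h1 (by decide)
  have n3 : (ep 2 0 1 : XX 3 2) + ep 2 0 2 ≠ 0 := by
    intro h
    have h1 : ((ep 2 0 1 : XX 3 2) + ep 2 0 2).1 1 = 0 := by rw [h]; rfl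
    have h2 : (ep 2 0 1 : XX 3 2).1 1 + (ep 2 0 2 : XX 3 2).1 1 = 0 := h1
    rw [ep_apply, ep_apply] at h2
    exact absurd h2 (by decide)
  rw [hκ, hκ, hκ, hκ]
  rcases wjl_all c with rfl | rfl | rfl | rfl
  · rw [zero_add, zero_add, if_neg n3, if_neg n1, if_neg n2, if_pos rfl]
    decide
  · rw [wjl_dbl, zero_add, if_neg n2, if_pos rfl, if_neg n3, if_neg n1]
    decide
  · have e1 : (ep 2 0 2 : XX 3 2) + ep 2 0 1 + ep 2 0 2 = ep 2 0 1 := by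
      rw [add_right_comm, wjl_dbl, zero_add]
    have e2 : (ep 2 0 2 : XX 3 2) + ep 2 0 1 = ep 2 0 1 + ep 2 0 2 := add_comm _ _
    rw [e1, e2, wjl_dbl, if_neg n1, if_neg n3, if_pos rfl, if_neg n2]
    decide
  · have e1 : (ep 2 0 1 : XX 3 2) + ep 2 0 2 + ep 2 0 1 + ep 2 0 2 = 0 := by
      rw [add_right_comm (ep 2 0 1) (ep 2 0 2) (ep 2 0 1), wjl_dbl, zero_add, wjl_dbl]
    have e2 : (ep 2 0 1 : XX 3 2) + ep 2 0 2 + ep 2 0 1 = ep 2 0 2 := by
      rw [add_right_comm, wjl_dbl, zero_add]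
    have e3 : (ep 2 0 1 : XX 3 2) + ep 2 0 2 + ep 2 0 2 = ep 2 0 1 := by
      rw [add_assoc, wjl_dbl, add_zero]
    rw [e1, e2, e3, if_pos rfl, if_neg n2, if_neg n1, if_neg n3]
    decide

theorem kap_Wj {j : ℕ} (hj : Even j) (x : XX 3 2) : (Wj A j).κ x = 0 := by
  show (if x = 0 then 0 else (j : ZMod 2)) = 0
  have hj0 : (j : ZMod 2) = 0 := (ZMod.natCast_eq_zero_iff j 2).2 hj.two_dvd
  rw [hj0, ite_self]

end Pool.Agent.H64.RO
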