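import Pool.Agent.H64.RO.Mow
import Pool.Agent.H64.RO.Wjl
import Pool.Agent.H64.RO.Chj
import Pool.Agent.H64.RO.Tvj
import Pool.Agent.H64.RO.Selj
import Pool.Agent.H94.PN.MOM2

set_option autoImplicit false

/-!
# [H64 RO Mo2] The moments of the number of the classes with `4 ∤ nu`

`N = 4`, `dt = DC χ c A Wl Wi` with `Wl`, `Wi` from `exists_lokx` (see `PN.mom2` in `H94/PN/MOM2.lean`), `R t = (Ev (WC χ c Wl Wi t) ↔ p = 0)`, `R (ty D) ↔ rkS % 2 = p`, `card KM = 4 * 2 ^ rkS` (`ev_rkS`).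
* `nz_odd`: if all primes of `dl A` have even degree then `nz` is even (all terms are).
* `cnt_four`: `∑ j < 4, I ^ (j m) = 4` or `0` as `4 ∣ m` or not.  So `card {z ∈ KM | ¬ 4 ∣ nz z} = card KM - (1/4) ∑ j < 4, ∑ z ∈ KM, I ^ (j nz z)`, and `∑ z ∈ KM, I ^ (j nz z) = Sw χ dt (Wj A j) D` (`wz_Wj`).
* `mo2`: `j = 0`: `Sw = card KM`; `mom` (`H94/PN/MOM.lean`) with exponent `k + 1`: `∑ card KM ^ (k + 1) → Lk (k + 1) 4 ^ (k + 1)`.  `j = 1, 3`: `mow` with `Wj A j` (`norm_Wj`, `tv_Wj`, `crv_Wj`): `Lk k 4 ^ (k + 1)`.  `j = 2`: if some prime has odd degree: `mow` with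
  `Wj A 2` (`kap_Wj`, `ch_two`); if not: `I ^ (2 nz) = 1` by `nz_odd`, so `Sw = card KM`.  In the first case `(3/4) (Lk (k + 1) - Lk k) 4 ^ (k + 1)`, in the second `(1/2) (..)`; divide by `4 ^ k`, `card Bd = card {z ∈ KM | ¬ 4 ∣ nz z}` (`bd_km`).
  (`mow` is stated in `ℂ`; all sums in question are real; compare with the real part.)
-/

namespace Pool.Agent.H64.RO

open Polynomial
open Pool.Agent.H94.PL
open Pool.Agent.H94.PM
open Pool.Agent.H94.PN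
open Pool.Agent.H94.PC (Mo Sq Pr pf om Mn mem_Mo mem_Sq mem_Pr mem_pf mem_pf')

section
variable {F : Type} [Field F] [Finite F] (χ : LChar F 2) {A : Fin 3 → F[X]}

theorem nz_odd (ho : ¬ ∃ v ∈ pf (dl A), Odd v.natDegree) (D : F[X])
    (z : EE (XX 3 2) (pf (dl A)) × (pf D → XX 3 2)) : Even (nz χ A D z) := by
  unfold nz nb
  refine (even_two_mul _).add ((even_two_mul _).add ?_)
  refine even_iff_two_dvd.2 (Finset.dvd_sum fun v _ => ?_)
  split_ifs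
  · rw [← even_iff_two_dvd]
    by_contra hn
    exact ho ⟨v.1, v.2, Nat.not_even_iff_odd.1 hn⟩
  · exact dvd_zero _

private theorem four_sum (m : ℕ) :
    ∑ j ∈ Finset.range 4, Complex.I ^ (j * m) = if 4 ∣ m then 4 else 0 := by
  have hx : ∀ j : ℕ, Complex.I ^ (j * m) = (Complex.I ^ (m % 4)) ^ j := fun j => by
    rw [← Complex.I_pow_eq_pow_mod m, ← pow_mul, mul_comm]
  rw [Finset.sum_congr rfl fun j _ => hx j]
  have hm : m % 4 = 0 ∨ m % 4 = 1 ∨ m % 4 = 2 ∨ m % 4 = 3 := by omega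
  rcases hm with h | h | h | h
  · rw [if_pos (by omega), h]
    simp
  · rw [if_neg (by omega), h, pow_one]
    simp only [Finset.sum_range_succ, Finset.range_zero, Finset.sum_empty, pow_zero, pow_one,
      Complex.I_sq, Complex.I_pow_three]
    ring
  · rw [if_neg (by omega), h, Complex.I_sq]
    simp only [Finset.sum_range_succ, Finset.range_zero, Finset.sum_empty, pow_zero, pow_one]
    ring
  · rw [if_neg (by omega), h, Complex.I_pow_three]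
    simp only [Finset.sum_range_succ, Finset.range_zero, Finset.sum_empty, pow_zero, pow_one]
    have h2 : (-Complex.I) ^ 2 = -1 := by rw [neg_sq, Complex.I_sq]
    have h3 : (-Complex.I) ^ 3 = Complex.I := by
      rw [pow_succ, h2]
      ring
    rw [h2, h3]
    ring

open Classical in
private theorem km_card (dt : Dat 2 (XX 3 2) (pf (dl A))) (D : F[X])
    (P : EE (XX 3 2) (pf (dl A)) × (pf D → XX 3 2) → Prop) :
    ((Nat.card {z : KM χ dt D // P z.1} : ℕ) : ℂ) =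
      ∑ z : EE (XX 3 2) (pf (dl A)) × (pf D → XX 3 2),
        (if z ∈ KM χ dt D then (if P z then (1 : ℂ) else 0) else 0) := by
  have h1 : Nat.card {z : KM χ dt D // P z.1} =
      ((Finset.univ : Finset (EE (XX 3 2) (pf (dl A)) × (pf D → XX 3 2))).filter
        fun z => z ∈ KM χ dt D ∧ P z).card := by
    rw [← Nat.subtype_card ((Finset.univ : Finset (EE (XX 3 2) (pf (dl A)) × (pf D → XX 3 2))).filter
        fun z => z ∈ KM χ dt D ∧ P z) (p := fun z => z ∈ KM χ dt D ∧ P z)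
        (fun z => by rw [Finset.mem_filter]; exact and_iff_right (Finset.mem_univ _))]
    exact Nat.card_congr (Equiv.subtypeSubtypeEquivSubtypeInter (fun z => z ∈ KM χ dt D) P)
  rw [h1, Finset.natCast_card_filter]
  refine Finset.sum_congr rfl fun z _ => ?_
  rw [ite_and]

open Classical in
private theorem km_card' (dt : Dat 2 (XX 3 2) (pf (dl A))) (D : F[X]) :
    ((Nat.card (KM χ dt D) : ℕ) : ℂ) = ∑ z : EE (XX 3 2) (pf (dl A)) × (pf D → XX 3 2),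
      (if z ∈ KM χ dt D then (1 : ℂ) else 0) := by
  have h1 : Nat.card (KM χ dt D) =
      ((Finset.univ : Finset (EE (XX 3 2) (pf (dl A)) × (pf D → XX 3 2))).filter
        fun z => z ∈ KM χ dt D).card := by
    rw [← Nat.subtype_card ((Finset.univ : Finset (EE (XX 3 2) (pf (dl A)) × (pf D → XX 3 2))).filter
        fun z => z ∈ KM χ dt D) (p := fun z => z ∈ KM χ dt D)
        (fun z => by rw [Finset.mem_filter]; exact and_iff_right (Finset.mem_univ _))]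
  rw [h1, Finset.natCast_card_filter]

private theorem sw_card (dt : Dat 2 (XX 3 2) (pf (dl A))) (D : F[X]) (j : ℕ)
    (hj : ∀ z, 4 ∣ j * nz χ A D z) : Sw χ dt (Wj A j) D = ((Nat.card (KM χ dt D) : ℕ) : ℂ) := by
  classical
  rw [km_card']
  unfold Sw
  refine Finset.sum_congr rfl fun z _ => ?_
  rw [wz_Wj]
  obtain ⟨r, hr⟩ := hj z
  rw [hr, pow_mul, Complex.I_pow_four, one_pow]

open Classical in
theorem cnt_four (dt : Dat 2 (XX 3 2) (pf (dl A))) (D : F[X]) :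
    ((Nat.card {z : KM χ dt D // ¬ 4 ∣ nz χ A D z.1} : ℕ) : ℂ) = (Nat.card (KM χ dt D) : ℂ) -
      1 / 4 * ∑ j ∈ Finset.range 4, Sw χ dt (Wj A j) D := by
  have hS : ∑ j ∈ Finset.range 4, Sw χ dt (Wj A j) D =
      ∑ z : EE (XX 3 2) (pf (dl A)) × (pf D → XX 3 2),
        (if z ∈ KM χ dt D then (if 4 ∣ nz χ A D z then (4 : ℂ) else 0) else 0) := by
    unfold Sw
    rw [Finset.sum_comm]
    refine Finset.sum_congr rfl fun z _ => ?_
    by_cases hz : z ∈ KM χ dt D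
    · simp only [if_pos hz]
      rw [Finset.sum_congr rfl fun j _ => wz_Wj χ j D z, four_sum]
    · simp only [if_neg hz]
      exact Finset.sum_const_zero
  rw [km_card χ dt D (fun z => ¬ 4 ∣ nz χ A D z), km_card', hS, Finset.mul_sum,
    ← Finset.sum_sub_distrib]
  refine Finset.sum_congr rfl fun z _ => ?_
  by_cases hz : z ∈ KM χ dt D
  · rw [if_pos hz, if_pos hz, if_pos hz]
    by_cases h4 : 4 ∣ nz χ A D z
    · rw [if_neg (not_not.2 h4), if_pos h4]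
      norm_num
    · rw [if_pos h4, if_neg h4]
      norm_num
  · rw [if_neg hz, if_neg hz, if_neg hz]
    norm_num

end

private theorem lin4 (T : Finset ℕ) (S1 M1 M0 : ℂ) (S : ℕ → ℂ) (E : ℝ) (h1 : ‖S1 - M1‖ ≤ E)
    (h : ∀ j ∈ T, ‖S j - M0‖ ≤ E) :
    ‖((T.card : ℂ) / 4 * S1 - 1 / 4 * ∑ j ∈ T, S j) - (T.card : ℂ) / 4 * (M1 - M0)‖ ≤
      (T.card : ℝ) / 2 * E := by
  have e : ((T.card : ℂ) / 4 * S1 - 1 / 4 * ∑ j ∈ T, S j) - (T.card : ℂ) / 4 * (M1 - M0) =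
      (T.card : ℂ) / 4 * (S1 - M1) - 1 / 4 * ∑ j ∈ T, (S j - M0) := by
    rw [Finset.sum_sub_distrib, Finset.sum_const, nsmul_eq_mul]
    ring
  rw [e]
  refine (norm_sub_le _ _).trans ?_
  rw [norm_mul, norm_mul]
  have h2 : ‖∑ j ∈ T, (S j - M0)‖ ≤ T.card * E := by
    refine (norm_sum_le_of_le _ h).trans ?_
    rw [Finset.sum_const, nsmul_eq_mul]
  have h3 : ‖(T.card : ℂ) / 4‖ = (T.card : ℝ) / 4 := by
    rw [norm_div, Complex.norm_natCast]
    norm_num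
  have h4 : ‖(1 / 4 : ℂ)‖ = 1 / 4 := by norm_num
  rw [h3, h4]
  have h5 : (0 : ℝ) ≤ (T.card : ℝ) / 4 := by positivity
  have h6 := mul_le_mul_of_nonneg_left h1 h5
  linarith

theorem mo2 {F : Type} [Field F] [Finite F] [DecidableEq (RatFunc F)] {A : Fin 3 → F[X]} {d : ℕ}
    {c : F} (hq : 2 ∣ Nat.card F - 1) (hc : c ≠ 0) (h : Fam A d) {p : ℕ} (hp : p < 2) (k : ℕ)
    (ε : ℝ) (hε : 0 < ε) : ∃ n₀ : ℕ, ∀ n : ℕ, n₀ ≤ n →
      |∑ D ∈ Cls (dl A) n, (if rkS 2 1 c A D % 2 = p then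
          (Nat.card (Bd c A D) : ℝ) * ((2 : ℝ) ^ rkS 2 1 c A D) ^ k else 0) -
        kp A * ((Lk 2 (k + 1) : ℝ) - (Lk 2 k : ℝ)) *
          (((Cls (dl A) n).filter fun D => rkS 2 1 c A D % 2 = p).card : ℝ)| ≤
        ε * (Nat.card F : ℝ) ^ n := by
  classical
  have : Nontrivial (XX 3 2) := nontriv_XX (by omega)
  have hm : Nat.Coprime 3 2 := by norm_num
  have hα : 2 ∣ 1 * 3 + 1 := by norm_num
  have hA := fam_inj h
  have hG := fam_gen h
  have hΔ : dl A ≠ 0 := h.sqf.ne_zero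
  obtain ⟨χ⟩ := exists_LChar F Nat.prime_two hq
  obtain ⟨Wl, Wi, hL, hWl, hWi⟩ := exists_lokx χ hq hm hα c hA
  obtain ⟨T, hTd⟩ : ∃ T : Finset ℕ, T = if ∃ v ∈ pf (dl A), Odd v.natDegree then {1, 2, 3} else {1, 3} :=
    ⟨_, rfl⟩
  have hTk : (T.card : ℝ) = kp A := by
    rw [hTd]
    unfold kp
    split_ifs
    · norm_num
    · norm_num
  have hT3 : (T.card : ℝ) ≤ 3 := by
    rw [hTk]
    unfold kp
    split_ifs <;> norm_num
  have hN : Fintype.card (XX 3 2) = 4 := by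
    rw [← Nat.card_eq_fintype_card, card_XX (by norm_num)]
    norm_num
  have hN' : Nat.card (XX 3 2) = 4 := by
    rw [card_XX (by norm_num)]
    norm_num
  have h4k : (0 : ℝ) < 4 ^ k := by positivity
  have hε' : 0 < ε * 4 ^ k / 2 := by positivity
  obtain ⟨R, hR0⟩ : ∃ R : Tp 2 (pf (dl A)) → Prop, ∀ t, R t ↔ (Ev (WC χ c Wl Wi t) ↔ p = 0) :=
    ⟨_, fun _ => Iff.rfl⟩
  obtain ⟨n₁, hmom⟩ := mom χ (BB_good hm) (fun h2 => absurd rfl h2) hΔ (dok_DC χ c A Wl Wi)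
    (genA_DC χ c hA hG Wl Wi)
    (fun n _ D hD => tk2 χ hm hα hc hA hL hWl hWi hD) (k + 1) (ε * 4 ^ k / 2) hε'
  have hmow : ∀ j : ℕ, ∃ n₀ : ℕ, j ∈ T → ∀ n : ℕ, n₀ ≤ n →
      ‖∑ D ∈ Cls (dl A) n, (if R (ty χ (dl A) D) then Sw χ (DC χ c A Wl Wi) (Wj A j) D *
          (Nat.card (KM χ (DC χ c A Wl Wi) D) : ℂ) ^ k else 0) -
        ((Lk 2 k : ℝ) * (Fintype.card (XX 3 2) : ℝ) ^ (k + 1) *
          (((Cls (dl A) n).filter fun D => R (ty χ (dl A) D)).card : ℝ) : ℝ)‖ ≤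
        ε * 4 ^ k / 2 * (Nat.card F : ℝ) ^ n := by
    intro j
    by_cases hj : j ∈ T
    · have hw3 : Crv (Wj A j).κ ∨ ((∀ x, (Wj A j).κ x = 0) ∧
          ∀ n, 1 ≤ n → ∀ D ∈ Cls (dl A) n, R (ty χ (dl A) D) →
          ∑ z : EE (XX 3 2) (pf (dl A)) × EE (XX 3 2) (pf (dl A)),
            (if z ∈ (DC χ c A Wl Wi).W (ty χ (dl A) D) then
              (Wj A j).β (ty χ (dl A) D) z.1 z.2 else 0) = 0) := by
        by_cases ho : ∃ v ∈ pf (dl A), Odd v.natDegree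
        · rw [hTd, if_pos ho] at hj
          simp only [Finset.mem_insert, Finset.mem_singleton] at hj
          rcases hj with rfl | rfl | rfl
          · exact Or.inl (crv_Wj (by decide))
          · refine Or.inr ⟨kap_Wj (by decide), fun n _ D hD _ => ?_⟩
            exact ch_two χ c Wl Wi h ho (tk2 χ hm hα hc hA hL hWl hWi hD)
          · exact Or.inl (crv_Wj (by decide))
        · rw [hTd, if_neg ho] at hj
          simp only [Finset.mem_insert, Finset.mem_singleton] at hj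
          rcases hj with rfl | rfl
          · exact Or.inl (crv_Wj (by decide))
          · exact Or.inl (crv_Wj (by decide))
      obtain ⟨n₀, hn₀⟩ := mow χ (BB_good hm) (fun h2 => absurd rfl h2) hΔ (dok_DC χ c A Wl Wi)
        (genA_DC χ c hA hG Wl Wi) (fun n _ D hD => tk2 χ hm hα hc hA hL hWl hWi hD) R (Wj A j)
        (norm_Wj j) (fun n _ D hD _ σ => tv_Wj χ c Wl Wi h j hD σ) hw3 k (ε * 4 ^ k / 2) hε'
      exact ⟨n₀, fun _ => hn₀⟩
    · exact ⟨0, fun h => absurd h hj⟩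
  choose f hf using hmow
  refine ⟨max (max n₁ 1) (T.sup f), fun n hn => ?_⟩
  have hn1 : 1 ≤ n := ((le_max_right _ _).trans (le_max_left _ _)).trans hn
  have hn2 : n₁ ≤ n := ((le_max_left _ _).trans (le_max_left _ _)).trans hn
  have hn3 : T.sup f ≤ n := (le_max_right _ _).trans hn
  have hR : ∀ D ∈ Cls (dl A) n, (R (ty χ (dl A) D) ↔ rkS 2 1 c A D % 2 = p) := by
    intro D hD
    obtain ⟨-, h2⟩ := ev_rkS χ hq hm hα hc hA hL hWl hWi hn1 hD
    rw [hR0, h2, Nat.even_iff]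
    omega
  obtain ⟨S1, hS1⟩ : ∃ S1 : ℂ, S1 = ∑ D ∈ Cls (dl A) n, (if R (ty χ (dl A) D) then
      (Nat.card (KM χ (DC χ c A Wl Wi) D) : ℂ) ^ (k + 1) else 0) := ⟨_, rfl⟩
  obtain ⟨S, hS⟩ : ∃ S : ℕ → ℂ, ∀ j, S j = ∑ D ∈ Cls (dl A) n, (if R (ty χ (dl A) D) then
      Sw χ (DC χ c A Wl Wi) (Wj A j) D * (Nat.card (KM χ (DC χ c A Wl Wi) D) : ℂ) ^ k else 0) :=
    ⟨_, fun _ => rfl⟩
  obtain ⟨Q, hQ⟩ : ∃ Q : ℝ, Q = (((Cls (dl A) n).filter fun D => R (ty χ (dl A) D)).card : ℝ) :=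
    ⟨_, rfl⟩
  have hQ' : (((Cls (dl A) n).filter fun D => rkS 2 1 c A D % 2 = p).card : ℝ) = Q := by
    rw [hQ, Finset.filter_congr hR]
  have g1 : ‖S1 - (((Lk 2 (k + 1) : ℝ) * 4 ^ (k + 1) * Q : ℝ) : ℂ)‖ ≤
      ε * 4 ^ k / 2 * (Nat.card F : ℝ) ^ n := by
    have h1 := hmom n hn2 R
    rw [← hQ, hN] at h1
    have h2 : S1 - (((Lk 2 (k + 1) : ℝ) * 4 ^ (k + 1) * Q : ℝ) : ℂ) =
        ((∑ D ∈ Cls (dl A) n, (if R (ty χ (dl A) D) then
          (Nat.card (KM χ (DC χ c A Wl Wi) D) : ℝ) ^ (k + 1) else 0) -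
          (Lk 2 (k + 1) : ℝ) * ((4 : ℕ) : ℝ) ^ (k + 1) * Q : ℝ) : ℂ) := by
      rw [hS1, Complex.ofReal_sub, Complex.ofReal_sum]
      congr 1
      refine Finset.sum_congr rfl fun D _ => ?_
      split_ifs
      · push_cast
        rfl
      · simp
    rw [h2, Complex.norm_real, Real.norm_eq_abs]
    exact h1
  have g2 : ∀ j ∈ T, ‖S j - (((Lk 2 k : ℝ) * 4 ^ (k + 1) * Q : ℝ) : ℂ)‖ ≤
      ε * 4 ^ k / 2 * (Nat.card F : ℝ) ^ n := by
    intro j hj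
    have h1 := hf j hj n ((Finset.le_sup hj).trans hn3)
    rw [← hS, ← hQ, hN] at h1
    exact h1
  have g3 := lin4 T S1 _ _ S _ g1 g2
  have hb : ∀ D ∈ Cls (dl A) n, ((Nat.card (Bd c A D) : ℕ) : ℂ) =
      (T.card : ℂ) / 4 * (Nat.card (KM χ (DC χ c A Wl Wi) D) : ℂ) -
        1 / 4 * ∑ j ∈ T, Sw χ (DC χ c A Wl Wi) (Wj A j) D := by
    intro D hD
    rw [bd_km χ hq hc h hWl (fun v b => (hL.cl v b).le) hWi (fun b => (hL.ci b).le) hD, cnt_four]
    have h0 := sw_card χ (DC χ c A Wl Wi) D 0 (fun z => by rw [zero_mul]; exact dvd_zero _)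
    simp only [Finset.sum_range_succ, Finset.range_zero, Finset.sum_empty, zero_add]
    rw [h0]
    by_cases ho : ∃ v ∈ pf (dl A), Odd v.natDegree
    · rw [hTd, if_pos ho]
      have h1 : (({1, 2, 3} : Finset ℕ).card : ℂ) = 3 := by norm_num
      rw [h1, Finset.sum_insert (by decide), Finset.sum_insert (by decide), Finset.sum_singleton]
      ring
    · rw [hTd, if_neg ho]
      have h1 : (({1, 3} : Finset ℕ).card : ℂ) = 2 := by norm_num
      have h2 := sw_card χ (DC χ c A Wl Wi) D 2 (fun z => by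
        obtain ⟨r, hr⟩ := nz_odd χ ho D z
        exact ⟨r, by rw [hr]; ring⟩)
      rw [h1, Finset.sum_insert (by decide), Finset.sum_singleton, h2]
      ring
  obtain ⟨Y, hY⟩ : ∃ Y : ℝ, Y = ∑ D ∈ Cls (dl A) n, (if rkS 2 1 c A D % 2 = p then
      (Nat.card (Bd c A D) : ℝ) * ((2 : ℝ) ^ rkS 2 1 c A D) ^ k else 0) := ⟨_, rfl⟩
  have g4 : (T.card : ℂ) / 4 * S1 - 1 / 4 * ∑ j ∈ T, S j = ((4 ^ k * Y : ℝ) : ℂ) := by
    have e1 : ∑ j ∈ T, S j = ∑ D ∈ Cls (dl A) n, (if R (ty χ (dl A) D) then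
        (∑ j ∈ T, Sw χ (DC χ c A Wl Wi) (Wj A j) D) *
          (Nat.card (KM χ (DC χ c A Wl Wi) D) : ℂ) ^ k else 0) := by
      rw [Finset.sum_congr rfl fun j _ => hS j, Finset.sum_comm]
      refine Finset.sum_congr rfl fun D _ => ?_
      split_ifs
      · rw [Finset.sum_mul]
      · exact Finset.sum_const_zero
    rw [e1, hS1, hY, Finset.mul_sum, Finset.mul_sum, Finset.mul_sum, ← Finset.sum_sub_distrib,
      Complex.ofReal_sum]
    refine Finset.sum_congr rfl fun D hD => ?_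
    obtain ⟨h2, -⟩ := ev_rkS χ hq hm hα hc hA hL hWl hWi hn1 hD
    by_cases h3 : rkS 2 1 c A D % 2 = p
    · rw [if_pos ((hR D hD).2 h3), if_pos ((hR D hD).2 h3), if_pos h3]
      have h5 := hb D hD
      have h6 : ((4 ^ k * ((Nat.card (Bd c A D) : ℝ) * ((2 : ℝ) ^ rkS 2 1 c A D) ^ k) : ℝ) : ℂ) =
          ((Nat.card (Bd c A D) : ℕ) : ℂ) * (Nat.card (KM χ (DC χ c A Wl Wi) D) : ℂ) ^ k := by
        rw [h2, hN']
        push_cast
        ring
      rw [h6, h5]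
      ring
    · rw [if_neg fun h4 => h3 ((hR D hD).1 h4), if_neg fun h4 => h3 ((hR D hD).1 h4), if_neg h3]
      simp
  have g5 : (T.card : ℂ) / 4 * ((((Lk 2 (k + 1) : ℝ) * 4 ^ (k + 1) * Q : ℝ) : ℂ) -
      (((Lk 2 k : ℝ) * 4 ^ (k + 1) * Q : ℝ) : ℂ)) =
      ((4 ^ k * (kp A * ((Lk 2 (k + 1) : ℝ) - (Lk 2 k : ℝ)) * Q) : ℝ) : ℂ) := by
    rw [← hTk]
    push_cast
    ring
  rw [g4, g5, ← Complex.ofReal_sub, Complex.norm_real, Real.norm_eq_abs, ← mul_sub, abs_mul,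
    abs_of_pos h4k] at g3
  rw [hQ', ← hY]
  have hq0 : (0 : ℝ) ≤ (Nat.card F : ℝ) ^ n := by positivity
  have g6 : (T.card : ℝ) / 2 * (ε * 4 ^ k / 2 * (Nat.card F : ℝ) ^ n) ≤
      4 ^ k * (ε * (Nat.card F : ℝ) ^ n) := by
    have h1 : 0 ≤ ε * (Nat.card F : ℝ) ^ n := mul_nonneg hε.le hq0
    have h2 : 0 ≤ 4 ^ k * (ε * (Nat.card F : ℝ) ^ n) := mul_nonneg h4k.le h1
    calc (T.card : ℝ) / 2 * (ε * 4 ^ k / 2 * (Nat.card F : ℝ) ^ n)
        = (T.card : ℝ) / 4 * (4 ^ k * (ε * (Nat.card F : ℝ) ^ n)) := by ring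
      _ ≤ 1 * (4 ^ k * (ε * (Nat.card F : ℝ) ^ n)) :=
          mul_le_mul_of_nonneg_right (by linarith) h2
      _ = _ := one_mul _
  exact le_of_mul_le_mul_left (g3.trans g6) h4k

end Pool.Agent.H64.RO
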