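import Pool.Agent.H64.RO.Defs

set_option autoImplicit false

/-!
# [H64 RO Non] `AU = 0` for the sets with nonvanishing second difference

Copy of `PM.avu_non` (`H94/PM/AVU.lean`, line 192, with the private lemmas before it) for `X^(k+1)`, `Bk B (k+1)`, `dtk dt (k+1)`, `GKw` in place of `GK`: the shift `η` (`ηV u = (0, Pi.single v (avuD ..))`) has first component
`0`, `∑ η = 0`, `tens ηV = 0`, so `ps (∑ u, (τ u).1 * κ (u.1 0))`, `β (∑ τ) (cpt 0 ε) (cpt 0 (tens τ))` do not change.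
-/

namespace Pool.Agent.H64.RO

open Polynomial
open Pool.Agent.H94.PL
open Pool.Agent.H94.PM
open Pool.Agent.H94.PN
open Pool.Agent.H94.PC (Mo Sq Pr pf om Mn mem_Mo mem_Sq mem_Pr mem_pf mem_pf')

variable {ℓ : ℕ} [hl : Fact ℓ.Prime] {X : Type} [AddCommGroup X] [Module (ZMod ℓ) X] [Fintype X]
  [DecidableEq X] (B : X →ₗ[ZMod ℓ] X →ₗ[ZMod ℓ] ZMod ℓ)
  {F : Type} [Field F] [Finite F] (χ : LChar F ℓ) {Δ : F[X]} (dt : Dat ℓ X (pf Δ))

section aux
variable {V : Type} [Fintype V] [DecidableEq V] (U : Finset V) {M : Type} [AddCommMonoid M]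

private theorem rno_mg {M' : Type} [AddCommMonoid M'] (φ : V → M → M') (hφ : ∀ u, φ u 0 = 0)
    (τ : {u // u ∈ U} → M) :
    ∑ u, φ u (mgU U τ (fun _ => 0) u) = ∑ u : {u // u ∈ U}, φ u.1 (τ u) := by
  rw [add_mgU U (fun u => φ u (mgU U τ (fun _ => 0) u))]
  simp only [mgU_in, mgU_out, hφ, Finset.sum_const_zero, add_zero]

private theorem rno_sum0 (τ : {u // u ∈ U} → M) :
    ∑ u, mgU U τ (fun _ => 0) u = ∑ u, τ u :=
  rno_mg U (fun _ m => m) (fun _ => rfl) τ

private theorem rno_mg_add (τ η : {u // u ∈ U} → M) :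
    mgU U (τ + η) (fun _ => 0) = mgU U τ (fun _ => 0) + mgU U η (fun _ => 0) := by
  funext u
  by_cases h : u ∈ U
  · simp [mgU, h]
  · simp [mgU, h]

private theorem rno_mg_zero : mgU U (0 : {u // u ∈ U} → M) (fun _ => 0) = 0 := by
  funext u
  by_cases h : u ∈ U
  · simp [mgU, h]
  · simp [mgU, h]

end aux

section aux2
variable {S : Type}

private theorem rno_tens_add (τ η : X × X → Tp ℓ S) : tens (τ + η) = tens τ + tens η := by
  refine Prod.ext ?_ ?_
  · simp only [tens, Pi.add_apply, Prod.fst_add, add_smul, Finset.sum_add_distrib]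
  · funext v
    simp only [tens, Pi.add_apply, Prod.snd_add, add_smul, Finset.sum_add_distrib]

private theorem rno_tens_zero : tens (0 : X × X → Tp ℓ S) = 0 := by
  refine Prod.ext ?_ ?_
  · simp [tens]
  · funext v
    simp [tens]

private theorem rno_phs_add [Fintype S] (B : X →ₗ[ZMod ℓ] X →ₗ[ZMod ℓ] ZMod ℓ) (dt : Dat ℓ X S)
    (ε : EE X S) (τ η : X × X → Tp ℓ S) :
    phs B dt ε (τ + η) = phs B dt ε τ + phs B dt ε η := by
  simp only [phs, Pi.add_apply, Prod.fst_add, Prod.snd_add, add_mul, Finset.sum_add_distrib]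
  ring

/-- second difference -/
private def rnoD (u₀ w w' : X × X) (u : X × X) : ZMod ℓ :=
  (if u = u₀ then 1 else 0) - (if u = u₀ + w then 1 else 0) - (if u = u₀ + w' then 1 else 0) +
    (if u = u₀ + w + w' then 1 else 0)

private theorem rno_dd {M : Type} [AddCommGroup M] [Module (ZMod ℓ) M] (u₀ w w' : X × X)
    (f : X × X → M) :
    ∑ u, rnoD (ℓ := ℓ) u₀ w w' u • f u = f u₀ - f (u₀ + w) - f (u₀ + w') + f (u₀ + w + w') := by
  simp only [rnoD, add_smul, sub_smul, Finset.sum_add_distrib, Finset.sum_sub_distrib, ite_smul,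
    one_smul, zero_smul, Finset.sum_ite_eq', Finset.mem_univ, if_true]

end aux2

private theorem rno_sum_inst {α M : Type*} [AddCommMonoid M] (i1 i2 : Fintype α) (f : α → M) :
    (@Finset.univ α i1).sum f = (@Finset.univ α i2).sum f := by
  rw [Subsingleton.elim i1 i2]

private theorem rno_card_inst {α : Type*} (i1 i2 : Fintype α) :
    @Fintype.card α i1 = @Fintype.card α i2 := by
  rw [Subsingleton.elim i1 i2]

open Classical in
/-- one term of `AU` -/
private noncomputable def rnoT (C : CD (X × X) ℓ) (G : (X × X → Tp ℓ (pf Δ)) → ℂ)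
    (U : Finset (X × X)) (t : Tp ℓ (pf Δ)) (τ : {u // u ∈ U} → Tp ℓ (pf Δ)) : ℂ :=
  if ∑ u, τ u = t then
    G (mgU U τ fun _ => 0) * ps (χ.lg (-1) * rS C U fun u => (τ u).1) else 0

private theorem rnoT_pos (C : CD (X × X) ℓ) (G : (X × X → Tp ℓ (pf Δ)) → ℂ)
    (U : Finset (X × X)) {t : Tp ℓ (pf Δ)} {τ : {u // u ∈ U} → Tp ℓ (pf Δ)}
    (h : ∑ u, τ u = t) : rnoT χ C G U t τ =
      G (mgU U τ fun _ => 0) * ps (χ.lg (-1) * rS C U fun u => (τ u).1) := if_pos h

private theorem rnoT_neg (C : CD (X × X) ℓ) (G : (X × X → Tp ℓ (pf Δ)) → ℂ)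
    (U : Finset (X × X)) {t : Tp ℓ (pf Δ)} {τ : {u // u ∈ U} → Tp ℓ (pf Δ)}
    (h : ¬ ∑ u, τ u = t) : rnoT χ C G U t τ = 0 := if_neg h

private theorem rno_aueq [i : Fintype (Tp ℓ (pf Δ))] (C : CD (X × X) ℓ)
    (G : (X × X → Tp ℓ (pf Δ)) → ℂ) (U : Finset (X × X)) (t : Tp ℓ (pf Δ)) :
    AU χ C Δ G U t = (1 / (Fintype.card (Tp ℓ (pf Δ)) : ℂ) ^ (U.card - 1)) *
      ∑ τ : {u // u ∈ U} → Tp ℓ (pf Δ), rnoT χ C G U t τ := by
  unfold AU
  refine congrArg₂ (fun a b : ℂ => a * b) (congrArg (fun n : ℕ => 1 / (n : ℂ) ^ (U.card - 1))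
    (rno_card_inst _ _)) ?_
  refine (Finset.sum_congr rfl fun τ _ => ?_).trans (rno_sum_inst _ _ _)
  by_cases h : ∑ u, τ u = t
  · rw [if_pos h, rnoT_pos χ C G U h]
  · rw [if_neg h, rnoT_neg χ C G U h]

private theorem rno_gen (G : (X × X → Tp ℓ (pf Δ)) → ℂ)
    (hGG : ∀ (τ η : X × X → Tp ℓ (pf Δ)) (c : ZMod ℓ), ∑ u, η u = 0 → tens η = 0 → (∀ u, (η u).1 = 0) →
      (∀ ε, phs B dt ε η = c) → G (τ + η) = ps c * G τ)
    (U : Finset (X × X)) (hU : Non B dt U)
    (t : Tp ℓ (pf Δ)) : AU χ (CDX B) Δ G U t = 0 := by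
  classical
  obtain ⟨v, u₀, w, w', h0, h1, h2, h3, hne⟩ := hU
  obtain ⟨ηV, hηV⟩ : ∃ ηV : X × X → Tp ℓ (pf Δ),
      ηV = fun u => (0, Pi.single v (rnoD u₀ w w' u)) := ⟨_, rfl⟩
  obtain ⟨η, hη⟩ : ∃ η : {u // u ∈ U} → Tp ℓ (pf Δ), η = fun u => ηV u.1 := ⟨_, rfl⟩
  have hd : ∀ u, u ∉ U → rnoD (ℓ := ℓ) u₀ w w' u = 0 := by
    intro u hu
    have e0 : u ≠ u₀ := fun h => hu (h ▸ h0)
    have e1 : u ≠ u₀ + w := fun h => hu (h ▸ h1)
    have e2 : u ≠ u₀ + w' := fun h => hu (h ▸ h2)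
    have e3 : u ≠ u₀ + w + w' := fun h => hu (h ▸ h3)
    simp [rnoD, e0, e1, e2, e3]
  have hmg : mgU U η (fun _ => 0) = ηV := by
    funext u
    by_cases hu : u ∈ U
    · simp [mgU, hu, hη]
    · rw [mgU, dif_neg hu, hηV]
      simp only [hd u hu, Pi.single_zero]
      rfl
  have hsV : ∑ u, ηV u = 0 := by
    rw [hηV]
    refine Prod.ext ?_ ?_
    · simp [Prod.fst_sum]
    · funext v'
      rw [Prod.snd_sum, Finset.sum_apply]
      by_cases hv : v' = v
      · subst hv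
        simp only [Pi.single_eq_same]
        have e := rno_dd (ℓ := ℓ) u₀ w w' (fun _ : X × X => (1 : ZMod ℓ))
        simp only [smul_eq_mul, mul_one] at e
        rw [e]
        simp
      · simp [Pi.single_eq_of_ne hv]
  have hsum : ∑ u, η u = 0 := by
    rw [← rno_sum0 U η, hmg, hsV]
  have htV : tens ηV = 0 := by
    rw [hηV]
    refine Prod.ext ?_ ?_
    · simp [tens]
    · funext v'
      simp only [tens]
      by_cases hv : v' = v
      · subst hv
        simp only [Pi.single_eq_same]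
        rw [rno_dd u₀ w w' (fun u => u.1)]
        simp only [Prod.fst_add, Prod.snd_zero, Pi.zero_apply]
        abel
      · simp [Pi.single_eq_of_ne hv]
  have hpV : ∀ ε, phs B dt ε ηV = B w.2 (dt.L v w'.1) + B w'.2 (dt.L v w.1) := by
    intro ε
    rw [hηV]
    simp only [phs, zero_mul, zero_add]
    have e : ∀ u : X × X, ∑ v', (Pi.single v (rnoD (ℓ := ℓ) u₀ w w' u) : pf Δ → ZMod ℓ) v' *
        B u.2 (ε.2 v' + dt.L v' u.1) =
          rnoD (ℓ := ℓ) u₀ w w' u • B u.2 (ε.2 v + dt.L v u.1) := by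
      intro u
      rw [Finset.sum_eq_single v]
      · rw [Pi.single_eq_same, smul_eq_mul]
      · intro v' _ hv
        rw [Pi.single_eq_of_ne hv, zero_mul]
      · intro h
        exact absurd (Finset.mem_univ _) h
    rw [Finset.sum_congr rfl fun u _ => e u,
      rno_dd u₀ w w' (fun u => B u.2 (ε.2 v + dt.L v u.1))]
    simp only [Prod.fst_add, Prod.snd_add, map_add, LinearMap.add_apply]
    ring
  have hG : ∀ τ' : X × X → Tp ℓ (pf Δ), G (τ' + ηV) =
      ps (B w.2 (dt.L v w'.1) + B w'.2 (dt.L v w.1)) * G τ' := by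
    intro τ'
    exact hGG τ' ηV _ hsV htV (fun u => by rw [hηV]) hpV
  have key : AU χ (CDX B) Δ G U t =
      ps (B w.2 (dt.L v w'.1) + B w'.2 (dt.L v w.1)) * AU χ (CDX B) Δ G U t := by
    rw [rno_aueq]
    have e0 : ∑ τ, rnoT χ (CDX B) G U t τ =
        ps (B w.2 (dt.L v w'.1) + B w'.2 (dt.L v w.1)) *
          ∑ τ, rnoT χ (CDX B) G U t τ := by
      rw [Finset.mul_sum]
      conv_lhs => rw [← Equiv.sum_comp (Equiv.addRight η)]
      refine Finset.sum_congr rfl fun τ _ => ?_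
      have e1 : ∑ u, (Equiv.addRight η τ) u = ∑ u, τ u := by
        simp only [Equiv.coe_addRight, Pi.add_apply, Finset.sum_add_distrib, hsum, add_zero]
      have e2 : mgU U (Equiv.addRight η τ) (fun _ => 0) = mgU U τ (fun _ => 0) + ηV := by
        rw [Equiv.coe_addRight, rno_mg_add, hmg]
      have e3 : (fun u => ((Equiv.addRight η τ) u).1) = fun u => (τ u).1 := by
        funext u
        simp [hη, hηV]
      by_cases h : ∑ u, τ u = t
      · rw [rnoT_pos χ _ _ U h, rnoT_pos χ _ _ U (e1.trans h), e3, e2, hG]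
        ring
      · rw [rnoT_neg χ _ _ U h, rnoT_neg χ _ _ U (fun h' => h (e1.symm.trans h')), mul_zero]
    linear_combination (1 / (Fintype.card (Tp ℓ (pf Δ)) : ℂ) ^ (U.card - 1)) * e0
  have h4 : (1 - ps (B w.2 (dt.L v w'.1) + B w'.2 (dt.L v w.1))) *
      AU χ (CDX B) Δ G U t = 0 := by linear_combination key
  rcases mul_eq_zero.1 h4 with h5 | h5
  · exact absurd (ps_eq_one_iff.1 (sub_eq_zero.1 h5).symm) hne
  · exact h5


open Classical in
theorem auw_non (w : Wg ℓ X (pf Δ)) (k : ℕ) (R : Tp ℓ (pf Δ) → Prop)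
    (U : Finset ((Fin (k + 1) → X) × (Fin (k + 1) → X))) (hU : Non (Bk B (k + 1)) (dtk dt (k + 1)) U)
    (t : Tp ℓ (pf Δ)) : AU χ (CDX (Bk B (k + 1))) Δ (GKw B dt w k R) U t = 0 := by
  refine rno_gen (Bk B (k + 1)) χ (dtk dt (k + 1)) _ ?_ U hU t
  intro τ η c h1 h2 h3 h4
  have e1 : ∑ u, (τ + η) u = ∑ u, τ u := by
    simp only [Pi.add_apply, Finset.sum_add_distrib, h1, add_zero]
  have e2 : tens (τ + η) = tens τ := by rw [rno_tens_add, h2, add_zero]
  have e3 : ∀ ε, phs (Bk B (k + 1)) (dtk dt (k + 1)) ε (τ + η) = c + phs (Bk B (k + 1)) (dtk dt (k + 1)) ε τ := by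
    intro ε
    rw [rno_phs_add, h4, add_comm]
  have e4 : ∀ u, ((τ + η) u).1 = (τ u).1 := by
    intro u
    rw [Pi.add_apply, Prod.fst_add, h3, add_zero]
  unfold GKw
  rw [e1, e2]
  by_cases hR : R (∑ u, τ u)
  · rw [if_pos hR, if_pos hR]
    rw [mul_left_comm]
    congr 1
    · simp only [e4]
    · rw [Finset.mul_sum]
      refine Finset.sum_congr rfl fun ε _ => ?_
      by_cases hε : (ε, tens τ) ∈ (dtk dt (k + 1)).W (∑ u, τ u)
      · rw [if_pos hε, if_pos hε, e3, ps_add]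
        ring
      · rw [if_neg hε, if_neg hε, mul_zero]
  · rw [if_neg hR, if_neg hR, mul_zero]

end Pool.Agent.H64.RO
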