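import Pool.Agent.H64.RO.Defs
import Pool.Agent.H94.PM.TOTM

set_option autoImplicit false

/-!
# [H64 RO Tot] The weighted moments as a sum of weights `WG`

Copy of `PM.totm` (`H94/PM/TOTM.lean`) for `X^(k+1)`, `Bk B (k+1)`, `dtk dt (k+1)`, with one more factor.  Fix `D ∈ Cls Δ n` with `R (ty D)`.
* `km_pow` (compare `PN.km_pow_card`): `z ∈ KM χ (dtk dt (k+1)) D` iff all components `(cpt i z.1, fun Q => z.2 Q i)` are in `KM χ dt D` (`EM` and `xi` are computed in each component), so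
  `∑ z ∈ KM (dtk dt (k+1)) D, wz (cpt 0 z.1, fun Q => z.2 Q 0) = Sw D * (card (KM dt D)) ^ k` (equivalence with `Fin (k+1) → KM dt D`, `Fin.consEquiv` or `Fin.prod_univ_succ`, `Finset.prod_univ_sum`:
  `∏ i, ∑ z, f i z` with `f 0 = wz`, `f i = 1` for `i > 0`).
* Fourier expansion as `totm_fou`: `∑ z ∈ KM (dtk), wz_0 z = ∑ z : pf D → X^(k+1) × X^(k+1), (1/N)^(om D) * ∑ ε, [(ε, xi (z ·).1) ∈ W (ty D)] * β (ty D) (cpt 0 ε) (cpt 0 (xi (z ·).1)) * ps (∑ P, deg P * κ ((z P).1 0)) *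
  ps (∑ P, Bk (z P).2 (EM (ε, (z ·).1) P))`, `N = card X^(k+1)`.
* `τ u = ty χ Δ (part D z u)`: `∑ u, τ u = ty D` (`totm_sum`), `tens τ = xi D (z ·).1` (`totm_tens`), `∑ P, deg P * κ ((z P).1 0) = ∑ u, (τ u).1 * κ (u.1 0)` (`totm_fst`, `totm_grpM`), `totm_exp` for the last exponent.
* `PL.Sm.tupc` as in the proof of `totm`.
-/

namespace Pool.Agent.H64.RO

open Polynomial
open Pool.Agent.H94.PL
open Pool.Agent.H94.PM
open Pool.Agent.H94.PN
open Pool.Agent.H94.PC (Mo Sq Pr pf om Mn mem_Mo mem_Sq mem_Pr mem_pf mem_pf' part)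

variable {ℓ : ℕ} [hl : Fact ℓ.Prime] {X : Type} [AddCommGroup X] [Module (ZMod ℓ) X] [Fintype X]
  [DecidableEq X] (B : X →ₗ[ZMod ℓ] X →ₗ[ZMod ℓ] ZMod ℓ)
  {F : Type} [Field F] [Finite F] (χ : LChar F ℓ) {Δ : F[X]} (dt : Dat ℓ X (pf Δ))

open Classical in
/-- Fourier expansion of a sum over the classes -/
theorem tow_fou (hB : BGood B) (D : F[X]) (h : EE X (pf Δ) × (pf D → X) → ℂ) :
    (∑ z : EE X (pf Δ) × (pf D → X), if z ∈ KM χ dt D then h z else 0) =
      ∑ z : pf D → X × X, (1 / (Fintype.card X : ℂ)) ^ om D *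
      ∑ ε : EE X (pf Δ), if (ε, xi χ Δ D (fun P => (z P).1)) ∈ dt.W (ty χ Δ D) then
        h (ε, fun P => (z P).1) *
          ps (∑ P : pf D, B (z P).2 (EM χ dt D (ε, fun P => (z P).1) P)) else 0 := by
  have hN : (Fintype.card X : ℂ) ≠ 0 := by
    have : Fintype.card X ≠ 0 := Fintype.card_ne_zero
    exact_mod_cast this
  have key : ∀ w : EE X (pf Δ) × (pf D → X), (if w ∈ KM χ dt D then h w else 0) =
      ∑ c : pf D → X, (1 / (Fintype.card X : ℂ)) ^ om D *
        if (w.1, xi χ Δ D w.2) ∈ dt.W (ty χ Δ D) then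
          h w * ps (∑ P : pf D, B (c P) (EM χ dt D w P)) else 0 := by
    intro w
    obtain ⟨e2, e2'⟩ := fou_prod (ι := pf D) (A := X)
      (fun P e => ps (B e (EM χ dt D w P))) (fun P => EM χ dt D w P = 0)
      (Fintype.card X : ℂ) (fun P hP => by rw [ort_X B hB, if_pos hP])
      (fun P hP => by rw [ort_X B hB, if_neg hP])
    by_cases ha : (w.1, xi χ Δ D w.2) ∈ dt.W (ty χ Δ D)
    · simp only [if_pos ha, ps_sum]
      rw [← Finset.mul_sum, ← Finset.mul_sum]
      by_cases hb : ∀ P, EM χ dt D w P = 0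
      · rw [if_pos ((mem_KM χ dt D).2 ⟨ha, hb⟩)]
        have e3 := e2 hb
        rw [Fintype.card_coe] at e3
        refine Eq.trans ?_ (congrArg (fun t => (1 / (Fintype.card X : ℂ)) ^ om D * (h w * t)) e3.symm)
        show h w = (1 / (Fintype.card X : ℂ)) ^ om D * (h w * (Fintype.card X : ℂ) ^ (pf D).card)
        rw [om, mul_left_comm, ← mul_pow, one_div, inv_mul_cancel₀ hN, one_pow, mul_one]
      · rw [if_neg (fun h => hb ((mem_KM χ dt D).1 h).2)]
        have e3 := e2' hb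
        refine Eq.trans ?_ (congrArg (fun t => (1 / (Fintype.card X : ℂ)) ^ om D * (h w * t)) e3.symm)
        show 0 = (1 / (Fintype.card X : ℂ)) ^ om D * (h w * 0)
        rw [mul_zero, mul_zero]
    · rw [if_neg (fun h => ha ((mem_KM χ dt D).1 h).1)]
      simp only [if_neg ha, mul_zero, Finset.sum_const_zero]
  let E : (EE X (pf Δ) × (pf D → X)) × (pf D → X) ≃ (pf D → X × X) × EE X (pf Δ) :=
    { toFun := fun a => (fun P => (a.1.2 P, a.2 P), a.1.1)
      invFun := fun b => ((b.2, fun P => (b.1 P).1), fun P => (b.1 P).2)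
      left_inv := fun a => rfl
      right_inv := fun b => rfl }
  let f : (EE X (pf Δ) × (pf D → X)) × (pf D → X) → ℂ := fun a =>
    (1 / (Fintype.card X : ℂ)) ^ om D *
        if (a.1.1, xi χ Δ D a.1.2) ∈ dt.W (ty χ Δ D) then
          h a.1 * ps (∑ P : pf D, B (a.2 P) (EM χ dt D a.1 P)) else 0
  let g : (pf D → X × X) × EE X (pf Δ) → ℂ := fun b =>
    (1 / (Fintype.card X : ℂ)) ^ om D *
        if (b.2, xi χ Δ D (fun P => (b.1 P).1)) ∈ dt.W (ty χ Δ D) then
          h (b.2, fun P => (b.1 P).1) *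
            ps (∑ P : pf D, B (b.1 P).2 (EM χ dt D (b.2, fun P => (b.1 P).1) P)) else 0
  have h0 : ∀ a, f a = g (E a) := fun a => rfl
  have h2 : ∑ w : EE X (pf Δ) × (pf D → X), ∑ c : pf D → X, f (w, c) = ∑ a, f a :=
    (Fintype.sum_prod_type f).symm
  have h3 : ∑ b, g b = ∑ z : pf D → X × X, ∑ ε : EE X (pf Δ), g (z, ε) :=
    Fintype.sum_prod_type g
  rw [Finset.sum_congr rfl (fun w _ => key w)]
  refine Eq.trans (h2.trans ((Fintype.sum_equiv E f g h0).trans h3)) ?_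
  refine Finset.sum_congr rfl fun z _ => ?_
  rw [Finset.mul_sum]

omit [Fintype X] [DecidableEq X] in
theorem tow_em (k : ℕ) (D : F[X]) (z : EE (Fin k → X) (pf Δ) × (pf D → Fin k → X))
    (P : pf D) (i : Fin k) :
    EM χ (dtk dt k) D z P i = EM χ dt D (cpt i z.1, fun Q => z.2 Q i) P := by
  simp only [EM, dtk, cpt, Pi.add_apply, Finset.sum_apply, Pi.smul_apply, Pi.sub_apply,
    LinearMap.pi_apply, LinearMap.comp_apply, LinearMap.proj_apply]

omit [Fintype X] [DecidableEq X] in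
theorem tow_xi (k : ℕ) (D : F[X]) (x : pf D → Fin k → X) (i : Fin k) :
    cpt i (xi χ Δ D x) = xi χ Δ D (fun Q => x Q i) := by
  refine Prod.ext ?_ ?_
  · simp only [xi, cpt, Finset.sum_apply, Pi.smul_apply]
  · funext v
    simp only [xi, cpt, Finset.sum_apply, Pi.smul_apply]

omit [Fintype X] [DecidableEq X] in
theorem tow_mem (k : ℕ) (D : F[X])
    (z : EE (Fin k → X) (pf Δ) × (pf D → Fin k → X)) :
    z ∈ KM χ (dtk dt k) D ↔ ∀ i, ((cpt i z.1, fun Q => z.2 Q i) :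
      EE X (pf Δ) × (pf D → X)) ∈ KM χ dt D := by
  rw [mem_KM]
  constructor
  · rintro ⟨h1, h2⟩ i
    rw [mem_KM]
    refine ⟨?_, fun P => ?_⟩
    · have h := (mem_dtk_W.1 h1) i
      rw [tow_xi] at h
      exact h
    · rw [← tow_em χ dt k D z P i, h2 P]
      rfl
  · intro h
    refine ⟨mem_dtk_W.2 fun i => ?_, fun P => ?_⟩
    · have h' := ((mem_KM χ dt D).1 (h i)).1
      rw [← tow_xi χ k D z.2 i] at h'
      exact h'
    · funext i
      rw [tow_em]
      exact ((mem_KM χ dt D).1 (h i)).2 P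

open Classical in
theorem tow_pow (w : Wg ℓ X (pf Δ)) (k : ℕ) (D : F[X]) :
    Sw χ dt w D * (Nat.card (KM χ dt D) : ℂ) ^ k =
      ∑ z : EE (Fin (k + 1) → X) (pf Δ) × (pf D → Fin (k + 1) → X),
        if z ∈ KM χ (dtk dt (k + 1)) D then wz χ w D (cpt 0 z.1, fun Q => z.2 Q 0) else 0 := by
  have h1 : (Nat.card (KM χ dt D) : ℂ) =
      ∑ w : EE X (pf Δ) × (pf D → X), if w ∈ KM χ dt D then (1 : ℂ) else 0 := by
    rw [Finset.sum_boole]
    congr 1
    rw [Nat.card_eq_fintype_card]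
    exact Fintype.card_subtype _
  let g : Fin (k + 1) → EE X (pf Δ) × (pf D → X) → ℂ := fun i z =>
    if z ∈ KM χ dt D then (if i = 0 then wz χ w D z else 1) else 0
  let E : (EE (Fin (k + 1) → X) (pf Δ) × (pf D → Fin (k + 1) → X)) ≃
      (Fin (k + 1) → EE X (pf Δ) × (pf D → X)) :=
    { toFun := fun z i => (cpt i z.1, fun Q => z.2 Q i)
      invFun := fun f => ((fun i => (f i).1.1, fun v i => (f i).1.2 v), fun Q i => (f i).2 Q)
      left_inv := fun a => rfl
      right_inv := fun b => rfl }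
  have h2 : Sw χ dt w D * (Nat.card (KM χ dt D) : ℂ) ^ k = ∏ i : Fin (k + 1), ∑ z, g i z := by
    have h21 : ∑ z, g 0 z = Sw χ dt w D := by
      unfold Sw
      refine Finset.sum_congr rfl fun z _ => ?_
      simp only [g, if_true]
    have h22 : ∀ i : Fin k, ∑ z, g i.succ z = (Nat.card (KM χ dt D) : ℂ) := by
      intro i
      rw [h1]
      refine Finset.sum_congr rfl fun z _ => ?_
      simp only [g, Fin.succ_ne_zero, if_false]
    rw [Fin.prod_univ_succ, h21, Finset.prod_congr rfl fun i _ => h22 i, Finset.prod_const,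
      Finset.card_univ, Fintype.card_fin]
  have h3 : ∏ i : Fin (k + 1), ∑ z, g i z = ∑ f : Fin (k + 1) → EE X (pf Δ) × (pf D → X),
      ∏ i, g i (f i) := by
    rw [Finset.prod_univ_sum, Fintype.piFinset_univ]
  rw [h2, h3]
  symm
  refine Fintype.sum_equiv E _ _ fun z => ?_
  have h4 := tow_mem χ dt (k + 1) D z
  by_cases hz : z ∈ KM χ (dtk dt (k + 1)) D
  · rw [if_pos hz, Fin.prod_univ_succ]
    have h5 := h4.1 hz
    have h6 : ∀ i, g i (E z i) = if i = 0 then wz χ w D (E z i) else 1 := fun i => if_pos (h5 i)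
    rw [Finset.prod_congr rfl fun i _ => h6 i.succ, h6 0]
    simp only [Fin.succ_ne_zero, if_false, if_true, Finset.prod_const_one, mul_one]
    rfl
  · rw [if_neg hz]
    have h5 : ¬ ∀ i, E z i ∈ KM χ dt D := fun h => hz (h4.2 h)
    push_neg at h5
    obtain ⟨i, hi⟩ := h5
    symm
    exact Finset.prod_eq_zero (Finset.mem_univ i) (if_neg hi)

open Classical in
theorem tow_one (hB : BGood B) (w : Wg ℓ X (pf Δ)) (k : ℕ) (R : Tp ℓ (pf Δ) → Prop) {n : ℕ} {D : F[X]}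
    (hD : D ∈ Cls Δ n) :
    (if R (ty χ Δ D) then Sw χ dt w D * (Nat.card (KM χ dt D) : ℂ) ^ k else 0) =
      ∑ z : pf D → (Fin (k + 1) → X) × (Fin (k + 1) → X),
        (1 / (Fintype.card (Fin (k + 1) → X) : ℂ)) ^ om D *
        GKw B dt w k R (fun u => ty χ Δ (part D z u)) *
        ∏ u, ∏ v, ps ((CDX (Bk B (k + 1))).Phi u v * lm χ (part D z v) (part D z u)) := by
  by_cases hR : R (ty χ Δ D)
  · rw [if_pos hR, tow_pow χ dt w k D,
      tow_fou (Bk B (k + 1)) χ (dtk dt (k + 1)) (Bk_good hB (k + 1)) D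
        (fun z => wz χ w D (cpt 0 z.1, fun Q => z.2 Q 0))]
    refine Finset.sum_congr rfl fun z _ => ?_
    rw [mul_assoc]
    congr 1
    rw [Finset.prod_congr rfl fun u _ => (ps_sum Finset.univ fun v =>
      (CDX (Bk B (k + 1))).Phi u v * lm χ (part D z v) (part D z u)).symm, ← ps_sum]
    unfold GKw
    rw [totm_sum χ hD z, if_pos hR, totm_tens χ hD z, mul_assoc, Finset.sum_mul, Finset.mul_sum]
    have h7 : ∑ P : pf D, (P.1.natDegree : ZMod ℓ) * w.κ ((z P).1 0) =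
        ∑ u : (Fin (k + 1) → X) × (Fin (k + 1) → X), (ty χ Δ (part D z u)).1 * w.κ (u.1 0) := by
      have h := totm_grpM (ℓ := ℓ) z (fun P => (P.1.natDegree : ZMod ℓ))
        (fun u : (Fin (k + 1) → X) × (Fin (k + 1) → X) => w.κ (u.1 0))
      rw [Finset.sum_congr rfl fun (u : (Fin (k + 1) → X) × (Fin (k + 1) → X)) _ => by
        rw [totm_fst χ z u]]
      exact h.symm
    refine (Finset.sum_congr rfl fun ε _ => ?_).trans (totm_inst _ _ _)
    rw [totm_exp (Bk B (k + 1)) χ (dtk dt (k + 1)) hD z ε]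
    split_ifs with hW
    · rw [ps_add]
      unfold wz
      simp only
      rw [← tow_xi χ (k + 1) D (fun P => (z P).1) 0, h7]
      ring
    · rw [zero_mul, mul_zero]
  · rw [if_neg hR]
    refine (Finset.sum_eq_zero fun z _ => ?_).symm
    unfold GKw
    rw [totm_sum χ hD z, if_neg hR, mul_zero, zero_mul]

open Classical in
theorem totw (hB : BGood B) (w : Wg ℓ X (pf Δ)) (k : ℕ) (R : Tp ℓ (pf Δ) → Prop) (n : ℕ) :
    ∑ D ∈ Cls Δ n, (if R (ty χ Δ D) then Sw χ dt w D * (Nat.card (KM χ dt D) : ℂ) ^ k else 0) =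
      ∑ x : (Fin (k + 1) → X) × (Fin (k + 1) → X) → Mn F n,
        WG χ (CDX (Bk B (k + 1))) Δ (GKw B dt w k R) n x := by
  have h1 : ∀ D ∈ Cls Δ n, (if R (ty χ Δ D) then Sw χ dt w D * (Nat.card (KM χ dt D) : ℂ) ^ k else 0) =
      ∑ z : pf D → (Fin (k + 1) → X) × (Fin (k + 1) → X), (fun (D : F[X])
        (x : (Fin (k + 1) → X) × (Fin (k + 1) → X) → F[X]) =>
        (1 / (Fintype.card (Fin (k + 1) → X) : ℂ)) ^ om D *
        GKw B dt w k R (fun u => ty χ Δ (x u)) *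
        ∏ u, ∏ v, ps ((CDX (Bk B (k + 1))).Phi u v * lm χ (x v) (x u))) D (part D z) := fun D hD =>
    tow_one B χ dt hB w k R hD
  rw [Finset.sum_congr rfl h1]
  have h3 := tupc (κ := (Fin (k + 1) → X) × (Fin (k + 1) → X)) n (Cls Δ n) (fun D hD => by
    obtain ⟨h4, h5, h6, _⟩ := mem_Cls.1 hD
    exact ⟨h4, h6, h5.le⟩)
    (fun (D : F[X]) (x : (Fin (k + 1) → X) × (Fin (k + 1) → X) → F[X]) =>
        (1 / (Fintype.card (Fin (k + 1) → X) : ℂ)) ^ om D *
        GKw B dt w k R (fun u => ty χ Δ (x u)) *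
        ∏ u, ∏ v, ps ((CDX (Bk B (k + 1))).Phi u v * lm χ (x v) (x u)))
  refine Eq.trans ?_ (h3.trans ?_)
  · rfl
  · refine Finset.sum_congr rfl fun x _ => ?_
    unfold WG
    rfl

end Pool.Agent.H64.RO
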