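import Pool.Agent.H64.RO.Auw
import Pool.Agent.H64.RO.Tot
import Pool.Agent.H64.RO.Non
import Pool.Agent.H64.RO.Cnt
import Pool.Agent.H94.PM.AVM

set_option autoImplicit false

/-!
# [H64 RO Mow] The moments with a weight on the first class

Copy of `PN.mom` (`H94/PN/MOM.lean`) with `X^(k+1)`, `GKw` in place of `GK`, `norm_GKw` in place of `norm_GK`, `totw` in place of `totm`.  For `D ∈ Cls Δ n`, `n ≥ 1`, and `U ∈ MaxU`: `¬ R (ty D)`: `0` (`auw_zero`); `Non U`: `0` (`auw_non`);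
otherwise `str` gives `u₀`, `Λ`: if all `u ∈ U` have the same first coordinate then `x.1 0 = 0` on `Λ` (pure vectors, see `Cnt`) and `auw_a`, `tv = 1`; if not, `auw_b` gives `0` (if `x.1 0 = 0` on `Λ` then `w.1 0 = 0` on `TX Λ`,
`mem_TX` and `B` nondegenerate, so the first coordinate is constant on `U`).  So the double sum is `#{U | ..} * #{D ∈ Cls | R}`, `cntw`.
-/

namespace Pool.Agent.H64.RO

open Polynomial
open Pool.Agent.H94.PL
open Pool.Agent.H94.PM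
open Pool.Agent.H94.PN
open Pool.Agent.H94.PC (Mo Sq Pr pf om Mn mem_Mo mem_Sq mem_Pr mem_pf mem_pf')

variable {ℓ : ℕ} [hl : Fact ℓ.Prime] {X : Type} [AddCommGroup X] [Module (ZMod ℓ) X] [Fintype X]
  [DecidableEq X] {B : X →ₗ[ZMod ℓ] X →ₗ[ZMod ℓ] ZMod ℓ}
  {F : Type} [Field F] [Finite F] (χ : LChar F ℓ) {Δ : F[X]}

omit [DecidableEq X] in
private theorem tx_fst (hB : BGood B) {k : ℕ} {Λ : Submodule (ZMod ℓ) (H0 ℓ (k + 1))}
    (h0 : ∀ x ∈ Λ, x.1 0 = 0) {w : (Fin (k + 1) → X) × (Fin (k + 1) → X)} (hw : w ∈ TX B Λ) :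
    w.1 0 = 0 := by
  refine hB.nondeg _ fun y => ?_
  rw [hB.symm]
  exact h0 _ (hw y)

open Classical in
theorem mow (hB : BGood B) [Nontrivial X] (hx : ℓ ≠ 2 → ∃ x : X, B x x ≠ 0) (hΔ : Δ ≠ 0)
    {dt : Dat ℓ X (pf Δ)} (hd : DOK B dt (χ.lg (-1)))
    (hG : Algebra.adjoin (ZMod ℓ) (Set.range dt.L) = (⊤ : Subalgebra (ZMod ℓ) (Module.End (ZMod ℓ) X)))
    (hT : ∀ n, 1 ≤ n → ∀ D ∈ Cls Δ n, TOK B dt (ty χ Δ D)) (R : Tp ℓ (pf Δ) → Prop)
    (w : Wg ℓ X (pf Δ)) (hw1 : ∀ t ε ξ, ‖w.β t ε ξ‖ ≤ 1)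
    (hw2 : ∀ n, 1 ≤ n → ∀ D ∈ Cls Δ n, R (ty χ Δ D) → ∀ σ, tv dt w (ty χ Δ D) σ = 1)
    (hw3 : Crv w.κ ∨ ((∀ x, w.κ x = 0) ∧ ∀ n, 1 ≤ n → ∀ D ∈ Cls Δ n, R (ty χ Δ D) →
      ∑ z : EE X (pf Δ) × EE X (pf Δ),
        (if z ∈ dt.W (ty χ Δ D) then w.β (ty χ Δ D) z.1 z.2 else 0) = 0))
    (k : ℕ) (ε : ℝ) (hε : 0 < ε) :
    ∃ n₀ : ℕ, ∀ n : ℕ, n₀ ≤ n →
      ‖∑ D ∈ Cls Δ n, (if R (ty χ Δ D) then Sw χ dt w D * (Nat.card (KM χ dt D) : ℂ) ^ k else 0) -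
        ((Lk ℓ k : ℝ) * (Fintype.card X : ℝ) ^ (k + 1) *
          (((Cls Δ n).filter fun D => R (ty χ Δ D)).card : ℝ) : ℝ)‖ ≤
        ε * (Nat.card F : ℝ) ^ n := by
  have hBk := Bk_good hB (k + 1)
  have hM : 0 < Fintype.card (EE (Fin (k + 1) → X) (pf Δ)) := Fintype.card_pos_iff.2 ⟨0⟩
  obtain ⟨M, hMd⟩ : ∃ M : ℝ, M = (Fintype.card (EE (Fin (k + 1) → X) (pf Δ)) : ℝ) := ⟨_, rfl⟩
  have hM0 : 0 < M := by rw [hMd]; exact_mod_cast hM
  obtain ⟨n₀, h⟩ := ang χ (CDX (Bk B (k + 1))) (cdx_good' (Bk B (k + 1)) hBk) Δ hΔ (ε / M)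
    (by positivity)
  refine ⟨max n₀ 1, fun n hn => ?_⟩
  have hn0 : n₀ ≤ n := (le_max_left _ _).trans hn
  have hn1 : 1 ≤ n := (le_max_right _ _).trans hn
  have h1 := h n hn0 (fun τ => (M : ℂ)⁻¹ * GKw B dt w k R τ) (by
    intro τ
    rw [norm_mul, norm_inv, Complex.norm_real, Real.norm_of_nonneg hM0.le, inv_mul_le_iff₀ hM0,
      mul_one, hMd]
    exact norm_GKw B dt w hw1 k R τ)
  have e1 : ∑ x : (Fin (k + 1) → X) × (Fin (k + 1) → X) → Mn F n,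
      WG χ (CDX (Bk B (k + 1))) Δ (fun τ => (M : ℂ)⁻¹ * GKw B dt w k R τ) n x =
      (M : ℂ)⁻¹ * ∑ x : (Fin (k + 1) → X) × (Fin (k + 1) → X) → Mn F n,
        WG χ (CDX (Bk B (k + 1))) Δ (GKw B dt w k R) n x := by
    rw [Finset.mul_sum]
    exact Finset.sum_congr rfl fun x _ => wg_smul χ (CDX (Bk B (k + 1))) _ _ n x
  have e2 : ∑ U ∈ MaxU (CDX (Bk B (k + 1))), ∑ D ∈ Cls Δ n,
      AU χ (CDX (Bk B (k + 1))) Δ (fun τ => (M : ℂ)⁻¹ * GKw B dt w k R τ) U (ty χ Δ D) =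
      (M : ℂ)⁻¹ * ∑ U ∈ MaxU (CDX (Bk B (k + 1))), ∑ D ∈ Cls Δ n,
        AU χ (CDX (Bk B (k + 1))) Δ (GKw B dt w k R) U (ty χ Δ D) := by
    rw [Finset.mul_sum]
    refine Finset.sum_congr rfl fun U _ => ?_
    rw [Finset.mul_sum]
    exact Finset.sum_congr rfl fun D _ => au_smul χ (CDX (Bk B (k + 1))) _ _ U _
  rw [e1, e2, ← mul_sub, norm_mul, norm_inv, Complex.norm_real, Real.norm_of_nonneg hM0.le,
    inv_mul_le_iff₀ hM0] at h1
  have h2 : M * (ε / M * (Nat.card F : ℝ) ^ n) = ε * (Nat.card F : ℝ) ^ n := by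
    field_simp
  rw [h2, ← totw B χ dt hB w k R n] at h1
  have h3 : ∑ U ∈ MaxU (CDX (Bk B (k + 1))), ∑ D ∈ Cls Δ n,
      AU χ (CDX (Bk B (k + 1))) Δ (GKw B dt w k R) U (ty χ Δ D) =
      ((Lk ℓ k : ℝ) * (Fintype.card X : ℝ) ^ (k + 1) *
        (((Cls Δ n).filter fun D => R (ty χ Δ D)).card : ℝ) : ℝ) := by
    have h4 : ∀ U ∈ MaxU (CDX (Bk B (k + 1))), ∀ D ∈ Cls Δ n,
        AU χ (CDX (Bk B (k + 1))) Δ (GKw B dt w k R) U (ty χ Δ D) =
          (if ¬ Non (Bk B (k + 1)) (dtk dt (k + 1)) U ∧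
            ∀ u ∈ U, ∀ u' ∈ U, u.1 0 = u'.1 0 then (1 : ℂ) else 0) *
            (if R (ty χ Δ D) then (1 : ℂ) else 0) := by
      intro U hU D hD
      by_cases hR : R (ty χ Δ D)
      · rw [if_pos hR, mul_one]
        by_cases hn : Non (Bk B (k + 1)) (dtk dt (k + 1)) U
        · rw [auw_non B χ dt w k R U hn, if_neg fun h5 => h5.1 hn]
        · obtain ⟨u₀, Λ, hΛ, hU'⟩ := str hB hx dt hd.self hG U hU hn
          by_cases h0 : ∀ x ∈ Λ, x.1 0 = 0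
          · have h7 : ∀ u ∈ U, ∀ u' ∈ U, u.1 0 = u'.1 0 := by
              intro u hu u' hu'
              have h5 := tx_fst hB h0 ((hU' u).1 hu)
              have h6 := tx_fst hB h0 ((hU' u').1 hu')
              rw [Prod.fst_sub, Pi.sub_apply, sub_eq_zero] at h5 h6
              rw [h5, h6]
            rw [auw_a χ hB hd (hT n hn1 D hD) hΛ u₀ U hU' R hR w h0, hw2 n hn1 D hD hR,
              if_pos ⟨hn, h7⟩]
          · rw [auw_b χ hB hd (hT n hn1 D hD) hΛ u₀ U hU' R hR w h0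
              (hw3.imp_right fun h5 => ⟨h5.1, h5.2 n hn1 D hD hR⟩), if_neg]
            rintro ⟨-, h5⟩
            refine h0 fun g hg => ?_
            obtain ⟨x, hx0⟩ := exists_ne (0 : X)
            have h6 := h5 (u₀ + (fun i => g.1 i • x, fun i => g.2 i • x))
              ((hU' _).2 (by
                rw [add_sub_cancel_left]
                exact tx_pure hg x)) u₀ ((hU' _).2 (by
                rw [sub_self]
                exact (TX B Λ).zero_mem))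
            have h7 : g.1 0 • x = 0 := by
              have h8 : u₀.1 0 + g.1 0 • x = u₀.1 0 := h6
              exact add_eq_left.1 h8
            rcases smul_eq_zero.1 h7 with h8 | h8
            · exact h8
            · exact absurd h8 hx0
      · rw [auw_zero B χ dt w k R U _ hR, if_neg hR, mul_zero]
    rw [Finset.sum_congr rfl fun U hU => Finset.sum_congr rfl fun D hD => h4 U hU D hD,
      ← Finset.sum_mul_sum, Finset.sum_boole, Finset.sum_boole,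
      cntw hB hx hd.alt dt hd.self hG]
    push_cast
    rfl
  rw [h3] at h1
  exact h1

end Pool.Agent.H64.RO
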