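import Pool.Agent.H64.RO.Defs
import Pool.Agent.H94.PN.SCD
import Pool.Agent.H94.PN.ALL2

set_option autoImplicit false

/-!
# [H64 RO Nu] The function `nu`: definitions

`m = 3`, `ℓ = 2`, `α = 1`.  `Fam A d`: the differences of the `A k` have the same degree `d ≥ 1` and their product `dl A` is squarefree.
For `δ : Fin 3 → F(t)`: `nu A D δ = 2 * (∑ of deg P over the primes P of D with some v_P(δ k) odd) + 2 * [some deg δ k is odd] +
∑ of deg v over the primes v of dl A with v(δ i) odd`, `i = ed A v` one of the two indices with `v ∣ A i - A k`.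
`nz A D z` is the same for an element `z` of the group `KM` (`z = zM χ A D δ` has `z.2 P = (ex P (δ k))_k`, `z.1.2 v = (ex v (δ k))_k`).
`Wj A j` is the weight with `wz χ (Wj A j) D z = I ^ (j * nz z)` (`wz_Wj` in `Wj.lean`).  `Bd c A D`: the Selmer classes with `nu` not divisible by `4`.
-/

namespace Pool.Agent.H64.RO

open Polynomial
open Pool.Agent.H94.PL
open Pool.Agent.H94.PM
open Pool.Agent.H94.PN
open Pool.Agent.H94.PC (Mo Sq Pr pf om Mn mem_Mo mem_Sq mem_Pr mem_pf mem_pf')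

instance : Fact (Nat.Prime 2) := ⟨Nat.prime_two⟩

noncomputable instance : Fintype (XX 3 2) := Fintype.ofFinite _

noncomputable instance : DecidableEq (XX 3 2) := Classical.decEq _

section
variable {F : Type} [Field F]

/-- the family -/
structure Fam (A : Fin 3 → F[X]) (d : ℕ) : Prop where
  pos : 1 ≤ d
  deg : ∀ i k, i ≠ k → (A i - A k).natDegree = d
  sqf : Squarefree (dl A)

open Classical in
/-- one of the two indices with `v ∣ A i - A k` -/
noncomputable def ed (A : Fin 3 → F[X]) (v : F[X]) : Fin 3 :=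
  if v ∣ A 0 - A 1 ∨ v ∣ A 0 - A 2 then 0 else 1

variable [Finite F]

open Classical in
/-- the function `nu` -/
noncomputable def nu (A : Fin 3 → F[X]) (D : F[X]) (δ : Fin 3 → RatFunc F) : ℕ :=
  2 * ∑ P ∈ pf D, (if ∃ k, ex 2 P (δ k) ≠ 0 then P.natDegree else 0) +
    2 * (if ∃ k, ((δ k).intDegree : ZMod 2) ≠ 0 then 1 else 0) +
    ∑ v ∈ pf (dl A), (if ex 2 v (δ (ed A v)) ≠ 0 then v.natDegree else 0)

/-- the part at the bad places -/
noncomputable def nb (A : Fin 3 → F[X]) (ε ξ : EE (XX 3 2) (pf (dl A))) : ℕ :=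
  2 * (if (loci (ε, ξ)).1 ≠ 0 then 1 else 0) +
    ∑ v : pf (dl A), (if (ε.2 v).1 (ed A v.1) ≠ 0 then v.1.natDegree else 0)

/-- the same function on the group of classes -/
noncomputable def nz (χ : LChar F 2) (A : Fin 3 → F[X]) (D : F[X])
    (z : EE (XX 3 2) (pf (dl A)) × (pf D → XX 3 2)) : ℕ :=
  2 * ∑ P : pf D, (if z.2 P ≠ 0 then P.1.natDegree else 0) + nb A z.1 (xi χ (dl A) D z.2)

/-- the weights -/
noncomputable def Wj (A : Fin 3 → F[X]) (j : ℕ) : Wg 2 (XX 3 2) (pf (dl A)) where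
  β _ ε ξ := Complex.I ^ (j * nb A ε ξ)
  κ x := if x = 0 then 0 else (j : ZMod 2)

/-- the Selmer classes with `nu` not divisible by `4` -/
def Bd [DecidableEq (RatFunc F)] (c : F) (A : Fin 3 → F[X]) (D : F[X]) :
    Set (Fin 3 → (RatFunc F)ˣ ⧸ (powMonoidHom 2 : (RatFunc F)ˣ →* (RatFunc F)ˣ).range) :=
  {x | ∃ δ : Fin 3 → (RatFunc F)ˣ, (∀ k, x k = QuotientGroup.mk (δ k)) ∧
    (IsSln 2 1 c A D fun k => (δ k : RatFunc F)) ∧ ¬ 4 ∣ nu A D fun k => (δ k : RatFunc F)}

open Classical in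
/-- `3` if some prime of `dl A` has odd degree, `2` otherwise: `4 κ` -/
noncomputable def kp (A : Fin 3 → F[X]) : ℝ :=
  if ∃ v ∈ pf (dl A), Odd v.natDegree then 3 else 2

end

end Pool.Agent.H64.RO
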