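import Pool.Agent.H64.RO.Selj
import Pool.Agent.H64.RO.Alk
import Pool.Agent.H40.FS.OU3

set_option autoImplicit false

/-!
# [H64 RO Rep] The classes with `4 ∤ nu` and the lifting classes in a basis

`xv u k = ∏ i, x i k ^ (u i).val`.  `hu`: every Selmer tuple is, up to squares, `tr t * xv u` for a unique pair `(u, t)`.
* `xv_sln`: `xv u` is a Selmer tuple (induction over a finset, `sln_one`, `sln_mul`).  `nu` of `δ`, `δ γ² = tr t * xv u`, is `nu (xv u)` mod `4` (`nu_congr`, `nu_tr`).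
* `bd_rep`: `(u, t) ↦` class of `tr t * xv u` (`cl`, `cl_eq` of `H74/FS/CLF.lean`) is a bijection of `{u | ¬ 4 ∣ nu (xv u)} × Option (Fin 3)` with `Bd` (as `rad_card` in `H40/FS/RAD.lean`, without the lifting).
* `ev_rep`: `Nat.card S4C = 4 kc e` (`rad_kc`), and `Lifts (xv v) ↔ (altm e).mulVec v = 0` (`rad_lifts` and the proof of `rad_kc`).
  (→) `kc e = 2`; a class in `Bd ∩ S4C` with tuple `δ` (a tuple for `Bd` and one for `S4C` differ by squares: `nu_congr`), `δ γ² = tr t * xv u`: `4 ∤ nu (xv u)`, so `u ≠ 0` (`nu_one`, `xv 0 = 1`), `xv u` lifts (see the surjectivity in `rad_card`), so `u` is in the kernel, which has two elements: it is `{0, u}`.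
  (←) `u ≠ 0` as before, `kc e = 2`, and the class of `xv u` is in `Bd` and, as `u` is in the kernel, in `S4C`.
-/

namespace Pool.Agent.H64.RO

open Polynomial WithZero
open Pool.Agent.H74.FS
open Pool.Agent.H40.FS (Oc Ow GF Pt eD fr GLf Lifts S4C rad_kc rad_lifts rad_card)
open Pool.Agent.H94.PL (LChar XX DK AK dl Cls)
open Pool.Agent.H94.PM (LU vl IsVln IsSln)

/-- the coherent event: the image of the 4-Selmer group has `8` elements and contains a class with `4 ∤ nu` -/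
def Qe {F : Type} [Field F] [Finite F] [DecidableEq (RatFunc F)] [DecidableEq (Oc F)]
    [∀ w : Pl F, DecidableEq (Ow F w)] (c : F) (A : Fin 3 → F[X]) (D : F[X]) : Prop :=
  Nat.card (S4C c A D) = 8 ∧ (Bd c A D ∩ S4C c A D).Nonempty

/-- its expected frequency -/
noncomputable def Wt {F : Type} [Field F] [Finite F] [DecidableEq (RatFunc F)] (c : F)
    (A : Fin 3 → F[X]) (r : ℕ) (D : F[X]) : ℝ :=
  H3.FS.alt r 1 * (Nat.card (Bd c A D) : ℝ) / (4 * ((2 : ℝ) ^ r - 1))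

section
variable {F : Type} [Field F] [DecidableEq (RatFunc F)] {c : F} {A : Fin 3 → F[X]} {D : F[X]}

private theorem xv_ne {r : ℕ} {x : Fin r → Fin 3 → RatFunc F} (hx : ∀ i, IsSln 2 1 c A D (x i))
    (v : Fin r → ZMod 2) (k : Fin 3) : ∏ i, x i k ^ (v i).val ≠ 0 :=
  Finset.prod_ne_zero_iff.2 fun i _ => pow_ne_zero _ ((hx i).ne k)

private theorem xv_sln {r : ℕ} {x : Fin r → Fin 3 → RatFunc F} (hx : ∀ i, IsSln 2 1 c A D (x i))
    (v : Fin r → ZMod 2) : IsSln 2 1 c A D (fun k => ∏ i, x i k ^ (v i).val) := by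
  classical
  have key : ∀ s : Finset (Fin r), IsSln 2 1 c A D (fun k => ∏ i ∈ s, x i k ^ (v i).val) := by
    intro s
    induction s using Finset.induction_on with
    | empty =>
      simp only [Finset.prod_empty]
      exact sln_one
    | insert j s hj ih =>
      have h1 : IsSln 2 1 c A D (fun k => x j k ^ (v j).val) := by
        have h2 : ∀ w : ZMod 2, w = 0 ∨ w = 1 := by decide
        rcases h2 (v j) with h3 | h3
        · rw [h3]
          simp only [ZMod.val_zero, pow_zero]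
          exact sln_one
        · rw [h3]
          have h4 : (1 : ZMod 2).val = 1 := rfl
          simp only [h4, pow_one]
          exact hx j
      have h2 := sln_mul h1 ih
      have e1 : (fun k => ∏ i ∈ insert j s, x i k ^ (v i).val) =
          fun k => x j k ^ (v j).val * ∏ i ∈ s, x i k ^ (v i).val :=
        funext fun k => Finset.prod_insert hj
      rw [e1]
      exact h2
  exact key Finset.univ

private theorem bd_mem [Finite F] {δ : Fin 3 → RatFunc F} (h : ∀ k, δ k ≠ 0) (hs : IsSln 2 1 c A D δ)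
    (hn : ¬ 4 ∣ nu A D δ) : cl δ h ∈ Bd c A D :=
  ⟨fun k => Units.mk0 (δ k) (h k), fun _ => rfl, hs, hn⟩

private theorem cl_units (δ : Fin 3 → (RatFunc F)ˣ) (h : ∀ k, (δ k : RatFunc F) ≠ 0)
    {g : Fin 3 → Qc F} (hg : ∀ k, g k = QuotientGroup.mk (δ k)) :
    g = cl (fun k => (δ k : RatFunc F)) h := by
  funext k
  rw [hg k]
  show _ = (QuotientGroup.mk (Units.mk0 ((δ k : (RatFunc F)ˣ) : RatFunc F) _) : Qc F)
  rw [Units.mk0_val]

end

theorem bd_rep {F : Type} [Field F] [DecidableEq (RatFunc F)] [Finite F] {c : F}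
    {A : Fin 3 → F[X]} {D : F[X]} {d : ℕ} (hq : 2 ∣ Nat.card F - 1) (hc : c ≠ 0) (h : Fam A d)
    {n : ℕ} (hD : D ∈ Cls (dl A) n) {r : ℕ} {x : Fin r → Fin 3 → RatFunc F}
    (hx : ∀ i, IsSln 2 1 c A D (x i))
    (hu : ∀ δ : Fin 3 → RatFunc F, IsSln 2 1 c A D δ →
      ∃! p : (Fin r → ZMod 2) × Option (Fin 3), ∃ γ : Fin 3 → RatFunc F, (∀ k, γ k ≠ 0) ∧
        ∀ k, δ k * γ k ^ 2 = tr c A D p.2 k * ∏ i, x i k ^ (p.1 i).val) :
    Nat.card (Bd c A D) = 4 * Nat.card {u : Fin r → ZMod 2 //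
      ¬ 4 ∣ nu A D (fun k => ∏ i, x i k ^ (u i).val)} := by
  classical
  have hA := fam_inj h
  have hD0 : D ≠ 0 := (H94.PL.mem_Cls.1 hD).1.ne_zero
  have hT := tr_ne (c := c) (A := A) (D := D) hc hA hD0
  have hX := xv_ne hx
  have hXs := xv_sln hx
  have hTX : ∀ (v : Fin r → ZMod 2) (t : Option (Fin 3)) (k : Fin 3),
      tr c A D t k * ∏ i, x i k ^ (v i).val ≠ 0 := fun v t k => mul_ne_zero (hT t k) (hX v k)
  have hTXs : ∀ (v : Fin r → ZMod 2) (t : Option (Fin 3)),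
      IsSln 2 1 c A D (fun k => tr c A D t k * ∏ i, x i k ^ (v i).val) := fun v t =>
    sln_mul (sln_tr hc hA hD0 t) (hXs v)
  have hnt : ∀ (v : Fin r → ZMod 2) (t : Option (Fin 3)),
      4 ∣ nu A D (fun k => tr c A D t k * ∏ i, x i k ^ (v i).val) ↔
      4 ∣ nu A D (fun k => ∏ i, x i k ^ (v i).val) := fun v t =>
    (nu_tr hq hc h hD (hXs v) t).dvd_iff dvd_rfl
  let φ : {u : Fin r → ZMod 2 // ¬ 4 ∣ nu A D (fun k => ∏ i, x i k ^ (u i).val)} × Option (Fin 3) →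
      Bd c A D := fun p => ⟨cl _ (hTX p.1.1 p.2), bd_mem _ (hTXs p.1.1 p.2)
        fun h4 => p.1.2 ((hnt p.1.1 p.2).1 h4)⟩
  have hinj : Function.Injective φ := by
    rintro ⟨⟨v, hv⟩, t⟩ ⟨⟨v', hv'⟩, t'⟩ heq
    have h4 : cl _ (hTX v t) = cl _ (hTX v' t') := congrArg Subtype.val heq
    obtain ⟨γ, hγ, hk⟩ := (cl_eq _ _).1 h4
    have h5 := (hu _ (hTXs v t)).unique (y₁ := (v, t)) (y₂ := (v', t'))
      ⟨fun _ => 1, fun _ => one_ne_zero, fun k => by rw [one_pow, mul_one]⟩ ⟨γ, hγ, hk⟩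
    rw [Prod.mk.injEq] at h5
    obtain ⟨rfl, rfl⟩ := h5
    rfl
  have hsurj : Function.Surjective φ := by
    rintro ⟨g, δ, hg, hs, hl⟩
    obtain ⟨⟨v, t⟩, ⟨γ, hγ, hk⟩, -⟩ := hu _ hs
    have hδ : ∀ k, (δ k : RatFunc F) ≠ 0 := fun k => (δ k).ne_zero
    have e1 : (fun k => (δ k : RatFunc F) * γ k ^ 2) =
        fun k => tr c A D t k * ∏ i, x i k ^ (v i).val := funext hk
    have hv : ¬ 4 ∣ nu A D (fun k => ∏ i, x i k ^ (v i).val) := by
      intro h4
      apply hl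
      rw [← nu_congr D hδ hγ, e1]
      exact (hnt v t).2 h4
    refine ⟨(⟨v, hv⟩, t), Subtype.ext ?_⟩
    show cl _ (hTX v t) = g
    rw [cl_units δ hδ hg]
    exact ((cl_eq _ _).2 ⟨γ, hγ, hk⟩).symm
  rw [← Nat.card_congr (Equiv.ofBijective φ ⟨hinj, hsurj⟩), Nat.card_prod, mul_comm,
    Nat.card_eq_fintype_card (α := Option (Fin 3))]
  rfl

variable {F : Type} [Field F] [DecidableEq (RatFunc F)] [DecidableEq (Oc F)]
  [∀ w : Pl F, DecidableEq (Ow F w)] [Finite F] (χ : LChar F 2) {S : Finset (Pl F)} {c : F}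
  {A : Fin 3 → F[X]} {D : F[X]} {d : ℕ}

private theorem alt_row (hq : 2 ∣ Nat.card F - 1) (hc : c ≠ 0) (hA : ∀ i k, i ≠ k → A i ≠ A k)
    (hD : D ≠ 0) (hS : Bad A D S) {r : ℕ} {x : Fin r → Fin 3 → RatFunc F}
    (hx : ∀ i, IsSln 2 1 c A D (x i))
    {a : Fin r → GF F → Pt (eD c A D) (Oc F)} (ha : ∀ i, GLf S c A D (x i) (a i))
    {e : Fin r × Fin r → ZMod 2} (he : ∀ i j, i < j → e (i, j) = fr χ S (a i) (x j))
    (v : Fin r → ZMod 2) : (∀ j, ∑ i, v i * fr χ S (a i) (x j) = 0) ↔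
      (H3.FS.altm e).mulVec v = 0 := by
  have hent : ∀ i j, H3.FS.altm e j i = fr χ S (a i) (x j) := by
    intro i j
    unfold H3.FS.altm
    rcases lt_trichotomy j i with h | h | h
    · rw [if_pos h, he j i h]
      exact H40.FS.fr_symm χ hq hc hA hD hS (hx j) (hx i) (ha j) (ha i)
    · subst h
      rw [if_neg (lt_irrefl _), if_neg (lt_irrefl _)]
      exact (H40.FS.fr_alt χ hq hc hA hD hS (hx j) (ha j)).symm
    · rw [if_neg (lt_asymm h), if_pos h, he i j h]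
  have hrow : ∀ j, (H3.FS.altm e).mulVec v j = ∑ i, v i * fr χ S (a i) (x j) := by
    intro j
    unfold Matrix.mulVec dotProduct
    exact Finset.sum_congr rfl fun i _ => (congrArg (fun z => z * v i) (hent i j)).trans (mul_comm _ _)
  constructor
  · intro h
    funext j
    rw [hrow j, h j]
    rfl
  · intro h j
    rw [← hrow j, h]
    rfl

private theorem xv_zero {r : ℕ} (x : Fin r → Fin 3 → RatFunc F) :
    4 ∣ nu A D (fun k => ∏ i, x i k ^ ((0 : Fin r → ZMod 2) i).val) := by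
  have e1 : (fun k => ∏ i, x i k ^ ((0 : Fin r → ZMod 2) i).val) = fun _ : Fin 3 => (1 : RatFunc F) := by
    funext k
    refine Finset.prod_eq_one fun i _ => ?_
    rw [Pi.zero_apply, ZMod.val_zero, pow_zero]
  rw [e1, nu_one]
  exact dvd_zero _

theorem ev_rep (hq : 2 ∣ Nat.card F - 1) (hc : c ≠ 0) (h : Fam A d) {n : ℕ}
    (hD : D ∈ Cls (dl A) n) (hS : Bad A D S) {r : ℕ} {x : Fin r → Fin 3 → RatFunc F}
    (hx : ∀ i, IsSln 2 1 c A D (x i))
    (hu : ∀ δ : Fin 3 → RatFunc F, IsSln 2 1 c A D δ →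
      ∃! p : (Fin r → ZMod 2) × Option (Fin 3), ∃ γ : Fin 3 → RatFunc F, (∀ k, γ k ≠ 0) ∧
        ∀ k, δ k * γ k ^ 2 = tr c A D p.2 k * ∏ i, x i k ^ (p.1 i).val)
    {a : Fin r → GF F → Pt (eD c A D) (Oc F)} (ha : ∀ i, GLf S c A D (x i) (a i))
    {e : Fin r × Fin r → ZMod 2} (he : ∀ i j, i < j → e (i, j) = fr χ S (a i) (x j)) :
    Qe c A D ↔ ∃ u : Fin r → ZMod 2,
      (¬ 4 ∣ nu A D (fun k => ∏ i, x i k ^ (u i).val)) ∧ Ker e u := by
  classical
  have hA := fam_inj h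
  have hD0 : D ≠ 0 := (H94.PL.mem_Cls.1 hD).1.ne_zero
  have hT := tr_ne (c := c) (A := A) (D := D) hc hA hD0
  have hX := xv_ne hx
  have hXs := xv_sln hx
  have hTX : ∀ (v : Fin r → ZMod 2) (t : Option (Fin 3)) (k : Fin 3),
      tr c A D t k * ∏ i, x i k ^ (v i).val ≠ 0 := fun v t k => mul_ne_zero (hT t k) (hX v k)
  have hTXs : ∀ (v : Fin r → ZMod 2) (t : Option (Fin 3)),
      IsSln 2 1 c A D (fun k => tr c A D t k * ∏ i, x i k ^ (v i).val) := fun v t =>
    sln_mul (sln_tr hc hA hD0 t) (hXs v)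
  have hlift : ∀ v : Fin r → ZMod 2, Lifts c A D (fun k => ∏ i, x i k ^ (v i).val) ↔
      (H3.FS.altm e).mulVec v = 0 := fun v =>
    (rad_lifts χ hq hc hA hD0 hS hx hu ha v).trans (alt_row χ hq hc hA hD0 hS hx ha he v)
  have hcard := rad_kc χ hq hc hA hD0 hS hx hu ha he
  constructor
  · rintro ⟨h8, g, ⟨δ, hg, hs, hn⟩, δ', hg', hs', hl'⟩
    rw [h8] at hcard
    have hδ : ∀ k, (δ k : RatFunc F) ≠ 0 := fun k => (δ k).ne_zero
    have hδ' : ∀ k, (δ' k : RatFunc F) ≠ 0 := fun k => (δ' k).ne_zero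
    have hcl : cl (fun k => (δ k : RatFunc F)) hδ = cl (fun k => (δ' k : RatFunc F)) hδ' := by
      rw [← cl_units δ hδ hg, ← cl_units δ' hδ' hg']
    obtain ⟨γ, hγ, hk⟩ := (cl_eq _ _).1 hcl
    obtain ⟨⟨u, t⟩, ⟨γ', hγ', hk'⟩, -⟩ := hu _ hs'
    have e0 : (fun k => (δ k : RatFunc F) * γ k ^ 2) = fun k => (δ' k : RatFunc F) := funext hk
    have e1 : (fun k => (δ' k : RatFunc F) * γ' k ^ 2) =
        fun k => tr c A D t k * ∏ i, x i k ^ (u i).val := funext hk'
    have hnu : ¬ 4 ∣ nu A D (fun k => ∏ i, x i k ^ (u i).val) := by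
      intro h4
      apply hn
      rw [← nu_congr D hδ hγ, e0, ← nu_congr D hδ' hγ', e1]
      exact ((nu_tr hq hc h hD (hXs u) t).dvd_iff dvd_rfl).2 h4
    have h1 : Lifts c A D (fun k => tr c A D t k * ∏ i, x i k ^ (u i).val) := by
      rw [← e1]
      exact H40.FS.lifts_sq hq hδ' hγ' hl'
    have h2 := H40.FS.lifts_mul hq hc hA hD0 (hT t) (tr_prod t) (hTX u t)
      (sln_iff.1 (hTXs u t)).2.1 (H40.FS.tr_lifts hq hc hA hD0 t) h1
    have h3 := H40.FS.lifts_sq (z := fun k => (tr c A D t k)⁻¹) hq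
      (fun k => mul_ne_zero (hT t k) (hTX u t k)) (fun k => inv_ne_zero (hT t k)) h2
    have e2 : (fun k => tr c A D t k * (tr c A D t k * ∏ i, x i k ^ (u i).val) *
        (tr c A D t k)⁻¹ ^ 2) = fun k => ∏ i, x i k ^ (u i).val := by
      funext k
      have := hT t k
      field_simp
    rw [e2] at h3
    have hu0 : (H3.FS.altm e).mulVec u = 0 := (hlift u).1 h3
    have hne : u ≠ 0 := by
      rintro rfl
      exact hnu (xv_zero x)
    refine ⟨u, hnu, fun v => ⟨fun hv => ?_, ?_⟩⟩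
    · have h2c : Nat.card {x : Fin r → ZMod 2 // (H3.FS.altm e).mulVec x = 0} = 2 := by
        have h5 : H3.FS.kc e = 2 := by omega
        exact h5
      rw [Nat.card_eq_two_iff' (⟨0, Matrix.mulVec_zero _⟩ :
        {x : Fin r → ZMod 2 // (H3.FS.altm e).mulVec x = 0})] at h2c
      obtain ⟨y, hy, hyu⟩ := h2c
      by_cases hv0 : v = 0
      · exact Or.inl hv0
      · right
        have a1 := hyu ⟨v, hv⟩ (fun h6 => hv0 (congrArg Subtype.val h6))
        have a2 := hyu ⟨u, hu0⟩ (fun h6 => hne (congrArg Subtype.val h6))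
        exact congrArg Subtype.val (a1.trans a2.symm)
    · rintro (rfl | rfl)
      · exact Matrix.mulVec_zero _
      · exact hu0
  · rintro ⟨u, hnu, hK⟩
    have hne : u ≠ 0 := by
      rintro rfl
      exact hnu (xv_zero x)
    have hu0 : (H3.FS.altm e).mulVec u = 0 := (hK u).2 (Or.inr rfl)
    have hkc : H3.FS.kc e = 2 := by
      show Nat.card {x : Fin r → ZMod 2 // (H3.FS.altm e).mulVec x = 0} = 2
      rw [Nat.card_eq_two_iff' (⟨0, Matrix.mulVec_zero _⟩ :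
        {x : Fin r → ZMod 2 // (H3.FS.altm e).mulVec x = 0})]
      refine ⟨⟨u, hu0⟩, fun h6 => hne (congrArg Subtype.val h6), ?_⟩
      rintro ⟨y, hy⟩ hy0
      apply Subtype.ext
      rcases (hK y).1 hy with h7 | h7
      · exact absurd (Subtype.ext h7) hy0
      · exact h7
    refine ⟨by rw [hcard, hkc], cl _ (hX u), bd_mem _ (hXs u) hnu, ?_⟩
    exact ⟨fun k => Units.mk0 _ (hX u k), fun _ => rfl, hXs u, (hlift u).2 hu0⟩

end Pool.Agent.H64.RO
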